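import Pool.Agent.Lib.P913T.Model

/-!
# Black boxes for the blank half-line

`Rct T v q q' v'`: the head enters the half-line with touched cells `v` (nearest first) in the state `q`, works
there and leaves it in the state `q'`, then the touched cells are `v'`.  `RctH T v q`: it halts there.
-/

set_option autoImplicit false

namespace P913T

/-- the head enters the right half-line `v` in the state `q` and leaves it in the state `q'`, with cells `v'` -/
inductive Rct (T : Tb) : List (Fin 3) → Fin 2 → Fin 2 → List (Fin 3) → Prop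
  | left {v : List (Fin 3)} {q : Fin 2} {w : Fin 3} {p : Fin 2} (h : T q (v.headD 0) = some (w, false, p)) :
      Rct T v q p (w :: v.tail)
  | right {v : List (Fin 3)} {q : Fin 2} {w : Fin 3} {p p' : Fin 2} {v' : List (Fin 3)} {q'' : Fin 2}
      {v'' : List (Fin 3)} (h : T q (v.headD 0) = some (w, true, p)) (h1 : Rct T v.tail p p' v')
      (h2 : Rct T (w :: v') p' q'' v'') : Rct T v q q'' v''

/-- the head enters the right half-line `v` in the state `q` and halts there -/
inductive RctH (T : Tb) : List (Fin 3) → Fin 2 → Prop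
  | here {v : List (Fin 3)} {q : Fin 2} (h : T q (v.headD 0) = none) : RctH T v q
  | inner {v : List (Fin 3)} {q : Fin 2} {w : Fin 3} {p : Fin 2} (h : T q (v.headD 0) = some (w, true, p))
      (h1 : RctH T v.tail p) : RctH T v q
  | outer {v : List (Fin 3)} {q : Fin 2} {w : Fin 3} {p p' : Fin 2} {v' : List (Fin 3)}
      (h : T q (v.headD 0) = some (w, true, p)) (h1 : Rct T v.tail p p' v') (h2 : RctH T (w :: v') p') :
      RctH T v q

theorem itn_one (T : Tb) (c : Cf) : itn T 1 c = stp T c := by
  show (stp T c).bind (itn T 0) = stp T c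
  cases stp T c <;> rfl

theorem itn_trans {T : Tb} {a b : ℕ} {c c1 c2 : Cf} (h : itn T a c = some c1) (h' : itn T b c1 = some c2) :
    itn T (a + b) c = some c2 := by
  rw [itn_add, h]
  exact h'

theorem stp_right {T : Tb} {c : Cf} {w : Fin 3} {p : Fin 2} (h : T c.q c.s = some (w, true, p)) :
    stp T c = some (c.right w p) := by
  unfold stp
  rw [h]

theorem stp_left {T : Tb} {c : Cf} {w : Fin 3} {p : Fin 2} (h : T c.q c.s = some (w, false, p)) :
    stp T c = some (c.left w p) := by
  unfold stp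
  rw [h]

theorem stp_none {T : Tb} {c : Cf} (h : T c.q c.s = none) : stp T c = none := by
  unfold stp
  rw [h]

theorem enter_right {T : Tb} {v : List (Fin 3)} {q : Fin 2} {w : Fin 3} {p : Fin 2}
    (h : T q (v.headD 0) = some (w, true, p)) (u : List (Fin 3)) :
    itn T 1 ⟨u, q, v.headD 0, v.tail⟩ = some ⟨w :: u, p, v.tail.headD 0, v.tail.tail⟩ := by
  rw [itn_one]
  exact stp_right (c := ⟨u, q, v.headD 0, v.tail⟩) h

theorem enter_left {T : Tb} {v : List (Fin 3)} {q : Fin 2} {w : Fin 3} {p : Fin 2}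
    (h : T q (v.headD 0) = some (w, false, p)) (w0 : Fin 3) (u : List (Fin 3)) :
    itn T 1 ⟨w0 :: u, q, v.headD 0, v.tail⟩ = some ⟨u, p, w0, w :: v.tail⟩ := by
  rw [itn_one]
  exact stp_left (c := ⟨w0 :: u, q, v.headD 0, v.tail⟩) h

theorem enter_none {T : Tb} {v : List (Fin 3)} {q : Fin 2} (h : T q (v.headD 0) = none) (u : List (Fin 3)) :
    itn T 1 ⟨u, q, v.headD 0, v.tail⟩ = none := by
  rw [itn_one]
  exact stp_none (c := ⟨u, q, v.headD 0, v.tail⟩) h

/-- the run of the machine which belongs to `Rct` -/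
theorem Rct.run {T : Tb} {v v' : List (Fin 3)} {q q' : Fin 2} (h : Rct T v q q' v') :
    ∀ (w : Fin 3) (u : List (Fin 3)), ∃ n, 0 < n ∧
      itn T n ⟨w :: u, q, v.headD 0, v.tail⟩ = some ⟨u, q', w, v'⟩ := by
  induction h with
  | left h =>
    intro w u
    exact ⟨1, one_pos, enter_left h w u⟩
  | right h h1 h2 ih1 ih2 =>
    intro w u
    obtain ⟨n1, -, e1⟩ := ih1 _ (w :: u)
    obtain ⟨n2, -, e2⟩ := ih2 w u
    exact ⟨1 + (n1 + n2), by omega, itn_trans (enter_right h (w :: u)) (itn_trans e1 e2)⟩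

theorem Hlt.of_itn {T : Tb} {n : ℕ} {c c' : Cf} (h : itn T n c = some c') (h' : Hlt T c') : Hlt T c := by
  obtain ⟨m, hm⟩ := h'
  exact ⟨n + m, by rw [itn_add, h]; exact hm⟩

/-- the run of the machine which belongs to `RctH` -/
theorem RctH.run {T : Tb} {v : List (Fin 3)} {q : Fin 2} (h : RctH T v q) :
    ∀ (w : Fin 3) (u : List (Fin 3)), Hlt T ⟨w :: u, q, v.headD 0, v.tail⟩ := by
  induction h with
  | here h =>
    intro w u
    exact ⟨1, enter_none h (w :: u)⟩
  | inner h h1 ih =>
    intro w u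
    exact Hlt.of_itn (enter_right h (w :: u)) (ih _ (w :: u))
  | outer h h1 h2 ih =>
    intro w u
    obtain ⟨n1, -, e1⟩ := h1.run _ (w :: u)
    exact Hlt.of_itn (itn_trans (enter_right h (w :: u)) e1) (ih w u)

/-- a halting run halts in the half-line or leaves it -/
theorem Rct.split {T : Tb} : ∀ (n : ℕ) (v : List (Fin 3)) (q : Fin 2) (w : Fin 3) (u : List (Fin 3)),
    itn T n ⟨w :: u, q, v.headD 0, v.tail⟩ = none →
      RctH T v q ∨ ∃ (q' : Fin 2) (v' : List (Fin 3)) (m : ℕ), Rct T v q q' v' ∧ 0 < m ∧ m ≤ n ∧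
        itn T m ⟨w :: u, q, v.headD 0, v.tail⟩ = some ⟨u, q', w, v'⟩ ∧ itn T (n - m) ⟨u, q', w, v'⟩ = none := by
  intro n
  induction n using Nat.strong_induction_on with
  | _ n ih =>
  intro v q w u h
  have hn : n ≠ 0 := by
    rintro rfl
    simp [itn] at h
  obtain ⟨n, rfl⟩ := Nat.exists_eq_succ_of_ne_zero hn
  rcases hT : T q (v.headD 0) with _ | ⟨w', d, p⟩
  · exact Or.inl (.here hT)
  cases d with
  | false =>
    have h1 := enter_left hT w u
    refine Or.inr ⟨p, w' :: v.tail, 1, .left hT, one_pos, by omega, h1, ?_⟩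
    rw [Nat.succ_eq_add_one, Nat.add_comm, itn_add, h1] at h
    exact h
  | true =>
    have h1 := enter_right hT (w :: u)
    have h2 : itn T n ⟨w' :: w :: u, p, v.tail.headD 0, v.tail.tail⟩ = none := by
      rw [Nat.succ_eq_add_one, Nat.add_comm, itn_add, h1] at h
      exact h
    rcases ih n (by omega) _ _ _ _ h2 with h3 | ⟨p', v', m, h3, hm, hmn, h4, h5⟩
    · exact Or.inl (.inner hT h3)
    rcases ih (n - m) (by omega) (w' :: v') p' w u h5 with h6 | ⟨q'', v'', m', h6, hm', hmn', h7, h8⟩
    · exact Or.inl (.outer hT h3 h6)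
    · refine Or.inr ⟨q'', v'', 1 + (m + m'), .right hT h3 h6, by omega, by omega, ?_, ?_⟩
      · exact itn_trans h1 (itn_trans h4 h7)
      · rw [show n + 1 - (1 + (m + m')) = n - m - m' by omega]
        exact h8

/-- uniqueness of the result -/
theorem Rct.unique {T : Tb} {v v1 v2 : List (Fin 3)} {q q1 q2 : Fin 2} (h1 : Rct T v q q1 v1)
    (h2 : Rct T v q q2 v2) : q1 = q2 ∧ v1 = v2 := by
  induction h1 generalizing q2 v2 with
  | left h =>
    cases h2 with
    | left h' =>
      rw [h] at h'
      simp only [Option.some.injEq, Prod.mk.injEq, true_and] at h'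
      obtain ⟨rfl, rfl⟩ := h'
      exact ⟨rfl, rfl⟩
    | right h' _ _ => rw [h] at h'; simp at h'
  | right h h1 h2' ih1 ih2 =>
    cases h2 with
    | left h' => rw [h] at h'; simp at h'
    | right h' k1 k2 =>
      rw [h] at h'
      simp only [Option.some.injEq, Prod.mk.injEq, true_and] at h'
      obtain ⟨rfl, rfl⟩ := h'
      obtain ⟨rfl, rfl⟩ := ih1 k1
      exact ih2 k2

/-- the empty word and the word with one blank are equivalent -/
theorem Rct.nil_iff {T : Tb} {v' : List (Fin 3)} {q q' : Fin 2} : Rct T [] q q' v' ↔ Rct T [0] q q' v' := by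
  constructor
  · intro h
    cases h with
    | left h => exact .left h
    | right h h1 h2 => exact .right h h1 h2
  · intro h
    cases h with
    | left h => exact .left h
    | right h h1 h2 => exact .right h h1 h2

theorem RctH.nil_iff {T : Tb} {q : Fin 2} : RctH T [] q ↔ RctH T [0] q := by
  constructor
  · intro h
    cases h with
    | here h => exact .here h
    | inner h h1 => exact .inner h h1
    | outer h h1 h2 => exact .outer h h1 h2
  · intro h
    cases h with
    | here h => exact .here h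
    | inner h h1 => exact .inner h h1
    | outer h h1 h2 => exact .outer h h1 h2

/-- the answer of a black box with `K` states -/
inductive Rx (K : ℕ) : Type
  | exit (q : Fin 2) (k : Fin K) : Rx K
  | halt : Rx K
  | never : Rx K
  deriving DecidableEq

/-- `q` is a state in which the head can enter a cell from the left -/
def Inp (T : Tb) (q : Fin 2) : Prop := ∃ p s w, T p s = some (w, true, q)

instance (T : Tb) (q : Fin 2) : Decidable (Inp T q) :=
  inferInstanceAs (Decidable (∃ p s w, T p s = some (w, true, q)))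

/-- a black box for the blank right half-line: `react k q` is what happens if the head enters the half-line in the
state `q` while the box is in the state `k` -/
structure BB (T : Tb) where
  K : ℕ
  k0 : Fin K
  react : Fin K → Fin 2 → Rx K
  Rep : Fin K → List (Fin 3) → Prop
  rep0 : Rep k0 []
  exit : ∀ {k : Fin K} {v : List (Fin 3)} {q q' : Fin 2} {k' : Fin K}, Rep k v → Inp T q →
    react k q = .exit q' k' → ∃ v', Rep k' v' ∧ Rct T v q q' v'
  halt : ∀ {k : Fin K} {v : List (Fin 3)} {q : Fin 2}, Rep k v → Inp T q → react k q = .halt → RctH T v q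
  never : ∀ {k : Fin K} {v : List (Fin 3)} {q : Fin 2}, Rep k v → Inp T q → react k q = .never →
    ¬ RctH T v q ∧ ∀ q' v', ¬ Rct T v q q' v'

theorem BB.exit_run {T : Tb} (B : BB T) {k : Fin B.K} {v : List (Fin 3)} {q q' : Fin 2} {k' : Fin B.K}
    (h : B.Rep k v) (hq : Inp T q) (hr : B.react k q = .exit q' k') :
    ∃ v', B.Rep k' v' ∧ ∀ (w : Fin 3) (u : List (Fin 3)), ∃ n, 0 < n ∧
      itn T n ⟨w :: u, q, v.headD 0, v.tail⟩ = some ⟨u, q', w, v'⟩ := by
  obtain ⟨v', h1, h2⟩ := B.exit h hq hr
  exact ⟨v', h1, h2.run⟩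

theorem BB.halt_run {T : Tb} (B : BB T) {k : Fin B.K} {v : List (Fin 3)} {q : Fin 2}
    (h : B.Rep k v) (hq : Inp T q) (hr : B.react k q = .halt) (w : Fin 3) (u : List (Fin 3)) :
    Hlt T ⟨w :: u, q, v.headD 0, v.tail⟩ :=
  (B.halt h hq hr).run w u

theorem BB.never_run {T : Tb} (B : BB T) {k : Fin B.K} {v : List (Fin 3)} {q : Fin 2}
    (h : B.Rep k v) (hq : Inp T q) (hr : B.react k q = .never) (w : Fin 3) (u : List (Fin 3)) :
    ¬ Hlt T ⟨w :: u, q, v.headD 0, v.tail⟩ := by
  rintro ⟨n, hn⟩
  obtain ⟨h1, h2⟩ := B.never h hq hr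
  rcases Rct.split n v q w u hn with h3 | ⟨q', v', m, h3, -⟩
  · exact h1 h3
  · exact h2 _ _ h3

end P913T
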