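import Pool.Agent.Lib.P913T.Sym
import Pool.Agent.Lib.P913T.Box

/-!
# Abstract machines: explicit cells, each end open or closed by a black box
-/

set_option autoImplicit false

namespace P913T

/-- the finite data of the ends; `none` = open end -/
structure Ends where
  KL : ℕ
  KR : ℕ
  rL : Option (Fin KL → Fin 2 → Rx KL)
  rR : Option (Fin KR → Fin 2 → Rx KR)

/-- abstract configurations -/
abbrev Ac (E : Ends) := List (Fin 3) × Fin 2 × Fin 3 × List (Fin 3) × Fin E.KL × Fin E.KR

/-- what a step does: push on the left (if any), pop on the left, push on the right, pop on the right, new state, new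
scanned letter, new states of the boxes -/
abbrev Op (E : Ends) := (Option (Fin 3) × Bool) × (Option (Fin 3) × Bool) × Fin 2 × Fin 3 × Fin E.KL × Fin E.KR

/-- the finite control; the arguments: state, scanned letter, neighbours, boxes; `inr true` = halt, `inr false` =
never -/
def ctl (T : Tb) (E : Ends) (x : (Fin 2 × Fin 3) × (Option (Fin 3) × Option (Fin 3)) × Fin E.KL × Fin E.KR) :
    Op E ⊕ Bool :=
  match T x.1.1 x.1.2 with
  | none => Sum.inr true
  | some (w, true, q') =>
    match x.2.1.2 with
    | some y => Sum.inl ((some w, false), (none, true), q', y, x.2.2.1, x.2.2.2)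
    | none =>
      match E.rR with
      | none => Sum.inl ((some w, false), (none, true), q', 0, x.2.2.1, x.2.2.2)
      | some r =>
        match r x.2.2.2 q' with
        | Rx.exit q'' k' => Sum.inl ((none, false), (none, false), q'', w, x.2.2.1, k')
        | Rx.halt => Sum.inr true
        | Rx.never => Sum.inr false
  | some (w, false, q') =>
    match x.2.1.1 with
    | some y => Sum.inl ((none, true), (some w, false), q', y, x.2.2.1, x.2.2.2)
    | none =>
      match E.rL with
      | none => Sum.inl ((none, true), (some w, false), q', 0, x.2.2.1, x.2.2.2)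
      | some r =>
        match r x.2.2.1 q' with
        | Rx.exit q'' k' => Sum.inl ((none, false), (none, false), q'', w, k', x.2.2.2)
        | Rx.halt => Sum.inr true
        | Rx.never => Sum.inr false

/-- effect on a list -/
def lop (o : Option (Fin 3) × Bool) (l : List (Fin 3)) : List (Fin 3) :=
  o.1.toList ++ bif o.2 then l.tail else l

/-- one abstract step -/
def ast (T : Tb) (E : Ends) (c : Ac E) : Ac E ⊕ Bool :=
  Sum.map (fun o : Op E => (lop o.1 c.1, o.2.2.1, o.2.2.2.1, lop o.2.1 c.2.2.2.1, o.2.2.2.2.1, o.2.2.2.2.2)) id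
    (ctl T E ((c.2.1, c.2.2.1), (c.1.head?, c.2.2.2.1.head?), c.2.2.2.2.1, c.2.2.2.2.2))

/-- continue a run -/
def acont (T : Tb) (E : Ends) (r : Ac E ⊕ Bool) : Ac E ⊕ Bool :=
  match r with
  | Sum.inl c => ast T E c
  | Sum.inr b => Sum.inr b

/-- `n` abstract steps -/
def ait (T : Tb) (E : Ends) (c : Ac E) : ℕ → Ac E ⊕ Bool
  | 0 => Sum.inl c
  | n + 1 => acont T E (ait T E c n)

section

variable {T : Tb} {E : Ends}

theorem ast_none {u v : List (Fin 3)} {q : Fin 2} {s : Fin 3} {kL : Fin E.KL} {kR : Fin E.KR} (h : T q s = none) :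
    ast T E (u, q, s, v, kL, kR) = Sum.inr true := by
  simp [ast, ctl, h]

theorem ast_right {u v : List (Fin 3)} {q q' : Fin 2} {s w x : Fin 3} {kL : Fin E.KL} {kR : Fin E.KR}
    (h : T q s = some (w, true, q')) :
    ast T E (u, q, s, x :: v, kL, kR) = Sum.inl (w :: u, q', x, v, kL, kR) := by
  simp [ast, ctl, h, lop]

theorem ast_right_open {u : List (Fin 3)} {q q' : Fin 2} {s w : Fin 3} {kL : Fin E.KL} {kR : Fin E.KR}
    (h : T q s = some (w, true, q')) (he : E.rR = none) :
    ast T E (u, q, s, [], kL, kR) = Sum.inl (w :: u, q', 0, [], kL, kR) := by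
  simp [ast, ctl, h, lop, he]

theorem ast_right_closed {u : List (Fin 3)} {q q' : Fin 2} {s w : Fin 3} {kL : Fin E.KL} {kR : Fin E.KR}
    {r : Fin E.KR → Fin 2 → Rx E.KR} (h : T q s = some (w, true, q')) (he : E.rR = some r) :
    ast T E (u, q, s, [], kL, kR) = match r kR q' with
      | Rx.exit q'' k' => Sum.inl (u, q'', w, [], kL, k')
      | Rx.halt => Sum.inr true
      | Rx.never => Sum.inr false := by
  simp only [ast, ctl, h, List.head?_nil, he]
  cases r kR q' <;> simp [lop]

theorem ast_left {u v : List (Fin 3)} {q q' : Fin 2} {s w x : Fin 3} {kL : Fin E.KL} {kR : Fin E.KR}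
    (h : T q s = some (w, false, q')) :
    ast T E (x :: u, q, s, v, kL, kR) = Sum.inl (u, q', x, w :: v, kL, kR) := by
  simp [ast, ctl, h, lop]

theorem ast_left_open {v : List (Fin 3)} {q q' : Fin 2} {s w : Fin 3} {kL : Fin E.KL} {kR : Fin E.KR}
    (h : T q s = some (w, false, q')) (he : E.rL = none) :
    ast T E ([], q, s, v, kL, kR) = Sum.inl ([], q', 0, w :: v, kL, kR) := by
  simp [ast, ctl, h, lop, he]

theorem ast_left_closed {v : List (Fin 3)} {q q' : Fin 2} {s w : Fin 3} {kL : Fin E.KL} {kR : Fin E.KR}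
    {r : Fin E.KL → Fin 2 → Rx E.KL} (h : T q s = some (w, false, q')) (he : E.rL = some r) :
    ast T E ([], q, s, v, kL, kR) = match r kL q' with
      | Rx.exit q'' k' => Sum.inl ([], q'', w, v, k', kR)
      | Rx.halt => Sum.inr true
      | Rx.never => Sum.inr false := by
  simp only [ast, ctl, h, List.head?_nil, he]
  cases r kL q' <;> simp [lop]

end

/-! ## Computability -/

theorem primrec_lop : Primrec₂ lop := by
  have h0 : Primrec fun o : Option (Fin 3) => Option.casesOn (motive := fun _ => List (Fin 3)) o [] fun x => [x] :=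
    Primrec.option_casesOn Primrec.id (Primrec.const [])
      (Primrec.list_cons.comp Primrec.snd (Primrec.const [])).to₂
  have h0' : Primrec fun o : Option (Fin 3) => o.toList := h0.of_eq fun o => by cases o <;> rfl
  have h1 : Primrec fun p : (Option (Fin 3) × Bool) × List (Fin 3) => p.1.1.toList ++ bif p.1.2 then p.2.tail else p.2 :=
    Primrec.list_append.comp
      (h0'.comp (Primrec.fst.comp Primrec.fst))
      (Primrec.cond (Primrec.snd.comp Primrec.fst) (Primrec.list_tail.comp Primrec.snd) Primrec.snd)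
  exact h1

theorem primrec_ast (T : Tb) (E : Ends) : Primrec (ast T E) := by
  have hctl : Primrec (ctl T E) := Primrec.dom_finite _
  have h1 : Primrec fun c : Ac E =>
      ctl T E ((c.2.1, c.2.2.1), (c.1.head?, c.2.2.2.1.head?), c.2.2.2.2.1, c.2.2.2.2.2) :=
    hctl.comp (Primrec.pair (Primrec.pair (Primrec.fst.comp Primrec.snd)
      (Primrec.fst.comp (Primrec.snd.comp Primrec.snd)))
      (Primrec.pair (Primrec.pair (Primrec.list_head?.comp Primrec.fst)
        (Primrec.list_head?.comp (Primrec.fst.comp (Primrec.snd.comp (Primrec.snd.comp Primrec.snd)))))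
        (Primrec.snd.comp (Primrec.snd.comp (Primrec.snd.comp Primrec.snd)))))
  have h2 : Primrec fun p : Ac E × Op E => (lop p.2.1 p.1.1, p.2.2.2.1, p.2.2.2.2.1, lop p.2.2.1 p.1.2.2.2.1,
      p.2.2.2.2.2.1, p.2.2.2.2.2.2) := by
    refine Primrec.pair (primrec_lop.comp (Primrec.fst.comp Primrec.snd) (Primrec.fst.comp Primrec.fst)) ?_
    refine Primrec.pair (Primrec.fst.comp (Primrec.snd.comp (Primrec.snd.comp Primrec.snd))) ?_
    refine Primrec.pair (Primrec.fst.comp (Primrec.snd.comp (Primrec.snd.comp (Primrec.snd.comp Primrec.snd)))) ?_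
    refine Primrec.pair (primrec_lop.comp (Primrec.fst.comp (Primrec.snd.comp Primrec.snd))
      (Primrec.fst.comp (Primrec.snd.comp (Primrec.snd.comp (Primrec.snd.comp Primrec.fst))))) ?_
    exact Primrec.snd.comp (Primrec.snd.comp (Primrec.snd.comp (Primrec.snd.comp Primrec.snd)))
  have h3 : Primrec fun c : Ac E => Sum.casesOn (motive := fun _ => Ac E ⊕ Bool)
      (ctl T E ((c.2.1, c.2.2.1), (c.1.head?, c.2.2.2.1.head?), c.2.2.2.2.1, c.2.2.2.2.2))
      (fun o : Op E => Sum.inl ((lop o.1 c.1, o.2.2.1, o.2.2.2.1, lop o.2.1 c.2.2.2.1, o.2.2.2.2.1, o.2.2.2.2.2) :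
        Ac E)) (fun b : Bool => Sum.inr b) :=
    Primrec.sumCasesOn h1 (Primrec.sumInl.comp h2).to₂ (Primrec.sumInr.comp Primrec.snd).to₂
  refine h3.of_eq fun c => ?_
  unfold ast
  cases ctl T E ((c.2.1, c.2.2.1), (c.1.head?, c.2.2.2.1.head?), c.2.2.2.2.1, c.2.2.2.2.2) <;> rfl

theorem primrec_ait (T : Tb) (E : Ends) : Primrec₂ (ait T E) := by
  have h1 : Primrec (acont T E) := by
    have h2 : Primrec fun r : Ac E ⊕ Bool => Sum.casesOn (motive := fun _ => Ac E ⊕ Bool) r
        (fun c => ast T E c) (fun b => Sum.inr b) :=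
      Primrec.sumCasesOn Primrec.id ((primrec_ast T E).comp Primrec.snd).to₂ (Primrec.sumInr.comp Primrec.snd).to₂
    exact h2.of_eq fun r => by cases r <;> rfl
  have h3 : Primrec₂ fun (c : Ac E) (n : ℕ) =>
      Nat.rec (motive := fun _ => Ac E ⊕ Bool) (Sum.inl c) (fun _ r => acont T E r) n :=
    Primrec.nat_rec Primrec.sumInl ((h1.comp (Primrec.snd.comp Primrec.snd)).to₂)
  refine h3.of_eq fun c n => ?_
  induction n with
  | zero => rfl
  | succ n ih =>
    show acont T E (Nat.rec (motive := fun _ => Ac E ⊕ Bool) (Sum.inl c) (fun _ r => acont T E r) n) = _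
    rw [ih]
    rfl

end P913T
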