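import Pool.Agent.Lib.P913T.CData12
import Pool.Agent.Lib.P913T.CData13
import Pool.Agent.Lib.P913T.CData14
import Pool.Agent.Lib.P913T.CData15
import Pool.Agent.Lib.P913T.CData16
import Pool.Agent.Lib.P913T.CData17
import Pool.Agent.Lib.P913T.CData18
import Pool.Agent.Lib.P913T.CData19

/-!
# More tables with two closed ends
-/

set_option autoImplicit false

namespace P913T

/-- packed certificates, ordered by the codes of the tables -/
def cdAll2 : List ℕ := cd12 ++ cd13 ++ cd14 ++ cd15 ++ cd16 ++ cd17 ++ cd18 ++ cd19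

theorem cdAll2_ok : cdAll2.all chkP = true := by
  simp only [cdAll2, List.all_append, Bool.and_eq_true]
  exact ⟨⟨⟨⟨⟨⟨⟨cd12_ok, cd13_ok⟩, cd14_ok⟩, cd15_ok⟩, cd16_ok⟩, cd17_ok⟩, cd18_ok⟩, cd19_ok⟩

/-- the codes of the tables -/
def closedCodes2 : List ℕ := cdAll2.map (· % 16777216)

theorem decT_closedCodes2 : ∀ n ∈ closedCodes2, DecT (tbl (dg n)) := decT_of_list cdAll2_ok

end P913T
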