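import Pool.Agent.Lib.P913T.Model

/-!
# Symmetries: mirror image, renaming of the states, renaming of the letters `1`, `2`
-/

set_option autoImplicit false

namespace P913T

/-- codes of configurations -/
abbrev Cd := List (Fin 3) × Fin 2 × Fin 3 × List (Fin 3)

/-- the configuration of a code -/
def Cf.of (c : Cd) : Cf := ⟨c.1, c.2.1, c.2.2.1, c.2.2.2⟩

/-- the halting problem of the table is decidable (all finite configurations) -/
def DecT (T : Tb) : Prop := ComputablePred fun c : Cd => Hlt T (Cf.of c)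

theorem stp_none_iff {T : Tb} {c : Cf} : stp T c = none ↔ T c.q c.s = none := by
  unfold stp
  split <;> simp_all

/-- a conjugation of tables -/
theorem itn_conj {T T' : Tb} {f : Cf → Cf} (h : ∀ c, stp T' (f c) = (stp T c).map f) (n : ℕ) (c : Cf) :
    itn T' n (f c) = (itn T n c).map f := by
  induction n generalizing c with
  | zero => rfl
  | succ n ih =>
    show (stp T' (f c)).bind (itn T' n) = ((stp T c).bind (itn T n)).map f
    rw [h]
    cases h1 : stp T c with
    | none => rfl
    | some c' =>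
      show itn T' n (f c') = (itn T n c').map f
      exact ih c'

theorem hlt_conj {T T' : Tb} {f : Cf → Cf} (h : ∀ c, stp T' (f c) = (stp T c).map f) (c : Cf) :
    Hlt T' (f c) ↔ Hlt T c := by
  unfold Hlt
  constructor
  · rintro ⟨n, hn⟩
    refine ⟨n, ?_⟩
    rw [itn_conj h] at hn
    simpa using hn
  · rintro ⟨n, hn⟩
    refine ⟨n, ?_⟩
    rw [itn_conj h, hn]
    rfl

/-! ## Mirror image -/

/-- the mirror image of a table -/
def mir (T : Tb) : Tb := fun q s => (T q s).map fun a => (a.1, !a.2.1, a.2.2)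

/-- the mirror image of a configuration -/
def Cf.mir (c : Cf) : Cf := ⟨c.v, c.q, c.s, c.u⟩

theorem stp_mir (T : Tb) (c : Cf) : stp (mir T) c.mir = (stp T c).map Cf.mir := by
  obtain ⟨u, q, s, v⟩ := c
  unfold stp mir Cf.mir
  simp only
  cases h : T q s with
  | none => simp
  | some a =>
    obtain ⟨w, d, q'⟩ := a
    cases d <;> simp [Cf.left, Cf.right]

theorem mir_mir (T : Tb) : mir (mir T) = T := by
  funext q s
  unfold mir
  cases T q s with
  | none => rfl
  | some a => simp

/-! ## Renaming of the states -/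

/-- exchange of the two states -/
def sq (q : Fin 2) : Fin 2 := 1 - q

theorem sq_sq (q : Fin 2) : sq (sq q) = q := by revert q; decide

/-- the table with the names of the states exchanged -/
def ssw (T : Tb) : Tb := fun q s => (T (sq q) s).map fun a => (a.1, a.2.1, sq a.2.2)

/-- exchange of the states of a configuration -/
def Cf.ssw (c : Cf) : Cf := ⟨c.u, sq c.q, c.s, c.v⟩

theorem stp_ssw (T : Tb) (c : Cf) : stp (ssw T) c.ssw = (stp T c).map Cf.ssw := by
  obtain ⟨u, q, s, v⟩ := c
  unfold stp ssw Cf.ssw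
  simp only [sq_sq]
  cases h : T q s with
  | none => simp
  | some a =>
    obtain ⟨w, d, q'⟩ := a
    cases d <;> simp [Cf.left, Cf.right]

theorem ssw_ssw (T : Tb) : ssw (ssw T) = T := by
  funext q s
  unfold ssw
  rw [sq_sq]
  cases T q s with
  | none => rfl
  | some a => simp [sq_sq]

/-! ## Renaming of the letters -/

/-- exchange of the letters `1` and `2` -/
def sl (s : Fin 3) : Fin 3 := -s

theorem sl_sl (s : Fin 3) : sl (sl s) = s := by revert s; decide

theorem sl_zero : sl 0 = 0 := rfl

/-- the table with the letters `1`, `2` exchanged -/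
def lsw (T : Tb) : Tb := fun q s => (T q (sl s)).map fun a => (sl a.1, a.2.1, a.2.2)

/-- exchange of the letters of a configuration -/
def Cf.lsw (c : Cf) : Cf := ⟨c.u.map sl, c.q, sl c.s, c.v.map sl⟩

theorem headD_map_sl (l : List (Fin 3)) : (l.map sl).headD 0 = sl (l.headD 0) := by
  cases l <;> rfl

theorem stp_lsw (T : Tb) (c : Cf) : stp (lsw T) c.lsw = (stp T c).map Cf.lsw := by
  obtain ⟨u, q, s, v⟩ := c
  unfold stp lsw Cf.lsw
  simp only [sl_sl]
  cases h : T q s with
  | none => simp
  | some a =>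
    obtain ⟨w, d, q'⟩ := a
    cases d <;> simp [Cf.left, Cf.right, List.map_tail, headD_map_sl, -List.headD_eq_head?_getD]

theorem lsw_lsw (T : Tb) : lsw (lsw T) = T := by
  funext q s
  unfold lsw
  rw [sl_sl]
  cases T q s with
  | none => rfl
  | some a => simp [sl_sl]

/-! ## Decidability is invariant -/

theorem DecT.of_conj {T T' : Tb} {f : Cf → Cf} (h : ∀ c, stp T' (f c) = (stp T c).map f) {g : Cd → Cd}
    (hg : Computable g) (hfg : ∀ c, Cf.of (g c) = f (Cf.of c)) (hd : DecT T') : DecT T := by
  obtain ⟨hdec, hc⟩ := hd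
  have h1 : ∀ c : Cd, Hlt T' (Cf.of (g c)) ↔ Hlt T (Cf.of c) := fun c => by
    rw [hfg, hlt_conj h]
  exact ⟨fun c => decidable_of_iff _ (h1 c), (hc.comp hg).of_eq fun c => decide_eq_decide.2 (h1 c)⟩

theorem DecT.mir {T : Tb} (h : DecT (mir T)) : DecT T :=
  DecT.of_conj (stp_mir T) (g := fun c => (c.2.2.2, c.2.1, c.2.2.1, c.1))
    (Primrec.to_comp (Primrec.pair (Primrec.snd.comp (Primrec.snd.comp Primrec.snd))
      (Primrec.pair (Primrec.fst.comp Primrec.snd) (Primrec.pair (Primrec.fst.comp (Primrec.snd.comp Primrec.snd))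
        Primrec.fst)))) (fun _ => rfl) h

theorem DecT.ssw {T : Tb} (h : DecT (ssw T)) : DecT T :=
  DecT.of_conj (stp_ssw T) (g := fun c => (c.1, sq c.2.1, c.2.2.1, c.2.2.2))
    (Primrec.to_comp (Primrec.pair Primrec.fst (Primrec.pair ((Primrec.dom_finite sq).comp
      (Primrec.fst.comp Primrec.snd)) (Primrec.snd.comp Primrec.snd)))) (fun _ => rfl) h

theorem DecT.lsw {T : Tb} (h : DecT (lsw T)) : DecT T :=
  DecT.of_conj (stp_lsw T) (g := fun c => (c.1.map sl, c.2.1, sl c.2.2.1, c.2.2.2.map sl))
    (Primrec.to_comp (Primrec.pair (Primrec.list_map Primrec.fst ((Primrec.dom_finite sl).comp Primrec.snd).to₂)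
      (Primrec.pair (Primrec.fst.comp Primrec.snd) (Primrec.pair ((Primrec.dom_finite sl).comp
        (Primrec.fst.comp (Primrec.snd.comp Primrec.snd))) (Primrec.list_map
          (Primrec.snd.comp (Primrec.snd.comp Primrec.snd)) ((Primrec.dom_finite sl).comp Primrec.snd).to₂)))))
    (fun _ => rfl) h

end P913T
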