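import Pool.Agent.Lib.P913T.CChk
import Pool.Agent.Lib.P913T.Sym

/-!
# Symmetries acting on the codes of tables, and a fast test of membership

The symmetry number `g < 8` is `mirror + 2 * exchange of the states + 4 * exchange of the letters 1, 2`; `img g n` is
the code of the image of the table with the code `n`. Everything is arithmetic of natural numbers, so that the kernel
can compute it quickly. `NT` is a binary search tree.
-/

set_option autoImplicit false

namespace P913T

/-- the maps of the entries: hexadecimal digit `16 g + x` -/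
def symL : ℕ :=
  1847297981458148102351070891279522909226697094677595858433970449331758632216545990278887511460166746099672914979158551732897979178163668113317710674539024

/-- the permutations of the entries: hexadecimal digit `6 g + i` -/
def symP : ℕ :=
  441772919973104894802485281270359890923519343192802865680

/-- the image of the entry `x` under the symmetry number `g` -/
def lg (g x : ℕ) : ℕ := Nat.land (Nat.shiftRight symL (Nat.add (Nat.mul 64 g) (Nat.mul 4 x))) 15

/-- the place from which the entry number `i` is taken -/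
def pg (g i : ℕ) : ℕ := Nat.land (Nat.shiftRight symP (Nat.add (Nat.mul 24 g) (Nat.mul 4 i))) 15

/-- the entry number `j` -/
def dj (n j : ℕ) : ℕ := Nat.land (Nat.shiftRight n (Nat.mul 4 j)) 15

/-- the entry number `i` of the image -/
def ie (g n i : ℕ) : ℕ := lg g (dj n (pg g i))

/-- the code of the image -/
def img (g n : ℕ) : ℕ :=
  Nat.add (ie g n 0) (Nat.mul 16 (Nat.add (ie g n 1) (Nat.mul 16 (Nat.add (ie g n 2) (Nat.mul 16
    (Nat.add (ie g n 3) (Nat.mul 16 (Nat.add (ie g n 4) (Nat.mul 16 (ie g n 5))))))))))

/-- the symmetry number `g` on tables -/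
def symT (g : ℕ) (T : Tb) : Tb := fun q s =>
  (T (if g / 2 % 2 = 1 then sq q else q) (if g / 4 % 2 = 1 then sl s else s)).map fun a =>
    (if g / 4 % 2 = 1 then sl a.1 else a.1, if g % 2 = 1 then !a.2.1 else a.2.1,
      if g / 2 % 2 = 1 then sq a.2.2 else a.2.2)

theorem symT_zero (T : Tb) : symT 0 T = T := by
  funext q s
  unfold symT
  cases h : T q s <;> simp [h]

theorem symT_dec {g : ℕ} (hg : g < 8) {T : Tb} (h : DecT (symT g T)) : DecT T := by
  have e4 : ∀ g', g' < 4 → symT (g' + 4) T = symT g' (lsw T) := by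
    intro g' hg'
    funext q s
    interval_cases g' <;> simp [symT, lsw, Option.map_map, Function.comp_def]
  have e2 : ∀ (T : Tb) g', g' < 2 → symT (g' + 2) T = symT g' (ssw T) := by
    intro T g' hg'
    funext q s
    interval_cases g' <;> simp [symT, ssw, Option.map_map, Function.comp_def]
  have e1 : ∀ (T : Tb), symT 1 T = mir T := by
    intro T
    funext q s
    simp [symT, mir]
  have d1 : ∀ (T : Tb) g', g' < 2 → DecT (symT g' T) → DecT T := by
    intro T g' hg' h
    interval_cases g'
    · rwa [symT_zero] at h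
    · rw [e1] at h
      exact h.mir
  have d2 : ∀ (T : Tb) g', g' < 4 → DecT (symT g' T) → DecT T := by
    intro T g' hg' h
    rcases Nat.lt_or_ge g' 2 with h1 | h1
    · exact d1 T g' h1 h
    · obtain ⟨k, rfl⟩ : ∃ k, g' = k + 2 := ⟨g' - 2, by omega⟩
      rw [e2 T k (by omega)] at h
      exact (d1 _ k (by omega) h).ssw
  rcases Nat.lt_or_ge g 4 with h1 | h1
  · exact d2 T g h1 h
  · obtain ⟨k, rfl⟩ : ∃ k, g = k + 4 := ⟨g - 4, by omega⟩
    rw [e4 k (by omega)] at h
    exact (d2 _ k (by omega) h).lsw

theorem land_fifteen (a : ℕ) : Nat.land a 15 = a % 16 := Nat.and_two_pow_sub_one_eq_mod a 4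

theorem dj_lt (n j : ℕ) : dj n j < 16 := by
  unfold dj
  rw [land_fifteen]
  exact Nat.mod_lt _ (by norm_num)

theorem lg_lt (g x : ℕ) : lg g x < 16 := by
  unfold lg
  rw [land_fifteen]
  exact Nat.mod_lt _ (by norm_num)

theorem dg_eq (n : ℕ) : dg n =
    [n % 16, n / 16 % 16, n / 256 % 16, n / 4096 % 16, n / 65536 % 16, n / 1048576 % 16] := by
  rfl

theorem dg_getD (n j : ℕ) (hj : j < 6) : (dg n).getD j 0 = dj n j := by
  rw [dg_eq]
  unfold dj
  rw [land_fifteen]
  interval_cases j
  all_goals
    show _ = (n >>> _) % 16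
    rw [Nat.shiftRight_eq_div_pow]
    norm_num

theorem img_dig (g n i : ℕ) (hi : i < 6) : (dg (img g n)).getD i 0 = ie g n i := by
  have h0 : ie g n 0 < 16 := lg_lt _ _
  have h1 : ie g n 1 < 16 := lg_lt _ _
  have h2 : ie g n 2 < 16 := lg_lt _ _
  have h3 : ie g n 3 < 16 := lg_lt _ _
  have h4 : ie g n 4 < 16 := lg_lt _ _
  have h5 : ie g n 5 < 16 := lg_lt _ _
  have hm : img g n = ie g n 0 + 16 * (ie g n 1 + 16 * (ie g n 2 + 16 * (ie g n 3 + 16 *
      (ie g n 4 + 16 * ie g n 5)))) := rfl
  rw [dg_eq, hm]
  clear hm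
  interval_cases i
  all_goals simp only [List.getD_cons_zero, List.getD_cons_succ]
  all_goals omega

/-- the entry maps -/
theorem ent_lg : ∀ g < 8, ∀ x < 16, ent (lg g x) = (ent x).map fun a =>
    (if g / 4 % 2 = 1 then sl a.1 else a.1, if g % 2 = 1 then !a.2.1 else a.2.1,
      if g / 2 % 2 = 1 then sq a.2.2 else a.2.2) := by
  decide +kernel

/-- the places -/
theorem pg_eq : ∀ g < 8, ∀ q : Fin 2, ∀ s : Fin 3, pg g (3 * (q : ℕ) + s) =
    3 * ((if g / 2 % 2 = 1 then sq q else q : Fin 2) : ℕ) +
      ((if g / 4 % 2 = 1 then sl s else s : Fin 3) : ℕ) := by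
  decide +kernel

theorem tbl_img {g : ℕ} (hg : g < 8) (n : ℕ) : tbl (dg (img g n)) = symT g (tbl (dg n)) := by
  funext q s
  have h1 : 3 * (q : ℕ) + s < 6 := by omega
  show ent ((dg (img g n)).getD (3 * (q : ℕ) + s) 0) = _
  rw [img_dig g n _ h1]
  unfold ie
  rw [ent_lg g hg _ (dj_lt _ _), pg_eq g hg q s]
  have h2 : 3 * ((if g / 2 % 2 = 1 then sq q else q : Fin 2) : ℕ) +
      ((if g / 4 % 2 = 1 then sl s else s : Fin 3) : ℕ) < 6 := by omega
  rw [← dg_getD n _ h2]
  rfl

/-! ## Search trees -/

/-- binary trees with numbers at the nodes -/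
inductive NT : Type
  | lf : NT
  | nd (l : NT) (k : ℕ) (r : NT) : NT

/-- all numbers of a tree, from left to right -/
def NT.toList : NT → List ℕ
  | .lf => []
  | .nd l k r => l.toList ++ k :: r.toList

/-- binary search -/
noncomputable def NT.mem (t : NT) (n : ℕ) : Bool :=
  NT.rec false (fun _ k _ a b => cond (Nat.blt n k) a (cond (Nat.beq n k) true b)) t

theorem NT.mem_sound {n : ℕ} : ∀ {t : NT}, t.mem n = true → n ∈ t.toList
  | .lf, h => by simp [NT.mem] at h
  | .nd l k r, h => by
    have h1 : (NT.nd l k r).mem n = cond (Nat.blt n k) (l.mem n) (cond (Nat.beq n k) true (r.mem n)) :=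
      rfl
    rw [h1] at h
    unfold NT.toList
    cases hb : Nat.blt n k with
    | true =>
      rw [hb, cond_true] at h
      exact List.mem_append_left _ (NT.mem_sound h)
    | false =>
      rw [hb, cond_false] at h
      cases hc : Nat.beq n k with
      | true =>
        rw [Nat.eq_of_beq_eq_true hc]
        exact List.mem_append_right _ List.mem_cons_self
      | false =>
        rw [hc, cond_false] at h
        exact List.mem_append_right _ (List.mem_cons_of_mem _ (NT.mem_sound h))

/-- is the image of the table `n` under the symmetry number `g` in the tree? -/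
noncomputable def inS (t : NT) (n g : ℕ) : Bool := cond (Nat.blt g 8) (t.mem (img g n)) false

theorem inS_sound {t : NT} (h : ∀ m ∈ t.toList, DecT (tbl (dg m))) {n g : ℕ} (hc : inS t n g = true) :
    DecT (tbl (dg n)) := by
  unfold inS at hc
  cases hg : Nat.blt g 8 with
  | false => rw [hg, cond_false] at hc; exact absurd hc (by decide)
  | true =>
    rw [hg, cond_true] at hc
    have hg' : g < 8 := Nat.lt_of_lt_of_le (Nat.lt_succ_self _) (Nat.le_of_ble_eq_true hg)
    have h1 := h _ (NT.mem_sound hc)
    rw [tbl_img hg'] at h1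
    exact symT_dec hg' h1

/-! ## Assembling lists -/

/-- the difference of two sorted lists (the first number is fuel) -/
def dff : ℕ → List ℕ → List ℕ → List ℕ
  | 0, xs, _ => xs
  | _ + 1, [], _ => []
  | _ + 1, x :: xs, [] => x :: xs
  | f + 1, x :: xs, y :: ys =>
    match Nat.beq x y with
    | true => dff f xs ys
    | false =>
      match Nat.blt x y with
      | true => x :: dff f xs (y :: ys)
      | false => dff f (x :: xs) ys

theorem mem_dff {m : ℕ} : ∀ (f : ℕ) {xs ys : List ℕ}, m ∈ xs → m ∈ ys ∨ m ∈ dff f xs ys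
  | 0, xs, ys, h => Or.inr h
  | _ + 1, [], ys, h => Or.inr h
  | _ + 1, x :: xs, [], h => Or.inr h
  | f + 1, x :: xs, y :: ys, h => by
    unfold dff
    cases hb : Nat.beq x y with
    | true =>
      simp only
      have hxy := Nat.eq_of_beq_eq_true hb
      rcases List.mem_cons.1 h with h1 | h1
      · left; rw [h1, hxy]; exact List.mem_cons_self
      · rcases mem_dff f (ys := ys) h1 with h2 | h2
        · exact Or.inl (List.mem_cons_of_mem _ h2)
        · exact Or.inr h2
    | false =>
      simp only
      cases hc : Nat.blt x y with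
      | true =>
        simp only
        rcases List.mem_cons.1 h with h1 | h1
        · right; rw [h1]; exact List.mem_cons_self
        · rcases mem_dff f (ys := y :: ys) h1 with h2 | h2
          · exact Or.inl h2
          · exact Or.inr (List.mem_cons_of_mem _ h2)
      | false =>
        simp only
        rcases mem_dff f (ys := ys) h with h2 | h2
        · exact Or.inl (List.mem_cons_of_mem _ h2)
        · exact Or.inr h2

/-- remove lists one after the other -/
def dfs (f : ℕ) : List ℕ → List (List ℕ) → List ℕ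
  | xs, [] => xs
  | xs, l :: ls => dfs f (dff f xs l) ls

theorem dfs_sound {f : ℕ} {P : ℕ → Prop} : ∀ {ls : List (List ℕ)} {xs : List ℕ},
    (∀ l ∈ ls, ∀ n ∈ l, P n) → dfs f xs ls = [] → ∀ n ∈ xs, P n
  | [], xs, _, h => by
    intro n hn
    have h1 : xs = [] := h
    rw [h1] at hn
    cases hn
  | l :: ls, xs, hl, h => by
    intro n hn
    rcases mem_dff f (ys := l) hn with h1 | h1
    · exact hl l List.mem_cons_self n h1
    · exact dfs_sound (fun l' hl' => hl l' (List.mem_cons_of_mem _ hl')) h n h1

end P913T
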