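import Pool.Agent.Lib.P913T.CAll
import Pool.Agent.Lib.P913T.CAll2
import Pool.Agent.Lib.P913T.Canon
import Pool.Agent.Lib.P913T.XData1
import Pool.Agent.Lib.P913T.XData2
import Pool.Agent.Lib.P913T.XData3
import Pool.Agent.Lib.P913T.XData4
import Pool.Agent.Lib.P913T.XDataW

/-!
# The search tree of all single tables
-/

set_option autoImplicit false
set_option maxRecDepth 100000

namespace P913T

/-- the codes of all single tables -/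
def allT : NT :=
(.nd (.nd (.nd (.nd (.nd (.nd (.nd (.nd (.nd (.nd (.nd (.nd .lf 5031 .lf) 14481 (.nd .lf 14497 .lf)) 22326
(.nd (.nd .lf 23350 .lf) 29605 (.nd .lf 30261 .lf))) 37750 (.nd (.nd (.nd .lf 37814 .lf) 37830 (.nd .lf 38005
.lf)) 38710 (.nd (.nd .lf 39734 .lf) 45381 .lf))) 45445 (.nd (.nd (.nd (.nd .lf 45510 .lf) 45989 (.nd .lf
46401 .lf)) 46518 (.nd (.nd .lf 46641 .lf) 46645 (.nd .lf 46657 .lf))) 46998 (.nd (.nd (.nd .lf 65639 .lf)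
65895 (.nd .lf 65959 .lf)) 66151 (.nd (.nd .lf 66215 .lf) 66407 .lf)))) 66663 (.nd (.nd (.nd (.nd (.nd .lf
66855 .lf) 66919 (.nd .lf 66983 .lf)) 67111 (.nd (.nd .lf 67175 .lf) 67239 (.nd .lf 67431 .lf))) 67687 (.nd
(.nd (.nd .lf 67879 .lf) 67943 (.nd .lf 68007 .lf)) 68135 (.nd (.nd .lf 68199 .lf) 68263 .lf))) 68279 (.nd
(.nd (.nd (.nd .lf 68455 .lf) 68711 (.nd .lf 69671 .lf)) 70343 (.nd (.nd .lf 70695 .lf) 70823 (.nd .lf 71227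
.lf))) 71291 (.nd (.nd (.nd .lf 71351 .lf) 71367 (.nd .lf 71719 .lf)) 71847 (.nd (.nd .lf 72375 .lf) 72391
.lf))))) 72487 (.nd (.nd (.nd (.nd (.nd (.nd .lf 72743 .lf) 79557 (.nd .lf 79559 .lf)) 79561 (.nd (.nd .lf
79785 .lf) 79897 (.nd .lf 80017 .lf))) 80033 (.nd (.nd (.nd .lf 80037 .lf) 80041 (.nd .lf 80567 .lf)) 81045
(.nd (.nd .lf 81061 .lf) 94278 .lf))) 94534 (.nd (.nd (.nd (.nd .lf 94790 .lf) 95046 (.nd .lf 95141 .lf))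
95286 (.nd (.nd .lf 95302 .lf) 95397 (.nd .lf 95558 .lf))) 95797 (.nd (.nd (.nd .lf 95810 .lf) 95813 (.nd .lf
95814 .lf)) 95925 (.nd (.nd .lf 95936 .lf) 95941 .lf)))) 96070 (.nd (.nd (.nd (.nd (.nd .lf 96326 .lf) 96417
(.nd .lf 96418 .lf)) 96421 (.nd (.nd .lf 96582 .lf) 96838 (.nd .lf 97094 .lf))) 97350 (.nd (.nd (.nd .lf
98322 .lf) 98402 (.nd .lf 98418 .lf)) 98466 (.nd (.nd .lf 98578 .lf) 98594 .lf))) 98658 (.nd (.nd (.nd (.nd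
.lf 98674 .lf) 98722 (.nd .lf 98834 .lf)) 98850 (.nd (.nd .lf 98914 .lf) 98930 (.nd .lf 98978 .lf))) 99090
(.nd (.nd (.nd .lf 99106 .lf) 99109 (.nd .lf 99170 .lf)) 99186 (.nd (.nd .lf 99234 .lf) 99346 .lf)))))) 99362
(.nd (.nd (.nd (.nd (.nd (.nd (.nd .lf 99426 .lf) 99442 (.nd .lf 99490 .lf)) 99602 (.nd (.nd .lf 99618 .lf)
99682 (.nd .lf 99698 .lf))) 99746 (.nd (.nd (.nd .lf 99858 .lf) 99874 (.nd .lf 99938 .lf)) 99954 (.nd (.nd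
.lf 100002 .lf) 100114 .lf))) 100130 (.nd (.nd (.nd (.nd .lf 100194 .lf) 100210 (.nd .lf 100258 .lf)) 100370
(.nd (.nd .lf 100386 .lf) 100450 (.nd .lf 100466 .lf))) 100514 (.nd (.nd (.nd .lf 100626 .lf) 100642 (.nd .lf
100706 .lf)) 100722 (.nd (.nd .lf 100770 .lf) 100882 .lf)))) 100898 (.nd (.nd (.nd (.nd (.nd .lf 100962 .lf)
100978 (.nd .lf 101026 .lf)) 101138 (.nd (.nd .lf 101154 .lf) 101218 (.nd .lf 101234 .lf))) 101282 (.nd (.nd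
(.nd .lf 101394 .lf) 101410 (.nd .lf 101474 .lf)) 101490 (.nd (.nd .lf 101538 .lf) 103286 .lf))) 103350 (.nd
(.nd (.nd (.nd .lf 103366 .lf) 103541 (.nd .lf 104246 .lf)) 104390 (.nd (.nd .lf 105270 .lf) 107637 (.nd .lf
108661 .lf))) 111046 (.nd (.nd (.nd .lf 111222 .lf) 111478 (.nd .lf 111525 .lf)) 111734 (.nd (.nd .lf 112054
.lf) 112177 .lf))))) 112181 (.nd (.nd (.nd (.nd (.nd (.nd .lf 112193 .lf) 112197 (.nd .lf 112242 .lf)) 112246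
(.nd (.nd .lf 112257 .lf) 112261 (.nd .lf 112454 .lf))) 112549 (.nd (.nd (.nd .lf 112582 .lf) 112758 (.nd .lf
112805 .lf)) 113270 (.nd (.nd .lf 113782 .lf) 114946 .lf))) 114962 (.nd (.nd (.nd (.nd .lf 114978 .lf) 114994
(.nd .lf 115010 .lf)) 115026 (.nd (.nd .lf 115042 .lf) 115058 (.nd .lf 115074 .lf))) 115090 (.nd (.nd (.nd
.lf 115106 .lf) 115122 (.nd .lf 115138 .lf)) 116482 (.nd (.nd .lf 116498 .lf) 116514 .lf)))) 116530 (.nd (.nd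
(.nd (.nd (.nd .lf 116546 .lf) 116562 (.nd .lf 116578 .lf)) 116594 (.nd (.nd .lf 116610 .lf) 116626 (.nd .lf
116642 .lf))) 116658 (.nd (.nd (.nd .lf 116674 .lf) 135271 (.nd .lf 135335 .lf)) 135751 (.nd (.nd .lf 135815
.lf) 135863 .lf))) 135879 (.nd (.nd (.nd (.nd .lf 136231 .lf) 136295 (.nd .lf 136359 .lf)) 136523 (.nd (.nd
.lf 136583 .lf) 136711 (.nd .lf 136763 .lf))) 136775 (.nd (.nd (.nd .lf 136779 .lf) 136839 (.nd .lf 136887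
.lf)) 136903 (.nd (.nd .lf 137255 .lf) 137303 .lf))))))) 137307 (.nd (.nd (.nd (.nd (.nd (.nd (.nd (.nd .lf
137319 .lf) 137367 (.nd .lf 137383 .lf)) 137735 (.nd (.nd .lf 137799 .lf) 137863 (.nd .lf 137911 .lf)))
137927 (.nd (.nd (.nd .lf 138023 .lf) 138087 (.nd .lf 138151 .lf)) 138279 (.nd (.nd .lf 138343 .lf) 138407
.lf))) 143749 (.nd (.nd (.nd (.nd .lf 143813 .lf) 145433 (.nd .lf 145553 .lf)) 145569 (.nd (.nd .lf 161333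
.lf) 161409 (.nd .lf 161953 .lf))) 163893 (.nd (.nd (.nd .lf 163920 .lf) 163921 (.nd .lf 163922 .lf)) 163924
(.nd (.nd .lf 164176 .lf) 164178 .lf)))) 164180 (.nd (.nd (.nd (.nd (.nd .lf 164405 .lf) 164432 (.nd .lf
164434 .lf)) 164436 (.nd (.nd .lf 164688 .lf) 164690 (.nd .lf 164692 .lf))) 164917 (.nd (.nd (.nd .lf 164944
.lf) 164946 (.nd .lf 164948 .lf)) 165200 (.nd (.nd .lf 165202 .lf) 165204 .lf))) 165296 (.nd (.nd (.nd (.nd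
.lf 165298 .lf) 165300 (.nd .lf 165429 .lf)) 165456 (.nd (.nd .lf 165457 .lf) 165458 (.nd .lf 165460 .lf)))
165712 (.nd (.nd (.nd .lf 165714 .lf) 165716 (.nd .lf 165941 .lf)) 165968 (.nd (.nd .lf 165969 .lf) 165970
.lf))))) 165972 (.nd (.nd (.nd (.nd (.nd (.nd .lf 166224 .lf) 166226 (.nd .lf 166228 .lf)) 166453 (.nd (.nd
.lf 166480 .lf) 166481 (.nd .lf 166482 .lf))) 166484 (.nd (.nd (.nd .lf 166736 .lf) 166738 (.nd .lf 166740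
.lf)) 166965 (.nd (.nd .lf 166992 .lf) 166993 .lf))) 166994 (.nd (.nd (.nd (.nd .lf 166996 .lf) 168822 (.nd
.lf 168886 .lf)) 168902 (.nd (.nd .lf 169077 .lf) 169782 (.nd .lf 170806 .lf))) 176517 (.nd (.nd (.nd .lf
176582 .lf) 177061 (.nd .lf 177590 .lf)) 177713 (.nd (.nd .lf 177717 .lf) 177729 .lf)))) 177793 (.nd (.nd
(.nd (.nd (.nd .lf 178070 .lf) 178257 (.nd .lf 211089 .lf)) 211105 (.nd (.nd .lf 218934 .lf) 218950 (.nd .lf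
219045 .lf))) 219190 (.nd (.nd (.nd .lf 219206 .lf) 219297 (.nd .lf 219298 .lf)) 219301 (.nd (.nd .lf 219958
.lf) 219974 .lf))) 220214 (.nd (.nd (.nd (.nd .lf 220230 .lf) 220309 (.nd .lf 220325 .lf)) 223045 (.nd (.nd
.lf 223301 .lf) 224069 (.nd .lf 224325 .lf))) 225349 (.nd (.nd (.nd .lf 225861 .lf) 225989 (.nd .lf 226213
.lf)) 226453 (.nd (.nd .lf 226469 .lf) 226869 .lf)))))) 226885 (.nd (.nd (.nd (.nd (.nd (.nd (.nd .lf 227013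
.lf) 227477 (.nd .lf 227489 .lf)) 227493 (.nd (.nd .lf 227653 .lf) 227909 (.nd .lf 228501 .lf))) 229669 (.nd
(.nd (.nd .lf 230437 .lf) 231717 (.nd .lf 232485 .lf)) 233605 (.nd (.nd .lf 233861 .lf) 234117 .lf))) 234358
(.nd (.nd (.nd (.nd .lf 234373 .lf) 234422 (.nd .lf 234438 .lf)) 234613 (.nd (.nd .lf 234614 .lf) 234629 (.nd
.lf 234677 .lf))) 234693 (.nd (.nd (.nd .lf 234885 .lf) 235141 (.nd .lf 235318 .lf)) 235333 (.nd (.nd .lf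
235334 .lf) 235397 .lf)))) 235429 (.nd (.nd (.nd (.nd (.nd .lf 235430 .lf) 235574 (.nd .lf 235589 .lf))
235638 (.nd (.nd .lf 235653 .lf) 235685 (.nd .lf 235702 .lf))) 235717 (.nd (.nd (.nd .lf 235909 .lf) 236165
(.nd .lf 236342 .lf)) 236357 (.nd (.nd .lf 236421 .lf) 236613 .lf))) 236677 (.nd (.nd (.nd (.nd .lf 236693
.lf) 236741 (.nd .lf 237701 .lf)) 237957 (.nd (.nd .lf 238213 .lf) 238533 (.nd .lf 238725 .lf))) 238789 (.nd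
(.nd (.nd .lf 239237 .lf) 239429 (.nd .lf 239525 .lf)) 239557 (.nd (.nd .lf 239653 .lf) 239685 .lf)))))
239717 (.nd (.nd (.nd (.nd (.nd (.nd .lf 239781 .lf) 239813 (.nd .lf 240005 .lf)) 240261 (.nd (.nd .lf 240453
.lf) 240581 (.nd .lf 240709 .lf))) 240773 (.nd (.nd (.nd .lf 240789 .lf) 240837 (.nd .lf 241797 .lf)) 242118
(.nd (.nd .lf 242309 .lf) 242597 .lf))) 242837 (.nd (.nd (.nd (.nd .lf 242853 .lf) 243126 (.nd .lf 243249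
.lf)) 243253 (.nd (.nd .lf 243265 .lf) 243269 (.nd .lf 243397 .lf))) 243606 (.nd (.nd (.nd .lf 243749 .lf)
243798 (.nd .lf 243861 .lf)) 243877 (.nd (.nd .lf 244101 .lf) 244357 .lf)))) 244885 (.nd (.nd (.nd (.nd (.nd
.lf 244901 .lf) 246277 (.nd .lf 246293 .lf)) 246309 (.nd (.nd .lf 246325 .lf) 246341 (.nd .lf 246357 .lf)))
246373 (.nd (.nd (.nd .lf 246389 .lf) 246405 (.nd .lf 246421 .lf)) 246437 (.nd (.nd .lf 246453 .lf) 246469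
.lf))) 247313 (.nd (.nd (.nd (.nd .lf 247317 .lf) 247329 (.nd .lf 247333 .lf)) 247345 (.nd (.nd .lf 247349
.lf) 247361 (.nd .lf 247365 .lf))) 247377 (.nd (.nd (.nd .lf 247381 .lf) 247393 (.nd .lf 247397 .lf)) 247409
(.nd (.nd .lf 247425 .lf) 247441 .lf)))))))) 247445 (.nd (.nd (.nd (.nd (.nd (.nd (.nd (.nd (.nd .lf 247477
.lf) 247493 (.nd .lf 247589 .lf)) 247649 (.nd (.nd .lf 248981 .lf) 276625 (.nd .lf 276641 .lf))) 282753 (.nd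
(.nd (.nd .lf 282757 .lf) 283269 (.nd .lf 284289 .lf)) 284293 (.nd (.nd .lf 284470 .lf) 284694 .lf))) 284710
(.nd (.nd (.nd (.nd .lf 284726 .lf) 284773 (.nd .lf 285061 .lf)) 285317 (.nd (.nd .lf 285494 .lf) 285701 (.nd
.lf 285718 .lf))) 285729 (.nd (.nd (.nd .lf 285733 .lf) 285734 (.nd .lf 285750 .lf)) 285793 (.nd (.nd .lf
285797 .lf) 285845 .lf)))) 285861 (.nd (.nd (.nd (.nd (.nd .lf 286833 .lf) 288369 (.nd .lf 288881 .lf))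
289905 (.nd (.nd .lf 291509 .lf) 291749 (.nd .lf 292005 .lf))) 292405 (.nd (.nd (.nd .lf 292513 .lf) 292517
(.nd .lf 293029 .lf)) 294053 (.nd (.nd .lf 299382 .lf) 299894 .lf))) 299958 (.nd (.nd (.nd (.nd .lf 299974
.lf) 300149 (.nd .lf 300150 .lf)) 300406 (.nd (.nd .lf 300661 .lf) 300662 (.nd .lf 300854 .lf))) 300918 (.nd
(.nd (.nd .lf 300982 .lf) 300998 (.nd .lf 301109 .lf)) 301110 (.nd (.nd .lf 301878 .lf) 301942 .lf)))))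
307654 (.nd (.nd (.nd (.nd (.nd (.nd .lf 307781 .lf) 307845 (.nd .lf 307909 .lf)) 308133 (.nd (.nd .lf 308662
.lf) 308785 (.nd .lf 308789 .lf))) 308821 (.nd (.nd (.nd .lf 309142 .lf) 328570 (.nd .lf 329415 .lf)) 329530
(.nd (.nd .lf 329658 .lf) 330363 .lf))) 332411 (.nd (.nd (.nd (.nd .lf 332471 .lf) 332487 (.nd .lf 332839
.lf)) 332967 (.nd (.nd .lf 333371 .lf) 333435 (.nd .lf 333511 .lf))) 333739 (.nd (.nd (.nd .lf 333863 .lf)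
333991 (.nd .lf 334459 .lf)) 334535 (.nd (.nd .lf 334631 .lf) 334887 .lf)))) 341703 (.nd (.nd (.nd (.nd (.nd
.lf 342041 .lf) 342161 (.nd .lf 342177 .lf)) 342651 (.nd (.nd .lf 350006 .lf) 351030 (.nd .lf 352372 .lf)))
352628 (.nd (.nd (.nd .lf 352884 .lf) 353908 (.nd .lf 354100 .lf)) 354676 (.nd (.nd .lf 354932 .lf) 355124
.lf))) 356678 (.nd (.nd (.nd (.nd .lf 357285 .lf) 357494 (.nd .lf 357941 .lf)) 358080 (.nd (.nd .lf 358085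
.lf) 358210 (.nd .lf 358304 .lf))) 358560 (.nd (.nd (.nd .lf 359234 .lf) 360610 (.nd .lf 360722 .lf)) 360736
(.nd (.nd .lf 360866 .lf) 360898 .lf)))))) 360978 (.nd (.nd (.nd (.nd (.nd (.nd (.nd .lf 360992 .lf) 361013
(.nd .lf 361122 .lf)) 361152 (.nd (.nd .lf 361154 .lf) 361156 (.nd .lf 361234 .lf))) 361248 (.nd (.nd (.nd
.lf 361330 .lf) 361378 (.nd .lf 361490 .lf)) 361504 (.nd (.nd .lf 361586 .lf) 361634 .lf))) 361666 (.nd (.nd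
(.nd (.nd .lf 361746 .lf) 361760 (.nd .lf 361890 .lf)) 362002 (.nd (.nd .lf 362016 .lf) 362146 (.nd .lf
362178 .lf))) 362258 (.nd (.nd (.nd .lf 362272 .lf) 362290 (.nd .lf 362402 .lf)) 362514 (.nd (.nd .lf 362528
.lf) 362658 .lf)))) 362770 (.nd (.nd (.nd (.nd (.nd .lf 362784 .lf) 362914 (.nd .lf 363026 .lf)) 363040 (.nd
(.nd .lf 363170 .lf) 363202 (.nd .lf 363282 .lf))) 363296 (.nd (.nd (.nd .lf 363426 .lf) 363538 (.nd .lf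
363552 .lf)) 363682 (.nd (.nd .lf 365430 .lf) 365494 .lf))) 365510 (.nd (.nd (.nd (.nd .lf 365685 .lf) 365686
(.nd .lf 366390 .lf)) 367414 (.nd (.nd .lf 369012 .lf) 369268 (.nd .lf 369524 .lf))) 369588 (.nd (.nd (.nd
.lf 369776 .lf) 369778 (.nd .lf 369780 .lf)) 369781 (.nd (.nd .lf 370292 .lf) 370484 .lf))))) 370612 (.nd
(.nd (.nd (.nd (.nd (.nd .lf 370800 .lf) 370801 (.nd .lf 370802 .lf)) 370804 (.nd (.nd .lf 370805 .lf) 370864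
(.nd .lf 370865 .lf))) 370866 (.nd (.nd (.nd .lf 370868 .lf) 370869 (.nd .lf 371572 .lf)) 373190 (.nd (.nd
.lf 373669 .lf) 373878 .lf))) 374198 (.nd (.nd (.nd (.nd .lf 374321 .lf) 374325 (.nd .lf 374337 .lf)) 374341
(.nd (.nd .lf 374401 .lf) 374688 (.nd .lf 374689 .lf))) 374690 (.nd (.nd (.nd .lf 374693 .lf) 374694 (.nd .lf
377106 .lf)) 377122 (.nd (.nd .lf 377138 .lf) 377154 .lf)))) 377170 (.nd (.nd (.nd (.nd (.nd .lf 377186 .lf)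
377202 (.nd .lf 377218 .lf)) 377234 (.nd (.nd .lf 377250 .lf) 377266 (.nd .lf 377282 .lf))) 377714 (.nd (.nd
(.nd .lf 378642 .lf) 378658 (.nd .lf 378690 .lf)) 378722 (.nd (.nd .lf 378786 .lf) 378898 .lf))) 393751 (.nd
(.nd (.nd (.nd .lf 394263 .lf) 394775 (.nd .lf 395287 .lf)) 395799 (.nd (.nd .lf 396311 .lf) 397703 (.nd .lf
397767 .lf))) 397895 (.nd (.nd (.nd .lf 397899 .lf) 397959 (.nd .lf 398023 .lf)) 398215 (.nd (.nd .lf 398359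
.lf) 398375 .lf))))))) 398471 (.nd (.nd (.nd (.nd (.nd (.nd (.nd (.nd .lf 398487 .lf) 398503 (.nd .lf 398667
.lf)) 398727 (.nd (.nd .lf 398907 .lf) 398923 (.nd .lf 398983 .lf))) 399047 (.nd (.nd (.nd .lf 399239 .lf)
399383 (.nd .lf 399479 .lf)) 399495 (.nd (.nd .lf 399751 .lf) 399943 .lf))) 400007 (.nd (.nd (.nd (.nd .lf
400071 .lf) 400263 (.nd .lf 400407 .lf)) 400519 (.nd (.nd .lf 405957 .lf) 406085 (.nd .lf 406213 .lf)))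
406551 (.nd (.nd (.nd .lf 406693 .lf) 407109 (.nd .lf 407161 .lf)) 407461 (.nd (.nd .lf 407465 .lf) 407575
.lf)))) 407577 (.nd (.nd (.nd (.nd (.nd .lf 407621 .lf) 407697 (.nd .lf 407713 .lf)) 407877 (.nd (.nd .lf
408133 .lf) 408599 (.nd .lf 408645 .lf))) 415542 (.nd (.nd (.nd .lf 416566 .lf) 421938 (.nd .lf 422002 .lf))
422581 (.nd (.nd .lf 422962 .lf) 423477 .lf))) 423986 (.nd (.nd (.nd (.nd .lf 423989 .lf) 424050 (.nd .lf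
424496 .lf)) 424501 (.nd (.nd .lf 424560 .lf) 424754 (.nd .lf 424818 .lf))) 425010 (.nd (.nd (.nd .lf 425074
.lf) 430966 (.nd .lf 431030 .lf)) 431046 (.nd (.nd .lf 431221 .lf) 431926 .lf))))) 432950 (.nd (.nd (.nd (.nd
(.nd (.nd .lf 438661 .lf) 438726 (.nd .lf 438853 .lf)) 438917 (.nd (.nd .lf 439205 .lf) 439734 (.nd .lf
439857 .lf))) 439861 (.nd (.nd (.nd .lf 440341 .lf) 440373 (.nd .lf 473233 .lf)) 473249 (.nd (.nd .lf 479286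
.lf) 479542 .lf))) 479798 (.nd (.nd (.nd (.nd .lf 480054 .lf) 480310 (.nd .lf 480421 .lf)) 480566 (.nd (.nd
.lf 480822 .lf) 481078 (.nd .lf 481334 .lf))) 481441 (.nd (.nd (.nd .lf 481442 .lf) 481445 (.nd .lf 481590
.lf)) 481846 (.nd (.nd .lf 482102 .lf) 482358 .lf)))) 483393 (.nd (.nd (.nd (.nd (.nd .lf 484417 .lf) 484673
(.nd .lf 484929 .lf)) 485185 (.nd (.nd .lf 485441 .lf) 485697 (.nd .lf 485953 .lf))) 486209 (.nd (.nd (.nd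
.lf 486465 .lf) 488357 (.nd .lf 488597 .lf)) 488613 (.nd (.nd .lf 489013 .lf) 489633 .lf))) 489637 (.nd (.nd
(.nd (.nd .lf 491557 .lf) 492085 (.nd .lf 492325 .lf)) 492581 (.nd (.nd .lf 493109 .lf) 493605 (.nd .lf
494373 .lf))) 494629 (.nd (.nd (.nd .lf 496197 .lf) 496438 (.nd .lf 496453 .lf)) 496502 (.nd (.nd .lf 496550
.lf) 496566 .lf)))))) 496582 (.nd (.nd (.nd (.nd (.nd (.nd (.nd .lf 496693 .lf) 496694 (.nd .lf 496709 .lf))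
496757 (.nd (.nd .lf 496758 .lf) 496773 (.nd .lf 496805 .lf))) 496821 (.nd (.nd (.nd .lf 496837 .lf) 496950
(.nd .lf 496965 .lf)) 497093 (.nd (.nd .lf 497094 .lf) 497221 .lf))) 497462 (.nd (.nd (.nd (.nd .lf 497477
.lf) 497718 (.nd .lf 497829 .lf)) 498486 (.nd (.nd .lf 498742 .lf) 500293 (.nd .lf 500837 .lf))) 501061 (.nd
(.nd (.nd .lf 501925 .lf) 504262 (.nd .lf 504389 .lf)) 504741 (.nd (.nd .lf 504918 .lf) 504981 .lf)))) 504997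
(.nd (.nd (.nd (.nd (.nd .lf 505270 .lf) 505393 (.nd .lf 505397 .lf)) 506005 (.nd (.nd .lf 506021 .lf) 508437
(.nd .lf 508469 .lf))) 508501 (.nd (.nd (.nd .lf 509457 .lf) 509461 (.nd .lf 509489 .lf)) 509493 (.nd (.nd
.lf 509521 .lf) 509525 .lf))) 509585 (.nd (.nd (.nd (.nd .lf 509589 .lf) 510117 (.nd .lf 536673 .lf)) 537953
(.nd (.nd .lf 538209 .lf) 538465 (.nd .lf 538721 .lf))) 538769 (.nd (.nd (.nd .lf 538785 .lf) 539233 (.nd .lf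
539489 .lf)) 539745 (.nd (.nd .lf 544818 .lf) 544821 .lf))))) 544822 (.nd (.nd (.nd (.nd (.nd (.nd .lf 545078
.lf) 545333 (.nd .lf 545334 .lf)) 545586 (.nd (.nd .lf 545590 .lf) 545842 (.nd .lf 545846 .lf))) 545878 (.nd
(.nd (.nd .lf 546098 .lf) 546102 (.nd .lf 546354 .lf)) 546357 (.nd (.nd .lf 546358 .lf) 546610 .lf))) 546614
(.nd (.nd (.nd (.nd .lf 546866 .lf) 546870 (.nd .lf 547122 .lf)) 547126 (.nd (.nd .lf 547378 .lf) 547381 (.nd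
.lf 547382 .lf))) 547634 (.nd (.nd (.nd .lf 547638 .lf) 547858 (.nd .lf 547862 .lf)) 547890 (.nd (.nd .lf
547894 .lf) 547922 .lf)))) 547926 (.nd (.nd (.nd (.nd (.nd .lf 548917 .lf) 549429 (.nd .lf 550453 .lf))
551477 (.nd (.nd .lf 552978 .lf) 553013 (.nd .lf 553525 .lf))) 553653 (.nd (.nd (.nd .lf 553893 .lf) 554002
(.nd .lf 554514 .lf)) 554549 (.nd (.nd .lf 554581 .lf) 555026 .lf))) 555538 (.nd (.nd (.nd (.nd .lf 555573
.lf) 555794 (.nd .lf 556050 .lf)) 557109 (.nd (.nd .lf 557621 .lf) 558645 (.nd .lf 559669 .lf))) 561205 (.nd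
(.nd (.nd .lf 561717 .lf) 561974 (.nd .lf 562038 .lf)) 562102 (.nd (.nd .lf 562118 .lf) 562229 .lf)))))))))
562230 (.nd (.nd (.nd (.nd (.nd (.nd (.nd (.nd (.nd (.nd .lf 562293 .lf) 562741 (.nd .lf 562998 .lf)) 563094
(.nd (.nd .lf 563765 .lf) 564022 (.nd .lf 564277 .lf))) 565301 (.nd (.nd (.nd .lf 565813 .lf) 566325 (.nd .lf
566837 .lf)) 567349 (.nd (.nd .lf 567861 .lf) 568373 .lf))) 569397 (.nd (.nd (.nd (.nd .lf 569701 .lf) 569798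
(.nd .lf 569909 .lf)) 569925 (.nd (.nd .lf 570053 .lf) 570277 (.nd .lf 570721 .lf))) 570725 (.nd (.nd (.nd
.lf 570806 .lf) 570913 (.nd .lf 570929 .lf)) 570933 (.nd (.nd .lf 570977 .lf) 571025 .lf)))) 571233 (.nd (.nd
(.nd (.nd (.nd .lf 571286 .lf) 571957 (.nd .lf 573493 .lf)) 574005 (.nd (.nd .lf 575029 .lf) 576053 (.nd .lf
590710 .lf))) 591670 (.nd (.nd (.nd .lf 591719 .lf) 591723 (.nd .lf 591975 .lf)) 592758 (.nd (.nd .lf 594555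
.lf) 594615 .lf))) 594983 (.nd (.nd (.nd (.nd .lf 595047 .lf) 595515 (.nd .lf 595579 .lf)) 595639 (.nd (.nd
.lf 595655 .lf) 595819 (.nd .lf 596007 .lf))) 596135 (.nd (.nd (.nd .lf 596775 .lf) 596839 (.nd .lf 597031
.lf)) 597095 (.nd (.nd .lf 602565 .lf) 603077 .lf))))) 603253 (.nd (.nd (.nd (.nd (.nd (.nd .lf 603317 .lf)
604011 (.nd .lf 604069 .lf)) 604073 (.nd (.nd .lf 604101 .lf) 604185 (.nd .lf 604193 .lf))) 604213 (.nd (.nd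
(.nd .lf 604305 .lf) 604321 (.nd .lf 605125 .lf)) 611190 (.nd (.nd .lf 612150 .lf) 612405 .lf))) 612406 (.nd
(.nd (.nd (.nd .lf 612466 .lf) 612470 (.nd .lf 613174 .lf)) 613238 (.nd (.nd .lf 615284 .lf) 615541 (.nd .lf
615796 .lf))) 616244 (.nd (.nd (.nd .lf 616308 .lf) 616372 (.nd .lf 616388 .lf)) 616560 (.nd (.nd .lf 616561
.lf) 616562 .lf)))) 616564 (.nd (.nd (.nd (.nd (.nd .lf 616565 .lf) 617268 (.nd .lf 617332 .lf)) 617344 (.nd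
(.nd .lf 617346 .lf) 617348 (.nd .lf 617349 .lf))) 618822 (.nd (.nd (.nd .lf 618950 .lf) 619382 (.nd .lf
619429 .lf)) 619430 (.nd (.nd .lf 619461 .lf) 619462 .lf))) 619538 (.nd (.nd (.nd (.nd .lf 619553 .lf) 619570
(.nd .lf 619573 .lf)) 619574 (.nd (.nd .lf 619638 .lf) 619685 (.nd .lf 619701 .lf))) 619702 (.nd (.nd (.nd
.lf 620085 .lf) 620342 (.nd .lf 620358 .lf)) 620486 (.nd (.nd .lf 620562 .lf) 620594 .lf)))))) 620597 (.nd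
(.nd (.nd (.nd (.nd (.nd (.nd .lf 620598 .lf) 620658 (.nd .lf 620662 .lf)) 620722 (.nd (.nd .lf 620726 .lf)
621382 (.nd .lf 621430 .lf))) 621510 (.nd (.nd (.nd .lf 622866 .lf) 623122 (.nd .lf 623157 .lf)) 623378 (.nd
(.nd .lf 623634 .lf) 623890 .lf))) 623922 (.nd (.nd (.nd (.nd .lf 624050 .lf) 624146 (.nd .lf 624402 .lf))
624658 (.nd (.nd .lf 624914 .lf) 625170 (.nd .lf 625426 .lf))) 625682 (.nd (.nd (.nd .lf 627574 .lf) 627638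
(.nd .lf 627653 .lf)) 627654 (.nd (.nd .lf 627829 .lf) 628534 .lf)))) 629558 (.nd (.nd (.nd (.nd (.nd .lf
629622 .lf) 631668 (.nd .lf 631732 .lf)) 632180 (.nd (.nd .lf 632580 .lf) 632596 (.nd .lf 632612 .lf)))
632628 (.nd (.nd (.nd .lf 632644 .lf) 632660 (.nd .lf 632676 .lf)) 632692 (.nd (.nd .lf 632708 .lf) 632724
.lf))) 632740 (.nd (.nd (.nd (.nd .lf 632756 .lf) 632772 (.nd .lf 635205 .lf)) 635269 (.nd (.nd .lf 635334
.lf) 635510 (.nd .lf 635766 .lf))) 635813 (.nd (.nd (.nd .lf 635845 .lf) 635925 (.nd .lf 635957 .lf)) 636021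
(.nd (.nd .lf 636085 .lf) 636225 .lf))))) 636342 (.nd (.nd (.nd (.nd (.nd (.nd .lf 636465 .lf) 636469 (.nd
.lf 636481 .lf)) 636485 (.nd (.nd .lf 636528 .lf) 636529 (.nd .lf 636530 .lf))) 636533 (.nd (.nd (.nd .lf
636534 .lf) 636726 (.nd .lf 636833 .lf)) 636834 (.nd (.nd .lf 636837 .lf) 636838 .lf))) 636949 (.nd (.nd (.nd
(.nd .lf 637558 .lf) 637814 (.nd .lf 639250 .lf)) 639266 (.nd (.nd .lf 639282 .lf) 639298 (.nd .lf 639314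
.lf))) 639330 (.nd (.nd (.nd .lf 639346 .lf) 639362 (.nd .lf 639378 .lf)) 639394 (.nd (.nd .lf 639410 .lf)
639426 .lf)))) 639781 (.nd (.nd (.nd (.nd (.nd .lf 640786 .lf) 640864 (.nd .lf 640866 .lf)) 640868 (.nd (.nd
.lf 659911 .lf) 660519 (.nd .lf 660583 .lf))) 660647 (.nd (.nd (.nd .lf 660811 .lf) 661051 (.nd .lf 661067
.lf)) 661527 (.nd (.nd .lf 661543 .lf) 661559 .lf))) 661575 (.nd (.nd (.nd (.nd .lf 661591 .lf) 661595 (.nd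
.lf 661607 .lf)) 661623 (.nd (.nd .lf 661639 .lf) 661655 (.nd .lf 661671 .lf))) 661687 (.nd (.nd (.nd .lf
661703 .lf) 668101 (.nd .lf 668485 .lf)) 668549 (.nd (.nd .lf 668693 .lf) 668709 .lf))))))) 668725 (.nd (.nd
(.nd (.nd (.nd (.nd (.nd (.nd .lf 668741 .lf) 668757 (.nd .lf 668773 .lf)) 668789 (.nd (.nd .lf 668805 .lf)
668821 (.nd .lf 668837 .lf))) 668853 (.nd (.nd (.nd .lf 668869 .lf) 669253 (.nd .lf 669305 .lf)) 669509 (.nd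
(.nd .lf 669573 .lf) 669605 .lf))) 669609 (.nd (.nd (.nd (.nd .lf 669721 .lf) 669729 (.nd .lf 669737 .lf))
669778 (.nd (.nd .lf 669841 .lf) 669857 (.nd .lf 670533 .lf))) 670597 (.nd (.nd (.nd .lf 676726 .lf) 677686
(.nd .lf 678002 .lf)) 678006 (.nd (.nd .lf 678710 .lf) 684358 .lf)))) 684421 (.nd (.nd (.nd (.nd (.nd .lf
684422 .lf) 684869 (.nd .lf 684870 .lf)) 684896 (.nd (.nd .lf 684918 .lf) 684933 (.nd .lf 684934 .lf)))
684965 (.nd (.nd (.nd .lf 685074 .lf) 685077 (.nd .lf 685078 .lf)) 685089 (.nd (.nd .lf 685090 .lf) 685093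
.lf))) 685094 (.nd (.nd (.nd (.nd .lf 685106 .lf) 685109 (.nd .lf 685110 .lf)) 685122 (.nd (.nd .lf 685126
.lf) 685141 (.nd .lf 685142 .lf))) 685157 (.nd (.nd (.nd .lf 685158 .lf) 685174 (.nd .lf 685190 .lf)) 685206
(.nd (.nd .lf 685221 .lf) 685222 .lf))))) 685238 (.nd (.nd (.nd (.nd (.nd (.nd .lf 685621 .lf) 685878 (.nd
.lf 685890 .lf)) 685894 (.nd (.nd .lf 685920 .lf) 685954 (.nd .lf 685958 .lf))) 686002 (.nd (.nd (.nd .lf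
686098 .lf) 686113 (.nd .lf 686162 .lf)) 686226 (.nd (.nd .lf 686918 .lf) 686981 .lf))) 686982 (.nd (.nd (.nd
(.nd .lf 693110 .lf) 693174 (.nd .lf 693190 .lf)) 693365 (.nd (.nd .lf 694070 .lf) 695094 (.nd .lf 700741
.lf))) 700805 (.nd (.nd (.nd .lf 700870 .lf) 701253 (.nd .lf 701302 .lf)) 701317 (.nd (.nd .lf 701349 .lf)
701761 .lf)))) 701766 (.nd (.nd (.nd (.nd (.nd .lf 701878 .lf) 702001 (.nd .lf 702005 .lf)) 702017 (.nd (.nd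
.lf 702230 .lf) 702262 (.nd .lf 702358 .lf))) 735377 (.nd (.nd (.nd .lf 735393 .lf) 742198 (.nd .lf 742454
.lf)) 743222 (.nd (.nd .lf 743478 .lf) 743585 .lf))) 744246 (.nd (.nd (.nd (.nd .lf 744502 .lf) 746309 (.nd
.lf 747333 .lf)) 750213 (.nd (.nd .lf 750501 .lf) 750741 (.nd .lf 750757 .lf))) 751157 (.nd (.nd (.nd .lf
751765 .lf) 751777 (.nd .lf 751781 .lf)) 753957 (.nd (.nd .lf 754021 .lf) 754197 .lf)))))) 754213 (.nd (.nd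
(.nd (.nd (.nd (.nd (.nd .lf 754229 .lf) 754245 (.nd .lf 754261 .lf)) 754277 (.nd (.nd .lf 754293 .lf) 754309
(.nd .lf 754325 .lf))) 754341 (.nd (.nd (.nd .lf 754977 .lf) 754981 (.nd .lf 755217 .lf)) 755221 (.nd (.nd
.lf 755249 .lf) 755253 .lf))) 755281 (.nd (.nd (.nd (.nd .lf 755285 .lf) 756069 (.nd .lf 758582 .lf)) 758597
(.nd (.nd .lf 758598 .lf) 758646 (.nd .lf 758662 .lf))) 758710 (.nd (.nd (.nd .lf 758726 .lf) 758789 (.nd .lf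
758805 .lf)) 758821 (.nd (.nd .lf 758837 .lf) 758853 .lf)))) 758869 (.nd (.nd (.nd (.nd (.nd .lf 758885 .lf)
758901 (.nd .lf 758902 .lf)) 758917 (.nd (.nd .lf 758933 .lf) 758949 (.nd .lf 758965 .lf))) 758981 (.nd (.nd
(.nd .lf 759173 .lf) 759429 (.nd .lf 759606 .lf)) 759621 (.nd (.nd .lf 759889 .lf) 759890 .lf))) 759893 (.nd
(.nd (.nd (.nd .lf 759894 .lf) 760630 (.nd .lf 762693 .lf)) 763265 (.nd (.nd .lf 763525 .lf) 766406 (.nd .lf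
766885 .lf))) 767414 (.nd (.nd (.nd .lf 767430 .lf) 767537 (.nd .lf 767541 .lf)) 770613 (.nd (.nd .lf 770693
.lf) 771637 .lf))))) 800321 (.nd (.nd (.nd (.nd (.nd (.nd .lf 800385 .lf) 800913 (.nd .lf 800929 .lf)) 807302
(.nd (.nd .lf 807734 .lf) 807750 (.nd .lf 808310 .lf))) 808322 (.nd (.nd (.nd .lf 808326 .lf) 808754 (.nd .lf
808758 .lf)) 809782 (.nd (.nd .lf 815669 .lf) 815797 .lf))) 816037 (.nd (.nd (.nd (.nd .lf 816658 .lf) 816693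
(.nd .lf 816722 .lf)) 816725 (.nd (.nd .lf 816786 .lf) 824118 (.nd .lf 824134 .lf))) 824182 (.nd (.nd (.nd
.lf 824198 .lf) 824229 (.nd .lf 824246 .lf)) 824262 (.nd (.nd .lf 824437 .lf) 824694 .lf)))) 825142 (.nd (.nd
(.nd (.nd (.nd .lf 825185 .lf) 826166 (.nd .lf 831862 .lf)) 831942 (.nd (.nd .lf 832069 .lf) 832133 (.nd .lf
832421 .lf))) 832950 (.nd (.nd (.nd .lf 833073 .lf) 833077 (.nd .lf 833089 .lf)) 833153 (.nd (.nd .lf 833430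
.lf) 1063073 .lf))) 1070006 (.nd (.nd (.nd (.nd .lf 1070902 .lf) 1071926 (.nd .lf 1077430 .lf)) 1077942 (.nd
(.nd .lf 1078181 .lf) 1078198 (.nd .lf 1078454 .lf))) 1078837 (.nd (.nd (.nd .lf 1078965 .lf) 1078966 (.nd
.lf 1079222 .lf)) 1079478 (.nd (.nd .lf 1079990 .lf) 1080229 .lf)))))))) 1080230 (.nd (.nd (.nd (.nd (.nd
(.nd (.nd (.nd (.nd .lf 1080469 .lf) 1080485 (.nd .lf 1080502 .lf)) 1086581 (.nd (.nd .lf 1093702 .lf)
1093957 (.nd .lf 1093958 .lf))) 1094021 (.nd (.nd (.nd .lf 1094214 .lf) 1094470 (.nd .lf 1094565 .lf))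
1094678 (.nd (.nd .lf 1094710 .lf) 1094726 .lf))) 1094977 (.nd (.nd (.nd (.nd .lf 1094982 .lf) 1095221 (.nd
.lf 1095233 .lf)) 1095234 (.nd (.nd .lf 1095238 .lf) 1095365 (.nd .lf 1095494 .lf))) 1095585 (.nd (.nd (.nd
.lf 1095589 .lf) 1095750 (.nd .lf 1095841 .lf)) 1095842 (.nd (.nd .lf 1095845 .lf) 1096006 .lf)))) 1096069
(.nd (.nd (.nd (.nd (.nd .lf 1096262 .lf) 1096518 (.nd .lf 1096774 .lf)) 1114471 (.nd (.nd .lf 1114535 .lf)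
1114715 (.nd .lf 1114727 .lf))) 1114731 (.nd (.nd (.nd .lf 1114779 .lf) 1114791 (.nd .lf 1114795 .lf))
1114983 (.nd (.nd .lf 1115239 .lf) 1115495 .lf))) 1115559 (.nd (.nd (.nd (.nd .lf 1115739 .lf) 1115751 (.nd
.lf 1115755 .lf)) 1115815 (.nd (.nd .lf 1115851 .lf) 1116007 (.nd .lf 1116011 .lf))) 1116263 (.nd (.nd (.nd
.lf 1116519 .lf) 1116775 (.nd .lf 1116795 .lf)) 1116811 (.nd (.nd .lf 1144512 .lf) 1144992 .lf))))) 1180251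
(.nd (.nd (.nd (.nd (.nd (.nd .lf 1180267 .lf) 1180315 (.nd .lf 1180331 .lf)) 1181067 (.nd (.nd .lf 1181131
.lf) 1181211 (.nd .lf 1181227 .lf))) 1181275 (.nd (.nd (.nd .lf 1181291 .lf) 1181323 (.nd .lf 1181339 .lf))
1181355 (.nd (.nd .lf 1181387 .lf) 1181547 .lf))) 1182235 (.nd (.nd (.nd (.nd .lf 1182251 .lf) 1182267 (.nd
.lf 1182283 .lf)) 1182299 (.nd (.nd .lf 1182315 .lf) 1182331 (.nd .lf 1182347 .lf))) 1182363 (.nd (.nd (.nd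
.lf 1182379 .lf) 1182395 (.nd .lf 1182411 .lf)) 1212752 (.nd (.nd .lf 1213008 .lf) 1213264 .lf)))) 1213520
(.nd (.nd (.nd (.nd (.nd .lf 1213776 .lf) 1213872 (.nd .lf 1214032 .lf)) 1214288 (.nd (.nd .lf 1214544 .lf)
1214800 (.nd .lf 1215056 .lf))) 1215312 (.nd (.nd (.nd .lf 1215568 .lf) 1226432 (.nd .lf 1226912 .lf))
1245573 (.nd (.nd .lf 1245787 .lf) 1245803 .lf))) 1245829 (.nd (.nd (.nd (.nd .lf 1245851 .lf) 1245867 (.nd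
.lf 1246085 .lf)) 1246149 (.nd (.nd .lf 1246341 .lf) 1246405 (.nd .lf 1246597 .lf))) 1246811 (.nd (.nd (.nd
.lf 1246827 .lf) 1246853 (.nd .lf 1246875 .lf)) 1246891 (.nd (.nd .lf 1247083 .lf) 1247109 .lf)))))) 1247365
(.nd (.nd (.nd (.nd (.nd (.nd (.nd .lf 1247621 .lf) 1247835 (.nd .lf 1247851 .lf)) 1247877 (.nd (.nd .lf
1267872 .lf) 1273925 (.nd .lf 1290373 .lf))) 1311323 (.nd (.nd (.nd .lf 1311339 .lf) 1311387 (.nd .lf 1311403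
.lf)) 1312283 (.nd (.nd .lf 1312299 .lf) 1312347 .lf))) 1312363 (.nd (.nd (.nd (.nd .lf 1312411 .lf) 1312427
(.nd .lf 1312619 .lf)) 1313307 (.nd (.nd .lf 1313323 .lf) 1313339 (.nd .lf 1313355 .lf))) 1313371 (.nd (.nd
(.nd .lf 1313387 .lf) 1313403 (.nd .lf 1313419 .lf)) 1313435 (.nd (.nd .lf 1313451 .lf) 1313467 .lf))))
1313483 (.nd (.nd (.nd (.nd (.nd .lf 1331329 .lf) 1331333 (.nd .lf 1334277 .lf)) 1335409 (.nd (.nd .lf
1335664 .lf) 1335920 (.nd .lf 1336176 .lf))) 1336432 (.nd (.nd (.nd .lf 1336688 .lf) 1336944 (.nd .lf 1337200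
.lf)) 1337232 (.nd (.nd .lf 1337456 .lf) 1337520 .lf))) 1337712 (.nd (.nd (.nd (.nd .lf 1337968 .lf) 1338224
(.nd .lf 1338480 .lf)) 1357984 (.nd (.nd .lf 1376859 .lf) 1376875 (.nd .lf 1376923 .lf))) 1376939 (.nd (.nd
(.nd .lf 1377146 .lf) 1377819 (.nd .lf 1377835 .lf)) 1377883 (.nd (.nd .lf 1377899 .lf) 1377947 .lf)))))
1377963 (.nd (.nd (.nd (.nd (.nd (.nd .lf 1377991 .lf) 1377995 (.nd .lf 1378106 .lf)) 1378155 (.nd (.nd .lf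
1378219 .lf) 1378230 (.nd .lf 1378234 .lf))) 1378475 (.nd (.nd (.nd .lf 1378843 .lf) 1378859 (.nd .lf 1378875
.lf)) 1378891 (.nd (.nd .lf 1378907 .lf) 1378923 .lf))) 1378939 (.nd (.nd (.nd (.nd .lf 1378955 .lf) 1378971
(.nd .lf 1378987 .lf)) 1378999 (.nd (.nd .lf 1379003 .lf) 1379015 (.nd .lf 1379019 .lf))) 1379194 (.nd (.nd
(.nd .lf 1379239 .lf) 1404998 (.nd .lf 1406656 .lf)) 1406880 (.nd (.nd .lf 1407136 .lf) 1409728 .lf))))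
1410336 (.nd (.nd (.nd (.nd (.nd .lf 1410592 .lf) 1410848 (.nd .lf 1411104 .lf)) 1411360 (.nd (.nd .lf
1411776 .lf) 1411872 (.nd .lf 1412128 .lf))) 1418352 (.nd (.nd (.nd .lf 1419376 .lf) 1419440 (.nd .lf 1423040
.lf)) 1423264 (.nd (.nd .lf 1423520 .lf) 1426000 .lf))) 1426032 (.nd (.nd (.nd (.nd .lf 1426048 .lf) 1426064
(.nd .lf 1426080 .lf)) 1426096 (.nd (.nd .lf 1426112 .lf) 1427488 (.nd .lf 1427616 .lf))) 1442187 (.nd (.nd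
(.nd .lf 1442395 .lf) 1442443 (.nd .lf 1442459 .lf)) 1442475 (.nd (.nd .lf 1442699 .lf) 1442967 .lf)))))))
1443211 (.nd (.nd (.nd (.nd (.nd (.nd (.nd (.nd .lf 1443275 .lf) 1443351 (.nd .lf 1443355 .lf)) 1443371 (.nd
(.nd .lf 1443419 .lf) 1443435 (.nd .lf 1443467 .lf))) 1443483 (.nd (.nd (.nd .lf 1443499 .lf) 1443531 (.nd
.lf 1443691 .lf)) 1443723 (.nd (.nd .lf 1443740 .lf) 1443755 .lf))) 1443863 (.nd (.nd (.nd (.nd .lf 1443931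
.lf) 1443979 (.nd .lf 1444235 .lf)) 1444280 (.nd (.nd .lf 1444375 .lf) 1444379 (.nd .lf 1444411 .lf)))
1444427 (.nd (.nd (.nd .lf 1444443 .lf) 1444459 (.nd .lf 1444475 .lf)) 1444491 (.nd (.nd .lf 1444507 .lf)
1444523 .lf)))) 1444535 (.nd (.nd (.nd (.nd (.nd .lf 1444539 .lf) 1444555 (.nd .lf 1444747 .lf)) 1444775 (.nd
(.nd .lf 1444887 .lf) 1445003 (.nd .lf 1470514 .lf))) 1470578 (.nd (.nd (.nd .lf 1470594 .lf) 1470597 (.nd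
.lf 1470642 .lf)) 1470658 (.nd (.nd .lf 1473072 .lf) 1473136 .lf))) 1473216 (.nd (.nd (.nd (.nd .lf 1473696
.lf) 1486962 (.nd .lf 1487488 .lf)) 1488256 (.nd (.nd .lf 1488512 .lf) 1488576 (.nd .lf 1489056 .lf)))
1489536 (.nd (.nd (.nd .lf 1491568 .lf) 1491584 (.nd .lf 1491600 .lf)) 1491616 (.nd (.nd .lf 1491632 .lf)
1491648 .lf))))) 1493024 (.nd (.nd (.nd (.nd (.nd (.nd .lf 1493152 .lf) 1507676 (.nd .lf 1507995 .lf))
1508011 (.nd (.nd .lf 1508636 .lf) 1508764 (.nd .lf 1508780 .lf))) 1508891 (.nd (.nd (.nd .lf 1508907 .lf)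
1508955 (.nd .lf 1508956 .lf)) 1508971 (.nd (.nd .lf 1509019 .lf) 1509035 .lf))) 1509045 (.nd (.nd (.nd (.nd
.lf 1509227 .lf) 1509541 (.nd .lf 1509547 .lf)) 1509915 (.nd (.nd .lf 1509947 .lf) 1509963 (.nd .lf 1509979
.lf))) 1509980 (.nd (.nd (.nd .lf 1509995 .lf) 1510011 (.nd .lf 1510027 .lf)) 1510043 (.nd (.nd .lf 1510059
.lf) 1510075 .lf)))) 1510091 (.nd (.nd (.nd (.nd (.nd .lf 1510266 .lf) 1510489 (.nd .lf 1527862 .lf)) 1529280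
(.nd (.nd .lf 1529536 .lf) 1530016 (.nd .lf 1531969 .lf))) 1533088 (.nd (.nd (.nd .lf 1533120 .lf) 1533248
(.nd .lf 1533504 .lf)) 1533760 (.nd (.nd .lf 1534016 .lf) 1534144 .lf))) 1534272 (.nd (.nd (.nd (.nd .lf
1540133 .lf) 1545664 (.nd .lf 1554592 .lf)) 1556517 (.nd (.nd .lf 1557136 .lf) 1558096 (.nd .lf 1558160
.lf))) 1573531 (.nd (.nd (.nd .lf 1573547 .lf) 1574300 (.nd .lf 1574427 .lf)) 1574443 (.nd (.nd .lf 1574453
.lf) 1574491 .lf)))))) 1574507 (.nd (.nd (.nd (.nd (.nd (.nd (.nd .lf 1574555 .lf) 1574571 (.nd .lf 1574763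
.lf)) 1574965 (.nd (.nd .lf 1575260 .lf) 1575451 (.nd .lf 1575477 .lf))) 1575483 (.nd (.nd (.nd .lf 1575515
.lf) 1575531 (.nd .lf 1575547 .lf)) 1575563 (.nd (.nd .lf 1575579 .lf) 1575595 .lf))) 1575611 (.nd (.nd (.nd
(.nd .lf 1575627 .lf) 1575989 (.nd .lf 1585249 .lf)) 1593394 (.nd (.nd .lf 1593397 .lf) 1593398 (.nd .lf
1596432 .lf))) 1596496 (.nd (.nd (.nd .lf 1596560 .lf) 1597493 (.nd .lf 1601554 .lf)) 1601589 (.nd (.nd .lf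
1601714 .lf) 1605685 .lf)))) 1609781 (.nd (.nd (.nd (.nd (.nd .lf 1617973 .lf) 1618018 (.nd .lf 1620128 .lf))
1622069 (.nd (.nd .lf 1623696 .lf) 1623712 (.nd .lf 1624416 .lf))) 1624672 (.nd (.nd (.nd .lf 1639067 .lf)
1639083 (.nd .lf 1639286 .lf)) 1639963 (.nd (.nd .lf 1639979 .lf) 1640011 .lf))) 1640027 (.nd (.nd (.nd (.nd
.lf 1640043 .lf) 1640059 (.nd .lf 1640091 .lf)) 1640107 (.nd (.nd .lf 1640119 .lf) 1640139 (.nd .lf 1640246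
.lf))) 1640295 (.nd (.nd (.nd .lf 1640299 .lf) 1640300 (.nd .lf 1640374 .lf)) 1640551 (.nd (.nd .lf 1640615
.lf) 1640619 .lf))))) 1640987 (.nd (.nd (.nd (.nd (.nd (.nd .lf 1641019 .lf) 1641051 (.nd .lf 1641067 .lf))
1641083 (.nd (.nd .lf 1641099 .lf) 1641115 (.nd .lf 1641131 .lf))) 1641143 (.nd (.nd (.nd .lf 1641147 .lf)
1641163 (.nd .lf 1641319 .lf)) 1641334 (.nd (.nd .lf 1665136 .lf) 1667142 .lf))) 1667206 (.nd (.nd (.nd (.nd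
.lf 1667254 .lf) 1668800 (.nd .lf 1669280 .lf)) 1672480 (.nd (.nd .lf 1672992 .lf) 1673248 (.nd .lf 1685104
.lf))) 1685184 (.nd (.nd (.nd .lf 1685664 .lf) 1688208 (.nd .lf 1688240 .lf)) 1688256 (.nd (.nd .lf 1689440
.lf) 1704331 .lf)))) 1704603 (.nd (.nd (.nd (.nd (.nd .lf 1705355 .lf) 1705419 (.nd .lf 1705499 .lf)) 1705563
(.nd (.nd .lf 1705579 .lf) 1705595 (.nd .lf 1705611 .lf))) 1705627 (.nd (.nd (.nd .lf 1705643 .lf) 1705655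
(.nd .lf 1705675 .lf)) 1705835 (.nd (.nd .lf 1706007 .lf) 1706027 .lf))) 1706075 (.nd (.nd (.nd (.nd .lf
1706091 .lf) 1706155 (.nd .lf 1706523 .lf)) 1706555 (.nd (.nd .lf 1706587 .lf) 1706603 .lf)) 1706619 (.nd
(.nd (.nd .lf 1706635 .lf) 1706651 (.nd .lf 1706667 .lf)) 1706683 (.nd (.nd .lf 1706699 .lf) 1706855
.lf)))))))))) 1733472 (.nd (.nd (.nd (.nd (.nd (.nd (.nd (.nd (.nd (.nd (.nd .lf 1734336 .lf) 1734496 (.nd
.lf 1734688 .lf)) 1735520 (.nd (.nd .lf 1735776 .lf) 1738432 (.nd .lf 1750592 .lf))) 1750656 (.nd (.nd (.nd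
.lf 1750720 .lf) 1751045 (.nd .lf 1751072 .lf)) 1751120 (.nd (.nd .lf 1751136 .lf) 1751200 .lf))) 1752069
(.nd (.nd (.nd (.nd .lf 1753776 .lf) 1753792 (.nd .lf 1755216 .lf)) 1755232 (.nd (.nd .lf 1769816 .lf)
1769831 (.nd .lf 1770343 .lf))) 1770776 (.nd (.nd (.nd .lf 1770855 .lf) 1770856 (.nd .lf 1770860 .lf))
1770885 (.nd (.nd .lf 1770889 .lf) 1770920 .lf)))) 1770924 (.nd (.nd (.nd (.nd (.nd .lf 1771035 .lf) 1771096
(.nd .lf 1771099 .lf)) 1771111 (.nd (.nd .lf 1771115 .lf) 1771141 (.nd .lf 1771163 .lf))) 1771175 (.nd (.nd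
(.nd .lf 1771179 .lf) 1771367 (.nd .lf 1771371 .lf)) 1771429 (.nd (.nd .lf 1771462 .lf) 1771623 .lf)))
1771864 (.nd (.nd (.nd (.nd .lf 1771879 .lf) 1772055 (.nd .lf 1772059 .lf)) 1772091 (.nd (.nd .lf 1772120
.lf) 1772123 (.nd .lf 1772135 .lf))) 1772139 (.nd (.nd (.nd .lf 1772155 .lf) 1772171 (.nd .lf 1772183 .lf))
1772187 (.nd (.nd .lf 1772199 .lf) 1772203 .lf))))) 1772215 (.nd (.nd (.nd (.nd (.nd (.nd .lf 1772219 .lf)
1772235 (.nd .lf 1772391 .lf)) 1772647 (.nd (.nd .lf 1792160 .lf) 1798214 (.nd .lf 1803856 .lf))) 1804640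
(.nd (.nd (.nd .lf 1807365 .lf) 1808464 (.nd .lf 1811840 .lf)) 1816736 (.nd (.nd .lf 1836440 .lf) 1836455
.lf))) 1836571 (.nd (.nd (.nd (.nd .lf 1836635 .lf) 1836651 (.nd .lf 1836695 .lf)) 1836699 (.nd (.nd .lf
1836715 .lf) 1836907 (.nd .lf 1837400 .lf))) 1837595 (.nd (.nd (.nd .lf 1837627 .lf) 1837655 (.nd .lf 1837659
.lf)) 1837675 (.nd (.nd .lf 1837691 .lf) 1837707 .lf)))) 1837723 (.nd (.nd (.nd (.nd (.nd .lf 1837739 .lf)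
1837755 (.nd .lf 1837771 .lf)) 1855872 (.nd (.nd .lf 1856896 .lf) 1857152 (.nd .lf 1857920 .lf))) 1863777
(.nd (.nd (.nd .lf 1863781 .lf) 1863858 (.nd .lf 1869456 .lf)) 1869472 (.nd (.nd .lf 1870176 .lf) 1870432
.lf))) 1882272 (.nd (.nd (.nd (.nd .lf 2111633 .lf) 2111649 (.nd .lf 2119478 .lf)) 2120502 (.nd (.nd .lf
2126757 .lf) 2127413 (.nd .lf 2135157 .lf))) 2136901 (.nd (.nd (.nd .lf 2142533 .lf) 2142597 (.nd .lf 2143141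
.lf)) 2143553 (.nd (.nd .lf 2143797 .lf) 2143809 .lf)))))) 2144161 (.nd (.nd (.nd (.nd (.nd (.nd (.nd .lf
2145377 .lf) 2148641 (.nd .lf 2148645 .lf)) 2148673 (.nd (.nd .lf 2322501 .lf) 2330757 (.nd .lf 2338949
.lf))) 2379905 (.nd (.nd (.nd .lf 2379909 .lf) 2382853 (.nd .lf 2425722 .lf)) 2426567 (.nd (.nd .lf 2426682
.lf) 2426810 .lf))) 2427320 (.nd (.nd (.nd (.nd .lf 2427515 .lf) 2427575 (.nd .lf 2427591 .lf)) 2427770 (.nd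
(.nd .lf 2428055 .lf) 2455232 (.nd .lf 2455456 .lf))) 2455712 (.nd (.nd (.nd .lf 2460096 .lf) 2467952 (.nd
.lf 2468016 .lf)) 2471840 (.nd (.nd .lf 2472096 .lf) 2475920 .lf)))) 2475936 (.nd (.nd (.nd (.nd (.nd .lf
2476128 .lf) 2476192 (.nd .lf 2476304 .lf)) 2476336 (.nd (.nd .lf 2476368 .lf) 2476384 (.nd .lf 2476400
.lf))) 2476416 (.nd (.nd (.nd .lf 2476432 .lf) 2476448 (.nd .lf 2476464 .lf)) 2476480 (.nd (.nd .lf 2491927
.lf) 2492439 .lf))) 2493463 (.nd (.nd (.nd (.nd .lf 2519090 .lf) 2519154 (.nd .lf 2519218 .lf)) 2519233 (.nd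
(.nd .lf 2519234 .lf) 2519237 (.nd .lf 2519488 .lf))) 2520000 (.nd (.nd (.nd .lf 2520512 .lf) 2520768 (.nd
.lf 2521024 .lf)) 2521280 (.nd (.nd .lf 2521536 .lf) 2521648 .lf))))) 2521712 (.nd (.nd (.nd (.nd (.nd (.nd
.lf 2521792 .lf) 2522048 (.nd .lf 2522304 .lf)) 2535538 (.nd (.nd .lf 2535553 .lf) 2535554 (.nd .lf 2535557
.lf))) 2535808 (.nd (.nd (.nd .lf 2536832 .lf) 2537088 (.nd .lf 2537344 .lf)) 2537600 (.nd (.nd .lf 2537856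
.lf) 2538096 .lf))) 2538112 (.nd (.nd (.nd (.nd .lf 2538368 .lf) 2538624 (.nd .lf 2556342 .lf)) 2556854 (.nd
(.nd .lf 2557212 .lf) 2557336 (.nd .lf 2557340 .lf))) 2557366 (.nd (.nd (.nd .lf 2557532 .lf) 2557622 (.nd
.lf 2557626 .lf)) 2557878 (.nd (.nd .lf 2558117 .lf) 2558134 .lf)))) 2558300 (.nd (.nd (.nd (.nd (.nd .lf
2558390 .lf) 2558646 (.nd .lf 2558746 .lf)) 2558810 (.nd (.nd .lf 2558826 .lf) 2558842 (.nd .lf 2558858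
.lf))) 2558874 (.nd (.nd (.nd .lf 2558886 .lf) 2558890 (.nd .lf 2558902 .lf)) 2558906 (.nd (.nd .lf 2558922
.lf) 2559065 .lf))) 2559141 (.nd (.nd (.nd (.nd .lf 2559158 .lf) 2576438 (.nd .lf 2577856 .lf)) 2578112 (.nd
(.nd .lf 2578592 .lf) 2588709 (.nd .lf 2594240 .lf))) 2605093 (.nd (.nd (.nd .lf 2605153 .lf) 2605217 (.nd
.lf 2606496 .lf)) 2606672 (.nd (.nd .lf 2606736 .lf) 2606992 .lf))))))) 2607408 (.nd (.nd (.nd (.nd (.nd (.nd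
(.nd (.nd .lf 2607440 .lf) 2607456 (.nd .lf 2607472 .lf)) 2607488 (.nd (.nd .lf 2607504 .lf) 2607520 (.nd .lf
2607536 .lf))) 2607552 (.nd (.nd (.nd .lf 2607696 .lf) 2607760 (.nd .lf 2623029 .lf)) 2623541 (.nd (.nd .lf
2633825 .lf) 2641970 .lf))) 2641973 (.nd (.nd (.nd (.nd .lf 2641974 .lf) 2645072 (.nd .lf 2650130 .lf))
2650165 (.nd (.nd .lf 2650277 .lf) 2658357 (.nd .lf 2666549 .lf))) 2688455 (.nd (.nd (.nd .lf 2688822 .lf)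
2688871 (.nd .lf 2688875 .lf)) 2688950 (.nd (.nd .lf 2689127 .lf) 2689191 .lf)))) 2689895 (.nd (.nd (.nd (.nd
(.nd .lf 2689910 .lf) 2690151 (.nd .lf 2690199 .lf)) 2690215 (.nd (.nd .lf 2714496 .lf) 2717360 (.nd .lf
2717856 .lf))) 2721216 (.nd (.nd (.nd .lf 2721456 .lf) 2721472 (.nd .lf 2722480 .lf)) 2722496 (.nd (.nd .lf
2733680 .lf) 2733696 .lf))) 2738016 (.nd (.nd (.nd (.nd .lf 2738064 .lf) 2738080 (.nd .lf 2738256 .lf))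
2738272 (.nd (.nd .lf 2738336 .lf) 2738512 (.nd .lf 2738528 .lf))) 2738544 (.nd (.nd (.nd .lf 2738560 .lf)
2738576 (.nd .lf 2738592 .lf)) 2738608 (.nd (.nd .lf 2738624 .lf) 2783072 .lf))))) 2784261 (.nd (.nd (.nd
(.nd (.nd (.nd .lf 2784336 .lf) 2784352 (.nd .lf 2784368 .lf)) 2784384 (.nd (.nd .lf 2784400 .lf) 2784416
(.nd .lf 2784432 .lf))) 2784448 (.nd (.nd (.nd .lf 2799456 .lf) 2799621 (.nd .lf 2799632 .lf)) 2799696 (.nd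
(.nd .lf 2799712 .lf) 2799728 .lf))) 2799744 (.nd (.nd (.nd (.nd .lf 2799760 .lf) 2799776 (.nd .lf 2799792
.lf)) 2799808 (.nd (.nd .lf 2819461 .lf) 2819465 (.nd .lf 2819480 .lf))) 2819717 (.nd (.nd (.nd .lf 2820005
.lf) 2820440 (.nd .lf 2846854 .lf)) 2852432 (.nd (.nd .lf 2853216 .lf) 2855941 .lf)))) 2857040 (.nd (.nd (.nd
(.nd (.nd .lf 2860416 .lf) 2868576 (.nd .lf 2868640 .lf)) 2868816 (.nd (.nd .lf 2868880 .lf) 2869136 (.nd .lf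
2869584 .lf))) 2869600 (.nd (.nd (.nd .lf 2869616 .lf) 2869632 (.nd .lf 2869648 .lf)) 2869664 (.nd (.nd .lf
2869680 .lf) 2869696 .lf))) 2869840 (.nd (.nd (.nd (.nd .lf 2869904 .lf) 2905472 (.nd .lf 2905712 .lf))
2912353 (.nd (.nd .lf 2912357 .lf) 3160225 (.nd .lf 3168054 .lf))) 3168710 (.nd (.nd (.nd .lf 3169078 .lf)
3169190 (.nd .lf 3175093 .lf)) 3175333 (.nd (.nd .lf 3175989 .lf) 3177622 .lf)))))) 3178657 (.nd (.nd (.nd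
(.nd (.nd (.nd (.nd .lf 3178661 .lf) 3178917 (.nd .lf 3179173 .lf)) 3179429 (.nd (.nd .lf 3179685 .lf)
3179941 (.nd .lf 3180193 .lf))) 3180197 (.nd (.nd (.nd .lf 3180449 .lf) 3180453 (.nd .lf 3180705 .lf))
3180709 (.nd (.nd .lf 3180965 .lf) 3181109 .lf))) 3181221 (.nd (.nd (.nd (.nd .lf 3181477 .lf) 3181733 (.nd
.lf 3183733 .lf)) 3184309 (.nd (.nd .lf 3184325 .lf) 3184438 (.nd .lf 3184454 .lf))) 3184710 (.nd (.nd (.nd
.lf 3185462 .lf) 3185477 (.nd .lf 3185478 .lf)) 3185718 (.nd (.nd .lf 3185734 .lf) 3188789 .lf)))) 3191109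
(.nd (.nd (.nd (.nd (.nd .lf 3191173 .lf) 3191717 (.nd .lf 3192129 .lf)) 3192373 (.nd (.nd .lf 3192385 .lf)
3193221 (.nd .lf 3193285 .lf))) 3196833 (.nd (.nd (.nd .lf 3197477 .lf) 3244069 (.nd .lf 3248261 .lf))
3309605 (.nd (.nd .lf 3309649 .lf) 3309665 .lf))) 3309729 (.nd (.nd (.nd (.nd .lf 3371077 .lf) 3375265 (.nd
.lf 3387525 .lf)) 3428481 (.nd (.nd .lf 3428485 .lf) 3431429 (.nd .lf 3444869 .lf))) 3447813 (.nd (.nd (.nd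
.lf 3506337 .lf) 3567666 (.nd .lf 3567730 .lf)) 3567794 (.nd (.nd .lf 3575941 .lf) 3625014 .lf))))) 3637285
(.nd (.nd (.nd (.nd (.nd (.nd .lf 3637409 .lf) 3641413 (.nd .lf 3690546 .lf)) 3690549 (.nd (.nd .lf 3690550
.lf) 3694645 (.nd .lf 3698706 .lf))) 3698741 (.nd (.nd (.nd .lf 3702837 .lf) 3706933 (.nd .lf 3706934 .lf))
3706949 (.nd (.nd .lf 3706977 .lf) 3706981 .lf))) 3711029 (.nd (.nd (.nd (.nd .lf 3711073 .lf) 3715094 (.nd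
.lf 3715125 .lf)) 3756165 (.nd (.nd .lf 3756166 .lf) 3760257 (.nd .lf 3760261 .lf))) 3764294 (.nd (.nd (.nd
.lf 3764357 .lf) 3764358 (.nd .lf 3768353 .lf)) 3768357 (.nd (.nd .lf 3768453 .lf) 3768481 .lf)))) 3768485
(.nd (.nd (.nd (.nd (.nd .lf 3772549 .lf) 3780741 (.nd .lf 3833889 .lf)) 3833893 (.nd (.nd .lf 3833925 .lf)
3834017 (.nd .lf 3834021 .lf))) 3841029 (.nd (.nd (.nd .lf 3848197 .lf) 3887158 (.nd .lf 3887174 .lf))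
3891265 (.nd (.nd .lf 3891269 .lf) 3899429 .lf))) 3899553 (.nd (.nd (.nd (.nd .lf 3903621 .lf) 3904517 (.nd
.lf 3952694 .lf)) 3965089 (.nd (.nd .lf 3970053 .lf) 4208801 (.nd .lf 4216630 .lf))) 4217654 (.nd (.nd (.nd
.lf 4223669 .lf) 4223909 (.nd .lf 4224565 .lf)) 4225957 (.nd (.nd .lf 4231297 .lf) 4232133 .lf))))))))
4232309 (.nd (.nd (.nd (.nd (.nd (.nd (.nd (.nd (.nd .lf 4232577 .lf) 4232833 (.nd .lf 4233014 .lf)) 4233157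
(.nd (.nd .lf 4233266 .lf) 4233394 (.nd .lf 4234038 .lf))) 4234181 (.nd (.nd (.nd .lf 4234273 .lf) 4234321
(.nd .lf 4234337 .lf)) 4234354 (.nd (.nd .lf 4238113 .lf) 4238117 .lf))) 4238145 (.nd (.nd (.nd (.nd .lf
4238177 .lf) 4239685 (.nd .lf 4239749 .lf)) 4239941 (.nd (.nd .lf 4240037 .lf) 4240069 (.nd .lf 4240293
.lf))) 4240705 (.nd (.nd (.nd .lf 4240945 .lf) 4240949 (.nd .lf 4240961 .lf)) 4241234 (.nd (.nd .lf 4241313
.lf) 4296833 .lf)))) 4296837 (.nd (.nd (.nd (.nd (.nd .lf 4299781 .lf) 4362369 (.nd .lf 4419653 .lf)) 4427905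
(.nd (.nd .lf 4427909 .lf) 4430853 (.nd .lf 4436101 .lf))) 4438533 (.nd (.nd (.nd .lf 4477057 .lf) 4477061
(.nd .lf 4480005 .lf)) 4493441 (.nd (.nd .lf 4493445 .lf) 4496389 .lf))) 4550722 (.nd (.nd (.nd (.nd .lf
4550834 .lf) 4558977 (.nd .lf 4616242 .lf)) 4616306 (.nd (.nd .lf 4624513 .lf) 4673590 (.nd .lf 4685861
.lf))) 4689989 (.nd (.nd (.nd .lf 4690049 .lf) 4692997 (.nd .lf 4739122 .lf)) 4739125 (.nd (.nd .lf 4739126
.lf) 4739233 .lf))))) 4739234 (.nd (.nd (.nd (.nd (.nd (.nd .lf 4739237 .lf) 4739250 (.nd .lf 4747282 .lf))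
4747317 (.nd (.nd .lf 4747429 .lf) 4755478 (.nd .lf 4755494 .lf))) 4755509 (.nd (.nd (.nd .lf 4755525 .lf)
4755553 (.nd .lf 4755554 .lf)) 4755557 (.nd (.nd .lf 4755585 .lf) 4755586 .lf))) 4755589 (.nd (.nd (.nd (.nd
.lf 4755621 .lf) 4755653 (.nd .lf 4763701 .lf)) 4804737 (.nd (.nd .lf 4804741 .lf) 4807685 (.nd .lf 4812870
.lf))) 4812930 (.nd (.nd (.nd .lf 4812934 .lf) 4821121 (.nd .lf 4821125 .lf)) 4824069 (.nd (.nd .lf 4880389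
.lf) 4886657 .lf)))) 4935734 (.nd (.nd (.nd (.nd (.nd .lf 4939841 .lf) 4939845 (.nd .lf 4946437 .lf)) 4952193
(.nd (.nd .lf 4953093 .lf) 4955141 (.nd .lf 4962821 .lf))) 5003781 (.nd (.nd (.nd .lf 5009573 .lf) 5017622
(.nd .lf 5017638 .lf)) 5017729 (.nd (.nd .lf 5018629 .lf) 5019141 .lf))) 5019653 (.nd (.nd (.nd (.nd .lf
5020165 .lf) 5020677 (.nd .lf 5257361 .lf)) 5257377 (.nd (.nd .lf 5265206 .lf) 5266230 (.nd .lf 5272246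
.lf))) 5272485 (.nd (.nd (.nd .lf 5273141 .lf) 5273269 (.nd .lf 5273270 .lf)) 5274294 (.nd (.nd .lf 5274533
.lf) 5274534 .lf)))))) 5280630 (.nd (.nd (.nd (.nd (.nd (.nd (.nd .lf 5280885 .lf) 5281590 (.nd .lf 5282614
.lf)) 5287025 (.nd (.nd .lf 5287029 .lf) 5288261 (.nd .lf 5288262 .lf))) 5288325 (.nd (.nd (.nd .lf 5288390
.lf) 5288869 (.nd .lf 5288870 .lf)) 5288982 (.nd (.nd .lf 5289281 .lf) 5289525 .lf))) 5289537 (.nd (.nd (.nd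
(.nd .lf 5289794 .lf) 5289878 (.nd .lf 5290006 .lf)) 5290017 (.nd (.nd .lf 5290310 .lf) 5290818 (.nd .lf
5353542 .lf))) 5419126 (.nd (.nd (.nd .lf 5419142 .lf) 5468229 (.nd .lf 5472289 .lf)) 5476486 (.nd (.nd .lf
5480581 .lf) 5484614 .lf)))) 5484677 (.nd (.nd (.nd (.nd (.nd .lf 5525633 .lf) 5525637 (.nd .lf 5528581 .lf))
5529713 (.nd (.nd .lf 5542017 .lf) 5542021 (.nd .lf 5542022 .lf))) 5544965 (.nd (.nd (.nd .lf 5550102 .lf)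
5550118 (.nd .lf 5550134 .lf)) 5550146 (.nd (.nd .lf 5550150 .lf) 5550166 .lf))) 5550182 (.nd (.nd (.nd (.nd
.lf 5550194 .lf) 5550198 (.nd .lf 5550210 .lf)) 5550214 (.nd (.nd .lf 5550230 .lf) 5550246 (.nd .lf 5550262
.lf))) 5550274 (.nd (.nd (.nd .lf 5572295 .lf) 5572299 (.nd .lf 5572730 .lf)) 5572794 (.nd (.nd .lf 5573243
.lf) 5573303 .lf))))) 5573304 (.nd (.nd (.nd (.nd (.nd (.nd .lf 5573307 .lf) 5573319 (.nd .lf 5573323 .lf))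
5600960 (.nd (.nd .lf 5601184 .lf) 5601440 (.nd .lf 5602208 .lf))) 5606064 (.nd (.nd (.nd .lf 5613680 .lf)
5613744 (.nd .lf 5615686 .lf)) 5617344 (.nd (.nd .lf 5617568 .lf) 5617824 .lf))) 5637515 (.nd (.nd (.nd (.nd
.lf 5637771 .lf) 5637831 (.nd .lf 5638027 .lf)) 5638074 (.nd (.nd .lf 5638299 .lf) 5638343 (.nd .lf 5638539
.lf))) 5638779 (.nd (.nd (.nd .lf 5638795 .lf) 5638839 (.nd .lf 5638843 .lf)) 5638855 (.nd (.nd .lf 5638859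
.lf) 5639034 .lf)))) 5639051 (.nd (.nd (.nd (.nd (.nd .lf 5639307 .lf) 5664818 (.nd .lf 5664882 .lf)) 5664962
(.nd (.nd .lf 5667440 .lf) 5667504 (.nd .lf 5667520 .lf))) 5667744 (.nd (.nd (.nd .lf 5668000 .lf) 5671600
(.nd .lf 5680240 .lf)) 5681218 (.nd (.nd .lf 5681222 .lf) 5681266 .lf))) 5681270 (.nd (.nd (.nd (.nd .lf
5681282 .lf) 5681286 (.nd .lf 5682816 .lf)) 5682880 (.nd (.nd .lf 5683072 .lf) 5683104 (.nd .lf 5683392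
.lf))) 5683824 (.nd (.nd (.nd .lf 5703084 .lf) 5703113 (.nd .lf 5703349 .lf)) 5703350 (.nd (.nd .lf 5703353
.lf) 5703354 .lf))))))) 5703369 (.nd (.nd (.nd (.nd (.nd (.nd (.nd (.nd .lf 5703835 .lf) 5703836 (.nd .lf
5703845 .lf)) 5703849 (.nd (.nd .lf 5703866 .lf) 5704136 (.nd .lf 5704375 .lf))) 5704379 (.nd (.nd (.nd .lf
5704395 .lf) 5704586 (.nd .lf 5704615 .lf)) 5704616 (.nd (.nd .lf 5704620 .lf) 5704793 .lf))) 5704853 (.nd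
(.nd (.nd (.nd .lf 5704854 .lf) 5704857 (.nd .lf 5704869 .lf)) 5704873 (.nd (.nd .lf 5722166 .lf) 5723584
(.nd .lf 5723840 .lf))) 5724320 (.nd (.nd (.nd .lf 5726273 .lf) 5726401 (.nd .lf 5727680 .lf)) 5727936 (.nd
(.nd .lf 5728192 .lf) 5728448 .lf)))) 5728704 (.nd (.nd (.nd (.nd (.nd .lf 5729424 .lf) 5733280 (.nd .lf
5734433 .lf)) 5734437 (.nd (.nd .lf 5737136 .lf) 5738566 (.nd .lf 5739968 .lf))) 5740224 (.nd (.nd (.nd .lf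
5740704 .lf) 5744064 (.nd .lf 5744320 .lf)) 5745776 (.nd (.nd .lf 5745792 .lf) 5745808 .lf))) 5745840 (.nd
(.nd (.nd (.nd .lf 5746758 .lf) 5750817 (.nd .lf 5750821 .lf)) 5752464 (.nd (.nd .lf 5768604 .lf) 5768620
(.nd .lf 5768630 .lf))) 5768634 (.nd (.nd (.nd .lf 5768876 .lf) 5768885 (.nd .lf 5768886 .lf)) 5768889 (.nd
(.nd .lf 5768890 .lf) 5769132 .lf))))) 5769371 (.nd (.nd (.nd (.nd (.nd (.nd .lf 5769388 .lf) 5769402 (.nd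
.lf 5769564 .lf)) 5769909 (.nd (.nd .lf 5769910 .lf) 5769911 (.nd .lf 5769912 .lf))) 5769914 (.nd (.nd (.nd
.lf 5769915 .lf) 5769916 (.nd .lf 5770156 .lf)) 5770426 (.nd (.nd .lf 5779553 .lf) 5787698 .lf))) 5787701
(.nd (.nd (.nd (.nd .lf 5787702 .lf) 5790800 (.nd .lf 5790864 .lf)) 5791797 (.nd (.nd .lf 5795858 .lf)
5795893 (.nd .lf 5798576 .lf))) 5799989 (.nd (.nd (.nd .lf 5802672 .lf) 5804085 (.nd .lf 5804086 .lf))
5807184 (.nd (.nd .lf 5807248 .lf) 5808181 .lf)))) 5811280 (.nd (.nd (.nd (.nd (.nd .lf 5811312 .lf) 5811344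
(.nd .lf 5812277 .lf)) 5812290 (.nd (.nd .lf 5812310 .lf) 5812322 (.nd .lf 5812326 .lf))) 5812418 (.nd (.nd
(.nd .lf 5814176 .lf) 5814432 (.nd .lf 5816373 .lf)) 5818000 (.nd (.nd .lf 5818016 .lf) 5818720 .lf)))
5834423 (.nd (.nd (.nd (.nd .lf 5834443 .lf) 5834599 (.nd .lf 5834603 .lf)) 5834694 (.nd (.nd .lf 5835387
.lf) 5859264 (.nd .lf 5863088 .lf))) 5863104 (.nd (.nd (.nd .lf 5863584 .lf) 5868208 (.nd .lf 5877830 .lf))
5899659 (.nd (.nd .lf 5899959 .lf) 5900171 .lf)))))) 5900214 (.nd (.nd (.nd (.nd (.nd (.nd (.nd .lf 5900218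
.lf) 5900443 (.nd .lf 5900683 .lf)) 5900923 (.nd (.nd .lf 5900939 .lf) 5900983 (.nd .lf 5900987 .lf)))
5901174 (.nd (.nd (.nd .lf 5901178 .lf) 5901195 (.nd .lf 5901451 .lf)) 5901495 (.nd (.nd .lf 5901499 .lf)
5928624 .lf))) 5928800 (.nd (.nd (.nd (.nd .lf 5929824 .lf) 5930080 (.nd .lf 5930112 .lf)) 5932720 (.nd (.nd
.lf 5933744 .lf) 5943414 (.nd .lf 5943430 .lf))) 5945024 (.nd (.nd (.nd .lf 5945184 .lf) 5945248 (.nd .lf
5945504 .lf)) 5965160 (.nd (.nd .lf 5965189 .lf) 5965190 .lf)))) 5965193 (.nd (.nd (.nd (.nd (.nd .lf 5965194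
.lf) 5965672 (.nd .lf 5965676 .lf)) 5965702 (.nd (.nd .lf 5965733 .lf) 5965734 (.nd .lf 5965737 .lf)))
5965990 (.nd (.nd (.nd .lf 5965991 .lf) 5965992 (.nd .lf 5966184 .lf)) 5966213 (.nd (.nd .lf 5966214 .lf)
5966424 .lf))) 5966428 (.nd (.nd (.nd (.nd .lf 5966440 .lf) 5966444 (.nd .lf 5966470 .lf)) 5966696 (.nd (.nd
.lf 5966952 .lf) 5992518 (.nd .lf 5996641 .lf))) 5996645 (.nd (.nd (.nd .lf 5997920 .lf) 5998432 (.nd .lf
5998944 .lf)) 5999200 (.nd (.nd .lf 5999280 .lf) 5999456 .lf))))) 5999712 (.nd (.nd (.nd (.nd (.nd (.nd .lf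
6001669 .lf) 6008902 (.nd .lf 6030744 .lf)) 6031704 (.nd (.nd .lf 6031720 .lf) 6031960 (.nd .lf 6031964
.lf))) 6031975 (.nd (.nd (.nd .lf 6031976 .lf) 6031980 (.nd .lf 6031991 .lf)) 6031992 (.nd (.nd .lf 6031995
.lf) 6031996 .lf))) 6032007 (.nd (.nd (.nd (.nd .lf 6032008 .lf) 6032011 (.nd .lf 6032012 .lf)) 6032024 (.nd
(.nd .lf 6032028 .lf) 6032055 (.nd .lf 6032056 .lf))) 6032059 (.nd (.nd (.nd .lf 6032060 .lf) 6051200 (.nd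
.lf 6052224 .lf)) 6055296 (.nd (.nd .lf 6056320 .lf) 6058081 .lf)))) 6058085 (.nd (.nd (.nd (.nd (.nd .lf
6064480 .lf) 6064736 (.nd .lf 6064752 .lf)) 6064768 (.nd (.nd .lf 6064816 .lf) 6067584 (.nd .lf 6068608
.lf))) 6071680 (.nd (.nd (.nd .lf 6072704 .lf) 6074434 (.nd .lf 6074498 .lf)) 6075909 (.nd (.nd .lf 6305937
.lf) 6305953 .lf))) 6312886 (.nd (.nd (.nd (.nd .lf 6313782 .lf) 6314806 (.nd .lf 6321061 .lf)) 6321717 (.nd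
(.nd .lf 6329206 .lf) 6329461 .lf)) 6330166 (.nd (.nd (.nd .lf 6331190 .lf) 6331205 (.nd .lf 6336562 .lf))
6336578 (.nd (.nd .lf 6336690 .lf) 6336837 .lf))))))))) 6336901 (.nd (.nd (.nd (.nd (.nd (.nd (.nd (.nd (.nd
(.nd .lf 6337093 .lf) 6337221 (.nd .lf 6337445 .lf)) 6337586 (.nd (.nd .lf 6337857 .lf) 6337858 (.nd .lf
6338101 .lf))) 6338113 (.nd (.nd (.nd .lf 6338114 .lf) 6338354 (.nd .lf 6338370 .lf)) 6338454 (.nd (.nd .lf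
6338610 .lf) 6338626 .lf))) 6338738 (.nd (.nd (.nd (.nd .lf 6338881 .lf) 6338882 (.nd .lf 6338885 .lf))
6339137 (.nd (.nd .lf 6339138 .lf) 6339141 (.nd .lf 6339394 .lf))) 6339602 (.nd (.nd (.nd .lf 6339634 .lf)
6339650 (.nd .lf 6385730 .lf)) 6402098 (.nd (.nd .lf 6402114 .lf) 6402118 .lf)))) 6402178 (.nd (.nd (.nd (.nd
(.nd .lf 6402182 .lf) 6402226 (.nd .lf 6451378 .lf)) 6451393 (.nd (.nd .lf 6451394 .lf) 6451397 (.nd .lf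
6467634 .lf))) 6467698 (.nd (.nd (.nd .lf 6467702 .lf) 6467713 (.nd .lf 6467714 .lf)) 6467717 (.nd (.nd .lf
6467718 .lf) 6467762 .lf))) 6516805 (.nd (.nd (.nd (.nd .lf 6525062 .lf) 6529157 (.nd .lf 6533170 .lf))
6533234 (.nd (.nd .lf 6533253 .lf) 6533298 (.nd .lf 6533314 .lf))) 6574209 (.nd (.nd (.nd .lf 6574213 .lf)
6577157 (.nd .lf 6598706 .lf)) 6598834 (.nd (.nd .lf 6621110 .lf) 6621114 .lf))))) 6621624 (.nd (.nd (.nd
(.nd (.nd (.nd .lf 6621819 .lf) 6621879 (.nd .lf 6622074 .lf)) 6622359 (.nd (.nd .lf 6647874 .lf) 6650544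
(.nd .lf 6654640 .lf))) 6663280 (.nd (.nd (.nd .lf 6664242 .lf) 6664258 (.nd .lf 6664322 .lf)) 6664370 (.nd
(.nd .lf 6666864 .lf) 6666880 .lf))) 6666928 (.nd (.nd (.nd (.nd .lf 6713394 .lf) 6713458 (.nd .lf 6713522
.lf)) 6716016 (.nd (.nd .lf 6716080 .lf) 6729778 (.nd .lf 6729842 .lf))) 6729906 (.nd (.nd (.nd .lf 6732400
.lf) 6732464 (.nd .lf 6751644 .lf)) 6751670 (.nd (.nd .lf 6752182 .lf) 6752186 .lf)))) 6752694 (.nd (.nd (.nd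
(.nd (.nd .lf 6752950 .lf) 6753146 (.nd .lf 6753162 .lf)) 6753369 (.nd (.nd .lf 6753431 .lf) 6770742 (.nd .lf
6783013 .lf))) 6791361 (.nd (.nd (.nd .lf 6794352 .lf) 6794368 (.nd .lf 6795314 .lf)) 6795442 (.nd (.nd .lf
6799393 .lf) 6799397 .lf))) 6802000 (.nd (.nd (.nd (.nd .lf 6828193 .lf) 6836274 (.nd .lf 6836277 .lf))
6836278 (.nd (.nd .lf 6836402 .lf) 6839376 (.nd .lf 6844434 .lf))) 6844469 (.nd (.nd (.nd .lf 6844577 .lf)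
6852661 (.nd .lf 6852677 .lf)) 6855760 (.nd (.nd .lf 6860818 .lf) 6860850 .lf)))))) 6860853 (.nd (.nd (.nd
(.nd (.nd (.nd (.nd .lf 6860882 .lf) 6860946 (.nd .lf 6860962 .lf)) 6860978 (.nd (.nd .lf 6910018 .lf)
6910022 (.nd .lf 6926386 .lf))) 6926402 (.nd (.nd (.nd .lf 6926466 .lf) 6926514 (.nd .lf 6975666 .lf))
6978400 (.nd (.nd .lf 6978432 .lf) 6978565 .lf))) 6978640 (.nd (.nd (.nd (.nd .lf 6978672 .lf) 6991922 (.nd
.lf 6991938 .lf)) 6992001 (.nd (.nd .lf 6992002 .lf) 6992005 (.nd .lf 6992006 .lf))) 6992050 (.nd (.nd (.nd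
.lf 7041074 .lf) 7041138 (.nd .lf 7041202 .lf)) 7041218 (.nd (.nd .lf 7049346 .lf) 7050245 .lf)))) 7057458
(.nd (.nd (.nd (.nd (.nd .lf 7057522 .lf) 7057586 (.nd .lf 7057602 .lf)) 7101040 (.nd (.nd .lf 7106593 .lf)
7106597 (.nd .lf 7108960 .lf))) 7108992 (.nd (.nd (.nd .lf 7122966 .lf) 7122994 (.nd .lf 7123030 .lf))
7123094 (.nd (.nd .lf 7123122 .lf) 7124485 .lf))) 7354529 (.nd (.nd (.nd (.nd .lf 7360566 .lf) 7360822 (.nd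
.lf 7361078 .lf)) 7361334 (.nd (.nd .lf 7361590 .lf) 7361846 (.nd .lf 7362102 .lf))) 7362358 (.nd (.nd (.nd
.lf 7362614 .lf) 7362870 (.nd .lf 7363013 .lf)) 7363014 (.nd (.nd .lf 7363126 .lf) 7363382 .lf))))) 7363638
(.nd (.nd (.nd (.nd (.nd (.nd .lf 7363733 .lf) 7367829 (.nd .lf 7369637 .lf)) 7370293 (.nd (.nd .lf 7371925
.lf) 7373365 (.nd .lf 7375413 .lf))) 7376021 (.nd (.nd (.nd .lf 7377718 .lf) 7377734 (.nd .lf 7377782 .lf))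
7377846 (.nd (.nd .lf 7377862 .lf) 7378037 .lf))) 7378102 (.nd (.nd (.nd (.nd .lf 7378742 .lf) 7379766 (.nd
.lf 7379781 .lf)) 7380022 (.nd (.nd .lf 7380117 .lf) 7382069 (.nd .lf 7383093 .lf))) 7384117 (.nd (.nd (.nd
.lf 7384213 .lf) 7385413 (.nd .lf 7385477 .lf)) 7386021 (.nd (.nd .lf 7386134 .lf) 7386262 .lf)))) 7386433
(.nd (.nd (.nd (.nd (.nd .lf 7386673 .lf) 7386677 (.nd .lf 7386689 .lf)) 7387030 (.nd (.nd .lf 7387286 .lf)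
7387461 (.nd .lf 7387525 .lf))) 7387589 (.nd (.nd (.nd .lf 7388309 .lf) 7388310 (.nd .lf 7389605 .lf))
7389749 (.nd (.nd .lf 7389845 .lf) 7390117 .lf))) 7391521 (.nd (.nd (.nd (.nd .lf 7391653 .lf) 7391761 (.nd
.lf 7391765 .lf)) 7391793 (.nd (.nd .lf 7391797 .lf) 7391825 (.nd .lf 7391829 .lf))) 7392405 (.nd (.nd (.nd
.lf 7438373 .lf) 7442502 (.nd .lf 7442566 .lf)) 7450694 (.nd (.nd .lf 7503909 .lf) 7503953 .lf))))))) 7503969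
(.nd (.nd (.nd (.nd (.nd (.nd (.nd (.nd .lf 7504033 .lf) 7516294 (.nd .lf 7520293 .lf)) 7520353 (.nd (.nd .lf
7520357 .lf) 7557174 (.nd .lf 7561281 .lf))) 7565381 (.nd (.nd (.nd .lf 7573573 .lf) 7573574 (.nd .lf 7577669
.lf)) 7577733 (.nd (.nd .lf 7581829 .lf) 7622785 .lf))) 7622789 (.nd (.nd (.nd (.nd .lf 7625733 .lf) 7639062
(.nd .lf 7639078 .lf)) 7639094 (.nd (.nd .lf 7639109 .lf) 7639110 (.nd .lf 7639126 .lf))) 7639142 (.nd (.nd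
(.nd .lf 7639158 .lf) 7639173 (.nd .lf 7639174 .lf)) 7639190 (.nd (.nd .lf 7639206 .lf) 7639222 .lf))))
7647318 (.nd (.nd (.nd (.nd (.nd .lf 7647382 .lf) 7688246 (.nd .lf 7704646 .lf)) 7712838 (.nd (.nd .lf
7753782 .lf) 7761970 (.nd .lf 7762034 .lf))) 7762098 (.nd (.nd (.nd .lf 7770181 .lf) 7770182 (.nd .lf 7770242
.lf)) 7770245 (.nd (.nd .lf 7770246 .lf) 7778354 .lf))) 7778418 (.nd (.nd (.nd (.nd .lf 7778482 .lf) 7819318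
(.nd .lf 7831589 .lf)) 7835718 (.nd (.nd .lf 7847973 .lf) 7884850 (.nd .lf 7884853 .lf))) 7884854 (.nd (.nd
(.nd .lf 7884962 .lf) 7884965 (.nd .lf 7888949 .lf)) 7893010 (.nd (.nd .lf 7893045 .lf) 7893157 .lf)))))
7897141 (.nd (.nd (.nd (.nd (.nd (.nd .lf 7901222 .lf) 7901237 (.nd .lf 7901253 .lf)) 7901270 (.nd (.nd .lf
7901281 .lf) 7901282 (.nd .lf 7901285 .lf))) 7901286 (.nd (.nd (.nd .lf 7901334 .lf) 7901349 (.nd .lf 7905317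
.lf)) 7905333 (.nd (.nd .lf 7905377 .lf) 7905445 .lf))) 7909429 (.nd (.nd (.nd (.nd .lf 7909462 .lf) 7909526
(.nd .lf 7909541 .lf)) 7913525 (.nd (.nd .lf 7950390 .lf) 7950406 (.nd .lf 7950470 .lf))) 7954561 (.nd (.nd
(.nd .lf 7954565 .lf) 7958598 (.nd .lf 7958662 .lf)) 7962657 (.nd (.nd .lf 7962661 .lf) 7966790 .lf))))
7966854 (.nd (.nd (.nd (.nd (.nd .lf 7974982 .lf) 7975046 (.nd .lf 8015926 .lf)) 8028193 (.nd (.nd .lf
8028197 .lf) 8032326 (.nd .lf 8042501 .lf))) 8044577 (.nd (.nd (.nd .lf 8081462 .lf) 8085569 (.nd .lf 8085573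
.lf)) 8097862 (.nd (.nd .lf 8098821 .lf) 8110117 .lf))) 8146998 (.nd (.nd (.nd (.nd .lf 8163397 .lf) 8403105
(.nd .lf 8410934 .lf)) 8411958 (.nd (.nd .lf 8417845 .lf) 8418213 (.nd .lf 8418869 .lf))) 8426294 (.nd (.nd
(.nd .lf 8426358 .lf) 8426422 (.nd .lf 8426546 .lf)) 8426613 (.nd (.nd .lf 8427318 .lf) 8428085 .lf))))))
8428342 (.nd (.nd (.nd (.nd (.nd (.nd (.nd .lf 8428562 .lf) 8428565 (.nd .lf 8428566 .lf)) 8428693 (.nd (.nd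
.lf 8428694 .lf) 8429621 (.nd .lf 8430133 .lf))) 8430645 (.nd (.nd (.nd .lf 8431157 .lf) 8431669 (.nd .lf
8432181 .lf)) 8432693 (.nd (.nd .lf 8433989 .lf) 8434053 .lf))) 8434085 (.nd (.nd (.nd (.nd .lf 8434229 .lf)
8434245 (.nd .lf 8434373 .lf)) 8434597 (.nd (.nd .lf 8435009 .lf) 8435249 (.nd .lf 8435253 .lf))) 8435265
(.nd (.nd (.nd .lf 8435606 .lf) 8436002 (.nd .lf 8436018 .lf)) 8495157 (.nd (.nd .lf 8499238 .lf) 8499298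
.lf)))) 8605750 (.nd (.nd (.nd (.nd (.nd .lf 8609857 .lf) 8613957 (.nd .lf 8622149 .lf)) 8622150 (.nd (.nd
.lf 8622214 .lf) 8626229 (.nd .lf 8626245 .lf))) 8626309 (.nd (.nd (.nd .lf 8630405 .lf) 8632837 (.nd .lf
8663201 .lf)) 8671254 (.nd (.nd .lf 8671270 .lf) 8671361 .lf))) 8671365 (.nd (.nd (.nd (.nd .lf 8671393 .lf)
8671394 (.nd .lf 8671397 .lf)) 8671426 (.nd (.nd .lf 8674309 .lf) 8679585 (.nd .lf 8679589 .lf))) 8687638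
(.nd (.nd (.nd .lf 8687654 .lf) 8687670 (.nd .lf 8687685 .lf)) 8687686 (.nd (.nd .lf 8687702 .lf) 8687713
.lf))))) 8687714 (.nd (.nd (.nd (.nd (.nd (.nd .lf 8687717 .lf) 8687718 (.nd .lf 8687734 .lf)) 8687749 (.nd
(.nd .lf 8687750 .lf) 8687766 (.nd .lf 8687781 .lf))) 8687782 (.nd (.nd (.nd .lf 8687813 .lf) 8690693 (.nd
.lf 8745026 .lf)) 8757301 (.nd (.nd .lf 8761382 .lf) 8761414 .lf))) 8761442 (.nd (.nd (.nd (.nd .lf 8761506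
.lf) 8765601 (.nd .lf 8810546 .lf)) 8810610 (.nd (.nd .lf 8826994 .lf) 8867894 (.nd .lf 8880165 .lf)))
8884294 (.nd (.nd (.nd .lf 8888373 .lf) 8925345 (.nd .lf 8933426 .lf)) 8933429 (.nd (.nd .lf 8933430 .lf)
8941586 .lf)))) 8941621 (.nd (.nd (.nd (.nd (.nd .lf 8941729 .lf) 8949813 (.nd .lf 8958005 .lf)) 8998982 (.nd
(.nd .lf 9007170 .lf) 9007174 (.nd .lf 9007234 .lf))) 9007298 (.nd (.nd (.nd .lf 9019445 .lf) 9064501 (.nd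
.lf 9064502 .lf)) 9072693 (.nd (.nd .lf 9072773 .lf) 9080885 .lf))) 9089046 (.nd (.nd (.nd (.nd .lf 9089062
.lf) 9089077 (.nd .lf 9089078 .lf)) 9089094 (.nd (.nd .lf 9089110 .lf) 9089126 (.nd .lf 9089142 .lf)))
9089158 (.nd (.nd (.nd .lf 9089541 .lf) 9130038 (.nd .lf 9132549 .lf)) 9134145 (.nd (.nd .lf 9134149 .lf)
9138194 .lf)))))))) 9140741 (.nd (.nd (.nd (.nd (.nd (.nd (.nd (.nd (.nd .lf 9147397 .lf) 9148933 (.nd .lf
9150517 .lf)) 9157125 (.nd (.nd .lf 9187489 .lf) 9195570 (.nd .lf 9198085 .lf))) 9203873 (.nd (.nd (.nd .lf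
9212001 .lf) 9212002 (.nd .lf 9212005 .lf)) 9212006 (.nd (.nd .lf 9451681 .lf) 9458614 .lf))) 9459510 (.nd
(.nd (.nd (.nd .lf 9459638 .lf) 9459890 (.nd .lf 9460534 .lf)) 9460550 (.nd (.nd .lf 9463749 .lf) 9464641
(.nd .lf 9464645 .lf))) 9464773 (.nd (.nd (.nd .lf 9466550 .lf) 9466789 (.nd .lf 9466806 .lf)) 9467445 (.nd
(.nd .lf 9467573 .lf) 9467574 .lf)))) 9467830 (.nd (.nd (.nd (.nd (.nd .lf 9468598 .lf) 9468726 (.nd .lf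
9468961 .lf)) 9475189 (.nd (.nd .lf 9475894 .lf) 9476918 (.nd .lf 9476934 .lf))) 9481029 (.nd (.nd (.nd .lf
9482310 .lf) 9482565 (.nd .lf 9482566 .lf)) 9482629 (.nd (.nd .lf 9483078 .lf) 9483173 .lf))) 9483282 (.nd
(.nd (.nd (.nd .lf 9483286 .lf) 9483314 (.nd .lf 9483318 .lf)) 9483382 (.nd (.nd .lf 9483585 .lf) 9483590
(.nd .lf 9483829 .lf))) 9483841 (.nd (.nd (.nd .lf 9484102 .lf) 9484306 (.nd .lf 9484310 .lf)) 9484321 (.nd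
(.nd .lf 9484358 .lf) 9484449 .lf))))) 9484450 (.nd (.nd (.nd (.nd (.nd (.nd .lf 9484453 .lf) 9485110 (.nd
.lf 9485126 .lf)) 9488417 (.nd (.nd .lf 9488421 .lf) 9547846 (.nd .lf 9613382 .lf))) 9662533 (.nd (.nd (.nd
.lf 9666593 .lf) 9678918 (.nd .lf 9678981 .lf)) 9719937 (.nd (.nd .lf 9719941 .lf) 9722885 .lf))) 9724017
(.nd (.nd (.nd (.nd .lf 9744454 .lf) 9767547 (.nd .lf 9809990 .lf)) 9833319 (.nd (.nd .lf 9833334 .lf)
9833338 (.nd .lf 9833351 .lf))) 9833355 (.nd (.nd (.nd .lf 9833356 .lf) 9859122 (.nd .lf 9859138 .lf))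
9859142 (.nd (.nd .lf 9859186 .lf) 9859266 .lf)))) 9861744 (.nd (.nd (.nd (.nd (.nd .lf 9875526 .lf) 9878128
(.nd .lf 9898855 .lf)) 9916470 (.nd (.nd .lf 9920577 .lf) 9923664 (.nd .lf 9928737 .lf))) 9928741 (.nd (.nd
(.nd .lf 9931616 .lf) 9941062 (.nd .lf 9963864 .lf)) 9963868 (.nd (.nd .lf 9964376 .lf) 9964391 .lf)))
9964632 (.nd (.nd (.nd (.nd .lf 9973857 .lf) 9982002 (.nd .lf 9982005 .lf)) 9982006 (.nd (.nd .lf 9986101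
.lf) 9990162 (.nd .lf 9990197 .lf))) 9994293 (.nd (.nd (.nd .lf 9998389 .lf) 10002485 (.nd .lf 10006581 .lf))
10006598 (.nd (.nd .lf 10010677 .lf) 10010721 .lf)))))) 10010725 (.nd (.nd (.nd (.nd (.nd (.nd (.nd .lf
10072134 .lf) 10137670 (.nd .lf 10186822 .lf)) 10195973 (.nd (.nd .lf 10203206 .lf) 10256417 (.nd .lf
10256421 .lf))) 10268742 (.nd (.nd (.nd .lf 10500241 .lf) 10500257 (.nd .lf 10501202 .lf)) 10507190 (.nd (.nd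
.lf 10508086 .lf) 10509110 .lf))) 10515365 (.nd (.nd (.nd (.nd .lf 10515382 .lf) 10515894 (.nd .lf 10516021
.lf)) 10517302 (.nd (.nd .lf 10517537 .lf) 10523765 (.nd .lf 10524470 .lf))) 10525494 (.nd (.nd (.nd .lf
10525509 .lf) 10531141 (.nd .lf 10531142 .lf)) 10531205 (.nd (.nd .lf 10531654 .lf) 10531749 .lf)))) 10532161
(.nd (.nd (.nd (.nd (.nd .lf 10532405 .lf) 10532417 (.nd .lf 10532641 .lf)) 10532645 (.nd (.nd .lf 10532678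
.lf) 10533686 (.nd .lf 10533698 .lf))) 10533702 (.nd (.nd (.nd .lf 10648581 .lf) 10663941 (.nd .lf 10711109
.lf)) 10719365 (.nd (.nd .lf 10727557 .lf) 10768513 .lf))) 10768517 (.nd (.nd (.nd (.nd .lf 10771461 .lf)
10907698 (.nd .lf 10907762 .lf)) 10907841 (.nd (.nd .lf 10907842 .lf) 10907845 (.nd .lf 10924146 .lf)))
10926085 (.nd (.nd (.nd .lf 10965046 .lf) 10969153 (.nd .lf 10977317 .lf)) 11022433 (.nd (.nd .lf 11030578
.lf) 11030581 .lf))))) 11030582 (.nd (.nd (.nd (.nd (.nd (.nd .lf 11038738 .lf) 11038773 (.nd .lf 11046965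
.lf)) 11055157 (.nd (.nd .lf 11244549 .lf) 11548833 (.nd .lf 11554870 .lf))) 11555126 (.nd (.nd (.nd .lf
11555382 .lf) 11555638 (.nd .lf 11555894 .lf)) 11556150 (.nd (.nd .lf 11556406 .lf) 11556662 .lf))) 11556918
(.nd (.nd (.nd (.nd .lf 11557009 .lf) 11557010 (.nd .lf 11557013 .lf)) 11557014 (.nd (.nd .lf 11557174 .lf)
11557253 (.nd .lf 11557318 .lf))) 11557430 (.nd (.nd (.nd .lf 11557686 .lf) 11557942 (.nd .lf 11561349 .lf))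
11561541 (.nd (.nd .lf 11563941 .lf) 11564181 .lf)))) 11564597 (.nd (.nd (.nd (.nd (.nd .lf 11565205 .lf)
11565445 (.nd .lf 11565510 .lf)) 11566229 (.nd (.nd .lf 11567525 .lf) 11568037 (.nd .lf 11568549 .lf)))
11569441 (.nd (.nd (.nd .lf 11569445 .lf) 11569541 (.nd .lf 11569573 .lf)) 11569717 (.nd (.nd .lf 11571270
.lf) 11571526 .lf))) 11571589 (.nd (.nd (.nd (.nd .lf 11571782 .lf) 11572022 (.nd .lf 11572037 .lf)) 11572038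
(.nd (.nd .lf 11572086 .lf) 11572102 (.nd .lf 11572278 .lf))) 11572294 (.nd (.nd (.nd .lf 11572341 .lf)
11572534 (.nd .lf 11572550 .lf)) 11572805 (.nd (.nd .lf 11572806 .lf) 11572933 .lf))))))) 11573046 (.nd (.nd
(.nd (.nd (.nd (.nd (.nd (.nd .lf 11573061 .lf) 11573062 (.nd .lf 11573302 .lf)) 11573318 (.nd (.nd .lf
11573397 .lf) 11573409 (.nd .lf 11573413 .lf))) 11573574 (.nd (.nd (.nd .lf 11573637 .lf) 11573830 (.nd .lf
11574070 .lf)) 11574085 (.nd (.nd .lf 11574086 .lf) 11574326 .lf))) 11574342 (.nd (.nd (.nd (.nd .lf 11576337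
.lf) 11576341 (.nd .lf 11576353 .lf)) 11576357 (.nd (.nd .lf 11576369 .lf) 11576373 (.nd .lf 11576389 .lf)))
11576405 (.nd (.nd (.nd .lf 11576421 .lf) 11576437 (.nd .lf 11576453 .lf)) 11576897 (.nd (.nd .lf 11576901
.lf) 11577397 .lf)))) 11577733 (.nd (.nd (.nd (.nd (.nd .lf 11579717 .lf) 11579781 (.nd .lf 11580325 .lf))
11580737 (.nd (.nd .lf 11580981 .lf) 11580993 (.nd .lf 11581765 .lf))) 11581766 (.nd (.nd (.nd .lf 11581829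
.lf) 11586101 (.nd .lf 11636806 .lf)) 11698257 (.nd (.nd .lf 11702342 .lf) 11702390 .lf))) 11751478 (.nd (.nd
(.nd (.nd .lf 11755585 .lf) 11759685 (.nd .lf 11767878 .lf)) 11767941 (.nd (.nd .lf 11776133 .lf) 11817089
(.nd .lf 11817093 .lf))) 11820037 (.nd (.nd (.nd .lf 11833414 .lf) 11833462 (.nd .lf 11834373 .lf)) 11836421
(.nd (.nd .lf 11882550 .lf) 11898950 .lf))))) 11948086 (.nd (.nd (.nd (.nd (.nd (.nd .lf 11956274 .lf)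
11956338 (.nd .lf 11964486 .lf)) 11964534 (.nd (.nd .lf 11968641 .lf) 12013622 (.nd .lf 12025893 .lf)))
12030022 (.nd (.nd (.nd .lf 12079154 .lf) 12079157 (.nd .lf 12079158 .lf)) 12083253 (.nd (.nd .lf 12087314
.lf) 12087349 .lf))) 12091445 (.nd (.nd (.nd (.nd .lf 12095541 .lf) 12095558 (.nd .lf 12099637 .lf)) 12103733
(.nd (.nd .lf 12107829 .lf) 12144694 (.nd .lf 12144710 .lf))) 12152902 (.nd (.nd (.nd .lf 12152966 .lf)
12161094 (.nd .lf 12210230 .lf)) 12212229 (.nd (.nd .lf 12214337 .lf) 12214341 .lf)))) 12220421 (.nd (.nd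
(.nd (.nd (.nd .lf 12226630 .lf) 12227589 (.nd .lf 12228613 .lf)) 12275766 (.nd (.nd .lf 12279873 .lf)
12279877 (.nd .lf 12292166 .lf))) 12293125 (.nd (.nd (.nd .lf 12341302 .lf) 12357702 (.nd .lf 12597153 .lf))
12597409 (.nd (.nd .lf 12597777 .lf) 12597793 .lf))) 12597809 (.nd (.nd (.nd (.nd .lf 12597825 .lf) 12597841
(.nd .lf 12605238 .lf)) 12606258 (.nd (.nd .lf 12606262 .lf) 12611745 (.nd .lf 12612149 .lf))) 12612502 (.nd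
(.nd (.nd .lf 12612517 .lf) 12613173 (.nd .lf 12613281 .lf)) 12613537 (.nd (.nd .lf 12613793 .lf) 12614161
.lf)))))) 12614165 (.nd (.nd (.nd (.nd (.nd (.nd (.nd .lf 12614193 .lf) 12620165 (.nd .lf 12620562 .lf))
12620578 (.nd (.nd .lf 12620598 .lf) 12620614 (.nd .lf 12620662 .lf))) 12620709 (.nd (.nd (.nd .lf 12620917
.lf) 12621622 (.nd .lf 12622213 .lf)) 12622646 (.nd (.nd .lf 12622661 .lf) 12628293 .lf))) 12628357 (.nd (.nd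
(.nd (.nd .lf 12628389 .lf) 12628533 (.nd .lf 12628549 .lf)) 12628645 (.nd (.nd .lf 12628677 .lf) 12628901
(.nd .lf 12629286 .lf))) 12629313 (.nd (.nd (.nd .lf 12629553 .lf) 12629557 (.nd .lf 12629569 .lf)) 12629921
(.nd (.nd .lf 12677281 .lf) 12696069 .lf)))) 12742817 (.nd (.nd (.nd (.nd (.nd .lf 12742821 .lf) 12761605
(.nd .lf 12800054 .lf)) 12802565 (.nd (.nd .lf 12804161 .lf) 12808261 (.nd .lf 12808353 .lf))) 12810757 (.nd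
(.nd (.nd .lf 12816517 .lf) 12818949 (.nd .lf 12824709 .lf)) 12827141 (.nd (.nd .lf 12865558 .lf) 12865574
.lf))) 12865665 (.nd (.nd (.nd (.nd .lf 12865669 .lf) 12868101 (.nd .lf 12868613 .lf)) 12873889 (.nd (.nd .lf
12873893 .lf) 12881942 (.nd .lf 12881958 .lf))) 12881974 (.nd (.nd (.nd .lf 12881990 .lf) 12882006 (.nd .lf
12882022 .lf)) 12882053 (.nd (.nd .lf 12882949 .lf) 12883461 .lf))))) 12883973 (.nd (.nd (.nd (.nd (.nd (.nd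
.lf 12884485 .lf) 12884997 (.nd .lf 12939314 .lf)) 12939330 (.nd (.nd .lf 12939425 .lf) 13004850 (.nd .lf
13004914 .lf))) 13004961 (.nd (.nd (.nd .lf 13062198 .lf) 13062309 (.nd .lf 13066401 .lf)) 13070497 (.nd (.nd
.lf 13070501 .lf) 13074469 .lf))) 13078598 (.nd (.nd (.nd (.nd .lf 13078693 .lf) 13082661 (.nd .lf 13086885
.lf)) 13127730 (.nd (.nd .lf 13127733 .lf) 13127734 (.nd .lf 13127841 .lf))) 13127842 (.nd (.nd (.nd .lf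
13127845 .lf) 13135890 (.nd .lf 13135925 .lf)) 13136033 (.nd (.nd .lf 13144117 .lf) 13145605 .lf)))) 13152309
(.nd (.nd (.nd (.nd (.nd .lf 13201569 .lf) 13266946 (.nd .lf 13266962 .lf)) 13266978 (.nd (.nd .lf 13266981
.lf) 13266994 (.nd .lf 13267010 .lf))) 13267026 (.nd (.nd (.nd .lf 13267041 .lf) 13267042 (.nd .lf 13267058
.lf)) 13267074 (.nd (.nd .lf 13267090 .lf) 13267105 .lf))) 13267106 (.nd (.nd (.nd (.nd .lf 13267122 .lf)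
13267138 (.nd .lf 13324342 .lf)) 13326853 (.nd (.nd .lf 13328449 .lf) 13328453 .lf)) 13332641 (.nd (.nd (.nd
.lf 13332645 .lf) 13335045 (.nd .lf 13341701 .lf)) 13343237 (.nd (.nd .lf 13351429 .lf) 13398177
.lf)))))))))))

theorem allT_dfs : dfs 8000 allT.toList [closedCodes, closedCodes2, xc1, xc2, xc3, xc4, [1705655]] = [] := by
  decide +kernel

theorem allT_dec : ∀ n ∈ allT.toList, DecT (tbl (dg n)) := by
  refine dfs_sound (f := 8000) (ls := [closedCodes, closedCodes2, xc1, xc2, xc3, xc4, [1705655]]) ?_ allT_dfs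
  intro l hl n hn
  simp only [List.mem_cons, List.not_mem_nil, or_false] at hl
  rcases hl with rfl | rfl | rfl | rfl | rfl | rfl | rfl
  · exact decT_closedCodes n hn
  · exact decT_closedCodes2 n hn
  · exact decX1 n hn
  · exact decX2 n hn
  · exact decX3 n hn
  · exact decX4 n hn
  · rw [List.mem_singleton.1 hn]
    exact decXw

end P913T
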