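import Pool.Agent.Lib.P913T.Crt

/-!
# Both ends closed
-/

set_option autoImplicit false

namespace P913T

/-- if both ends are closed, the halting problem is decidable -/
theorem decT_closed {T : Tb} (bL : BB (mir T)) (bR : BB T) : DecT T := by
  refine decT_of (some bL) (some bR) (N := fun _ => false) (Primrec.const false) (fun c hc => by cases hc)
    (α := ℕ) (rk := fun _ => 0) ?_
  rintro ⟨u, q, s, v, kL, kR⟩ b - hab
  refine Or.inr ⟨le_rfl, fun hlt => ?_⟩
  exfalso
  cases hT : T q s with
  | none => rw [ast_none hT] at hab; cases hab
  | some t =>
    obtain ⟨w, d, q'⟩ := t
    cases d with
    | true =>
      cases v with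
      | cons x v =>
        rw [ast_right hT] at hab
        cases hab
        simp only [asz, List.length_cons] at hlt
        omega
      | nil =>
        rw [ast_right_closed (r := bR.react) hT rfl] at hab
        cases hx : bR.react kR q' with
        | exit q'' k' => rw [hx] at hab; cases hab; simp [asz] at hlt
        | halt => rw [hx] at hab; cases hab
        | never => rw [hx] at hab; cases hab
    | false =>
      cases u with
      | cons x u =>
        rw [ast_left hT] at hab
        cases hab
        simp only [asz, List.length_cons] at hlt
        omega
      | nil =>
        rw [ast_left_closed (r := bL.react) hT rfl] at hab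
        cases hx : bL.react kL q' with
        | exit q'' k' => rw [hx] at hab; cases hab; simp [asz] at hlt
        | halt => rw [hx] at hab; cases hab
        | never => rw [hx] at hab; cases hab

end P913T
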