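import Pool.Agent.Lib.P913T.QBox
import Pool.Agent.Lib.P913T.Closed

/-!
# Boxes of tables

A box of tables gives for every entry the set of the allowed codes (`0`: halt, else one more than the next state plus
two times the direction plus four times the letter). The sets are the digits of a number in base `65536`.
-/

set_option autoImplicit false

namespace P913T

/-- code of an entry -/
def cde : Option (Fin 3 × Bool × Fin 2) → ℕ
  | none => 0
  | some (w, d, q) => 4 * (w : ℕ) + 2 * (bif d then 1 else 0) + q + 1

theorem cde_lt (a : Option (Fin 3 × Bool × Fin 2)) : cde a < 13 := by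
  revert a; decide

theorem ent_cde (a : Option (Fin 3 × Bool × Fin 2)) : ent (cde a) = a := by
  revert a; decide

/-- the table `T` lies in the box `M` -/
def InB (M : ℕ) (T : Tb) : Prop :=
  ∀ (q : Fin 2) (s : Fin 3), Nat.testBit M (16 * (3 * q + s) + cde (T q s)) = true

/-- the halting problem is decidable for all tables of the box -/
def BGood (M : ℕ) : Prop := ∀ T : Tb, InB M T → DecT T

theorem bgood_of_and {M B : ℕ} (h : M &&& B = M) (hB : BGood B) : BGood M := by
  intro T hT
  refine hB T fun q s => ?_
  have h1 := hT q s
  rw [← h, Nat.testBit_and, Bool.and_eq_true] at h1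
  exact h1.2

end P913T
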