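import Pool.Agent.Lib.P913T.CData1
import Pool.Agent.Lib.P913T.CData2
import Pool.Agent.Lib.P913T.CData3
import Pool.Agent.Lib.P913T.CData4
import Pool.Agent.Lib.P913T.CData5
import Pool.Agent.Lib.P913T.CData6
import Pool.Agent.Lib.P913T.CData7
import Pool.Agent.Lib.P913T.CData8
import Pool.Agent.Lib.P913T.CData9
import Pool.Agent.Lib.P913T.CData10
import Pool.Agent.Lib.P913T.CData11

/-!
# All tables with two closed ends
-/

set_option autoImplicit false

namespace P913T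

/-- all packed certificates, ordered by the codes of the tables -/
def cdAll : List ℕ := cd1 ++ cd2 ++ cd3 ++ cd4 ++ cd5 ++ cd6 ++ cd7 ++ cd8 ++ cd9 ++ cd10 ++ cd11

theorem cdAll_ok : cdAll.all chkP = true := by
  simp only [cdAll, List.all_append, Bool.and_eq_true]
  exact ⟨⟨⟨⟨⟨⟨⟨⟨⟨⟨cd1_ok, cd2_ok⟩, cd3_ok⟩, cd4_ok⟩, cd5_ok⟩, cd6_ok⟩, cd7_ok⟩, cd8_ok⟩, cd9_ok⟩, cd10_ok⟩, cd11_ok⟩

/-- the codes of the tables with two closed ends -/
def closedCodes : List ℕ := cdAll.map (· % 16777216)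

theorem decT_closedCodes : ∀ n ∈ closedCodes, DecT (tbl (dg n)) := decT_of_list cdAll_ok

end P913T
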