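import Pool.Agent.Lib.P913T.QBox
import Pool.Agent.Lib.P913T.Closed

/-!
# Packed certificates for tables with two closed ends
-/

set_option autoImplicit false

namespace P913T

/-- change of the direction in an entry -/
def flp (x : ℕ) : ℕ :=
  match x with
  | 0 => 0
  | e + 1 =>
    match e / 2 % 2 with
    | 0 => e + 3
    | _ + 1 => e - 1

/-- the mirror image of a list of entries -/
def mirl (t : List ℕ) : List ℕ := t.map flp

theorem ent_flp (x : ℕ) : ent (flp x) = (ent x).map fun a => (a.1, !a.2.1, a.2.2) := by
  cases x with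
  | zero => rfl
  | succ e =>
    unfold flp
    simp only
    rcases Nat.mod_two_eq_zero_or_one (e / 2) with h | h
    · rw [h]
      simp only [ent, Option.map_some, Option.some.injEq, Prod.mk.injEq]
      refine ⟨?_, ?_, ?_⟩
      · apply Fin.ext; simp only [Fin.ofNat]; omega
      · rw [show (e + 2) / 2 % 2 = 1 by omega, h]; rfl
      · apply Fin.ext; simp only [Fin.ofNat]; omega
    · rw [h]
      simp only
      obtain ⟨e', rfl⟩ : ∃ e', e = e' + 2 := ⟨e - 2, by omega⟩
      rw [show e' + 2 - 1 = e' + 1 by omega]
      simp only [ent, Option.map_some, Option.some.injEq, Prod.mk.injEq]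
      refine ⟨?_, ?_, ?_⟩
      · apply Fin.ext; simp only [Fin.ofNat]; omega
      · rw [show e' / 2 % 2 = 0 by omega, h]; rfl
      · apply Fin.ext; simp only [Fin.ofNat]; omega

theorem tbl_mirl (t : List ℕ) : tbl (mirl t) = mir (tbl t) := by
  funext q s
  unfold tbl mir mirl
  rw [← ent_flp]
  congr 1
  have h := List.getD_map (l := t) (n := 3 * (q : ℕ) + s) (d := 0) flp
  exact h

/-- the halting problem is decidable if both ends have a box certificate -/
theorem decT_of_qc {t : List ℕ} (CR CL : QC) (hR : CR.chk t = true) (hL : CL.chk (mirl t) = true) :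
    DecT (tbl t) := by
  have bL := CL.box hL
  rw [tbl_mirl] at bL
  exact decT_closed bL (CR.box hR)

/-- digits in base `128` -/
def digs : ℕ → ℕ → List ℕ
  | 0, _ => []
  | F + 1, n => n % 128 :: digs F (n / 128)

/-- nodes from a list of numbers -/
def gNd (d : ℕ) : ℕ → List ℕ → List Nd
  | 0, _ => []
  | n + 1, l =>
    match l.drop d with
    | a :: b :: f :: p1 :: p2 :: l' => ⟨l.take d, a, b, f, p1, p2⟩ :: gNd d n l'
    | _ => []

/-- a box certificate from a list of numbers, and the rest of the list -/
def gQC (l : List ℕ) : QC × List ℕ :=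
  match l with
  | K :: F :: d :: na :: nn :: l =>
    (⟨K, F, l.take (2 * K), (l.drop (2 * K)).take (3 * K), d, (l.drop (5 * K)).take (2 * na),
      (l.drop (5 * K + 2 * na)).take (2 * na), (l.drop (5 * K + 4 * na)).take (2 * na),
      gNd d nn (l.drop (5 * K + 6 * na))⟩, l.drop (5 * K + 6 * na + nn * (d + 5)))
  | _ => (⟨0, 0, [], [], 0, [], [], [], []⟩, [])

/-- the check of a packed certificate (a list of numbers) for the table `t` -/
def chkL (t : List ℕ) (l : List ℕ) : Bool :=
  (gQC l).1.chk t && (gQC (gQC l).2).1.chk (mirl t)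

/-- the table with the code `n`: digits in base `16`, the first digit is the entry of state `0`, letter `0` -/
def dg (n : ℕ) : List ℕ := [n % 16, n / 16 % 16, n / 256 % 16, n / 4096 % 16, n / 65536 % 16, n / 1048576 % 16]

theorem dg_mod (n : ℕ) : dg (n % 16777216) = dg n := by
  unfold dg
  simp only [List.cons.injEq, and_true]
  refine ⟨?_, ?_, ?_, ?_, ?_, ?_⟩ <;> omega

/-- the check of a packed certificate (a number): the code of the table and the numbers of the certificate -/
def chkP (x : ℕ) : Bool := chkL (dg x) (digs 700 (x / 16777216))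

theorem decT_of_chkL {t l : List ℕ} (h : chkL t l = true) : DecT (tbl t) := by
  unfold chkL at h
  rw [Bool.and_eq_true] at h
  exact decT_of_qc _ _ h.1 h.2

theorem decT_of_chkP {x : ℕ} (h : chkP x = true) : DecT (tbl (dg (x % 16777216))) := by
  rw [dg_mod]
  exact decT_of_chkL h

theorem decT_of_list {L : List ℕ} (h : L.all chkP = true) :
    ∀ n ∈ L.map (· % 16777216), DecT (tbl (dg n)) := by
  intro n hn
  obtain ⟨x, hx, rfl⟩ := List.mem_map.1 hn
  exact decT_of_chkP (List.all_eq_true.1 h x hx)

end P913T
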