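import Pool.Agent.Lib.P913T.Simul

/-!
# Certificates: finite automata for both lists, levels of potentials
-/

set_option autoImplicit false

namespace P913T

/-- classes of abstract configurations -/
abbrev Cls (E : Ends) (nl nr : ℕ) := Fin nl × Fin 2 × Fin 3 × Fin nr × Fin E.KL × Fin E.KR

/-- a level: phase, potential of the class, weights of the letters (phase, automaton state behind the letter, letter) -/
structure Lvl (E : Ends) (nl nr : ℕ) where
  ph : Cls E nl nr → ℕ
  V : Cls E nl nr → ℕ
  wl : ℕ → Fin nl → Fin 3 → ℕ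
  wr : ℕ → Fin nr → Fin 3 → ℕ

/-- a certificate -/
structure Crt (E : Ends) where
  nl : ℕ
  nr : ℕ
  l0 : Fin nl
  r0 : Fin nr
  dl : Fin nl → Fin 3 → Fin nl
  dr : Fin nr → Fin 3 → Fin nr
  N : Cls E nl nr → Bool
  lv : List (Lvl E nl nr)

/-- the state of an automaton after a list (the letter next to the head is read last) -/
def runA {n : ℕ} (d : Fin n → Fin 3 → Fin n) (s0 : Fin n) (u : List (Fin 3)) : Fin n := u.foldr (fun x l => d l x) s0

/-- weight of a list -/
def wsum {n : ℕ} (d : Fin n → Fin 3 → Fin n) (s0 : Fin n) (w : Fin n → Fin 3 → ℕ) : List (Fin 3) → ℕ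
  | [] => 0
  | x :: u => wsum d s0 w u + w (runA d s0 u) x

section

variable {E : Ends} (C : Crt E)

/-- the class of a configuration -/
def Crt.cls (c : Ac E) : Cls E C.nl C.nr :=
  (runA C.dl C.l0 c.1, c.2.1, c.2.2.1, runA C.dr C.r0 c.2.2.2.1, c.2.2.2.2.1, c.2.2.2.2.2)

/-- the value of a level -/
def Crt.val (L : Lvl E C.nl C.nr) (c : Ac E) : ℕ :=
  wsum C.dl C.l0 (L.wl (L.ph (C.cls c))) c.1 + wsum C.dr C.r0 (L.wr (L.ph (C.cls c))) c.2.2.2.1 + L.V (C.cls c)

/-- comparison of an edge of the class graph, level by level -/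
def edgeOK {E : Ends} {nl nr : ℕ} (a b : Cls E nl nr) (add sub : Lvl E nl nr → ℕ) (ext : Bool) :
    List (Lvl E nl nr) → Prop
  | [] => ext = false
  | L :: Ls => L.ph a = L.ph b ∧ (L.V b + add L < L.V a + sub L ∨
      (L.V b + add L ≤ L.V a + sub L ∧ edgeOK a b add sub ext Ls))

/-- an edge of the class graph is all right -/
def Crt.edge (a b : Cls E C.nl C.nr) (add sub : Lvl E C.nl C.nr → ℕ) (ext : Bool) : Prop :=
  (C.N a = true → C.N b = true) ∧ (C.N a = false → C.N b = true ∨ edgeOK a b add sub ext C.lv)

/-- all conditions for the table `T` -/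
structure Crt.OK (T : Tb) : Prop where
  halt : ∀ (l : Fin C.nl) (q : Fin 2) (s : Fin 3) (r : Fin C.nr) (kL : Fin E.KL) (kR : Fin E.KR),
    T q s = none → C.N (l, q, s, r, kL, kR) = false
  right : ∀ (l : Fin C.nl) (q : Fin 2) (s : Fin 3) (r : Fin C.nr) (x : Fin 3) (kL : Fin E.KL) (kR : Fin E.KR)
    (w : Fin 3) (q' : Fin 2), T q s = some (w, true, q') →
    C.edge (l, q, s, C.dr r x, kL, kR) (C.dl l w, q', x, r, kL, kR)
      (fun L => L.wl (L.ph (l, q, s, C.dr r x, kL, kR)) l w)
      (fun L => L.wr (L.ph (l, q, s, C.dr r x, kL, kR)) r x) false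
  rightO : ∀ (l : Fin C.nl) (q : Fin 2) (s : Fin 3) (kL : Fin E.KL) (kR : Fin E.KR)
    (w : Fin 3) (q' : Fin 2), T q s = some (w, true, q') → E.rR = none →
    C.edge (l, q, s, C.r0, kL, kR) (C.dl l w, q', 0, C.r0, kL, kR)
      (fun L => L.wl (L.ph (l, q, s, C.r0, kL, kR)) l w) (fun _ => 0) true
  rightC : ∀ (l : Fin C.nl) (q : Fin 2) (s : Fin 3) (kL : Fin E.KL) (kR : Fin E.KR)
    (w : Fin 3) (q' : Fin 2) (r : Fin E.KR → Fin 2 → Rx E.KR), T q s = some (w, true, q') → E.rR = some r →
    (∀ q'' k', r kR q' = Rx.exit q'' k' →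
      C.edge (l, q, s, C.r0, kL, kR) (l, q'', w, C.r0, kL, k') (fun _ => 0) (fun _ => 0) false) ∧
    (r kR q' = Rx.halt → C.N (l, q, s, C.r0, kL, kR) = false)
  left : ∀ (l : Fin C.nl) (q : Fin 2) (s : Fin 3) (r : Fin C.nr) (x : Fin 3) (kL : Fin E.KL) (kR : Fin E.KR)
    (w : Fin 3) (q' : Fin 2), T q s = some (w, false, q') →
    C.edge (C.dl l x, q, s, r, kL, kR) (l, q', x, C.dr r w, kL, kR)
      (fun L => L.wr (L.ph (C.dl l x, q, s, r, kL, kR)) r w)
      (fun L => L.wl (L.ph (C.dl l x, q, s, r, kL, kR)) l x) false
  leftO : ∀ (q : Fin 2) (s : Fin 3) (r : Fin C.nr) (kL : Fin E.KL) (kR : Fin E.KR)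
    (w : Fin 3) (q' : Fin 2), T q s = some (w, false, q') → E.rL = none →
    C.edge (C.l0, q, s, r, kL, kR) (C.l0, q', 0, C.dr r w, kL, kR)
      (fun L => L.wr (L.ph (C.l0, q, s, r, kL, kR)) r w) (fun _ => 0) true
  leftC : ∀ (q : Fin 2) (s : Fin 3) (r : Fin C.nr) (kL : Fin E.KL) (kR : Fin E.KR)
    (w : Fin 3) (q' : Fin 2) (rL : Fin E.KL → Fin 2 → Rx E.KL), T q s = some (w, false, q') → E.rL = some rL →
    (∀ q'' k', rL kL q' = Rx.exit q'' k' →
      C.edge (C.l0, q, s, r, kL, kR) (C.l0, q'', w, r, k', kR) (fun _ => 0) (fun _ => 0) false) ∧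
    (rL kL q' = Rx.halt → C.N (C.l0, q, s, r, kL, kR) = false)

theorem primrec_runA {n : ℕ} (d : Fin n → Fin 3 → Fin n) (s0 : Fin n) : Primrec (runA d s0) := by
  have hd : Primrec fun p : Fin 3 × Fin n => d p.2 p.1 := Primrec.dom_finite _
  have h1 : Primrec fun u : List (Fin 3) => u.foldr (fun x l => d l x) s0 := by
    refine Primrec.list_foldr (f := fun u : List (Fin 3) => u) (g := fun _ => s0)
      (h := fun _ p => d p.2 p.1) Primrec.id (Primrec.const s0) ?_
    exact (hd.comp Primrec.snd).to₂
  exact h1

theorem Crt.primrec_N : Primrec fun c : Ac E => C.N (C.cls c) := by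
  have hN : Primrec C.N := Primrec.dom_finite _
  refine hN.comp ?_
  refine Primrec.pair ((primrec_runA _ _).comp Primrec.fst) (Primrec.pair (Primrec.fst.comp Primrec.snd) ?_)
  refine Primrec.pair (Primrec.fst.comp (Primrec.snd.comp Primrec.snd)) (Primrec.pair ((primrec_runA _ _).comp
    (Primrec.fst.comp (Primrec.snd.comp (Primrec.snd.comp Primrec.snd)))) ?_)
  exact Primrec.snd.comp (Primrec.snd.comp (Primrec.snd.comp Primrec.snd))

/-- an edge between two configurations -/
structure Crt.Edge (a b : Ac E) (ext : Bool) : Prop where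
  closed : C.N (C.cls a) = true → C.N (C.cls b) = true
  dec : C.N (C.cls a) = false → C.N (C.cls b) = true ∨ ∃ add sub : Lvl E C.nl C.nr → ℕ,
    edgeOK (C.cls a) (C.cls b) add sub ext C.lv ∧
    ∀ L : Lvl E C.nl C.nr, L.ph (C.cls a) = L.ph (C.cls b) →
      C.val L b + L.V (C.cls a) + sub L = C.val L a + L.V (C.cls b) + add L

theorem Crt.edge_of_ast {T : Tb} (h : C.OK T) {a b : Ac E} (hab : ast T E a = Sum.inl b) :
    C.Edge a b (decide (asz a < asz b)) := by
  obtain ⟨u, q, s, v, kL, kR⟩ := a
  cases hT : T q s with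
  | none => rw [ast_none hT] at hab; cases hab
  | some t =>
    obtain ⟨w, d, q'⟩ := t
    cases d with
    | true =>
      cases v with
      | cons x v =>
        rw [ast_right hT] at hab
        cases hab
        have h1 := h.right (runA C.dl C.l0 u) q s (runA C.dr C.r0 v) x kL kR w q' hT
        have h0 : decide (asz ((u, q, s, x :: v, kL, kR) : Ac E) < asz ((w :: u, q', x, v, kL, kR) : Ac E)) = false := by
          simp [asz]; omega
        rw [h0]
        refine ⟨h1.1, fun hN => ?_⟩
        rcases h1.2 hN with h2 | h2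
        · exact Or.inl h2
        · refine Or.inr ⟨_, _, h2, fun L hL => ?_⟩
          unfold Crt.val
          rw [← hL]
          simp only [wsum]
          show _ + _ + L.V (C.cls ((w :: u, q', x, v, kL, kR) : Ac E)) + _ + _ = _
          simp only [Crt.cls, runA, List.foldr_cons]
          omega
      | nil =>
        cases hR : E.rR with
        | none =>
          rw [ast_right_open hT hR] at hab
          cases hab
          have h1 := h.rightO (runA C.dl C.l0 u) q s kL kR w q' hT hR
          have h0 : decide (asz ((u, q, s, [], kL, kR) : Ac E) < asz ((w :: u, q', 0, [], kL, kR) : Ac E)) = true := by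
            simp [asz]
          rw [h0]
          refine ⟨h1.1, fun hN => ?_⟩
          rcases h1.2 hN with h2 | h2
          · exact Or.inl h2
          · refine Or.inr ⟨_, _, h2, fun L hL => ?_⟩
            unfold Crt.val
            rw [← hL]
            simp only [wsum]
            show _ + _ + L.V (C.cls ((w :: u, q', 0, [], kL, kR) : Ac E)) + _ + _ = _
            simp only [Crt.cls, runA, List.foldr_cons, List.foldr_nil]
            omega
        | some r =>
          rw [ast_right_closed hT hR] at hab
          cases hx : r kR q' with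
          | exit q'' k' =>
            rw [hx] at hab
            cases hab
            have h1 := (h.rightC (runA C.dl C.l0 u) q s kL kR w q' r hT hR).1 q'' k' hx
            have h0 : decide (asz ((u, q, s, [], kL, kR) : Ac E) < asz ((u, q'', w, [], kL, k') : Ac E)) = false := by
              simp [asz]
            rw [h0]
            refine ⟨h1.1, fun hN => ?_⟩
            rcases h1.2 hN with h2 | h2
            · exact Or.inl h2
            · refine Or.inr ⟨_, _, h2, fun L hL => ?_⟩
              unfold Crt.val
              rw [← hL]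
              simp only [wsum]
              omega
          | halt => rw [hx] at hab; cases hab
          | never => rw [hx] at hab; cases hab
    | false =>
      cases u with
      | cons x u =>
        rw [ast_left hT] at hab
        cases hab
        have h1 := h.left (runA C.dl C.l0 u) q s (runA C.dr C.r0 v) x kL kR w q' hT
        have h0 : decide (asz ((x :: u, q, s, v, kL, kR) : Ac E) < asz ((u, q', x, w :: v, kL, kR) : Ac E)) = false := by
          simp [asz]; omega
        rw [h0]
        refine ⟨h1.1, fun hN => ?_⟩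
        rcases h1.2 hN with h2 | h2
        · exact Or.inl h2
        · refine Or.inr ⟨_, _, h2, fun L hL => ?_⟩
          unfold Crt.val
          rw [← hL]
          simp only [wsum]
          show _ + _ + L.V (C.cls ((u, q', x, w :: v, kL, kR) : Ac E)) + _ + _ = _
          simp only [Crt.cls, runA, List.foldr_cons]
          omega
      | nil =>
        cases hL' : E.rL with
        | none =>
          rw [ast_left_open hT hL'] at hab
          cases hab
          have h1 := h.leftO q s (runA C.dr C.r0 v) kL kR w q' hT hL'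
          have h0 : decide (asz (([], q, s, v, kL, kR) : Ac E) < asz (([], q', 0, w :: v, kL, kR) : Ac E)) = true := by
            simp [asz]
          rw [h0]
          refine ⟨h1.1, fun hN => ?_⟩
          rcases h1.2 hN with h2 | h2
          · exact Or.inl h2
          · refine Or.inr ⟨_, _, h2, fun L hL => ?_⟩
            unfold Crt.val
            rw [← hL]
            simp only [wsum]
            show _ + _ + L.V (C.cls (([], q', 0, w :: v, kL, kR) : Ac E)) + _ + _ = _
            simp only [Crt.cls, runA, List.foldr_cons, List.foldr_nil]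
            omega
        | some r =>
          rw [ast_left_closed hT hL'] at hab
          cases hx : r kL q' with
          | exit q'' k' =>
            rw [hx] at hab
            cases hab
            have h1 := (h.leftC q s (runA C.dr C.r0 v) kL kR w q' r hT hL').1 q'' k' hx
            have h0 : decide (asz (([], q, s, v, kL, kR) : Ac E) < asz (([], q'', w, v, k', kR) : Ac E)) = false := by
              simp [asz]
            rw [h0]
            refine ⟨h1.1, fun hN => ?_⟩
            rcases h1.2 hN with h2 | h2
            · exact Or.inl h2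
            · refine Or.inr ⟨_, _, h2, fun L hL => ?_⟩
              unfold Crt.val
              rw [← hL]
              simp only [wsum]
              omega
          | halt => rw [hx] at hab; cases hab
          | never => rw [hx] at hab; cases hab

theorem edgeOK_spec (a b : Ac E) (add sub : Lvl E C.nl C.nr → ℕ) (ext : Bool) (Ls : List (Lvl E C.nl C.nr))
    (h : edgeOK (C.cls a) (C.cls b) add sub ext Ls)
    (hv : ∀ L : Lvl E C.nl C.nr, L.ph (C.cls a) = L.ph (C.cls b) →
      C.val L b + L.V (C.cls a) + sub L = C.val L a + L.V (C.cls b) + add L) :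
    ((∀ j : Fin Ls.length, C.val (Ls.get j) b ≤ C.val (Ls.get j) a) ∧ ext = false) ∨
      ∃ i : Fin Ls.length, (∀ j : Fin Ls.length, j < i → C.val (Ls.get j) b ≤ C.val (Ls.get j) a) ∧
        C.val (Ls.get i) b < C.val (Ls.get i) a := by
  induction Ls with
  | nil => exact Or.inl ⟨fun j => j.elim0, h⟩
  | cons L Ls ih =>
    obtain ⟨hph, h1⟩ := h
    have hv' := hv L hph
    rcases h1 with h1 | ⟨h1, h2⟩
    · refine Or.inr ⟨⟨0, by simp⟩, fun j hj => absurd hj (by simp [Fin.lt_def]), ?_⟩
      show C.val L b < C.val L a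
      omega
    · have h3 : C.val L b ≤ C.val L a := by omega
      rcases ih h2 with ⟨h4, h5⟩ | ⟨i, h4, h5⟩
      · refine Or.inl ⟨fun j => ?_, h5⟩
        obtain ⟨j, hj⟩ := j
        cases j with
        | zero => exact h3
        | succ j => exact h4 ⟨j, by simpa using hj⟩
      · refine Or.inr ⟨⟨i + 1, by simp⟩, fun j hj => ?_, h5⟩
        obtain ⟨j, hj'⟩ := j
        cases j with
        | zero => exact h3
        | succ j =>
          refine h4 ⟨j, by simpa using hj'⟩ ?_
          rw [Fin.lt_def] at hj ⊢
          simp only at hj ⊢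
          omega

/-- the rank -/
def Crt.rk (c : Ac E) : Lex (Fin C.lv.length → ℕ) := toLex fun j => C.val (C.lv.get j) c

theorem lex_lt {n : ℕ} {a b : Fin n → ℕ} {i : Fin n} (h : ∀ j, j < i → b j ≤ a j) (hi : b i < a i) :
    toLex b < toLex a := by
  classical
  have hex : ∃ k : ℕ, ∃ hk : k < n, b ⟨k, hk⟩ < a ⟨k, hk⟩ := ⟨i, i.2, hi⟩
  obtain ⟨hk, hlt⟩ := Nat.find_spec hex
  refine ⟨⟨Nat.find hex, hk⟩, fun j hj => ?_, hlt⟩
  have h1 : ¬ b j < a j := fun hc => Nat.find_min hex hj ⟨j.2, hc⟩
  have h2 : Nat.find hex ≤ i := Nat.find_min' hex ⟨i.2, hi⟩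
  have h3 : j < i := by
    have hj' : (j : ℕ) < Nat.find hex := hj
    exact Fin.lt_def.2 (lt_of_lt_of_le hj' h2)
  have h4 := h j h3
  show b j = a j
  omega

theorem Crt.rankOK {T : Tb} (h : C.OK T) : RankOK T E (fun c => C.N (C.cls c)) C.rk := by
  intro a b hN hab
  obtain ⟨-, h1⟩ := C.edge_of_ast h hab
  rcases h1 hN with h2 | ⟨add, sub, h2, h3⟩
  · exact Or.inl h2
  · refine Or.inr ?_
    rcases edgeOK_spec C a b add sub _ C.lv h2 h3 with ⟨h4, h5⟩ | ⟨i, h4, h5⟩
    · refine ⟨Pi.toLex_monotone fun j => h4 j, fun h6 => ?_⟩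
      exact absurd h6 (by simpa using h5)
    · have h6 : C.rk b < C.rk a := lex_lt h4 h5
      exact ⟨le_of_lt h6, fun _ => h6⟩

theorem Crt.nclosed {T : Tb} (h : C.OK T) : NClosed T E fun c => C.N (C.cls c) := by
  intro a hN
  refine ⟨fun ha => ?_, fun b hab => (C.edge_of_ast h hab).closed hN⟩
  obtain ⟨u, q, s, v, kL, kR⟩ := a
  change C.N (C.cls ((u, q, s, v, kL, kR) : Ac E)) = true at hN
  cases hT : T q s with
  | none =>
    rw [show C.N (C.cls ((u, q, s, v, kL, kR) : Ac E)) = false from h.halt _ _ _ _ _ _ hT] at hN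
    cases hN
  | some t =>
    obtain ⟨w, d, q'⟩ := t
    cases d with
    | true =>
      cases v with
      | cons x v => rw [ast_right hT] at ha; cases ha
      | nil =>
        cases hR : E.rR with
        | none => rw [ast_right_open hT hR] at ha; cases ha
        | some r =>
          rw [ast_right_closed hT hR] at ha
          cases hx : r kR q' with
          | exit q'' k' => rw [hx] at ha; cases ha
          | halt =>
            have h1 := (h.rightC (runA C.dl C.l0 u) q s kL kR w q' r hT hR).2 hx
            rw [show C.N (C.cls ((u, q, s, [], kL, kR) : Ac E)) = false from h1] at hN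
            cases hN
          | never => rw [hx] at ha; cases ha
    | false =>
      cases u with
      | cons x u => rw [ast_left hT] at ha; cases ha
      | nil =>
        cases hL : E.rL with
        | none => rw [ast_left_open hT hL] at ha; cases ha
        | some r =>
          rw [ast_left_closed hT hL] at ha
          cases hx : r kL q' with
          | exit q'' k' => rw [hx] at ha; cases ha
          | halt =>
            have h1 := (h.leftC q s (runA C.dr C.r0 v) kL kR w q' r hT hL).2 hx
            rw [show C.N (C.cls (([], q, s, v, kL, kR) : Ac E)) = false from h1] at hN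
            cases hN
          | never => rw [hx] at ha; cases ha

end

/-- the theorem on certificates -/
theorem decT_of_crt {T : Tb} (bL : Option (BB (mir T))) (bR : Option (BB T)) (C : Crt (ends bL bR)) (h : C.OK T) :
    DecT T :=
  decT_of bL bR C.primrec_N (C.nclosed h) (C.rankOK h)

end P913T
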