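import Pool.Agent.Lib.P913T.Abs

/-!
# Halting of an abstract machine is decidable, if there is a rank
-/

set_option autoImplicit false

namespace P913T

section

variable (T : Tb) (E : Ends)

theorem ait_succ_left (c : Ac E) (n : ℕ) :
    ait T E c (n + 1) = match ast T E c with
      | Sum.inl c' => ait T E c' n
      | Sum.inr b => Sum.inr b := by
  induction n with
  | zero =>
    show acont T E (Sum.inl c) = _
    show ast T E c = _
    cases ast T E c <;> rfl
  | succ n ih =>
    show acont T E (ait T E c (n + 1)) = _
    rw [ih]
    cases ast T E c <;> rfl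

theorem ait_add (c c' : Ac E) (m n : ℕ) (h : ait T E c m = Sum.inl c') : ait T E c (m + n) = ait T E c' n := by
  induction n with
  | zero => exact h
  | succ n ih =>
    show acont T E (ait T E c (m + n)) = acont T E (ait T E c' n)
    rw [ih]

theorem ait_inr_mono (c : Ac E) (b : Bool) (m n : ℕ) (h : ait T E c m = Sum.inr b) :
    ait T E c (m + n) = Sum.inr b := by
  induction n with
  | zero => exact h
  | succ n ih =>
    show acont T E (ait T E c (m + n)) = Sum.inr b
    rw [ih]
    rfl

/-- the number of explicit cells (without the scanned one) -/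
def asz {E : Ends} (c : Ac E) : ℕ := c.1.length + c.2.2.2.1.length

/-- `N` is closed and does not halt -/
def NClosed (N : Ac E → Bool) : Prop :=
  ∀ c, N c = true → ast T E c ≠ Sum.inr true ∧ ∀ c', ast T E c = Sum.inl c' → N c' = true

/-- the rank does not increase and decreases when a new cell is used -/
def RankOK {α : Type*} [Preorder α] (N : Ac E → Bool) (rk : Ac E → α) : Prop :=
  ∀ c c', N c = false → ast T E c = Sum.inl c' → N c' = true ∨
    (rk c' ≤ rk c ∧ (asz c < asz c' → rk c' < rk c))

end

section

variable {T : Tb} {E : Ends}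

theorem never_of_N {N : Ac E → Bool} (hN : NClosed T E N) {c : Ac E} (h : N c = true) (n : ℕ) :
    ait T E c n ≠ Sum.inr true ∧ ∀ c', ait T E c n = Sum.inl c' → N c' = true := by
  induction n with
  | zero =>
    refine ⟨fun h1 => (by cases h1), fun c' h1 => ?_⟩
    cases h1
    exact h
  | succ n ih =>
    show acont T E (ait T E c n) ≠ Sum.inr true ∧ ∀ c', acont T E (ait T E c n) = Sum.inl c' → N c' = true
    cases h1 : ait T E c n with
    | inl c1 =>
      exact hN c1 (ih.2 c1 h1)
    | inr b =>
      rw [h1] at ih
      exact ⟨ih.1, fun c' h2 => (by cases h2)⟩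

theorem not_halt_of_N {N : Ac E → Bool} (hN : NClosed T E N) {c c' : Ac E} {m : ℕ} (h : ait T E c m = Sum.inl c')
    (h' : N c' = true) : ¬ ∃ n, ait T E c n = Sum.inr true := by
  rintro ⟨n, hn⟩
  rcases le_total n m with h1 | h1
  · obtain ⟨k, rfl⟩ := Nat.exists_eq_add_of_le h1
    rw [ait_inr_mono T E c true n k hn] at h
    cases h
  · obtain ⟨k, rfl⟩ := Nat.exists_eq_add_of_le h1
    rw [ait_add T E c c' m k h] at hn
    exact (never_of_N hN h' k).1 hn

theorem not_halt_of_never {c : Ac E} {m : ℕ} (h : ait T E c m = Sum.inr false) :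
    ¬ ∃ n, ait T E c n = Sum.inr true := by
  rintro ⟨n, hn⟩
  have h1 := ait_inr_mono T E c true n m hn
  have h2 := ait_inr_mono T E c false m n h
  rw [Nat.add_comm, h1] at h2
  cases h2

theorem not_halt_of_rep {c c' : Ac E} {m k : ℕ} (h : ait T E c m = Sum.inl c')
    (h' : ait T E c (m + (k + 1)) = Sum.inl c') : ¬ ∃ n, ait T E c n = Sum.inr true := by
  have h1 : ait T E c' (k + 1) = Sum.inl c' := by rw [← ait_add T E c c' m (k + 1) h]; exact h'
  have h2 : ∀ j, ait T E c' (j * (k + 1)) = Sum.inl c' := by
    intro j
    induction j with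
    | zero => rw [Nat.zero_mul]; rfl
    | succ j ih => rw [Nat.succ_mul, ait_add T E c' c' _ _ ih]; exact h1
  rintro ⟨n, hn⟩
  have h3 : ait T E c (m + n * (k + 1)) = Sum.inl c' := by rw [ait_add T E c c' m _ h]; exact h2 n
  have h4 : ait T E c (n + (m + n * k)) = Sum.inr true := ait_inr_mono T E c true n _ hn
  have h5 : m + n * (k + 1) = n + (m + n * k) := by ring
  rw [h5, h4] at h3
  cases h3

theorem asz_le_or {c c' : Ac E} (h : ast T E c = Sum.inl c') : asz c ≤ asz c' := by
  obtain ⟨u, q, s, v, kL, kR⟩ := c
  cases hT : T q s with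
  | none => rw [ast_none hT] at h; cases h
  | some a =>
    obtain ⟨w, d, q'⟩ := a
    cases d with
    | true =>
      cases v with
      | cons x v =>
        rw [ast_right hT] at h
        cases h
        simp [asz]; omega
      | nil =>
        cases hR : E.rR with
        | none =>
          rw [ast_right_open hT hR] at h
          cases h
          simp [asz]
        | some r =>
          rw [ast_right_closed hT hR] at h
          cases hx : r kR q' with
          | exit q'' k' => rw [hx] at h; cases h; simp [asz]
          | halt => rw [hx] at h; cases h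
          | never => rw [hx] at h; cases h
    | false =>
      cases u with
      | cons x u =>
        rw [ast_left hT] at h
        cases h
        simp [asz]; omega
      | nil =>
        cases hL : E.rL with
        | none =>
          rw [ast_left_open hT hL] at h
          cases h
          simp [asz]
        | some r =>
          rw [ast_left_closed hT hL] at h
          cases hx : r kL q' with
          | exit q'' k' => rw [hx] at h; cases h; simp [asz]
          | halt => rw [hx] at h; cases h
          | never => rw [hx] at h; cases h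

/-- a run which never meets `N`: from some time on no new cell is used -/
theorem eventually_const {α : Type*} [Preorder α] [WellFoundedLT α] {N : Ac E → Bool} {rk : Ac E → α}
    (hr : RankOK T E N rk) (f : ℕ → Ac E) (hf : ∀ n, ast T E (f n) = Sum.inl (f (n + 1))) (hfN : ∀ n, N (f n) = false) :
    ∃ m, ∀ n, m ≤ n → asz (f n) = asz (f m) := by
  have key : ∀ a : α, ∀ m, rk (f m) ≤ a → ∃ m', ∀ n, m' ≤ n → asz (f n) = asz (f m') := by
    intro a
    induction a using WellFoundedLT.induction with
    | ind a ih =>
      intro m hm
      by_cases hx : ∃ n, m ≤ n ∧ asz (f n) < asz (f (n + 1))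
      · obtain ⟨n, hn, hlt⟩ := hx
        have h1 : ∀ k, rk (f (m + k)) ≤ rk (f m) := by
          intro k
          induction k with
          | zero => exact le_rfl
          | succ k ihk =>
            rcases hr _ _ (hfN (m + k)) (hf (m + k)) with h2 | h2
            · have h3 := hfN (m + k + 1)
              rw [h2] at h3
              cases h3
            · exact h2.1.trans ihk
        obtain ⟨k, rfl⟩ := Nat.exists_eq_add_of_le hn
        rcases hr _ _ (hfN (m + k)) (hf (m + k)) with h2 | h2
        · have h3 := hfN (m + k + 1)
          rw [h2] at h3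
          cases h3
        · exact ih (rk (f (m + k + 1))) (lt_of_lt_of_le (h2.2 hlt) ((h1 k).trans hm)) _ le_rfl
      · push Not at hx
        refine ⟨m, fun n hn => ?_⟩
        obtain ⟨k, rfl⟩ := Nat.exists_eq_add_of_le hn
        induction k with
        | zero => rfl
        | succ k ihk =>
          have h1 := hx (m + k) (by omega)
          have h2 := asz_le_or (hf (m + k))
          have h3 := ihk (by omega)
          have h4 : asz (f (m + (k + 1))) = asz (f (m + k + 1)) := rfl
          omega
  exact key (rk (f 0)) 0 le_rfl

theorem finite_asz (m : ℕ) : {c : Ac E | asz c = m}.Finite := by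
  have h1 : {l : List (Fin 3) | l.length ≤ m}.Finite := List.finite_length_le (Fin 3) m
  have h2 : (({l : List (Fin 3) | l.length ≤ m}) ×ˢ ((Set.univ : Set (Fin 2)) ×ˢ ((Set.univ : Set (Fin 3)) ×ˢ
      (({l : List (Fin 3) | l.length ≤ m}) ×ˢ ((Set.univ : Set (Fin E.KL)) ×ˢ (Set.univ : Set (Fin E.KR))))))).Finite :=
    h1.prod (Set.finite_univ.prod (Set.finite_univ.prod (h1.prod (Set.finite_univ.prod Set.finite_univ))))
  refine h2.subset ?_
  rintro ⟨u, q, s, v, kL, kR⟩ hc
  simp only [asz, Set.mem_setOf_eq] at hc
  simp only [Set.mem_prod, Set.mem_setOf_eq, Set.mem_univ, true_and, and_true]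
  omega

/-- without halting: the run meets `N`, or is known not to come back, or repeats a configuration -/
theorem halt_or {α : Type*} [Preorder α] [WellFoundedLT α] {N : Ac E → Bool} {rk : Ac E → α}
    (hr : RankOK T E N rk) (c : Ac E) (h : ¬ ∃ n, ait T E c n = Sum.inr true) :
    (∃ n, ait T E c n = Sum.inr false) ∨ (∃ n c', ait T E c n = Sum.inl c' ∧ N c' = true) ∨
      ∃ m k c', ait T E c m = Sum.inl c' ∧ ait T E c (m + (k + 1)) = Sum.inl c' := by
  by_contra hcon
  push Not at hcon h
  obtain ⟨h1, h2, h3⟩ := hcon
  have h4 : ∀ n, ∃ c', ait T E c n = Sum.inl c' := by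
    intro n
    cases h5 : ait T E c n with
    | inl c' => exact ⟨c', rfl⟩
    | inr b =>
      cases b with
      | true => exact absurd h5 (h n)
      | false => exact absurd h5 (h1 n)
  choose f hf using h4
  have hstep : ∀ n, ast T E (f n) = Sum.inl (f (n + 1)) := by
    intro n
    have h5 := hf (n + 1)
    have h6 : ait T E c (n + 1) = acont T E (ait T E c n) := rfl
    rw [h6, hf n] at h5
    exact h5
  have hN : ∀ n, N (f n) = false := by
    intro n
    have := h2 n (f n) (hf n)
    simpa using this
  obtain ⟨m, hm⟩ := eventually_const hr f hstep hN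
  obtain ⟨a, -, b, -, hab, heq⟩ := Set.infinite_univ.exists_ne_map_eq_of_mapsTo (f := fun n : ℕ => f (m + n))
    (t := {c : Ac E | asz c = asz (f m)}) (fun n _ => hm (m + n) (by omega)) (finite_asz _)
  have main : ∀ a b : ℕ, a < b → f (m + a) = f (m + b) → False := by
    intro a b hab heq
    obtain ⟨k, rfl⟩ : ∃ k, b = a + (k + 1) := ⟨b - a - 1, by omega⟩
    refine h3 (m + a) k (f (m + a)) (hf _) ?_
    have h5 : m + a + (k + 1) = m + (a + (k + 1)) := by omega
    rw [h5, hf, ← heq]
  rcases lt_or_gt_of_ne hab with h5 | h5
  · exact main a b h5 heq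
  · exact main b a h5 heq.symm

/-! ## Decidability -/

theorem re_exists {β : Type*} [Primcodable β] {b : β → ℕ → Bool} (hb : Computable₂ b) :
    REPred fun a => ∃ n, b a n = true := by
  have h1 : Partrec fun a => Nat.rfind fun n => Part.some (b a n) := Partrec.rfind hb.partrec₂
  refine h1.dom_re.of_eq fun a => ?_
  rw [Nat.rfind_dom]
  constructor
  · rintro ⟨n, hn, -⟩
    exact ⟨n, (Part.mem_some_iff.1 hn).symm⟩
  · rintro ⟨n, hn⟩
    exact ⟨n, Part.mem_some_iff.2 hn.symm, fun _ => trivial⟩

theorem comp_halt {α : Type*} [Preorder α] [WellFoundedLT α] {N : Ac E → Bool} (hNc : Primrec N)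
    (hN : NClosed T E N) {rk : Ac E → α} (hr : RankOK T E N rk) :
    ComputablePred fun c : Ac E => ∃ n, ait T E c n = Sum.inr true := by
  classical
  rw [ComputablePred.computable_iff_re_compl_re]
  have hait : Primrec₂ (ait T E) := primrec_ait T E
  constructor
  · have h1 : Primrec₂ fun (c : Ac E) (n : ℕ) => decide (ait T E c n = Sum.inr true) :=
      (Primrec.eq.comp hait (Primrec.const (Sum.inr true))).decide
    exact (re_exists (Primrec₂.to_comp h1)).of_eq fun c => by simp
  · -- one number for (n, m)
    have hN' : Primrec fun r : Ac E ⊕ Bool => Sum.casesOn (motive := fun _ => Bool) r (fun c => N c) (fun b => !b) :=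
      Primrec.sumCasesOn Primrec.id (hNc.comp Primrec.snd).to₂ (Primrec.not.comp Primrec.snd).to₂
    have h1 : Primrec₂ fun (c : Ac E) (n : ℕ) =>
        (Sum.casesOn (motive := fun _ => Bool) (ait T E c n.unpair.1) (fun c => N c) (fun b => !b) ||
          (decide (ait T E c n.unpair.1 = ait T E c (n.unpair.1 + (n.unpair.2 + 1))) &&
            !decide (ait T E c n.unpair.1 = Sum.inr true))) := by
      refine Primrec.or.comp ?_ (Primrec.and.comp ?_ (Primrec.not.comp ?_))
      · exact hN'.comp (hait.comp Primrec.fst (Primrec.fst.comp (Primrec.unpair.comp Primrec.snd)))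
      · refine (Primrec.eq.comp (hait.comp Primrec.fst (Primrec.fst.comp (Primrec.unpair.comp Primrec.snd)))
          (hait.comp Primrec.fst ?_)).decide
        exact Primrec.nat_add.comp (Primrec.fst.comp (Primrec.unpair.comp Primrec.snd))
          (Primrec.succ.comp (Primrec.snd.comp (Primrec.unpair.comp Primrec.snd)))
      · exact (Primrec.eq.comp (hait.comp Primrec.fst (Primrec.fst.comp (Primrec.unpair.comp Primrec.snd)))
          (Primrec.const (Sum.inr true))).decide
    refine (re_exists (Primrec₂.to_comp h1)).of_eq fun c => ?_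
    constructor
    · rintro ⟨n, hn⟩
      rw [Bool.or_eq_true, Bool.and_eq_true, Bool.not_eq_true', decide_eq_true_iff, decide_eq_false_iff_not] at hn
      rcases hn with hn | ⟨hn, hn2⟩
      · cases h2 : ait T E c n.unpair.1 with
        | inl c' =>
          rw [h2] at hn
          exact not_halt_of_N hN h2 hn
        | inr b =>
          rw [h2] at hn
          cases b with
          | true => cases hn
          | false => exact not_halt_of_never h2
      · cases h2 : ait T E c n.unpair.1 with
        | inl c' =>
          rw [h2] at hn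
          exact not_halt_of_rep h2 hn.symm
        | inr b =>
          cases b with
          | true => exact absurd h2 hn2
          | false => exact not_halt_of_never h2
    · intro h
      rcases halt_or hr c h with ⟨n, hn⟩ | ⟨n, c', hn, hc⟩ | ⟨m, k, c', h2, h3⟩
      · refine ⟨Nat.pair n 0, ?_⟩
        simp [hn]
      · refine ⟨Nat.pair n 0, ?_⟩
        simp [hn, hc]
      · refine ⟨Nat.pair m k, ?_⟩
        simp [h2, h3]

end

end P913T
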