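import Pool.Agent.Lib.P913T.Box

/-!
# Certificates for black boxes: the numerical side

A table is a list `t` of six numbers: `0` is the halting entry, `1 + q + 2 d + 4 w` is: write `w`, move (`d = 1`: to
the right), state `q`.  A box with `K` states has the list `re` of its answers (`re[2 k + q]` is `0`: never, `1`:
halt, `2 + q' + 2 k'`: exit in the state `q'`, new state `k'`) and the list `de` (`de[3 k + c] = m + 1`: the half-line
which consists of the cell `c` and a half-line with state `k` has the state `m`).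
-/

set_option autoImplicit false

namespace P913T

/-- decode an entry -/
def ent (e : ℕ) : Option (Fin 3 × Bool × Fin 2) :=
  match e with
  | 0 => none
  | e + 1 => some (Fin.ofNat 3 (e / 4), Nat.beq (e / 2 % 2) 1, Fin.ofNat 2 e)

/-- the table with the code `t` -/
def tbl (t : List ℕ) : Tb := fun q s => ent (t.getD (3 * (q : ℕ) + s) 0)

/-- can the head enter a cell from the left in the state `q`? -/
def inpN (t : List ℕ) (q : ℕ) : Bool :=
  t.any fun x =>
    match x with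
    | 0 => false
    | e + 1 => Nat.beq (e / 2 % 2) 1 && Nat.beq (e % 2) q

/-- one cell `c` with a box in the state `k` behind it, the head enters the cell in the state `q`: the calls of the
box, and the outcome (`0`: never or out of fuel, `1`: halt, `2 + q' + 2 c' + 6 k'`: exit) -/
def cmpE (t re : List ℕ) : ℕ → ℕ → ℕ → ℕ → List ℕ × ℕ
  | 0, _, _, _ => ([], 0)
  | F + 1, c, k, q =>
    match t.getD (3 * q + c) 0 with
    | 0 => ([], 1)
    | e + 1 =>
      match e / 2 % 2 with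
      | 0 => ([], e % 2 + 2 * (e / 4 % 3) + 6 * k + 2)
      | _ + 1 =>
        match re.getD (2 * k + e % 2) 0 with
        | 0 => ([e % 2], 0)
        | 1 => ([e % 2], 1)
        | r + 2 => (e % 2 :: (cmpE t re F (e / 4 % 3) (r / 2) (r % 2)).1,
            (cmpE t re F (e / 4 % 3) (r / 2) (r % 2)).2)

/-- does the outcome `r` of cell and box agree with the answer of a box in the state `m`? -/
def agree (re de : List ℕ) (m q r : ℕ) : Bool :=
  match r with
  | 0 => Nat.beq (re.getD (2 * m + q) 0) 0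
  | 1 => Nat.beq (re.getD (2 * m + q) 0) 1
  | r + 2 =>
    match re.getD (2 * m + q) 0 with
    | 0 => false
    | 1 => false
    | s + 2 => Nat.beq (s % 2) (r % 2) && Nat.beq (de.getD (3 * (r / 6) + r / 2 % 3) 0) (s / 2 + 1)

/-- the check of partial correctness -/
def chkPC (t re de : List ℕ) (K F : ℕ) : Bool :=
  Nat.blt 0 K && Nat.beq (de.getD 0 0) 1 && re.all (fun r => Nat.blt r (2 * K + 2)) &&
  (List.range K).all fun k => (List.range 3).all fun c =>
    ((List.range 2).all fun q => Nat.beq (cmpE t re (F + 1) c k q).2 (cmpE t re F c k q).2) &&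
    match de.getD (3 * k + c) 0 with
    | 0 => true
    | m + 1 => Nat.blt m K &&
      (List.range 2).all fun q => !inpN t q || agree re de m q (cmpE t re F c k q).2

/-- the class of a word -/
inductive QCls (de : List ℕ) : List (Fin 3) → ℕ → Prop
  | nil : QCls de [] 0
  | cons {v : List (Fin 3)} {k m : ℕ} {c : Fin 3} (h : QCls de v k) (hm : de.getD (3 * k + c) 0 = m + 1) :
      QCls de (c :: v) m

section pc

variable {t re de : List ℕ} {K F : ℕ}

theorem inpN_of_getD {t : List ℕ} {i e : ℕ} (h : t.getD i 0 = e + 1) (hd : e / 2 % 2 = 1) :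
    inpN t (e % 2) = true := by
  have hi : i < t.length := by
    by_contra hi
    rw [List.getD_eq_default _ _ (not_lt.1 hi)] at h
    simp at h
  rw [List.getD_eq_getElem _ _ hi] at h
  unfold inpN
  rw [List.any_eq_true]
  refine ⟨t[i], List.getElem_mem hi, ?_⟩
  rw [h]
  simp [hd]

theorem inpN_of_tbl {t : List ℕ} {p q : Fin 2} {s w : Fin 3} (h : tbl t p s = some (w, true, q)) :
    inpN t q = true := by
  unfold tbl ent at h
  split at h
  · simp at h
  · rename_i e he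
    simp only [Option.some.injEq, Prod.mk.injEq] at h
    obtain ⟨-, h1, h2⟩ := h
    have h3 := inpN_of_getD he (Nat.eq_of_beq_eq_true h1)
    rw [← h2]
    exact h3

theorem inpN_of_Inp {t : List ℕ} {q : Fin 2} (h : Inp (tbl t) q) : inpN t q = true := by
  obtain ⟨p, s, w, h⟩ := h
  exact inpN_of_tbl h

/-- what the check says -/
structure PC (t re de : List ℕ) (K F : ℕ) : Prop where
  K0 : 0 < K
  d0 : de.getD 0 0 = 1
  bd : ∀ r ∈ re, r < 2 * K + 2
  fix : ∀ k < K, ∀ c < 3, ∀ q < 2, (cmpE t re (F + 1) c k q).2 = (cmpE t re F c k q).2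
  lt : ∀ k < K, ∀ c < 3, ∀ m, de.getD (3 * k + c) 0 = m + 1 → m < K
  agr : ∀ k < K, ∀ c < 3, ∀ m, de.getD (3 * k + c) 0 = m + 1 → ∀ q < 2, inpN t q = true →
    agree re de m q (cmpE t re F c k q).2 = true

theorem PC.of_chk (h : chkPC t re de K F = true) : PC t re de K F := by
  unfold chkPC at h
  simp only [Bool.and_eq_true, List.all_eq_true, List.mem_range] at h
  obtain ⟨⟨⟨h1, h2⟩, h3⟩, h4⟩ := h
  refine ⟨Nat.blt_eq.mp h1 , Nat.eq_of_beq_eq_true h2, fun r hr => Nat.blt_eq.mp (h3 r hr), ?_, ?_, ?_⟩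
  · intro k hk c hc q hq
    exact Nat.eq_of_beq_eq_true ((h4 k hk c hc).1 q hq)
  · intro k hk c hc m hm
    have h5 := (h4 k hk c hc).2
    rw [hm] at h5
    simp only [Bool.and_eq_true] at h5
    exact Nat.blt_eq.mp h5.1
  · intro k hk c hc m hm q hq hi
    have h5 := (h4 k hk c hc).2
    rw [hm] at h5
    simp only [Bool.and_eq_true, List.all_eq_true, List.mem_range] at h5
    have h6 := h5.2 q hq
    rw [hi] at h6
    simpa using h6

theorem QCls.lt (h : PC t re de K F) {v : List (Fin 3)} {k : ℕ} (hc : QCls de v k) : k < K := by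
  induction hc with
  | nil => exact h.K0
  | cons hc hm ih => exact h.lt _ ih _ (Fin.is_lt _) _ hm

theorem PC.agr_halt (h : PC t re de K F) {k m : ℕ} {c : ℕ} {q : ℕ} (hk : k < K) (hc : c < 3)
    (hm : de.getD (3 * k + c) 0 = m + 1) (hq : q < 2) (hi : inpN t q = true)
    (hr : (cmpE t re F c k q).2 = 1) : re.getD (2 * m + q) 0 = 1 := by
  have h1 := h.agr k hk c hc m hm q hq hi
  rw [hr] at h1
  exact Nat.eq_of_beq_eq_true h1

theorem PC.agr_never (h : PC t re de K F) {k m : ℕ} {c : ℕ} {q : ℕ} (hk : k < K) (hc : c < 3)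
    (hm : de.getD (3 * k + c) 0 = m + 1) (hq : q < 2) (hi : inpN t q = true)
    (hr : (cmpE t re F c k q).2 = 0) : re.getD (2 * m + q) 0 = 0 := by
  have h1 := h.agr k hk c hc m hm q hq hi
  rw [hr] at h1
  exact Nat.eq_of_beq_eq_true h1

theorem PC.agr_exit (h : PC t re de K F) {k m : ℕ} {c : ℕ} {q r : ℕ} (hk : k < K) (hc : c < 3)
    (hm : de.getD (3 * k + c) 0 = m + 1) (hq : q < 2) (hi : inpN t q = true)
    (hr : (cmpE t re F c k q).2 = r + 2) :
    ∃ s, re.getD (2 * m + q) 0 = s + 2 ∧ s % 2 = r % 2 ∧ de.getD (3 * (r / 6) + r / 2 % 3) 0 = s / 2 + 1 := by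
  have h1 := h.agr k hk c hc m hm q hq hi
  rw [hr] at h1
  unfold agree at h1
  simp only at h1
  split at h1
  · simp at h1
  · simp at h1
  · rename_i s hs
    simp only [Bool.and_eq_true] at h1
    exact ⟨s, hs, Nat.eq_of_beq_eq_true h1.1, Nat.eq_of_beq_eq_true h1.2⟩

/-- the entries of the table -/
theorem tbl_none {t : List ℕ} {q : Fin 2} {s : Fin 3} (h : tbl t q s = none) :
    t.getD (3 * (q : ℕ) + s) 0 = 0 := by
  unfold tbl ent at h
  split at h
  · assumption
  · simp at h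

theorem tbl_some {t : List ℕ} {q p : Fin 2} {s w : Fin 3} {d : Bool} (h : tbl t q s = some (w, d, p)) :
    ∃ e, t.getD (3 * (q : ℕ) + s) 0 = e + 1 ∧ e / 4 % 3 = w ∧ e % 2 = p ∧ (Nat.beq (e / 2 % 2) 1 = d) := by
  unfold tbl ent at h
  split at h
  · simp at h
  · rename_i e he
    simp only [Option.some.injEq, Prod.mk.injEq] at h
    obtain ⟨h1, h2, h3⟩ := h
    refine ⟨e, he, ?_, ?_, h2⟩
    · rw [← h1]; simp [Fin.ofNat]
    · rw [← h3]; simp [Fin.ofNat]

theorem cmpE_none {F c k q : ℕ} (h : t.getD (3 * q + c) 0 = 0) : cmpE t re (F + 1) c k q = ([], 1) := by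
  simp only [cmpE, h]

theorem cmpE_left {F c k q e : ℕ} (h : t.getD (3 * q + c) 0 = e + 1) (hd : e / 2 % 2 = 0) :
    cmpE t re (F + 1) c k q = ([], e % 2 + 2 * (e / 4 % 3) + 6 * k + 2) := by
  simp only [cmpE, h, hd]

theorem cmpE_right0 {F c k q e : ℕ} (h : t.getD (3 * q + c) 0 = e + 1) (hd : e / 2 % 2 = 1)
    (hr : re.getD (2 * k + e % 2) 0 = 0) : cmpE t re (F + 1) c k q = ([e % 2], 0) := by
  simp only [cmpE, h, hd, hr]

theorem cmpE_right1 {F c k q e : ℕ} (h : t.getD (3 * q + c) 0 = e + 1) (hd : e / 2 % 2 = 1)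
    (hr : re.getD (2 * k + e % 2) 0 = 1) : cmpE t re (F + 1) c k q = ([e % 2], 1) := by
  simp only [cmpE, h, hd, hr]

theorem cmpE_right2 {F c k q e r : ℕ} (h : t.getD (3 * q + c) 0 = e + 1) (hd : e / 2 % 2 = 1)
    (hr : re.getD (2 * k + e % 2) 0 = r + 2) : cmpE t re (F + 1) c k q =
      (e % 2 :: (cmpE t re F (e / 4 % 3) (r / 2) (r % 2)).1, (cmpE t re F (e / 4 % 3) (r / 2) (r % 2)).2) := by
  simp only [cmpE, h, hd, hr]

/-- the class of a word is the class of its first cell with the class of the rest -/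
theorem QCls.split (h : PC t re de K F) {v : List (Fin 3)} {k : ℕ} (hc : QCls de v k) :
    ∃ k1, QCls de v.tail k1 ∧ de.getD (3 * k1 + v.headD 0) 0 = k + 1 := by
  cases hc with
  | nil => exact ⟨0, .nil, by simpa using h.d0⟩
  | cons hc hm => exact ⟨_, hc, hm⟩

theorem num1 (q' : Fin 2) (c' : Fin 3) (k' : ℕ) : ((q' : ℕ) + 2 * (c' : ℕ) + 6 * k') % 2 = q' := by
  have := q'.2; omega

theorem num2 (q' : Fin 2) (c' : Fin 3) (k' : ℕ) : ((q' : ℕ) + 2 * (c' : ℕ) + 6 * k') / 6 = k' := by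
  have := q'.2; have := c'.2; omega

theorem num3 (q' : Fin 2) (c' : Fin 3) (k' : ℕ) : ((q' : ℕ) + 2 * (c' : ℕ) + 6 * k') / 2 % 3 = c' := by
  have := q'.2; have := c'.2; omega

/-- partial correctness: a run which leaves the half-line -/
theorem Rct.cmp (h : PC t re de K F) {v v' : List (Fin 3)} {q q' : Fin 2} (hr : Rct (tbl t) v q q' v') :
    ∀ k1, QCls de v.tail k1 → ∃ (c' : Fin 3) (v1 : List (Fin 3)) (k' : ℕ),
      v' = c' :: v1 ∧ QCls de v1 k' ∧
        (cmpE t re F (v.headD 0 : Fin 3) k1 q).2 = (q' : ℕ) + 2 * (c' : ℕ) + 6 * k' + 2 := by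
  induction hr with
  | @left v q w p hT =>
    intro k1 hk1
    refine ⟨w, v.tail, k1, rfl, hk1, ?_⟩
    rw [← h.fix k1 (hk1.lt h) _ (Fin.is_lt _) _ (Fin.is_lt _)]
    obtain ⟨e, he, hw, hp, hd⟩ := tbl_some hT
    have hd0 : e / 2 % 2 = 0 := by
      rcases Nat.mod_two_eq_zero_or_one (e / 2) with h1 | h1
      · exact h1
      · rw [h1] at hd; simp at hd
    rw [cmpE_left he hd0, hw, hp]
  | @right v q w p p' v' q'' v'' hT h1 h2 ih1 ih2 =>
    intro k1 hk1
    have hip : inpN t p = true := inpN_of_tbl hT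
    obtain ⟨e, he, hw, hp, hd⟩ := tbl_some hT
    have hd1 : e / 2 % 2 = 1 := Nat.eq_of_beq_eq_true hd
    obtain ⟨k2, hk2, hd2⟩ := hk1.split h
    obtain ⟨c', v1, k', rfl, hk', hcm⟩ := ih1 k2 hk2
    obtain ⟨s, hs, hs1, hs2⟩ := h.agr_exit (hk2.lt h) (Fin.is_lt _) hd2 (Fin.is_lt p) hip hcm
    rw [num1] at hs1
    rw [num2, num3] at hs2
    have hcl : QCls de (c' :: v1) (s / 2) := .cons hk' hs2
    obtain ⟨c'', v2, k'', rfl, hk'', hcm2⟩ := ih2 (s / 2) hcl
    refine ⟨c'', v2, k'', rfl, hk'', ?_⟩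
    rw [← h.fix k1 (hk1.lt h) _ (Fin.is_lt _) _ (Fin.is_lt _),
      cmpE_right2 (r := s) he hd1 (by rw [hp]; exact hs), hw, hs1]
    exact hcm2

/-- partial correctness: a run which halts in the half-line -/
theorem RctH.cmp (h : PC t re de K F) {v : List (Fin 3)} {q : Fin 2} (hr : RctH (tbl t) v q) :
    ∀ k1, QCls de v.tail k1 → (cmpE t re F (v.headD 0 : Fin 3) k1 q).2 = 1 := by
  induction hr with
  | @here v q hT =>
    intro k1 hk1
    rw [← h.fix k1 (hk1.lt h) _ (Fin.is_lt _) _ (Fin.is_lt _), cmpE_none (tbl_none hT)]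
  | @inner v q w p hT h1 ih1 =>
    intro k1 hk1
    have hip : inpN t p = true := inpN_of_tbl hT
    obtain ⟨e, he, hw, hp, hd⟩ := tbl_some hT
    have hd1 : e / 2 % 2 = 1 := Nat.eq_of_beq_eq_true hd
    obtain ⟨k2, hk2, hd2⟩ := hk1.split h
    have h3 := h.agr_halt (hk2.lt h) (Fin.is_lt _) hd2 (Fin.is_lt p) hip (ih1 k2 hk2)
    rw [← h.fix k1 (hk1.lt h) _ (Fin.is_lt _) _ (Fin.is_lt _),
      cmpE_right1 he hd1 (by rw [hp]; exact h3)]
  | @outer v q w p p' v' hT h1 h2 ih2 =>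
    intro k1 hk1
    have hip : inpN t p = true := inpN_of_tbl hT
    obtain ⟨e, he, hw, hp, hd⟩ := tbl_some hT
    have hd1 : e / 2 % 2 = 1 := Nat.eq_of_beq_eq_true hd
    obtain ⟨k2, hk2, hd2⟩ := hk1.split h
    obtain ⟨c', v1, k', rfl, hk', hcm⟩ := h1.cmp h k2 hk2
    obtain ⟨s, hs, hs1, hs2⟩ := h.agr_exit (hk2.lt h) (Fin.is_lt _) hd2 (Fin.is_lt p) hip hcm
    rw [num1] at hs1
    rw [num2, num3] at hs2
    have hcl : QCls de (c' :: v1) (s / 2) := .cons hk' hs2
    rw [← h.fix k1 (hk1.lt h) _ (Fin.is_lt _) _ (Fin.is_lt _),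
      cmpE_right2 (r := s) he hd1 (by rw [hp]; exact hs), hw, hs1]
    exact ih2 (s / 2) hcl

/-- the answer of the box for a run which leaves the half-line -/
theorem Rct.code (h : PC t re de K F) {v v' : List (Fin 3)} {q q' : Fin 2} (hr : Rct (tbl t) v q q' v')
    {k : ℕ} (hk : QCls de v k) (hi : inpN t q = true) :
    ∃ k', re.getD (2 * k + q) 0 = q' + 2 * k' + 2 ∧ QCls de v' k' := by
  obtain ⟨k1, hk1, hd⟩ := hk.split h
  obtain ⟨c', v1, k', rfl, hk', hcm⟩ := hr.cmp h k1 hk1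
  obtain ⟨s, hs, hs1, hs2⟩ := h.agr_exit (hk1.lt h) (Fin.is_lt _) hd (Fin.is_lt q) hi hcm
  rw [num1] at hs1
  rw [num2, num3] at hs2
  refine ⟨s / 2, ?_, .cons hk' hs2⟩
  rw [hs]
  omega

/-- the answer of the box for a run which halts in the half-line -/
theorem RctH.code (h : PC t re de K F) {v : List (Fin 3)} {q : Fin 2} (hr : RctH (tbl t) v q)
    {k : ℕ} (hk : QCls de v k) (hi : inpN t q = true) : re.getD (2 * k + q) 0 = 1 := by
  obtain ⟨k1, hk1, hd⟩ := hk.split h
  exact h.agr_halt (hk1.lt h) (Fin.is_lt _) hd (Fin.is_lt q) hi (hr.cmp h k1 hk1)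

end pc

end P913T
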