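import Pool.Agent.Lib.P913T.NoUni
import Pool.Agent.Lib.P913T.Quot

/-!
# The halting problem of a machine with 2 states and 3 symbols, codes of tables
-/

set_option autoImplicit false

namespace P913T

open P913

/-- if the halting problem of the table is decidable, then so is the halting problem of the machine -/
theorem halts_computable {U : TM 2 3} (h : DecT (tb U)) : ComputablePred fun x : List (Fin 3) => Halts U x := by
  obtain ⟨hd, hc⟩ := h
  have h3 : Computable fun x : List (Fin 3) => ((([] : List (Fin 3)), (0 : Fin 2), x.headD 0, x.tail) : Cd) := by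
    refine Computable.pair (Computable.const _) (Computable.pair (Computable.const _) (Computable.pair ?_ ?_))
    · have h5 : Primrec fun l : List (Fin 3) => l.head?.getD 0 :=
        Primrec.option_getD.comp Primrec.list_head? (Primrec.const 0)
      exact (h5.of_eq fun l => by cases l <;> rfl).to_comp
    · exact Primrec.list_tail.to_comp
  have h1 : ∀ x : List (Fin 3), Hlt (tb U) (Cf.of ([], 0, x.headD 0, x.tail)) ↔ Halts U x := fun x =>
    (halts_iff U x).symm
  exact ⟨fun x => decidable_of_iff _ (h1 x), (hc.comp h3).of_eq fun x => decide_eq_decide.2 (h1 x)⟩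

/-- the code of an entry -/
def encE (x : Option (Fin 3 × Bool × Fin 2)) : ℕ :=
  match x with
  | none => 0
  | some (w, d, q) => 1 + q + 2 * (if d then 1 else 0) + 4 * w

theorem ent_encE : ∀ x : Option (Fin 3 × Bool × Fin 2), ent (encE x) = x := by decide

theorem encE_le : ∀ x : Option (Fin 3 × Bool × Fin 2), encE x ≤ 12 := by decide

/-- every table has a list of entries -/
theorem exists_tbl (T : Tb) : ∃ a b c d e f : ℕ, a ≤ 12 ∧ b ≤ 12 ∧ c ≤ 12 ∧ d ≤ 12 ∧ e ≤ 12 ∧ f ≤ 12 ∧
    tbl [a, b, c, d, e, f] = T := by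
  refine ⟨encE (T 0 0), encE (T 0 1), encE (T 0 2), encE (T 1 0), encE (T 1 1), encE (T 1 2), encE_le _, encE_le _,
    encE_le _, encE_le _, encE_le _, encE_le _, ?_⟩
  funext q s
  fin_cases q <;> fin_cases s <;> exact ent_encE _

/-- all machines, if all lists of entries are decidable -/
theorem all_machines (h : ∀ a b c d e f : ℕ, a ≤ 12 → b ≤ 12 → c ≤ 12 → d ≤ 12 → e ≤ 12 → f ≤ 12 →
    DecT (tbl [a, b, c, d, e, f])) (U : TM 2 3) :
    (ComputablePred fun x : List (Fin 3) => Halts U x) ∧ ¬ Universal U := by
  have h1 : DecT (tb U) := by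
    obtain ⟨a, b, c, d, e, f, ha, hb, hc, hd, he, hf, hT⟩ := exists_tbl (tb U)
    rw [← hT]
    exact h a b c d e f ha hb hc hd he hf
  exact ⟨halts_computable h1, not_universal_of_decT h1⟩

end P913T
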