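import Pool.Agent.Lib.P913T.TData0
import Pool.Agent.Lib.P913T.TData1
import Pool.Agent.Lib.P913T.TData2
import Pool.Agent.Lib.P913T.TData3
import Pool.Agent.Lib.P913T.TData4
import Pool.Agent.Lib.P913T.TData5
import Pool.Agent.Lib.P913T.TData6
import Pool.Agent.Lib.P913T.TData7
import Pool.Agent.Lib.P913T.TData8
import Pool.Agent.Lib.P913T.HaltDec

/-!
# The halting problem is decidable for all machines with 2 states and 3 symbols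
-/

set_option autoImplicit false
set_option maxRecDepth 100000

namespace P913T

open NB in
/-- the boxes of the nine trees -/
def rootPool : NB :=
  (nd 4 (nd 2 (nd 1 (lf 0xe000e000fffee000e000fffe) (lf 0xe000e000ffdde000e000fffe)) (nd 3 (lf
  0xe000e000ffbbe000e000fffe) (lf 0xe000e000fddde000e000ffdd))) (nd 6 (nd 5 (lf 0xe000e000fbbbe000e000ffdd) (lf
  0xe000e000f777e000e000ffdd)) (nd 7 (lf 0xe000e000eeefe000e000ffdd) (nd 8 (lf 0xe000e000fddde000e000ffbb) (lf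
  0xe000e000f777e000e000ffbb)))))

theorem rootPool_good : ∀ C ∈ rootPool.toList, CGood C :=
  (NB.good_nd (NB.good_nd (NB.good_nd (NB.good_lf tt0_good (by decide)) (NB.good_lf tt1_good (by decide))) (NB.good_nd
  (NB.good_lf tt2_good (by decide)) (NB.good_lf tt3_good (by decide)))) (NB.good_nd (NB.good_nd (NB.good_lf tt4_good (by
  decide)) (NB.good_lf tt5_good (by decide))) (NB.good_nd (NB.good_lf tt6_good (by decide)) (NB.good_nd (NB.good_lf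
  tt7_good (by decide)) (NB.good_lf tt8_good (by decide))))))

open Tr in
/-- the reduction of all tables to the nine boxes -/
def topT : Tr :=
  (nd 0 1 (nd 3 1 (bx 0 0) (nd 3 546 (nd 3 30 (bx 1 0) (nd 3 480 (bx 1 0) (bx 1 4))) (nd 3 1092 (nd 3 30 (bx 2 0) (nd 3
  480 (bx 2 0) (bx 2 4))) (nd 3 2184 (nd 3 30 (bx 1 1) (nd 3 480 (bx 1 1) (bx 1 5))) (nd 3 30 (bx 2 1) (nd 3 480 (bx 2
  1) (bx 2 5))))))) (nd 0 546 (nd 3 1 (nd 0 30 (bx 2 2) (nd 0 480 (bx 2 2) (bx 2 6))) (nd 3 546 (nd 0 30 (bx 3 0) (nd 0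
  480 (bx 3 0) (bx 3 4))) (nd 3 1092 (nd 0 30 (bx 4 0) (nd 0 480 (bx 4 0) (bx 4 4))) (nd 3 2184 (nd 0 30 (bx 5 0) (nd 0
  480 (bx 5 0) (bx 5 4))) (nd 0 30 (bx 6 0) (nd 0 480 (bx 6 0) (bx 6 4))))))) (nd 0 1092 (nd 3 1 (nd 0 30 (bx 1 2) (nd 0
  480 (bx 1 2) (bx 1 6))) (nd 3 546 (nd 0 30 (bx 7 0) (nd 0 480 (bx 7 0) (bx 7 4))) (nd 3 1092 (nd 0 30 (nd 3 30 (bx 3
  2) (nd 3 480 (bx 3 2) (bx 3 6))) (nd 0 480 (nd 3 30 (bx 3 2) (nd 3 480 (bx 3 2) (bx 3 6))) (nd 3 30 (bx 3 2) (nd 3 480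
  (bx 3 2) (bx 3 6))))) (nd 3 2184 (nd 0 30 (bx 8 0) (nd 0 480 (bx 8 0) (bx 8 4))) (nd 0 30 (nd 3 30 (bx 5 3) (nd 3 480
  (bx 5 3) (bx 5 7))) (nd 0 480 (nd 3 30 (bx 5 3) (nd 3 480 (bx 5 3) (bx 5 7))) (nd 3 30 (bx 5 3) (nd 3 480 (bx 5 3) (bx
  5 7))))))))) (nd 0 2184 (nd 3 1 (nd 0 30 (bx 2 3) (nd 0 480 (bx 2 3) (bx 2 7))) (nd 3 546 (nd 0 30 (bx 5 1) (nd 0 480
  (bx 5 1) (bx 5 5))) (nd 3 1092 (nd 0 30 (bx 6 1) (nd 0 480 (bx 6 1) (bx 6 5))) (nd 3 2184 (nd 0 30 (bx 3 1) (nd 0 480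
  (bx 3 1) (bx 3 5))) (nd 0 30 (bx 4 1) (nd 0 480 (bx 4 1) (bx 4 5))))))) (nd 3 1 (nd 0 30 (bx 1 3) (nd 0 480 (bx 1 3)
  (bx 1 7))) (nd 3 546 (nd 0 30 (bx 8 1) (nd 0 480 (bx 8 1) (bx 8 5))) (nd 3 1092 (nd 0 30 (nd 3 30 (bx 5 2) (nd 3 480
  (bx 5 2) (bx 5 6))) (nd 0 480 (nd 3 30 (bx 5 2) (nd 3 480 (bx 5 2) (bx 5 6))) (nd 3 30 (bx 5 2) (nd 3 480 (bx 5 2) (bx
  5 6))))) (nd 3 2184 (nd 0 30 (bx 7 1) (nd 0 480 (bx 7 1) (bx 7 5))) (nd 0 30 (nd 3 30 (bx 3 3) (nd 3 480 (bx 3 3) (bx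
  3 7))) (nd 0 480 (nd 3 30 (bx 3 3) (nd 3 480 (bx 3 3) (bx 3 7))) (nd 3 30 (bx 3 3) (nd 3 480 (bx 3 3) (bx 3
  7)))))))))))))

theorem full_good : BGood 0x1fff1fff1fff1fff1fff1fff :=
  Tr.good rootPool_good allT_dec topT 0x1fff1fff1fff1fff1fff1fff (by decide +kernel)

/-- the halting problem is decidable for every table -/
theorem all_dec (T : Tb) : DecT T := by
  refine full_good T fun q s => ?_
  have h : ∀ (q : Fin 2) (s : Fin 3), ∀ c < 13, Nat.testBit 0x1fff1fff1fff1fff1fff1fff (16 * (3 * (q : ℕ) + s) + c) = true := by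
    decide +kernel
  exact h q s _ (cde_lt _)

end P913T
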