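import Pool.Agent.Lib.P913T.Full
import Pool.Agent.Lib.P913T.Top

/-!
# No machine with 2 states and 3 symbols is universal
-/

set_option autoImplicit false

namespace P913T

open P913

/-- for every machine with 2 states and 3 symbols the halting problem is decidable, and it is not universal -/
theorem noUniversal23 (U : TM 2 3) : (ComputablePred fun x : List (Fin 3) => Halts U x) ∧ ¬ Universal U :=
  machines_of_full full_good U

end P913T
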