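import Pool.Agent.Lib.P913T.Bx
import Pool.Agent.Lib.P913T.HaltDec

/-!
# From the full box to all machines
-/

set_option autoImplicit false

namespace P913T

open P913

/-- every table lies in the full box -/
theorem inB_full (T : Tb) : InB 0x1fff1fff1fff1fff1fff1fff T := by
  have key : ∀ i < 6, ∀ x : Option (Fin 3 × Bool × Fin 2),
      Nat.testBit 0x1fff1fff1fff1fff1fff1fff (16 * i + cde x) = true := by decide
  intro q s
  exact key (3 * (q : ℕ) + s) (by have := q.2; have := s.2; omega) _

/-- if the full box is good, then the halting problem is decidable for all tables -/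
theorem decT_of_full (h : BGood 0x1fff1fff1fff1fff1fff1fff) (T : Tb) : DecT T := h T (inB_full T)

/-- if the full box is good, then no machine with 2 states and 3 symbols is universal -/
theorem machines_of_full (h : BGood 0x1fff1fff1fff1fff1fff1fff) (U : TM 2 3) :
    (ComputablePred fun x : List (Fin 3) => Halts U x) ∧ ¬ Universal U :=
  ⟨halts_computable (decT_of_full h _), not_universal_of_decT (decT_of_full h _)⟩

end P913T
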