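import Pool.Agent.Lib.P913.Defs
import Pool.Agent.Lib.P913T.Sym

/-!
# Machines with 2 states and 3 symbols in the sense of the problem, and tables
-/

set_option autoImplicit false

namespace P913T

open P913

/-- the table of a machine: the entries which go to the halting state are `none` -/
def tb (U : TM 2 3) : Tb := fun q s =>
  match (U q s).2.2 with
  | none => none
  | some q' => some ((U q s).1, (U q s).2.1, q')

/-- the configuration on the two-way infinite tape, with the head on the cell `p` -/
def rep (c : Cf) (p : ℤ) : Cfg 2 3 :=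
  ⟨fun i => if i < p then c.u.getD (p - 1 - i).toNat 0 else if i = p then c.s else c.v.getD (i - p - 1).toNat 0, p,
    some c.q⟩

theorem step_rep_none {U : TM 2 3} {c : Cf} (p : ℤ) (h : stp (tb U) c = none) : (step U (rep c p)).st = none := by
  have h1 : (rep c p).tape (rep c p).pos = c.s := by simp [rep]
  rw [stp_none_iff] at h
  show (U c.q ((rep c p).tape (rep c p).pos)).2.2 = none
  rw [h1]
  unfold tb at h
  split at h
  · assumption
  · cases h

theorem step_rep_some {U : TM 2 3} {c c' : Cf} (p : ℤ) (h : stp (tb U) c = some c') :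
    ∃ p', step U (rep c p) = rep c' p' := by
  obtain ⟨u, q, s, v⟩ := c
  have h1 : (rep ⟨u, q, s, v⟩ p).tape (rep ⟨u, q, s, v⟩ p).pos = s := by simp [rep]
  have h2 : step U (rep ⟨u, q, s, v⟩ p) = ⟨Function.update (rep ⟨u, q, s, v⟩ p).tape p (U q s).1,
      if (U q s).2.1 then p + 1 else p - 1, (U q s).2.2⟩ := by
    show (⟨Function.update (rep ⟨u, q, s, v⟩ p).tape p (U q ((rep ⟨u, q, s, v⟩ p).tape (rep ⟨u, q, s, v⟩ p).pos)).1,
      if (U q ((rep ⟨u, q, s, v⟩ p).tape (rep ⟨u, q, s, v⟩ p).pos)).2.1 then p + 1 else p - 1,
      (U q ((rep ⟨u, q, s, v⟩ p).tape (rep ⟨u, q, s, v⟩ p).pos)).2.2⟩ : Cfg 2 3) = _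
    rw [h1]
  rw [h2]
  have h3 : ∃ w d q', tb U q s = some (w, d, q') := by
    cases h4 : tb U q s with
    | none => rw [(stp_none_iff (c := ⟨u, q, s, v⟩)).2 h4] at h; cases h
    | some a => exact ⟨a.1, a.2.1, a.2.2, rfl⟩
  obtain ⟨w, d, q', h4⟩ := h3
  have h5 : (U q s).1 = w ∧ (U q s).2.1 = d ∧ (U q s).2.2 = some q' := by
    unfold tb at h4
    split at h4
    · cases h4
    · rename_i q1 h6
      simp only [Option.some.injEq, Prod.mk.injEq] at h4
      exact ⟨h4.1, h4.2.1, by rw [h6, h4.2.2]⟩
  obtain ⟨h6, h7, h8⟩ := h5
  rw [h6, h7, h8]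
  cases d with
  | true =>
    have h9 : c' = ⟨w :: u, q', v.headD 0, v.tail⟩ := by
      have : stp (tb U) ⟨u, q, s, v⟩ = some (Cf.right ⟨u, q, s, v⟩ w q') := by simp [stp, h4]
      rw [this] at h
      cases h
      rfl
    subst h9
    refine ⟨p + 1, ?_⟩
    unfold rep
    simp only [if_true]
    congr 1
    funext i
    by_cases hi : i = p
    · subst hi
      simp
    · rw [Function.update_of_ne hi]
      by_cases hlt : i < p
      · rw [if_pos hlt, if_pos (by omega)]
        rw [show (p + 1 - 1 - i).toNat = (p - 1 - i).toNat + 1 by omega]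
        rw [List.getD_cons_succ]
      · rw [if_neg hlt, if_neg hi]
        by_cases hi1 : i = p + 1
        · subst hi1
          rw [if_neg (by omega), if_pos rfl]
          have : (p + 1 - p - 1).toNat = 0 := by omega
          rw [this]
          cases v <;> rfl
        · rw [if_neg (by omega), if_neg hi1]
          rw [show (i - p - 1).toNat = (i - (p + 1) - 1).toNat + 1 by omega]
          cases v with
          | nil => simp
          | cons x v => rw [List.getD_cons_succ]; rfl
  | false =>
    have h9 : c' = ⟨u.tail, q', u.headD 0, w :: v⟩ := by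
      have : stp (tb U) ⟨u, q, s, v⟩ = some (Cf.left ⟨u, q, s, v⟩ w q') := by simp [stp, h4]
      rw [this] at h
      cases h
      rfl
    subst h9
    refine ⟨p - 1, ?_⟩
    unfold rep
    simp only [Bool.false_eq_true, if_false]
    congr 1
    funext i
    by_cases hi : i = p
    · subst hi
      have h10 : ¬ i < i - 1 := by omega
      have h11 : ¬ i = i - 1 := by omega
      have h12 : (i - (i - 1) - 1).toNat = 0 := by omega
      simp [h10, h11, h12]
    · rw [Function.update_of_ne hi]
      by_cases hlt : i < p
      · rw [if_pos hlt]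
        by_cases hi1 : i = p - 1
        · subst hi1
          rw [if_neg (by omega), if_pos rfl]
          have : (p - 1 - (p - 1)).toNat = 0 := by omega
          rw [this]
          cases u <;> rfl
        · rw [if_pos (by omega)]
          rw [show (p - 1 - i).toNat = (p - 1 - 1 - i).toNat + 1 by omega]
          cases u with
          | nil => simp
          | cons x u => rw [List.getD_cons_succ]; rfl
      · rw [if_neg hlt, if_neg hi, if_neg (by omega), if_neg (by omega)]
        rw [show (i - (p - 1) - 1).toNat = (i - p - 1).toNat + 1 by omega]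
        rw [List.getD_cons_succ]

theorem init_rep (x : List (Fin 3)) : (init x : Cfg 2 3) = rep ⟨[], 0, x.headD 0, x.tail⟩ 0 := by
  unfold init rep wordTape
  congr 1
  funext i
  by_cases hi : i < 0
  · rw [if_neg (by omega), if_pos hi]
    simp
  · rw [if_pos (by omega), if_neg hi]
    by_cases h0 : i = 0
    · subst h0
      rw [if_pos rfl]
      cases x <;> rfl
    · rw [if_neg h0, show i.toNat = (i - 0 - 1).toNat + 1 by omega]
      cases x with
      | nil => simp
      | cons y x => rw [List.getD_cons_succ]; rfl

theorem halts_iff (U : TM 2 3) (x : List (Fin 3)) :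
    Halts U x ↔ Hlt (tb U) (Cf.of ([], 0, x.headD 0, x.tail)) := by
  have h1 : ∀ (t : ℕ) (c : Cf) (p : ℤ), ((step U)^[t] (rep c p)).st = none → Hlt (tb U) c := by
    intro t
    induction t with
    | zero => intro c p h; cases h
    | succ t ih =>
      intro c p h
      rw [Function.iterate_succ_apply] at h
      cases h2 : stp (tb U) c with
      | none =>
        refine ⟨1, ?_⟩
        show (stp (tb U) c).bind (itn (tb U) 0) = none
        rw [h2]
        rfl
      | some c' =>
        obtain ⟨p', hp⟩ := step_rep_some p h2
        rw [hp] at h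
        obtain ⟨n, hn⟩ := ih c' p' h
        refine ⟨n + 1, ?_⟩
        show (stp (tb U) c).bind (itn (tb U) n) = none
        rw [h2]
        exact hn
  have h2 : ∀ (n : ℕ) (c : Cf) (p : ℤ), itn (tb U) n c = none → ∃ t, ((step U)^[t] (rep c p)).st = none := by
    intro n
    induction n with
    | zero => intro c p h; cases h
    | succ n ih =>
      intro c p h
      cases h3 : stp (tb U) c with
      | none => exact ⟨1, step_rep_none p h3⟩
      | some c' =>
        obtain ⟨p', hp⟩ := step_rep_some p h3
        have h4 : itn (tb U) n c' = none := by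
          have h5 : (stp (tb U) c).bind (itn (tb U) n) = none := h
          rw [h3] at h5
          exact h5
        obtain ⟨t, ht⟩ := ih c' p' h4
        refine ⟨t + 1, ?_⟩
        rw [Function.iterate_succ_apply, hp]
        exact ht
  unfold Halts
  rw [init_rep]
  constructor
  · rintro ⟨t, ht⟩
    exact h1 t _ 0 ht
  · rintro ⟨n, hn⟩
    exact h2 n _ 0 hn

end P913T
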