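import Mathlib

/-!
# Mealy machines which may die, and their compositions
-/

set_option autoImplicit false

namespace P913T

/-- run a machine `f` (output and next state, `none`: dead) on a word: the output and the last state -/
def feed {σ : Type} (f : σ → ℕ → List ℕ × Option σ) : σ → List ℕ → List ℕ × Option σ
  | s, [] => ([], some s)
  | s, q :: x =>
    match f s q with
    | (o, none) => (o, none)
    | (o, some s') => (o ++ (feed f s' x).1, (feed f s' x).2)

/-- combine the next states -/
def both : Option ℕ → Option (List ℕ) → Option (List ℕ)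
  | some s, some ss => some (s :: ss)
  | _, _ => none

/-- `d` levels of the machine `f` -/
def vst (f : ℕ → ℕ → List ℕ × Option ℕ) : ℕ → List ℕ → ℕ → List ℕ × Option (List ℕ)
  | 0, _, q => ([q], some [])
  | d + 1, ss, q =>
    ((feed (vst f d) ss.tail (f (ss.headD 0) q).1).1,
      both (f (ss.headD 0) q).2 (feed (vst f d) ss.tail (f (ss.headD 0) q).1).2)

theorem feed_nil {σ : Type} (f : σ → ℕ → List ℕ × Option σ) (s : σ) : feed f s [] = ([], some s) := rfl

theorem feed_none {σ : Type} {f : σ → ℕ → List ℕ × Option σ} {s : σ} {q : ℕ} {x : List ℕ}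
    (h : (f s q).2 = none) : feed f s (q :: x) = ((f s q).1, none) := by
  obtain ⟨o, r⟩ : ∃ o r, f s q = (o, r) := ⟨_, _, rfl⟩
  simp only [feed]
  cases h2 : f s q with
  | mk o r =>
    rw [h2] at h
    simp only at h
    subst h
    rfl

theorem feed_some {σ : Type} {f : σ → ℕ → List ℕ × Option σ} {s s' : σ} {q : ℕ} {x : List ℕ}
    (h : (f s q).2 = some s') : feed f s (q :: x) = ((f s q).1 ++ (feed f s' x).1, (feed f s' x).2) := by
  simp only [feed]
  cases h2 : f s q with
  | mk o r =>
    rw [h2] at h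
    simp only at h
    subst h
    rfl

theorem feed_append_none {σ : Type} {f : σ → ℕ → List ℕ × Option σ} {s : σ} {x y : List ℕ}
    (h : (feed f s x).2 = none) : feed f s (x ++ y) = ((feed f s x).1, none) := by
  induction x generalizing s with
  | nil => simp [feed_nil] at h
  | cons q x ih =>
    rcases h1 : (f s q).2 with _ | s'
    · rw [List.cons_append, feed_none h1, feed_none h1]
    · rw [feed_some h1] at h
      rw [List.cons_append, feed_some h1, feed_some h1, ih h]

theorem feed_append_some {σ : Type} {f : σ → ℕ → List ℕ × Option σ} {s s' : σ} {x y : List ℕ}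
    (h : (feed f s x).2 = some s') :
    feed f s (x ++ y) = ((feed f s x).1 ++ (feed f s' y).1, (feed f s' y).2) := by
  induction x generalizing s with
  | nil =>
    simp only [feed_nil, Option.some.injEq] at h
    subst h
    simp [feed_nil]
  | cons q x ih =>
    rcases h1 : (f s q).2 with _ | s''
    · rw [feed_none h1] at h
      simp at h
    · rw [feed_some h1] at h
      rw [List.cons_append, feed_some h1, feed_some h1, ih h]
      simp

theorem feed_zero (f : ℕ → ℕ → List ℕ × Option ℕ) (x : List ℕ) :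
    ∀ ss : List ℕ, (feed (vst f 0) ss x).1 = x := by
  induction x with
  | nil => intro ss; rfl
  | cons q x ih =>
    intro ss
    rw [feed_some (s' := []) rfl, ih]
    rfl

/-- the output of `d + 1` levels -/
theorem feed_vst (f : ℕ → ℕ → List ℕ × Option ℕ) (d : ℕ) (x : List ℕ) : ∀ ss : List ℕ,
    (feed (vst f (d + 1)) ss x).1 = (feed (vst f d) ss.tail (feed f (ss.headD 0) x).1).1 := by
  induction x with
  | nil => intro ss; rfl
  | cons q x ih =>
    intro ss
    have hv : vst f (d + 1) ss q = ((feed (vst f d) ss.tail (f (ss.headD 0) q).1).1,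
      both (f (ss.headD 0) q).2 (feed (vst f d) ss.tail (f (ss.headD 0) q).1).2) := rfl
    rcases h1 : (f (ss.headD 0) q).2 with _ | s'
    · rw [feed_none (f := f) h1, feed_none (f := vst f (d + 1)) (by rw [hv, h1]; rfl), hv]
    · rcases h2 : (feed (vst f d) ss.tail (f (ss.headD 0) q).1).2 with _ | ss'
      · rw [feed_none (f := vst f (d + 1)) (by rw [hv, h1, h2]; rfl), hv, feed_some h1, feed_append_none h2]
      · rw [feed_some (f := vst f (d + 1)) (s' := s' :: ss') (by rw [hv, h1, h2]; rfl), hv, ih, feed_some h1,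
          feed_append_some h2]
        rfl

/-- the output of `d` levels, all starting in the state `s` -/
theorem feed_replicate (f : ℕ → ℕ → List ℕ × Option ℕ) (s : ℕ) (d : ℕ) : ∀ x : List ℕ,
    (feed (vst f d) (List.replicate d s) x).1 = (fun y => (feed f s y).1)^[d] x := by
  induction d with
  | zero => intro x; exact feed_zero f x _
  | succ d ih =>
    intro x
    rw [feed_vst, Function.iterate_succ_apply]
    exact ih _

/-- the output is a word over the letters with property `P` -/
theorem feed_mem {σ : Type} {f : σ → ℕ → List ℕ × Option σ} {P : ℕ → Prop}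
    (h : ∀ s q, ∀ p ∈ (f s q).1, P p) (x : List ℕ) : ∀ s, ∀ p ∈ (feed f s x).1, P p := by
  induction x with
  | nil => intro s p hp; simp [feed_nil] at hp
  | cons q x ih =>
    intro s p hp
    rcases h1 : (f s q).2 with _ | s'
    · rw [feed_none h1] at hp
      exact h s q p hp
    · rw [feed_some h1, List.mem_append] at hp
      rcases hp with hp | hp
      · exact h s q p hp
      · exact ih s' p hp

/-! ## Ranks -/

/-- the rank of a word: weights `w` depending on the state of an automaton `da` -/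
def rk (da w : List ℕ) : ℕ → List ℕ → ℕ
  | _, [] => 0
  | a, q :: x => w.getD (2 * a + q) 0 + rk da w (da.getD (2 * a + q) 0) x

/-- the state of the automaton after a word -/
def dst (da : List ℕ) : ℕ → List ℕ → ℕ
  | a, [] => a
  | a, q :: x => dst da (da.getD (2 * a + q) 0) x

theorem rk_append (da w : List ℕ) (x y : List ℕ) : ∀ a : ℕ,
    rk da w a (x ++ y) = rk da w a x + rk da w (dst da a x) y := by
  induction x with
  | nil => intro a; simp [rk, dst]
  | cons q x ih => intro a; simp only [List.cons_append, rk, dst]; rw [ih]; ring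

theorem dst_append (da : List ℕ) (x y : List ℕ) : ∀ a : ℕ, dst da a (x ++ y) = dst da (dst da a x) y := by
  induction x with
  | nil => intro a; rfl
  | cons q x ih => intro a; simp only [List.cons_append, dst]; exact ih _

/-- a node of a rank certificate -/
structure Nd where
  ss : List ℕ
  a : ℕ
  b : ℕ
  f : ℕ
  p1 : ℕ
  p2 : ℕ

/-- equality of lists of numbers -/
def leq : List ℕ → List ℕ → Bool
  | [], [] => true
  | a :: x, b :: y => Nat.beq a b && leq x y
  | _, _ => false

theorem leq_eq : ∀ {x y : List ℕ}, leq x y = true → x = y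
  | [], [], _ => rfl
  | a :: x, b :: y, h => by
    simp only [leq, Bool.and_eq_true] at h
    rw [Nat.eq_of_beq_eq_true h.1, leq_eq h.2]
  | [], b :: y, h => by simp [leq] at h
  | a :: x, [], h => by simp [leq] at h

/-- the flag of a word: is it nonempty? -/
def flg (f : ℕ) (o : List ℕ) : ℕ :=
  match f with
  | 0 => match o with
    | [] => 0
    | _ :: _ => 1
  | n + 1 => n + 1

/-- the condition for an edge -/
def edg (n n' : Nd) (g1 g2 x1 x2 : ℕ) : Bool :=
  Nat.blt (n.p1 + g1) (n'.p1 + x1) ||
    (Nat.beq (n.p1 + g1) (n'.p1 + x1) &&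
      (Nat.beq n'.p2 0 || (Nat.blt 0 n.p2 && Nat.ble (n.p2 + g2) (n'.p2 + x2))))

/-- the condition for a final word -/
def fin1 (n : Nd) (g1 g2 x1 x2 : ℕ) : Bool :=
  Nat.blt (n.p1 + g1) (64 + x1) ||
    (Nat.beq (n.p1 + g1) (64 + x1) && (Nat.blt 0 n.p2 && Nat.blt (n.p2 + g2) (64 + x2)))

/-- the check for the node `n` and the letter `q` -/
def chkE (f : ℕ → ℕ → List ℕ × Option ℕ) (d : ℕ) (da w1 w2 : List ℕ) (N : List Nd) (n : Nd) (q : ℕ) : Bool :=
  match vst f d n.ss q with
  | (o, none) =>
    match flg n.f o with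
    | 0 => true
    | _ + 1 => fin1 n (rk da w1 n.b o) (rk da w2 n.b o) (w1.getD (2 * n.a + q) 0) (w2.getD (2 * n.a + q) 0)
  | (o, some ss) =>
    N.any fun n' => Nat.beq n'.a (da.getD (2 * n.a + q) 0) && Nat.beq n'.b (dst da n.b o) &&
      Nat.beq n'.f (flg n.f o) && leq n'.ss ss &&
      edg n n' (rk da w1 n.b o) (rk da w2 n.b o) (w1.getD (2 * n.a + q) 0) (w2.getD (2 * n.a + q) 0)

/-- the check for the node `n` -/
def chkN (f : ℕ → ℕ → List ℕ × Option ℕ) (d : ℕ) (da w1 w2 : List ℕ) (N : List Nd) (inp : ℕ → Bool) (n : Nd) :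
    Bool :=
  (match n.f with
    | 0 => true
    | _ + 1 => fin1 n 0 0 0 0) &&
  (List.range 2).all fun q => !inp q || chkE f d da w1 w2 N n q

/-- the rank certificate -/
def chkR (f : ℕ → ℕ → List ℕ × Option ℕ) (d : ℕ) (da w1 w2 : List ℕ) (N : List Nd) (inp : ℕ → Bool) : Bool :=
  (N.any fun n => Nat.beq n.a 0 && Nat.beq n.b 0 && Nat.beq n.f 0 && Nat.beq n.p1 64 && (Nat.beq n.p2 0 || Nat.beq n.p2 64) &&
    leq n.ss (List.replicate d 0)) &&
  N.all fun n => chkN f d da w1 w2 N inp n

section rank

variable {f : ℕ → ℕ → List ℕ × Option ℕ} {d : ℕ} {da w1 w2 : List ℕ} {N : List Nd} {inp : ℕ → Bool}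

/-- the claim at a node: `o1, o2` are the ranks of the output, `x1, x2` the ranks of the input -/
def Clm (n : Nd) (o1 o2 x1 x2 : ℕ) : Prop :=
  o1 + 64 < x1 + n.p1 ∨ (o1 + 64 = x1 + n.p1 ∧ (n.p2 = 0 ∨ o2 + 64 ≤ x2 + n.p2))

theorem Clm.edge {n n' : Nd} {o1 o2 x1 x2 g1 g2 y1 y2 : ℕ} (h : Clm n o1 o2 x1 x2)
    (he : edg n n' g1 g2 y1 y2 = true) : Clm n' (o1 + g1) (o2 + g2) (x1 + y1) (x2 + y2) := by
  unfold edg at he
  simp only [Bool.or_eq_true, Bool.and_eq_true, Nat.blt_eq, Nat.ble_eq, Nat.beq_eq] at he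
  unfold Clm at *
  omega

theorem Clm.fin {n : Nd} {o1 o2 x1 x2 g1 g2 y1 y2 : ℕ} (h : Clm n o1 o2 x1 x2)
    (he : fin1 n g1 g2 y1 y2 = true) :
    o1 + g1 < x1 + y1 ∨ (o1 + g1 = x1 + y1 ∧ o2 + g2 < x2 + y2) := by
  unfold fin1 at he
  simp only [Bool.or_eq_true, Bool.and_eq_true, Nat.blt_eq, Nat.beq_eq] at he
  unfold Clm at *
  omega

theorem flg_zero {f : ℕ} {o : List ℕ} (h : flg f o = 0) : f = 0 ∧ o = [] := by
  unfold flg at h
  split at h
  · split at h
    · exact ⟨rfl, rfl⟩
    · simp at h
  · simp at h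

theorem rank_main (h : chkR f d da w1 w2 N inp = true) (y : List ℕ) :
    (∀ q ∈ y, q < 2 ∧ inp q = true) → ∀ n ∈ N, ∀ o1 o2 x1 x2 : ℕ, Clm n o1 o2 x1 x2 →
      (n.f = 0 ∧ (feed (vst f d) n.ss y).1 = []) ∨
      o1 + rk da w1 n.b (feed (vst f d) n.ss y).1 < x1 + rk da w1 n.a y ∨
      (o1 + rk da w1 n.b (feed (vst f d) n.ss y).1 = x1 + rk da w1 n.a y ∧
        o2 + rk da w2 n.b (feed (vst f d) n.ss y).1 < x2 + rk da w2 n.a y) := by
  unfold chkR at h
  simp only [Bool.and_eq_true, List.all_eq_true] at h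
  obtain ⟨-, h⟩ := h
  induction y with
  | nil =>
    intro _ n hn o1 o2 x1 x2 hc
    have h1 := h n hn
    unfold chkN at h1
    rw [Bool.and_eq_true] at h1
    have h2 := h1.1
    rcases hf : n.f with _ | m
    · exact Or.inl ⟨rfl, rfl⟩
    · rw [hf] at h2
      have h3 := hc.fin h2
      right
      simpa [feed_nil, rk] using h3
  | cons q y ih =>
    intro hq n hn o1 o2 x1 x2 hc
    have h1 := h n hn
    unfold chkN at h1
    rw [Bool.and_eq_true, List.all_eq_true] at h1
    have h2 := h1.2 q (List.mem_range.2 (hq q (by simp)).1)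
    rw [(hq q (by simp)).2] at h2
    simp only [Bool.not_true, Bool.false_or] at h2
    unfold chkE at h2
    cases hv : vst f d n.ss q with
    | mk o r =>
      rw [hv] at h2
      cases r with
      | none =>
        simp only at h2
        rw [feed_none (by rw [hv]), hv]
        rcases hfl : flg n.f o with _ | m
        · left
          exact flg_zero hfl
        · right
          rw [hfl] at h2
          have h3 := hc.fin h2
          simp only [rk]
          omega
      | some ss =>
        simp only [List.any_eq_true, Bool.and_eq_true] at h2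
        obtain ⟨n', hn', ⟨⟨⟨ha, hb⟩, hf⟩, hss⟩, he⟩ := h2
        have ha := Nat.eq_of_beq_eq_true ha
        have hb := Nat.eq_of_beq_eq_true hb
        have hf := Nat.eq_of_beq_eq_true hf
        have hss := leq_eq hss
        have h3 := ih (fun p hp => hq p (by simp [hp])) n' hn' _ _ _ _ (hc.edge he)
        rw [feed_some (s' := ss) (by rw [hv]), hv]
        simp only [rk, rk_append]
        rw [hss, ha, hb] at h3
        rcases h3 with ⟨h3, h4⟩ | h3
        · left
          rw [h3] at hf
          obtain ⟨h5, h6⟩ := flg_zero hf.symm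
          exact ⟨h5, by rw [h6, h4]; rfl⟩
        · right
          omega

/-- the rank of the output of `d` levels is smaller than the rank of the input -/
theorem rank_lt (h : chkR f d da w1 w2 N inp = true) (x : List ℕ) (hx : ∀ q ∈ x, q < 2 ∧ inp q = true) :
    (fun y => (feed f 0 y).1)^[d] x = [] ∨
      rk da w1 0 ((fun y => (feed f 0 y).1)^[d] x) < rk da w1 0 x ∨
      (rk da w1 0 ((fun y => (feed f 0 y).1)^[d] x) = rk da w1 0 x ∧
        rk da w2 0 ((fun y => (feed f 0 y).1)^[d] x) < rk da w2 0 x) := by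
  have h0 := h
  unfold chkR at h0
  simp only [Bool.and_eq_true, List.any_eq_true] at h0
  obtain ⟨⟨n, hn, ⟨⟨⟨⟨ha, hb⟩, hf⟩, hp1⟩, hp2⟩, hss⟩, -⟩ := h0
  have ha := Nat.eq_of_beq_eq_true ha
  have hb := Nat.eq_of_beq_eq_true hb
  have hf := Nat.eq_of_beq_eq_true hf
  have hp1 := Nat.eq_of_beq_eq_true hp1
  have hp2 : n.p2 = 0 ∨ n.p2 = 64 := by
    rw [Bool.or_eq_true] at hp2
    exact hp2.imp Nat.eq_of_beq_eq_true Nat.eq_of_beq_eq_true
  have hss := leq_eq hss
  have h1 := rank_main h x hx n hn 0 0 0 0 (by unfold Clm; omega)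
  rw [ha, hb, hss, feed_replicate] at h1
  simpa [hf] using h1

/-- iterating the machine one arrives at the empty word -/
theorem iterate_nil (h : chkR f d da w1 w2 N inp = true)
    (hf : ∀ s q, ∀ p ∈ (f s q).1, p < 2 ∧ inp p = true) (x : List ℕ)
    (hx : ∀ q ∈ x, q < 2 ∧ inp q = true) : ∃ n, (fun y => (feed f 0 y).1)^[n] x = [] := by
  have key : ∀ r : ℕ ×ₗ ℕ, ∀ x : List ℕ, (∀ q ∈ x, q < 2 ∧ inp q = true) →
      toLex (rk da w1 0 x, rk da w2 0 x) = r → ∃ n, (fun y => (feed f 0 y).1)^[n] x = [] := by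
    intro r
    induction r using WellFoundedLT.induction with
    | ind r ih =>
      intro x hx hr
      have hmem : ∀ (n : ℕ) (x : List ℕ), (∀ q ∈ x, q < 2 ∧ inp q = true) →
          ∀ q ∈ (fun y => (feed f 0 y).1)^[n] x, q < 2 ∧ inp q = true := by
        intro n
        induction n with
        | zero => intro x hx; exact hx
        | succ n ihn =>
          intro x hx
          rw [Function.iterate_succ_apply]
          exact ihn _ (feed_mem hf x 0)
      rcases rank_lt h x hx with h1 | h1
      · exact ⟨d, h1⟩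
      · obtain ⟨n, hn⟩ := ih (toLex (rk da w1 0 ((fun y => (feed f 0 y).1)^[d] x),
            rk da w2 0 ((fun y => (feed f 0 y).1)^[d] x))) (by rw [← hr, Prod.Lex.lt_iff]; exact h1) _
            (hmem d x hx) rfl
        exact ⟨n + d, by rw [Function.iterate_add_apply]; exact hn⟩
  exact key _ x hx rfl

end rank

end P913T
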