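import Mathlib

/-!
# Tables with 2 states and 3 symbols: configurations as touched regions

A configuration is the part of the tape which has been visited (or belongs to the input): the cells on the left of the
head (nearest first), the state, the scanned symbol, the cells on the right (nearest first).  Everything outside is
blank.  The size grows by one exactly when the head moves to a new cell.
-/

set_option autoImplicit false

namespace P913T

/-- the entries of a table: `none` = halt, otherwise (written symbol, move right?, next state) -/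
abbrev Tb := Fin 2 → Fin 3 → Option (Fin 3 × Bool × Fin 2)

/-- configurations -/
@[ext] structure Cf where
  u : List (Fin 3)
  q : Fin 2
  s : Fin 3
  v : List (Fin 3)

/-- the size of the touched region -/
def Cf.size (c : Cf) : ℕ := c.u.length + 1 + c.v.length

/-- write `w` and move to the right -/
def Cf.right (c : Cf) (w : Fin 3) (q : Fin 2) : Cf := ⟨w :: c.u, q, c.v.headD 0, c.v.tail⟩

/-- write `w` and move to the left -/
def Cf.left (c : Cf) (w : Fin 3) (q : Fin 2) : Cf := ⟨c.u.tail, q, c.u.headD 0, w :: c.v⟩

/-- one step; `none`: the machine halts -/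
def stp (T : Tb) (c : Cf) : Option Cf :=
  match T c.q c.s with
  | none => none
  | some (w, true, q) => some (c.right w q)
  | some (w, false, q) => some (c.left w q)

/-- `n` steps -/
def itn (T : Tb) : ℕ → Cf → Option Cf
  | 0, c => some c
  | n + 1, c => (stp T c).bind (itn T n)

/-- the machine halts on the configuration -/
def Hlt (T : Tb) (c : Cf) : Prop := ∃ n, itn T n c = none

/-- the size of all configurations reached before halting is bounded by a function of the initial size -/
def Bd (T : Tb) (g : ℕ → ℕ) : Prop :=
  ∀ (c c' : Cf) (n : ℕ), itn T n c = some c' → stp T c' = none → c'.size ≤ g c.size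

theorem itn_add (T : Tb) (a b : ℕ) (c : Cf) : itn T (a + b) c = (itn T a c).bind (itn T b) := by
  induction a generalizing c with
  | zero => simp [itn]
  | succ a ih =>
    rw [Nat.succ_add]
    show (stp T c).bind (itn T (a + b)) = ((stp T c).bind (itn T a)).bind (itn T b)
    cases h : stp T c with
    | none => rfl
    | some c' => exact ih c'

theorem itn_succ (T : Tb) (n : ℕ) (c : Cf) : itn T (n + 1) c = (itn T n c).bind (stp T) := by
  rw [itn_add]
  congr 1
  funext c
  show (stp T c).bind (itn T 0) = stp T c
  cases h : stp T c with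
  | none => rfl
  | some c' => rfl

theorem right_size (c : Cf) (w : Fin 3) (q : Fin 2) :
    (c.right w q).size = c.size + (if c.v = [] then 1 else 0) := by
  obtain ⟨u, q', s, v⟩ := c
  cases v with
  | nil => simp [Cf.right, Cf.size]
  | cons x v => simp [Cf.right, Cf.size]; omega

theorem left_size (c : Cf) (w : Fin 3) (q : Fin 2) :
    (c.left w q).size = c.size + (if c.u = [] then 1 else 0) := by
  obtain ⟨u, q', s, v⟩ := c
  cases u with
  | nil => simp [Cf.left, Cf.size]; omega
  | cons x u => simp [Cf.left, Cf.size]; omega

theorem stp_size {T : Tb} {c c' : Cf} (h : stp T c = some c') : c.size ≤ c'.size := by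
  unfold stp at h
  split at h
  · simp at h
  · simp only [Option.some.injEq] at h
    subst h
    rw [right_size]
    omega
  · simp only [Option.some.injEq] at h
    subst h
    rw [left_size]
    omega

theorem itn_size {T : Tb} {n : ℕ} {c c' : Cf} (h : itn T n c = some c') : c.size ≤ c'.size := by
  induction n generalizing c' with
  | zero =>
    simp only [itn, Option.some.injEq] at h
    subst h
    exact le_rfl
  | succ n ih =>
    rw [itn_succ] at h
    cases h1 : itn T n c with
    | none => rw [h1] at h; simp at h
    | some c1 =>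
      rw [h1] at h
      exact (ih h1).trans (stp_size h)

/-! ## A bound for the time -/

/-- code of a list: digits `1, 2, 3` in base `4` -/
def encl : List (Fin 3) → ℕ
  | [] => 0
  | x :: l => (x : ℕ) + 1 + 4 * encl l

theorem encl_inj {l l' : List (Fin 3)} (h : encl l = encl l') : l = l' := by
  induction l generalizing l' with
  | nil =>
    cases l' with
    | nil => rfl
    | cons x l' => simp only [encl] at h; omega
  | cons x l ih =>
    cases l' with
    | nil => simp only [encl] at h; omega
    | cons y l' =>
      simp only [encl] at h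
      have hx := x.2
      have hy := y.2
      have h1 : (x : ℕ) = y := by omega
      have h2 : encl l = encl l' := by omega
      rw [ih h2, Fin.ext h1]

theorem encl_lt {l : List (Fin 3)} {m : ℕ} (h : l.length ≤ m) : encl l < 4 ^ m := by
  induction l generalizing m with
  | nil => exact Nat.pos_of_ne_zero (by positivity)
  | cons x l ih =>
    obtain ⟨m, rfl⟩ : ∃ k, m = k + 1 := ⟨m - 1, by simp only [List.length_cons] at h; omega⟩
    have h1 := ih (m := m) (by simp only [List.length_cons] at h; omega)
    have hx := x.2
    simp only [encl]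
    rw [pow_succ]
    omega

/-- code of a configuration of size at most `m` -/
def enc (m : ℕ) (c : Cf) : ℕ := (encl c.u * 4 ^ m + encl c.v) * 6 + (c.q * 3 + c.s)

theorem enc_lt {m : ℕ} {c : Cf} (h : c.size ≤ m) : enc m c < 6 * 16 ^ m := by
  unfold Cf.size at h
  have h1 : encl c.u < 4 ^ m := encl_lt (by omega)
  have h2 : encl c.v < 4 ^ m := encl_lt (by omega)
  have hq := c.q.2
  have hs := c.s.2
  have h3 : (16 : ℕ) ^ m = 4 ^ m * 4 ^ m := by rw [← mul_pow]; norm_num
  have h4 : encl c.u * 4 ^ m + encl c.v < 4 ^ m * 4 ^ m := by
    have : encl c.u * 4 ^ m + 4 ^ m ≤ 4 ^ m * 4 ^ m := by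
      rw [← Nat.succ_mul]
      exact Nat.mul_le_mul_right _ h1
    omega
  unfold enc
  rw [h3]
  omega

theorem enc_inj {m : ℕ} {c c' : Cf} (h : c.size ≤ m) (h' : c'.size ≤ m) (e : enc m c = enc m c') :
    c = c' := by
  unfold Cf.size at h h'
  have h2 : encl c.v < 4 ^ m := encl_lt (by omega)
  have h2' : encl c'.v < 4 ^ m := encl_lt (by omega)
  have hq := c.q.2
  have hs := c.s.2
  have hq' := c'.q.2
  have hs' := c'.s.2
  unfold enc at e
  have e1 : encl c.u * 4 ^ m + encl c.v = encl c'.u * 4 ^ m + encl c'.v := by omega
  have e2 : (c.q : ℕ) * 3 + c.s = c'.q * 3 + c'.s := by omega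
  have e3 : (c.q : ℕ) = c'.q := by omega
  have e4 : (c.s : ℕ) = c'.s := by omega
  have e5 : encl c.u = encl c'.u := by
    have a1 : (encl c.u * 4 ^ m + encl c.v) / 4 ^ m = (encl c'.u * 4 ^ m + encl c'.v) / 4 ^ m := by
      rw [e1]
    rwa [Nat.mul_comm, Nat.mul_add_div (by positivity), Nat.div_eq_of_lt h2, Nat.mul_comm,
      Nat.mul_add_div (by positivity), Nat.div_eq_of_lt h2', add_zero, add_zero] at a1
  have e6 : encl c.v = encl c'.v := by rw [e5] at e1; omega
  ext1
  · exact encl_inj e5
  · exact Fin.ext e3
  · exact Fin.ext e4
  · exact encl_inj e6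

/-- the bound for the time -/
def tbd (m : ℕ) : ℕ := 6 * 16 ^ m

theorem halts_in_time {T : Tb} {g : ℕ → ℕ} (hg : Bd T g) {c : Cf} (h : Hlt T c) :
    itn T (tbd (g c.size)) c = none := by
  classical
  obtain ⟨n, hn, hmin⟩ : ∃ n, itn T n c = none ∧ ∀ k < n, itn T k c ≠ none :=
    ⟨Nat.find h, Nat.find_spec h, fun k hk => Nat.find_min h hk⟩
  have hmono : ∀ k, n ≤ k → itn T k c = none := by
    intro k hk
    obtain ⟨j, rfl⟩ := Nat.exists_eq_add_of_le hk
    rw [itn_add, hn]
    rfl
  apply hmono
  -- the configurations before halting
  have hne : ∀ k : Fin n, ∃ c', itn T k c = some c' := fun k => Option.ne_none_iff_exists'.1 (hmin k k.2)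
  choose f hf using hne
  obtain ⟨m, rfl⟩ : ∃ m, n = m + 1 := by
    refine ⟨n - 1, ?_⟩
    have : n ≠ 0 := by
      rintro rfl
      simp [itn] at hn
    omega
  have hlast : stp T (f (Fin.last m)) = none := by
    have := hn
    rw [itn_succ, show itn T m c = some (f (Fin.last m)) from hf (Fin.last m)] at this
    exact this
  have hsize : ∀ k : Fin (m + 1), (f k).size ≤ g c.size := by
    intro k
    have h1 : itn T (m - k) (f k) = some (f (Fin.last m)) := by
      have h2 := hf (Fin.last m)
      have h3 : ((Fin.last m : Fin (m + 1)) : ℕ) = k + (m - k) := by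
        have := k.2
        rw [Fin.val_last]
        omega
      rw [h3, itn_add, hf k] at h2
      exact h2
    exact (itn_size h1).trans (hg c _ _ (hf (Fin.last m)) hlast)
  have hinj : Function.Injective f := by
    intro a b hab
    by_contra hne
    wlog hlt : a < b generalizing a b
    · exact this hab.symm (Ne.symm hne) (lt_of_le_of_ne (not_lt.1 hlt) (Ne.symm hne))
    have h1 : itn T (m + 1 - b) (f b) = none := by
      have h2 := hn
      rw [show m + 1 = (b : ℕ) + (m + 1 - b) by have := b.2; omega, itn_add, hf b] at h2
      exact h2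
    have h2 : itn T (a + (m + 1 - b)) c = none := by
      rw [itn_add, hf a, hab]
      exact h1
    have hlt' : (a : ℕ) < b := hlt
    exact hmin _ (by have := b.2; omega) h2
  have hcard : m + 1 ≤ 6 * 16 ^ (g c.size) := by
    have h1 : Function.Injective (fun k : Fin (m + 1) =>
        (⟨enc (g c.size) (f k), enc_lt (hsize k)⟩ : Fin (6 * 16 ^ (g c.size)))) := by
      intro a b hab
      simp only [Fin.mk.injEq] at hab
      exact hinj (enc_inj (hsize a) (hsize b) hab)
    have h2 := Fintype.card_le_of_injective _ h1
    simpa using h2
  exact hcard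

end P913T
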