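import Pool.Agent.Lib.P913.KFin29
import Pool.Agent.Lib.P913T.Link

/-!
# A machine with a decidable halting problem is not universal
-/

set_option autoImplicit false

namespace P913T

open P913

/-- a machine whose halting problem is not decidable -/
theorem undec29 : ∃ e' : ℕ → List (Fin 9), Computable e' ∧
    ∀ v, Halts U29 (e' v) ↔ (Nat.Partrec.Code.eval (Denumerable.ofNat Nat.Partrec.Code v) 0).Dom := by
  have hf : Partrec fun v : ℕ => Nat.Partrec.Code.eval (Denumerable.ofNat Nat.Partrec.Code v) 0 :=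
    Nat.Partrec.Code.eval_part.comp (Computable.ofNat _) (Computable.const 0)
  obtain ⟨ks, D, hlen, hD, hv⟩ := exists_kk _ (Partrec.nat_iff.mp hf)
  obtain ⟨inp, dec0, hinp, -, hsim⟩ := (ksim_of_loc ok29.loc rfl : KSim U29)
  refine ⟨fun v => inp ks (D v), hinp.comp (Computable.const ks) hD, fun v => ?_⟩
  have h1 := (hv v 0).2
  rw [List.replicate_zero, List.flatten_nil, List.append_nil] at h1
  rw [← h1]
  exact (hsim ks (D v) hlen (hv v 0).1).1

theorem not_universal_of_decT {U : TM 2 3} (h : DecT (tb U)) : ¬ Universal U := by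
  rintro ⟨e, d, he, -, hU⟩
  obtain ⟨e', he', hv⟩ := undec29
  obtain ⟨hd, hc⟩ := h
  have h1 : ∀ v : ℕ, Hlt (tb U) (Cf.of ([], 0, (e (mcode U29, (e' v).map fun s : Fin 9 => (s : ℕ))).headD 0,
      (e (mcode U29, (e' v).map fun s : Fin 9 => (s : ℕ))).tail)) ↔
      (Nat.Partrec.Code.eval (Denumerable.ofNat Nat.Partrec.Code v) 0).Dom := by
    intro v
    rw [← halts_iff, ← hv v]
    exact (hU 2 9 U29 (e' v)).1
  have h2 : Computable fun v : ℕ => e (mcode U29, (e' v).map fun s : Fin 9 => (s : ℕ)) := by
    refine he.comp (Computable.pair (Computable.const _) ?_)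
    have h0 : Primrec fun l : List (Fin 9) => l.map fun s : Fin 9 => (s : ℕ) :=
      Primrec.list_map Primrec.id ((Primrec.dom_finite fun s : Fin 9 => (s : ℕ)).comp Primrec.snd).to₂
    exact h0.to_comp.comp he'
  have h3 : Computable fun v : ℕ => ((([] : List (Fin 3)), (0 : Fin 2),
      (e (mcode U29, (e' v).map fun s : Fin 9 => (s : ℕ))).headD 0,
      (e (mcode U29, (e' v).map fun s : Fin 9 => (s : ℕ))).tail) : Cd) := by
    refine Computable.pair (Computable.const _) (Computable.pair (Computable.const _) (Computable.pair ?_ ?_))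
    · have h4 : Primrec fun l : List (Fin 3) => l.headD 0 := by
        have h5 : Primrec fun l : List (Fin 3) => l.head?.getD 0 :=
          Primrec.option_getD.comp Primrec.list_head? (Primrec.const 0)
        exact h5.of_eq fun l => by cases l <;> rfl
      exact h4.to_comp.comp h2
    · exact Primrec.list_tail.to_comp.comp h2
  have h4 : ComputablePred fun v : ℕ => (Nat.Partrec.Code.eval (Denumerable.ofNat Nat.Partrec.Code v) 0).Dom :=
    ⟨fun v => decidable_of_iff _ (h1 v), (hc.comp h3).of_eq fun v => decide_eq_decide.2 (h1 v)⟩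
  refine ComputablePred.halting_problem 0 ?_
  obtain ⟨hd4, hc4⟩ := h4
  have h5 : ∀ c : Nat.Partrec.Code, (Nat.Partrec.Code.eval (Denumerable.ofNat Nat.Partrec.Code
      (Encodable.encode c)) 0).Dom ↔ (Nat.Partrec.Code.eval c 0).Dom := fun c => by rw [Denumerable.ofNat_encode]
  exact ⟨fun c => decidable_of_iff _ (h5 c), (hc4.comp Computable.encode).of_eq fun c => decide_eq_decide.2 (h5 c)⟩

end P913T
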