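import Pool.Agent.Lib.P913T.PData1
import Pool.Agent.Lib.P913T.PData2
import Pool.Agent.Lib.P913T.PData3
import Pool.Agent.Lib.P913T.PData4

/-!
# The pool of all boxes
-/

set_option autoImplicit false

namespace P913T

/-- the pool -/
def pool : NB := (.nd 1167 (.nd 583 nb1 nb2) (.nd 1750 nb3 nb4))

theorem pool_good : ∀ C ∈ pool.toList, CGood C :=
  (NB.good_nd (NB.good_nd nb1_good nb2_good) (NB.good_nd nb3_good nb4_good))

end P913T
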