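import Pool.Agent.Lib.P913T.Bx
import Pool.Agent.Lib.P913T.Crt

/-!
# Fast certificates for boxes of tables

Both ends are open, there is one level with one phase, and the weights of the letters are `0` or `1`. The potential
`v` of a class is stored in unary: the bits `0, ..., v` of the lane of the class are set; the lane of a class in `N` is
zero. So an edge `a → b` of the class graph is all right iff the lane of `b`, shifted to the left by `add + ext`, is
contained in the lane of `a` united with its shift by `sub`. All classes are treated at the same time by bitwise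
operations on natural numbers.
-/

set_option autoImplicit false

namespace P913T

/-- `n` copies of `v`, the distance is `c` bits -/
noncomputable def repN (c n v : ℕ) : ℕ :=
  Nat.rec (motive := fun _ => ℕ) 0 (fun k ih => Nat.lor ih (Nat.shiftLeft v (Nat.mul c k))) n

/-- move the lane `t l` to the lane `l` (lanes of `u` bits, selected by `K`) -/
noncomputable def gat (n u K X : ℕ) (t : ℕ → ℕ) : ℕ :=
  Nat.rec (motive := fun _ => ℕ) 0 (fun l ih => Nat.lor ih
    (Nat.shiftLeft (Nat.land (Nat.shiftRight X (Nat.mul u (t l))) K) (Nat.mul u l))) n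

/-- all numbers below `n` -/
noncomputable def allN (n : ℕ) (p : ℕ → Bool) : Bool :=
  Nat.rec (motive := fun _ => Bool) true (fun k ih => cond (p k) ih false) n

theorem allN_spec {n : ℕ} {p : ℕ → Bool} (h : allN n p = true) : ∀ i < n, p i = true := by
  induction n with
  | zero => intro i hi; omega
  | succ n ih =>
    have h1 : allN (n + 1) p = cond (p n) (allN n p) false := rfl
    rw [h1] at h
    cases hp : p n with
    | false => rw [hp, cond_false] at h; cases h
    | true =>
      rw [hp, cond_true] at h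
      intro i hi
      rcases Nat.lt_succ_iff_lt_or_eq.1 hi with h2 | rfl
      · exact ih h i h2
      · exact hp

theorem repN_succ (c n v : ℕ) : repN c (n + 1) v = repN c n v ||| (v <<< (c * n)) := rfl

theorem testBit_repN {c n v p : ℕ} (hc : 0 < c) (hv : v < 2 ^ c) :
    (repN c n v).testBit p = (decide (p / c < n) && v.testBit (p % c)) := by
  induction n with
  | zero => simp [repN]
  | succ n ih =>
    rw [repN_succ, Nat.testBit_or, ih, Nat.testBit_shiftLeft]
    have hp : c * (p / c) + p % c = p := Nat.div_add_mod p c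
    have hm : p % c < c := Nat.mod_lt _ hc
    rcases lt_trichotomy (p / c) n with h | h | h
    · have h1 : ¬ (p ≥ c * n) := by
        have : c * (p / c + 1) ≤ c * n := Nat.mul_le_mul_left c h
        rw [Nat.mul_add, Nat.mul_one] at this
        omega
      have h2 : p / c < n + 1 := by omega
      simp [h, h1, h2]
    · have h1 : p ≥ c * n := by rw [← h]; omega
      have h2 : p - c * n = p % c := by rw [← h]; omega
      have h3 : p / c < n + 1 := by omega
      have h4 : ¬ (p / c < n) := by omega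
      simp [h1, h2, h3, h4]
    · have h2 : c ≤ p - c * n := by
        have : c * (n + 1) ≤ c * (p / c) := Nat.mul_le_mul_left c h
        rw [Nat.mul_add, Nat.mul_one] at this
        omega
      have h3 : v.testBit (p - c * n) = false :=
        Nat.testBit_eq_false_of_lt (lt_of_lt_of_le hv (Nat.pow_le_pow_right (by norm_num) h2))
      have h4 : ¬ (p / c < n) := by omega
      have h5 : ¬ (p / c < n + 1) := by omega
      simp [h3, h4, h5]

theorem gat_succ (n u K X : ℕ) (t : ℕ → ℕ) :
    gat (n + 1) u K X t = gat n u K X t ||| (((X >>> (u * t n)) &&& K) <<< (u * n)) := rfl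

/-- the lanes of a moved number -/
theorem testBit_gat {N u H X hi l lo : ℕ} {t : ℕ → ℕ} (hl : l < N) (hlo : lo < u) (hhi : hi < H) :
    (gat N u (repN (N * u) H (2 ^ u - 1)) X t).testBit ((N * u) * hi + u * l + lo) =
      X.testBit ((N * u) * hi + u * t l + lo) := by
  have hu : 0 < u := by omega
  have hN : 0 < N := by omega
  have hNu : 0 < N * u := Nat.mul_pos hN hu
  have hle : u ≤ N * u := Nat.le_mul_of_pos_left u hN
  have hv : 2 ^ u - 1 < 2 ^ (N * u) := by
    have h1 : 2 ^ u ≤ 2 ^ (N * u) := Nat.pow_le_pow_right (by norm_num) hle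
    have h2 : 0 < 2 ^ u := Nat.two_pow_pos u
    omega
  -- the mask
  have hmask : ∀ p, (repN (N * u) H (2 ^ u - 1)).testBit p =
      (decide (p / (N * u) < H) && decide (p % (N * u) < u)) := by
    intro p
    rw [testBit_repN hNu hv, Nat.testBit_two_pow_sub_one]
  have hlN : u * l + lo < N * u := by
    have : u * (l + 1) ≤ u * N := Nat.mul_le_mul_left u hl
    rw [Nat.mul_add, Nat.mul_one, Nat.mul_comm u N] at this
    omega
  -- the lanes of the partial unions
  have key : ∀ n, n ≤ N → (gat n u (repN (N * u) H (2 ^ u - 1)) X t).testBit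
      ((N * u) * hi + u * l + lo) = (decide (l < n) && X.testBit ((N * u) * hi + u * t l + lo)) := by
    intro n
    induction n with
    | zero => intro _; simp [gat]
    | succ n ih =>
      intro hn
      rw [gat_succ, Nat.testBit_or, ih (by omega), Nat.testBit_shiftLeft, Nat.testBit_and,
        Nat.testBit_shiftRight, hmask]
      rcases lt_trichotomy l n with h | h | h
      · -- the lane is below
        have e1 : u * l + u ≤ u * n := by
          have : u * (l + 1) ≤ u * n := Nat.mul_le_mul_left u h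
          rwa [Nat.mul_add, Nat.mul_one] at this
        have e2 : u * n + u ≤ N * u := by
          have : u * (n + 1) ≤ u * N := Nat.mul_le_mul_left u hn
          rwa [Nat.mul_add, Nat.mul_one, Nat.mul_comm u N] at this
        have h5 : (decide ((N * u) * hi + u * l + lo ≥ u * n) &&
            (X.testBit (u * t n + ((N * u) * hi + u * l + lo - u * n)) &&
              (decide (((N * u) * hi + u * l + lo - u * n) / (N * u) < H) &&
                decide (((N * u) * hi + u * l + lo - u * n) % (N * u) < u)))) = false := by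
          rcases Nat.eq_zero_or_pos hi with rfl | hpos
          · have : ¬ ((N * u) * 0 + u * l + lo ≥ u * n) := by
              rw [Nat.mul_zero]
              omega
            rw [decide_eq_false this, Bool.false_and]
          · obtain ⟨k, rfl⟩ : ∃ k, hi = k + 1 := ⟨hi - 1, by omega⟩
            have e3 : (N * u) * (k + 1) + u * l + lo - u * n =
                (N * u) * k + (N * u + u * l + lo - u * n) := by
              rw [Nat.mul_add, Nat.mul_one]
              omega
            have e4 : N * u + u * l + lo - u * n < N * u := by omega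
            have e5 : ((N * u) * (k + 1) + u * l + lo - u * n) % (N * u) =
                N * u + u * l + lo - u * n := by
              rw [e3, Nat.mul_add_mod, Nat.mod_eq_of_lt e4]
            have e6 : ¬ (((N * u) * (k + 1) + u * l + lo - u * n) % (N * u) < u) := by
              rw [e5]
              omega
            simp [e6]
        rw [h5, Bool.or_false]
        have h6 : l < n + 1 := by omega
        simp [h, h6]
      · subst h
        have e3 : (N * u) * hi + u * l + lo - u * l = (N * u) * hi + lo := by omega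
        have e4 : lo < N * u := by omega
        have e5 : ((N * u) * hi + lo) % (N * u) = lo := by
          rw [Nat.mul_add_mod, Nat.mod_eq_of_lt e4]
        have e6 : ((N * u) * hi + lo) / (N * u) = hi := by
          rw [Nat.mul_add_div hNu, Nat.div_eq_of_lt e4, Nat.add_zero]
        have e7 : (N * u) * hi + u * l + lo ≥ u * l := by omega
        have e8 : u * t l + ((N * u) * hi + lo) = (N * u) * hi + u * t l + lo := by omega
        rw [e3, e5, e6, e8]
        simp [e7, hhi, hlo]
      · -- the lane is above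
        have e1 : u * n + u ≤ u * l := by
          have : u * (n + 1) ≤ u * l := Nat.mul_le_mul_left u h
          rwa [Nat.mul_add, Nat.mul_one] at this
        have e3 : (N * u) * hi + u * l + lo - u * n = (N * u) * hi + (u * l + lo - u * n) := by omega
        have e4 : u * l + lo - u * n < N * u := by omega
        have e5 : ((N * u) * hi + u * l + lo - u * n) % (N * u) = u * l + lo - u * n := by
          rw [e3, Nat.mul_add_mod, Nat.mod_eq_of_lt e4]
        have e6 : ¬ (((N * u) * hi + u * l + lo - u * n) % (N * u) < u) := by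
          rw [e5]
          omega
        have h6 : ¬ (l < n + 1) := by omega
        have h7 : ¬ (l < n) := by omega
        simp [e6, h6, h7]
  rw [key N le_rfl]
  simp [hl]

/-! ## Certificates -/

/-- a certificate: width of the lanes, numbers of states minus one, transitions (digits in base `16`), weights (bits
`0 .. 2`: left, `3 .. 5`: right), lanes (class `((3 q + s) * (nl + 1) + l) * (nr + 1) + r`) -/
structure BC where
  w : ℕ
  nl : ℕ
  nr : ℕ
  dl : ℕ
  dr : ℕ
  W : ℕ
  A : ℕ

namespace BC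

variable (P : BC)

/-- digit `i` in base `16` -/
def hx (n i : ℕ) : ℕ := Nat.land (Nat.shiftRight n (Nat.mul 4 i)) 15

/-- transition of the left automaton -/
def tl (l x : ℕ) : ℕ := Nat.mod (hx P.dl (Nat.add (Nat.mul 3 l) x)) (Nat.succ P.nl)

/-- transition of the right automaton -/
def tr (r x : ℕ) : ℕ := Nat.mod (hx P.dr (Nat.add (Nat.mul 3 r) x)) (Nat.succ P.nr)

/-- weight of a letter on the left -/
def wl (x : ℕ) : ℕ := Nat.land (Nat.shiftRight P.W x) 1

/-- weight of a letter on the right -/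
def wr (x : ℕ) : ℕ := Nat.land (Nat.shiftRight P.W (Nat.add 3 x)) 1

/-- width of a row of lanes -/
def u : ℕ := Nat.mul (Nat.succ P.nr) P.w

/-- width of a block of rows -/
def B : ℕ := Nat.mul (Nat.succ P.nl) P.u

/-- all ones of `n` bits -/
def on (n : ℕ) : ℕ := Nat.sub (Nat.pow 2 n) 1

/-- the lanes without their two highest bits -/
noncomputable def M : ℕ :=
  Nat.land P.A (repN P.w (Nat.mul (Nat.mul 6 (Nat.succ P.nl)) (Nat.succ P.nr)) (on (Nat.sub P.w 2)))

/-- all lanes, moved by the left automaton -/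
noncomputable def gL (x : ℕ) : ℕ :=
  gat (Nat.succ P.nl) P.u (repN P.B 6 (on P.u)) P.M (fun l => P.tl l x)

/-- all lanes, moved by the right automaton -/
noncomputable def gR (x : ℕ) : ℕ :=
  gat (Nat.succ P.nr) P.w (repN P.u (Nat.mul 6 (Nat.succ P.nl)) (on P.w)) P.M (fun r => P.tr r x)

/-- sources of the moves to the right -/
noncomputable def sR (x : ℕ) : ℕ := Nat.lor (P.gR x) (Nat.shiftLeft (P.gR x) (P.wr x))

/-- sources of the moves to the left -/
noncomputable def sL (x : ℕ) : ℕ := Nat.lor (P.gL x) (Nat.shiftLeft (P.gL x) (P.wl x))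

/-- block `k` -/
noncomputable def blk (X k : ℕ) : ℕ := Nat.land (Nat.shiftRight X (Nat.mul P.B k)) (on P.B)

/-- inclusion -/
def sub (X Y : ℕ) : Bool := Nat.beq (Nat.land X Y) X

/-- the entry `i` moves to the right -/
noncomputable def actR (i w q : ℕ) : Bool :=
  cond (sub (Nat.shiftLeft (P.blk (P.gL w) (Nat.mul 3 q)) (P.wl w)) (Nat.shiftRight (P.sR 0) (Nat.mul P.B i)))
  (cond (sub (Nat.shiftLeft (P.blk (P.gL w) (Nat.succ (Nat.mul 3 q))) (P.wl w))
    (Nat.shiftRight (P.sR 1) (Nat.mul P.B i)))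
  (cond (sub (Nat.shiftLeft (P.blk (P.gL w) (Nat.succ (Nat.succ (Nat.mul 3 q)))) (P.wl w))
    (Nat.shiftRight (P.sR 2) (Nat.mul P.B i)))
  (sub (Nat.shiftLeft (Nat.land (P.blk (P.gL w) (Nat.mul 3 q)) (repN P.u (Nat.succ P.nl) (on P.w)))
    (Nat.succ (P.wl w))) (Nat.shiftRight P.M (Nat.mul P.B i))) false) false) false

/-- the entry `i` moves to the left -/
noncomputable def actL (i w q : ℕ) : Bool :=
  cond (sub (Nat.shiftLeft (P.blk (P.gR w) (Nat.mul 3 q)) (P.wr w)) (Nat.shiftRight (P.sL 0) (Nat.mul P.B i)))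
  (cond (sub (Nat.shiftLeft (P.blk (P.gR w) (Nat.succ (Nat.mul 3 q))) (P.wr w))
    (Nat.shiftRight (P.sL 1) (Nat.mul P.B i)))
  (cond (sub (Nat.shiftLeft (P.blk (P.gR w) (Nat.succ (Nat.succ (Nat.mul 3 q)))) (P.wr w))
    (Nat.shiftRight (P.sL 2) (Nat.mul P.B i)))
  (sub (Nat.shiftLeft (Nat.land (P.blk (P.gR w) (Nat.mul 3 q)) (on P.u))
    (Nat.succ (P.wr w))) (Nat.shiftRight P.M (Nat.mul P.B i))) false) false) false

/-- the entry `i` halts -/
noncomputable def actH (i : ℕ) : Bool :=
  sub (repN P.w (Nat.mul (Nat.succ P.nl) (Nat.succ P.nr)) 1) (Nat.shiftRight P.M (Nat.mul P.B i))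

/-- the entry `i` has the code `c` -/
noncomputable def act (i c : ℕ) : Bool :=
  cond (Nat.beq c 0) (P.actH i)
  (cond (Nat.beq (Nat.land (Nat.sub c 1) 2) 0)
    (P.actL i (Nat.shiftRight (Nat.sub c 1) 2) (Nat.land (Nat.sub c 1) 1))
    (P.actR i (Nat.shiftRight (Nat.sub c 1) 2) (Nat.land (Nat.sub c 1) 1)))

/-- the certificate is good for all tables of the box `Mb` -/
noncomputable def chk (Mb : ℕ) : Bool :=
  cond (Nat.ble 3 P.w) (allN 6 fun i => allN 13 fun c =>
    cond (Nat.beq (Nat.land (Nat.shiftRight Mb (Nat.add (Nat.mul 16 i) c)) 1) 0) true (P.act i c)) false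

/-! ### Soundness -/

theorem tl_lt (l x : ℕ) : P.tl l x < P.nl + 1 := Nat.mod_lt _ (Nat.succ_pos _)

theorem tr_lt (r x : ℕ) : P.tr r x < P.nr + 1 := Nat.mod_lt _ (Nat.succ_pos _)

theorem land_one (n : ℕ) : Nat.land n 1 = n % 2 := Nat.and_one_is_mod n

theorem wl_le (x : ℕ) : P.wl x ≤ 1 := by
  unfold wl
  rw [land_one]
  omega

theorem wr_le (x : ℕ) : P.wr x ≤ 1 := by
  unfold wr
  rw [land_one]
  omega

theorem sub_spec {X Y : ℕ} (h : sub X Y = true) {p : ℕ} (hp : X.testBit p = true) : Y.testBit p = true := by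
  have h1 : X &&& Y = X := Nat.eq_of_beq_eq_true h
  rw [← h1, Nat.testBit_and, Bool.and_eq_true] at hp
  exact hp.2

theorem on_lt (n : ℕ) : on n < 2 ^ n := by
  have := Nat.two_pow_pos n
  show 2 ^ n - 1 < 2 ^ n
  omega

theorem testBit_on (n i : ℕ) : (on n).testBit i = decide (i < n) := Nat.testBit_two_pow_sub_one n i

/-- the position of the class `(l, i, r)` where `i = 3 q + s` -/
def pos (i l r : ℕ) : ℕ := P.B * i + P.u * l + P.w * r

theorem u_eq : P.u = (P.nr + 1) * P.w := rfl

theorem B_eq : P.B = (P.nl + 1) * P.u := rfl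

section

variable {P}

theorem row_lt {r b : ℕ} (hr : r < P.nr + 1) (hb : b < P.w) : P.w * r + b < P.u := by
  have h1 : P.w * (r + 1) ≤ P.w * (P.nr + 1) := Nat.mul_le_mul_left _ hr
  rw [Nat.mul_add, Nat.mul_one] at h1
  have h3 : (P.nr + 1) * P.w = P.w * (P.nr + 1) := Nat.mul_comm _ _
  rw [u_eq, h3]
  omega

theorem blk_lt {l r b : ℕ} (hl : l < P.nl + 1) (hr : r < P.nr + 1) (hb : b < P.w) :
    P.u * l + P.w * r + b < P.B := by
  have h1 : P.u * (l + 1) ≤ P.u * (P.nl + 1) := Nat.mul_le_mul_left _ hl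
  rw [Nat.mul_add, Nat.mul_one] at h1
  have h2 := row_lt hr hb
  have h3 : (P.nl + 1) * P.u = P.u * (P.nl + 1) := Nat.mul_comm _ _
  rw [B_eq, h3]
  omega

theorem testBit_gL {i l r b x : ℕ} (hi : i < 6) (hl : l < P.nl + 1) (hr : r < P.nr + 1) (hb : b < P.w) :
    (P.gL x).testBit (P.pos i l r + b) = P.M.testBit (P.pos i (P.tl l x) r + b) := by
  have h1 := testBit_gat (N := P.nl + 1) (u := P.u) (H := 6) (X := P.M) (hi := i) (l := l)
    (lo := P.w * r + b) (t := fun l => P.tl l x) hl (row_lt hr hb) hi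
  unfold pos
  rw [Nat.add_assoc, Nat.add_assoc (P.B * i + P.u * P.tl l x)]
  exact h1

theorem testBit_gR {i l r b x : ℕ} (hi : i < 6) (hl : l < P.nl + 1) (hr : r < P.nr + 1) (hb : b < P.w) :
    (P.gR x).testBit (P.pos i l r + b) = P.M.testBit (P.pos i l (P.tr r x) + b) := by
  have hh : i * (P.nl + 1) + l < 6 * (P.nl + 1) := by
    have : (i + 1) * (P.nl + 1) ≤ 6 * (P.nl + 1) := Nat.mul_le_mul_right _ hi
    rw [Nat.add_mul, Nat.one_mul] at this
    omega
  have h1 := testBit_gat (N := P.nr + 1) (u := P.w) (H := 6 * (P.nl + 1)) (X := P.M)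
    (hi := i * (P.nl + 1) + l) (l := r) (lo := b) (t := fun r => P.tr r x) hr hb hh
  have h2 : ∀ r', P.pos i l r' + b = (P.nr + 1) * P.w * (i * (P.nl + 1) + l) + P.w * r' + b := by
    intro r'
    unfold pos
    rw [B_eq, u_eq]
    ring
  rw [h2, h2]
  exact h1

/-- the two highest bits of a lane are zero -/
theorem testBit_M_high {i l r b : ℕ} (hi : i < 6) (hl : l < P.nl + 1) (hr : r < P.nr + 1) (hb : b < P.w)
    (h : P.M.testBit (P.pos i l r + b) = true) : b + 2 < P.w := by
  have hw : 0 < P.w := by omega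
  unfold M at h
  have h0 : (P.A &&& repN P.w (6 * (P.nl + 1) * (P.nr + 1)) (on (P.w - 2))).testBit (P.pos i l r + b) =
      true := h
  rw [Nat.testBit_and, Bool.and_eq_true] at h0
  have h1 := h0.2
  have hv : on (P.w - 2) < 2 ^ P.w := lt_of_lt_of_le (on_lt _) (Nat.pow_le_pow_right (by norm_num) (by omega))
  rw [testBit_repN hw hv, Bool.and_eq_true, testBit_on] at h1
  have h2 := h1.2
  have h3 : P.pos i l r + b = P.w * ((P.nr + 1) * ((P.nl + 1) * i + l) + r) + b := by
    unfold pos
    rw [B_eq, u_eq]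
    ring
  rw [h3, Nat.mul_add_mod, Nat.mod_eq_of_lt hb] at h2
  have h4 := of_decide_eq_true h2
  omega

theorem testBit_blk {X i l r b : ℕ} (hl : l < P.nl + 1) (hr : r < P.nr + 1) (hb : b < P.w) :
    (P.blk X i).testBit (P.u * l + P.w * r + b) = X.testBit (P.pos i l r + b) := by
  have h0 : P.blk X i = (X >>> (P.B * i)) &&& on P.B := rfl
  rw [h0, Nat.testBit_and, Nat.testBit_shiftRight, testBit_on, decide_eq_true (blk_lt hl hr hb), Bool.and_true]
  congr 1
  unfold pos
  omega

/-- the two highest bits of all lanes are zero -/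
def TopZ (w X : ℕ) : Prop := ∀ p, X.testBit p = true → p % w + 2 < w

theorem topZ_M (hw : 3 ≤ P.w) : TopZ P.w P.M := by
  intro p hp
  have h0 : (P.A &&& repN P.w (6 * (P.nl + 1) * (P.nr + 1)) (on (P.w - 2))).testBit p = true := hp
  rw [Nat.testBit_and, Bool.and_eq_true] at h0
  have h1 := h0.2
  have hv : on (P.w - 2) < 2 ^ P.w := lt_of_lt_of_le (on_lt _) (Nat.pow_le_pow_right (by norm_num) (by omega))
  rw [testBit_repN (by omega) hv, Bool.and_eq_true, testBit_on] at h1
  have h2 := of_decide_eq_true h1.2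
  omega

theorem topZ_gat {w n u K X k : ℕ} {t : ℕ → ℕ} (hX : TopZ w X) (hu : u = w * k) : TopZ w (gat n u K X t) := by
  induction n with
  | zero => intro p hp; simp [gat] at hp
  | succ n ih =>
    intro p hp
    rw [gat_succ, Nat.testBit_or, Bool.or_eq_true] at hp
    rcases hp with hp | hp
    · exact ih p hp
    · rw [Nat.testBit_shiftLeft, Bool.and_eq_true, Nat.testBit_and, Bool.and_eq_true,
        Nat.testBit_shiftRight] at hp
      have h1 := of_decide_eq_true hp.1
      have h2 := hX _ hp.2.1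
      have h3 : (u * t n + (p - u * n)) % w = (p - u * n) % w := by
        rw [hu, Nat.mul_assoc, Nat.mul_add_mod]
      have h4 : p % w = (p - u * n) % w := by
        conv_lhs => rw [show p = u * n + (p - u * n) by omega, hu, Nat.mul_assoc, Nat.mul_add_mod]
        rw [hu, Nat.mul_assoc]
      rw [h3] at h2
      rw [h4]
      exact h2

theorem topZ_gL (hw : 3 ≤ P.w) (x : ℕ) : TopZ P.w (P.gL x) :=
  topZ_gat (k := P.nr + 1) (topZ_M hw) (by rw [u_eq, Nat.mul_comm])

theorem topZ_gR (hw : 3 ≤ P.w) (x : ℕ) : TopZ P.w (P.gR x) :=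
  topZ_gat (k := 1) (topZ_M hw) (by rw [Nat.mul_one])

theorem pos_eq (i l r : ℕ) : P.pos i l r = P.w * ((P.nr + 1) * ((P.nl + 1) * i + l) + r) := by
  unfold pos
  rw [B_eq, u_eq]
  ring

/-- a bit of a number united with its shift -/
theorem bit_shift {X s i l r m : ℕ} (hX : TopZ P.w X) (hw : 3 ≤ P.w) (hs : s ≤ 1)
    (h : (Nat.lor X (Nat.shiftLeft X s)).testBit (P.pos i l r + m) = true) :
    X.testBit (P.pos i l r + m) = true ∨ (s = 1 ∧ 1 ≤ m ∧ X.testBit (P.pos i l r + (m - 1)) = true) := by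
  have h0 : (X ||| (X <<< s)).testBit (P.pos i l r + m) = true := h
  rw [Nat.testBit_or, Bool.or_eq_true, Nat.testBit_shiftLeft, Bool.and_eq_true] at h0
  rcases h0 with h0 | ⟨h1, h2⟩
  · exact Or.inl h0
  · rcases Nat.eq_zero_or_pos s with rfl | hs0
    · left
      simpa using h2
    · have hs1 : s = 1 := by omega
      subst hs1
      have h3 := of_decide_eq_true h1
      rcases Nat.eq_zero_or_pos m with rfl | hm
      · exfalso
        rw [Nat.add_zero] at h2 h3
        have h4 := hX _ h2
        rw [pos_eq] at h3 h4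
        obtain ⟨k, hk⟩ : ∃ k, (P.nr + 1) * ((P.nl + 1) * i + l) + r = k + 1 := by
          refine ⟨(P.nr + 1) * ((P.nl + 1) * i + l) + r - 1, ?_⟩
          rcases Nat.eq_zero_or_pos ((P.nr + 1) * ((P.nl + 1) * i + l) + r) with h5 | h5
          · rw [h5] at h3
            omega
          · omega
        rw [hk] at h4
        have h5 : P.w * (k + 1) - 1 = P.w * k + (P.w - 1) := by
          rw [Nat.mul_add, Nat.mul_one]
          omega
        rw [h5, Nat.mul_add_mod, Nat.mod_eq_of_lt (by omega)] at h4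
        omega
      · right
        refine ⟨rfl, hm, ?_⟩
        have h4 : P.pos i l r + m - 1 = P.pos i l r + (m - 1) := by omega
        rw [h4] at h2
        exact h2

end

/-- the lane of a class -/
noncomputable def ln (i l r : ℕ) : ℕ := (P.M >>> P.pos i l r) % 2 ^ P.w

theorem testBit_ln (i l r b : ℕ) : (P.ln i l r).testBit b = (decide (b < P.w) && P.M.testBit (P.pos i l r + b)) := by
  unfold ln
  rw [Nat.testBit_mod_two_pow, Nat.testBit_shiftRight]

/-- comparison of two lanes -/
theorem core {ia la ra ib lb rb e s : ℕ} (hi : ib < 6) (hl : lb < P.nl + 1) (hr : rb < P.nr + 1) (he : e ≤ 2)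
    (h : ∀ b, b + 2 < P.w → P.M.testBit (P.pos ib lb rb + b) = true →
      P.M.testBit (P.pos ia la ra + (b + e)) = true ∨
        (s = 1 ∧ 1 ≤ b + e ∧ P.M.testBit (P.pos ia la ra + (b + e - 1)) = true)) :
    P.ln ib lb rb = 0 ∨ (P.ln ia la ra ≠ 0 ∧ Nat.log2 (P.ln ib lb rb) + e ≤ Nat.log2 (P.ln ia la ra) + s) := by
  rcases Nat.eq_zero_or_pos (P.ln ib lb rb) with h0 | h0
  · exact Or.inl h0
  right
  have h1 := Nat.testBit_log2 (n := P.ln ib lb rb) (by omega)
  rw [testBit_ln, Bool.and_eq_true] at h1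
  set v := Nat.log2 (P.ln ib lb rb)
  have hv := testBit_M_high hi hl hr (of_decide_eq_true h1.1) h1.2
  have hbit : ∀ m, m < P.w → P.M.testBit (P.pos ia la ra + m) = true →
      P.ln ia la ra ≠ 0 ∧ m ≤ Nat.log2 (P.ln ia la ra) := by
    intro m hm hb
    have h2 : (P.ln ia la ra).testBit m = true := by
      rw [testBit_ln, hb, decide_eq_true hm]
      rfl
    have h3 := Nat.ge_two_pow_of_testBit h2
    have h4 : P.ln ia la ra ≠ 0 := by
      have := Nat.two_pow_pos m
      omega
    exact ⟨h4, (Nat.le_log2 h4).2 h3⟩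
  rcases h v hv h1.2 with h2 | ⟨hs, h3, h4⟩
  · obtain ⟨h5, h6⟩ := hbit _ (by omega) h2
    exact ⟨h5, by omega⟩
  · obtain ⟨h5, h6⟩ := hbit _ (by omega) h4
    exact ⟨h5, by omega⟩

/-- the level -/
noncomputable def lev (E : Ends) : Lvl E (P.nl + 1) (P.nr + 1) where
  ph := fun _ => 0
  V := fun c => Nat.log2 (P.ln (3 * (c.2.1 : ℕ) + c.2.2.1) c.1 c.2.2.2.1)
  wl := fun _ _ x => P.wl x
  wr := fun _ _ x => P.wr x

/-- the certificate -/
noncomputable def crt (E : Ends) : Crt E where
  nl := P.nl + 1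
  nr := P.nr + 1
  l0 := 0
  r0 := 0
  dl := fun l x => ⟨P.tl l x, P.tl_lt l x⟩
  dr := fun r x => ⟨P.tr r x, P.tr_lt r x⟩
  N := fun c => Nat.beq (P.ln (3 * (c.2.1 : ℕ) + c.2.2.1) c.1 c.2.2.2.1) 0
  lv := [P.lev E]

section

variable {P} {E : Ends}

theorem edge_of {a b : Cls E (P.nl + 1) (P.nr + 1)} {add sub : Lvl E (P.nl + 1) (P.nr + 1) → ℕ} {ext : Bool} {e s : ℕ}
    (h : P.ln (3 * (b.2.1 : ℕ) + b.2.2.1) b.1 b.2.2.2.1 = 0 ∨
      (P.ln (3 * (a.2.1 : ℕ) + a.2.2.1) a.1 a.2.2.2.1 ≠ 0 ∧
        Nat.log2 (P.ln (3 * (b.2.1 : ℕ) + b.2.2.1) b.1 b.2.2.2.1) + e ≤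
          Nat.log2 (P.ln (3 * (a.2.1 : ℕ) + a.2.2.1) a.1 a.2.2.2.1) + s))
    (he : add (P.lev E) + (bif ext then 1 else 0) = e) (hs : sub (P.lev E) = s) : (P.crt E).edge a b add sub ext := by
  constructor
  · intro hN
    have hN' : P.ln (3 * (a.2.1 : ℕ) + a.2.2.1) a.1 a.2.2.2.1 = 0 := Nat.eq_of_beq_eq_true hN
    rcases h with h | h
    · show Nat.beq (P.ln (3 * (b.2.1 : ℕ) + b.2.2.1) b.1 b.2.2.2.1) 0 = true
      rw [h]
      rfl
    · exact absurd hN' h.1
  · intro hN
    rcases h with h | h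
    · left
      show Nat.beq (P.ln (3 * (b.2.1 : ℕ) + b.2.2.1) b.1 b.2.2.2.1) 0 = true
      rw [h]
      rfl
    · right
      refine ⟨rfl, ?_⟩
      have h2 := h.2
      rw [← he, ← hs] at h2
      cases ext with
      | true =>
        left
        rw [cond_true] at h2
        show Nat.log2 (P.ln (3 * (b.2.1 : ℕ) + b.2.2.1) b.1 b.2.2.2.1) + add (P.lev E) <
          Nat.log2 (P.ln (3 * (a.2.1 : ℕ) + a.2.2.1) a.1 a.2.2.2.1) + sub (P.lev E)
        omega
      | false =>
        right
        rw [cond_false] at h2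
        exact ⟨h2, rfl⟩

theorem cond3 {a b c d : Bool} (h : cond a (cond b (cond c d false) false) false = true) :
    a = true ∧ b = true ∧ c = true ∧ d = true := by
  revert h; cases a <;> cases b <;> cases c <;> cases d <;> decide

/-- the main step of a move to the right -/
theorem right_core {i k l r e x w : ℕ} (hw : 3 ≤ P.w) (hi : i < 6) (hk : k < 6) (hl : l < P.nl + 1)
    (hr : r < P.nr + 1) (he : P.wl w = e)
    (h : sub (Nat.shiftLeft (P.blk (P.gL w) k) (P.wl w)) (Nat.shiftRight (P.sR x) (Nat.mul P.B i)) = true) :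
    P.ln k (P.tl l w) r = 0 ∨ (P.ln i l (P.tr r x) ≠ 0 ∧
      Nat.log2 (P.ln k (P.tl l w) r) + e ≤ Nat.log2 (P.ln i l (P.tr r x)) + P.wr x) := by
  have he1 : e ≤ 1 := he ▸ P.wl_le w
  refine P.core hk (P.tl_lt l w) hr (by omega) fun b hb hM => ?_
  rw [← testBit_gL hk hl hr (by omega), ← testBit_blk hl hr (by omega)] at hM
  have h1 : ((P.blk (P.gL w) k) <<< (P.wl w)).testBit (P.u * l + P.w * r + b + e) = true := by
    rw [Nat.testBit_shiftLeft, he]
    have h2 : P.u * l + P.w * r + b + e ≥ e := by omega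
    have h3 : P.u * l + P.w * r + b + e - e = P.u * l + P.w * r + b := by omega
    rw [h3, hM, decide_eq_true h2]
    rfl
  have h2 := sub_spec h h1
  have h3 : (P.sR x).testBit (P.pos i l r + (b + e)) = true := by
    have h4 : ((P.sR x) >>> (P.B * i)).testBit (P.u * l + P.w * r + b + e) = true := h2
    rw [Nat.testBit_shiftRight] at h4
    rw [← h4]
    congr 1
    unfold pos
    omega
  rcases bit_shift (topZ_gR hw x) hw (P.wr_le x) h3 with h4 | ⟨h4, h5, h6⟩
  · left
    rwa [testBit_gR hi hl hr (by omega)] at h4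
  · right
    rw [testBit_gR hi hl hr (by omega)] at h6
    exact ⟨h4, h5, h6⟩

/-- the main step of a move to the left -/
theorem left_core {i k l r e x w : ℕ} (hw : 3 ≤ P.w) (hi : i < 6) (hk : k < 6) (hl : l < P.nl + 1)
    (hr : r < P.nr + 1) (he : P.wr w = e)
    (h : sub (Nat.shiftLeft (P.blk (P.gR w) k) (P.wr w)) (Nat.shiftRight (P.sL x) (Nat.mul P.B i)) = true) :
    P.ln k l (P.tr r w) = 0 ∨ (P.ln i (P.tl l x) r ≠ 0 ∧
      Nat.log2 (P.ln k l (P.tr r w)) + e ≤ Nat.log2 (P.ln i (P.tl l x) r) + P.wl x) := by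
  have he1 : e ≤ 1 := he ▸ P.wr_le w
  refine P.core hk hl (P.tr_lt r w) (by omega) fun b hb hM => ?_
  rw [← testBit_gR hk hl hr (by omega), ← testBit_blk hl hr (by omega)] at hM
  have h1 : ((P.blk (P.gR w) k) <<< (P.wr w)).testBit (P.u * l + P.w * r + b + e) = true := by
    rw [Nat.testBit_shiftLeft, he]
    have h2 : P.u * l + P.w * r + b + e ≥ e := by omega
    have h3 : P.u * l + P.w * r + b + e - e = P.u * l + P.w * r + b := by omega
    rw [h3, hM, decide_eq_true h2]
    rfl
  have h2 := sub_spec h h1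
  have h3 : (P.sL x).testBit (P.pos i l r + (b + e)) = true := by
    have h4 : ((P.sL x) >>> (P.B * i)).testBit (P.u * l + P.w * r + b + e) = true := h2
    rw [Nat.testBit_shiftRight] at h4
    rw [← h4]
    congr 1
    unfold pos
    omega
  rcases bit_shift (topZ_gL hw x) hw (P.wl_le x) h3 with h4 | ⟨h4, h5, h6⟩
  · left
    rwa [testBit_gL hi hl hr (by omega)] at h4
  · right
    rw [testBit_gL hi hl hr (by omega)] at h6
    exact ⟨h4, h5, h6⟩

theorem right_ext {i k l e w : ℕ} (hi : i < 6) (hk : k < 6) (hl : l < P.nl + 1) (he : P.wl w + 1 = e)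
    (h : sub (Nat.shiftLeft (Nat.land (P.blk (P.gL w) k) (repN P.u (Nat.succ P.nl) (on P.w)))
      (Nat.succ (P.wl w))) (Nat.shiftRight P.M (Nat.mul P.B i)) = true) :
    P.ln k (P.tl l w) 0 = 0 ∨ (P.ln i l 0 ≠ 0 ∧
      Nat.log2 (P.ln k (P.tl l w) 0) + e ≤ Nat.log2 (P.ln i l 0) + 0) := by
  have he1 := P.wl_le w
  have hr : 0 < P.nr + 1 := Nat.succ_pos _
  refine P.core hk (P.tl_lt l w) hr (by omega) fun b hb hM => Or.inl ?_
  have hbw : b < P.w := by omega
  have hbu : P.w * 0 + b < P.u := row_lt hr hbw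
  have huu : on P.w < 2 ^ P.u := by
    have h1 : P.w * 1 ≤ P.w * (P.nr + 1) := Nat.mul_le_mul_left _ hr
    have h3 : (P.nr + 1) * P.w = P.w * (P.nr + 1) := Nat.mul_comm _ _
    have h2 : P.w ≤ P.u := by rw [u_eq, h3]; omega
    exact lt_of_lt_of_le (on_lt _) (Nat.pow_le_pow_right (by norm_num) h2)
  rw [← testBit_gL hk hl hr hbw, ← testBit_blk hl hr hbw] at hM
  have h1 : (((P.blk (P.gL w) k) &&& (repN P.u (P.nl + 1) (on P.w))) <<< (P.wl w + 1)).testBit
      (P.u * l + P.w * 0 + b + e) = true := by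
    rw [Nat.testBit_shiftLeft, he]
    have h2 : P.u * l + P.w * 0 + b + e ≥ e := by omega
    have h3 : P.u * l + P.w * 0 + b + e - e = P.u * l + (P.w * 0 + b) := by omega
    have h4 : (P.u * l + (P.w * 0 + b)) / P.u = l := by
      rw [Nat.mul_add_div (by omega), Nat.div_eq_of_lt hbu, Nat.add_zero]
    have h5 : (P.u * l + (P.w * 0 + b)) % P.u = b := by
      rw [Nat.mul_add_mod, Nat.mod_eq_of_lt hbu, Nat.mul_zero, Nat.zero_add]
    rw [h3, Nat.testBit_and, testBit_repN (by omega) huu, h4, h5, testBit_on, ← Nat.add_assoc, hM,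
      decide_eq_true h2, decide_eq_true hl, decide_eq_true hbw]
    rfl
  have h2 := sub_spec h h1
  have h4 : (P.M >>> (P.B * i)).testBit (P.u * l + P.w * 0 + b + e) = true := h2
  rw [Nat.testBit_shiftRight] at h4
  rw [← h4]
  congr 1
  unfold pos
  omega

theorem left_ext {i k r e w : ℕ} (hi : i < 6) (hk : k < 6) (hr : r < P.nr + 1) (he : P.wr w + 1 = e)
    (h : sub (Nat.shiftLeft (Nat.land (P.blk (P.gR w) k) (on P.u))
      (Nat.succ (P.wr w))) (Nat.shiftRight P.M (Nat.mul P.B i)) = true) :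
    P.ln k 0 (P.tr r w) = 0 ∨ (P.ln i 0 r ≠ 0 ∧
      Nat.log2 (P.ln k 0 (P.tr r w)) + e ≤ Nat.log2 (P.ln i 0 r) + 0) := by
  have he1 := P.wr_le w
  have hl : 0 < P.nl + 1 := Nat.succ_pos _
  refine P.core hk hl (P.tr_lt r w) (by omega) fun b hb hM => Or.inl ?_
  have hbw : b < P.w := by omega
  have hbu : P.w * r + b < P.u := row_lt hr hbw
  rw [← testBit_gR hk hl hr hbw, ← testBit_blk hl hr hbw] at hM
  have h1 : (((P.blk (P.gR w) k) &&& (on P.u)) <<< (P.wr w + 1)).testBit
      (P.u * 0 + P.w * r + b + e) = true := by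
    rw [Nat.testBit_shiftLeft, he]
    have h2 : P.u * 0 + P.w * r + b + e ≥ e := by omega
    have h3 : P.u * 0 + P.w * r + b + e - e = P.u * 0 + P.w * r + b := by omega
    have h6 : P.u * 0 + P.w * r + b < P.u := by omega
    rw [h3, Nat.testBit_and, hM, testBit_on, decide_eq_true h2, decide_eq_true h6]
    rfl
  have h2 := sub_spec h h1
  have h4 : (P.M >>> (P.B * i)).testBit (P.u * 0 + P.w * r + b + e) = true := h2
  rw [Nat.testBit_shiftRight] at h4
  rw [← h4]
  congr 1
  unfold pos
  omega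

theorem halt_core {i l r : ℕ} (hw : 3 ≤ P.w) (hl : l < P.nl + 1) (hr : r < P.nr + 1) (h : P.actH i = true) :
    P.ln i l r ≠ 0 := by
  have h1 : (repN P.w ((P.nl + 1) * (P.nr + 1)) 1).testBit (P.u * l + P.w * r + 0) = true := by
    have h2 : P.u * l + P.w * r + 0 = P.w * ((P.nr + 1) * l + r) + 0 := by
      rw [u_eq]; ring
    have h3 : (P.nr + 1) * l + r < (P.nl + 1) * (P.nr + 1) := by
      have : (P.nr + 1) * (l + 1) ≤ (P.nr + 1) * (P.nl + 1) := Nat.mul_le_mul_left _ hl
      rw [Nat.mul_add, Nat.mul_one] at this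
      have h4 : (P.nl + 1) * (P.nr + 1) = (P.nr + 1) * (P.nl + 1) := Nat.mul_comm _ _
      omega
    have h5 : (1 : ℕ) < 2 ^ P.w := Nat.one_lt_two_pow (by omega)
    rw [h2, testBit_repN (by omega) h5, Nat.mul_add_div (by omega), Nat.mul_add_mod, Nat.zero_div, Nat.zero_mod,
      Nat.add_zero, decide_eq_true h3]
    rfl
  have h2 := sub_spec h h1
  have h4 : (P.M >>> (P.B * i)).testBit (P.u * l + P.w * r + 0) = true := h2
  rw [Nat.testBit_shiftRight] at h4
  intro h0
  have h5 : (P.ln i l r).testBit 0 = true := by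
    rw [testBit_ln, decide_eq_true (by omega : 0 < P.w), Bool.true_and, ← h4]
    congr 1
    unfold pos
    omega
  rw [h0] at h5
  simp at h5

theorem act_at {Mb : ℕ} (h : P.chk Mb = true) {T : Tb} (hT : InB Mb T) (q : Fin 2) (s : Fin 3) :
    3 ≤ P.w ∧ P.act (3 * q + s) (cde (T q s)) = true := by
  unfold chk at h
  cases hb : Nat.ble 3 P.w with
  | false => rw [hb, cond_false] at h; cases h
  | true =>
    rw [hb, cond_true] at h
    refine ⟨Nat.le_of_ble_eq_true hb, ?_⟩
    have h1 := allN_spec (allN_spec h (3 * (q : ℕ) + s) (by omega)) _ (cde_lt (T q s))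
    have h2 := hT q s
    have h3 : Nat.land (Nat.shiftRight Mb (Nat.add (Nat.mul 16 (3 * (q : ℕ) + s)) (cde (T q s)))) 1 = 1 := by
      rw [land_one]
      have h4 : (Mb >>> (16 * (3 * (q : ℕ) + s) + cde (T q s))).testBit 0 = true := by
        rw [Nat.testBit_shiftRight]
        exact h2
      rw [Nat.testBit_zero] at h4
      exact of_decide_eq_true h4
    rw [h3] at h1
    exact h1

theorem act_none {i : ℕ} (h : P.act i (cde none) = true) : P.actH i = true := h

theorem act_right {i : ℕ} {w : Fin 3} {q : Fin 2} (h : P.act i (cde (some (w, true, q))) = true) :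
    P.actR i w q = true := by
  fin_cases w <;> fin_cases q <;> exact h

theorem act_left {i : ℕ} {w : Fin 3} {q : Fin 2} (h : P.act i (cde (some (w, false, q))) = true) :
    P.actL i w q = true := by
  fin_cases w <;> fin_cases q <;> exact h

end

/-- the theorem on box certificates -/
theorem bgood {Mb : ℕ} (h : P.chk Mb = true) : BGood Mb := by
  intro T hT
  refine decT_of_crt (T := T) none none (P.crt _) ?_
  have hw : 3 ≤ P.w := (act_at h hT 0 0).1
  constructor
  · -- halt
    intro l q s r kL kR hq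
    have h1 := (act_at h hT q s).2
    rw [hq] at h1
    have h2 := halt_core (l := l) (r := r) hw l.2 r.2 (act_none h1)
    show Nat.beq (P.ln (3 * (q : ℕ) + s) l r) 0 = false
    cases hb : Nat.beq (P.ln (3 * (q : ℕ) + s) l r) 0 with
    | false => rfl
    | true => exact absurd (Nat.eq_of_beq_eq_true hb) h2
  · -- right
    intro l q s r x kL kR w q' hq
    have h1 := (act_at h hT q s).2
    rw [hq] at h1
    obtain ⟨h2, h3, h4, h5⟩ := cond3 (act_right h1)
    have hi : 3 * (q : ℕ) + s < 6 := by omega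
    refine edge_of (e := P.wl w) (s := P.wr x) ?_ rfl rfl
    have hx : x = 0 ∨ x = 1 ∨ x = 2 := by omega
    rcases hx with rfl | rfl | rfl
    · exact right_core (i := 3 * (q : ℕ) + s) (k := 3 * (q' : ℕ) + 0) hw hi (by omega) l.2 r.2 rfl h2
    · exact right_core (i := 3 * (q : ℕ) + s) (k := 3 * (q' : ℕ) + 1) hw hi (by omega) l.2 r.2 rfl h3
    · exact right_core (i := 3 * (q : ℕ) + s) (k := 3 * (q' : ℕ) + 2) hw hi (by omega) l.2 r.2 rfl h4
  · -- right end
    intro l q s kL kR w q' hq hr
    have h1 := (act_at h hT q s).2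
    rw [hq] at h1
    obtain ⟨h2, h3, h4, h5⟩ := cond3 (act_right h1)
    have hi : 3 * (q : ℕ) + s < 6 := by omega
    refine edge_of (e := P.wl w + 1) (s := 0) ?_ rfl rfl
    exact right_ext (i := 3 * (q : ℕ) + s) (k := 3 * (q' : ℕ) + 0) hi (by omega) l.2 rfl h5
  · intro l q s kL kR w q' r hq hr
    cases hr
  · -- left
    intro l q s r x kL kR w q' hq
    have h1 := (act_at h hT q s).2
    rw [hq] at h1
    obtain ⟨h2, h3, h4, h5⟩ := cond3 (act_left h1)
    have hi : 3 * (q : ℕ) + s < 6 := by omega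
    refine edge_of (e := P.wr w) (s := P.wl x) ?_ rfl rfl
    have hx : x = 0 ∨ x = 1 ∨ x = 2 := by omega
    rcases hx with rfl | rfl | rfl
    · exact left_core (i := 3 * (q : ℕ) + s) (k := 3 * (q' : ℕ) + 0) hw hi (by omega) l.2 r.2 rfl h2
    · exact left_core (i := 3 * (q : ℕ) + s) (k := 3 * (q' : ℕ) + 1) hw hi (by omega) l.2 r.2 rfl h3
    · exact left_core (i := 3 * (q : ℕ) + s) (k := 3 * (q' : ℕ) + 2) hw hi (by omega) l.2 r.2 rfl h4
  · -- left end
    intro q s r kL kR w q' hq hr
    have h1 := (act_at h hT q s).2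
    rw [hq] at h1
    obtain ⟨h2, h3, h4, h5⟩ := cond3 (act_left h1)
    have hi : 3 * (q : ℕ) + s < 6 := by omega
    refine edge_of (e := P.wr w + 1) (s := 0) ?_ rfl rfl
    exact left_ext (i := 3 * (q : ℕ) + s) (k := 3 * (q' : ℕ) + 0) hi (by omega) r.2 rfl h5
  · intro q s r kL kR w q' rL hq hr
    cases hr

end BC

end P913T
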