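import Pool.Agent.Lib.P913T.Quot
import Pool.Agent.Lib.P913T.Mealy

/-!
# Certificates for black boxes: termination, and the black box of a certificate
-/

set_option autoImplicit false

namespace P913T

/-- the machine of the first cell: the state is `c + 3 k` -/
def tst (t re : List ℕ) (F s q : ℕ) : List ℕ × Option ℕ :=
  match cmpE t re F (s % 3) (s / 3) q with
  | (_, 0) => ([], none)
  | (o, 1) => (o, none)
  | (o, r + 2) => (o, some (r / 2))

/-- a box certificate -/
structure QC where
  K : ℕ
  F : ℕ
  re : List ℕ
  de : List ℕ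
  d : ℕ
  da : List ℕ
  w1 : List ℕ
  w2 : List ℕ
  N : List Nd

/-- the check of a box certificate -/
def QC.chk (C : QC) (t : List ℕ) : Bool :=
  chkPC t C.re C.de C.K C.F && chkR (tst t C.re C.F) C.d C.da C.w1 C.w2 C.N (inpN t)

/-- all calls of the half-line `v` in the word `x` end as promised by `re` -/
def Good (t re : List ℕ) : List (Fin 3) → ℕ → List ℕ → Prop
  | _, _, [] => True
  | v, k, q :: x =>
    match re.getD (2 * k + q) 0 with
    | 0 => True
    | 1 => RctH (tbl t) v (Fin.ofNat 2 q)
    | r + 2 => ∃ v', Rct (tbl t) v (Fin.ofNat 2 q) (Fin.ofNat 2 r) v' ∧ Good t re v' (r / 2) x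

section good

variable {t re de : List ℕ} {K F : ℕ}

theorem Good.halt {v : List (Fin 3)} {k q : ℕ} {x : List ℕ} (h : Good t re v k (q :: x))
    (hr : re.getD (2 * k + q) 0 = 1) : RctH (tbl t) v (Fin.ofNat 2 q) := by
  unfold Good at h
  rw [hr] at h
  exact h

theorem Good.exit {v : List (Fin 3)} {k q r : ℕ} {x : List ℕ} (h : Good t re v k (q :: x))
    (hr : re.getD (2 * k + q) 0 = r + 2) :
    ∃ v', Rct (tbl t) v (Fin.ofNat 2 q) (Fin.ofNat 2 r) v' ∧ Good t re v' (r / 2) x := by
  unfold Good at h
  rw [hr] at h
  exact h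

theorem Good.of_never {v : List (Fin 3)} {k q : ℕ} {x : List ℕ} (hr : re.getD (2 * k + q) 0 = 0) :
    Good t re v k (q :: x) := by
  unfold Good
  rw [hr]
  trivial

theorem Good.of_halt {v : List (Fin 3)} {k q : ℕ} {x : List ℕ} (hr : re.getD (2 * k + q) 0 = 1)
    (h : RctH (tbl t) v (Fin.ofNat 2 q)) : Good t re v k (q :: x) := by
  unfold Good
  rw [hr]
  exact h

theorem Good.of_exit {v v' : List (Fin 3)} {k q r : ℕ} {x : List ℕ} (hr : re.getD (2 * k + q) 0 = r + 2)
    (h : Rct (tbl t) v (Fin.ofNat 2 q) (Fin.ofNat 2 r) v') (h' : Good t re v' (r / 2) x) :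
    Good t re v k (q :: x) := by
  unfold Good
  rw [hr]
  exact ⟨v', h, h'⟩

theorem fin2_ofNat_val {q : ℕ} (hq : q < 2) : ((Fin.ofNat 2 q : Fin 2) : ℕ) = q := by
  simp only [Fin.ofNat]; omega

theorem fin3_ofNat_val {q : ℕ} (hq : q < 3) : ((Fin.ofNat 3 q : Fin 3) : ℕ) = q := by
  simp only [Fin.ofNat]; omega

theorem fin2_ofNat_mod (q : ℕ) : (Fin.ofNat 2 (q % 2) : Fin 2) = Fin.ofNat 2 q := by
  apply Fin.ext; simp only [Fin.ofNat]; omega

theorem fin3_ofNat_mod (q : ℕ) : (Fin.ofNat 3 (q % 3) : Fin 3) = Fin.ofNat 3 q := by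
  apply Fin.ext; simp only [Fin.ofNat]; omega

theorem tbl_eq_none {t : List ℕ} {q c : ℕ} (hq : q < 2) (hc : c < 3) (h : t.getD (3 * q + c) 0 = 0) :
    tbl t (Fin.ofNat 2 q) (Fin.ofNat 3 c) = none := by
  unfold tbl
  rw [fin2_ofNat_val hq, fin3_ofNat_val hc, h]
  rfl

theorem tbl_eq_some {t : List ℕ} {q c e : ℕ} (hq : q < 2) (hc : c < 3) (h : t.getD (3 * q + c) 0 = e + 1) :
    tbl t (Fin.ofNat 2 q) (Fin.ofNat 3 c) =
      some (Fin.ofNat 3 (e / 4), Nat.beq (e / 2 % 2) 1, Fin.ofNat 2 e) := by
  unfold tbl
  rw [fin2_ofNat_val hq, fin3_ofNat_val hc, h]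
  rfl

/-- one call of the cell `c` and a good half-line -/
theorem Good.step {x : List ℕ} : ∀ {F c k q : ℕ} {v : List (Fin 3)} {o : List ℕ} {r : ℕ}, q < 2 → c < 3 →
    cmpE t re F c k q = (o, r) → Good t re v k (o ++ x) →
      (r = 1 → RctH (tbl t) (Fin.ofNat 3 c :: v) (Fin.ofNat 2 q)) ∧
      ∀ r', r = r' + 2 → ∃ v', Rct (tbl t) (Fin.ofNat 3 c :: v) (Fin.ofNat 2 q) (Fin.ofNat 2 r')
        (Fin.ofNat 3 (r' / 2) :: v') ∧ Good t re v' (r' / 6) x := by
  intro F
  induction F with
  | zero =>
    intro c k q v o r hq hc h hg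
    simp only [cmpE, Prod.mk.injEq] at h
    obtain ⟨-, rfl⟩ := h
    exact ⟨by simp, by simp⟩
  | succ F ih =>
    intro c k q v o r hq hc h hg
    rcases he : t.getD (3 * q + c) 0 with _ | e
    · rw [cmpE_none he] at h
      simp only [Prod.mk.injEq] at h
      obtain ⟨-, rfl⟩ := h
      refine ⟨fun _ => .here ?_, by simp⟩
      exact tbl_eq_none hq hc he
    · have hT := tbl_eq_some hq hc he
      rcases Nat.mod_two_eq_zero_or_one (e / 2) with hd | hd
      · rw [cmpE_left he hd] at h
        simp only [Prod.mk.injEq] at h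
        obtain ⟨rfl, rfl⟩ := h
        refine ⟨by omega, fun r' hr' => ⟨v, ?_, ?_⟩⟩
        · have h1 : Rct (tbl t) (Fin.ofNat 3 c :: v) (Fin.ofNat 2 q) (Fin.ofNat 2 e) (Fin.ofNat 3 (e / 4) :: v) := by
            refine .left (v := Fin.ofNat 3 c :: v) ?_
            rw [List.headD_cons, hT, hd]
            rfl
          rw [show (Fin.ofNat 2 r' : Fin 2) = Fin.ofNat 2 e by
            apply Fin.ext; simp only [Fin.ofNat]; omega,
            show (Fin.ofNat 3 (r' / 2) : Fin 3) = Fin.ofNat 3 (e / 4) by
            apply Fin.ext; simp only [Fin.ofNat]; omega]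
          exact h1
        · rw [show r' / 6 = k by omega]
          simpa using hg
      · have hT' : tbl t (Fin.ofNat 2 q) ((Fin.ofNat 3 c :: v).headD 0) =
            some (Fin.ofNat 3 (e / 4), true, Fin.ofNat 2 e) := by
          rw [List.headD_cons, hT, hd]
          rfl
        rcases hre : re.getD (2 * k + e % 2) 0 with _ | _ | s
        · rw [cmpE_right0 he hd hre] at h
          simp only [Prod.mk.injEq] at h
          obtain ⟨-, rfl⟩ := h
          exact ⟨by simp, by simp⟩
        · rw [cmpE_right1 he hd hre] at h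
          simp only [Prod.mk.injEq] at h
          obtain ⟨rfl, rfl⟩ := h
          refine ⟨fun _ => .inner hT' ?_, by simp⟩
          have h1 := hg.halt hre
          rw [fin2_ofNat_mod] at h1
          exact h1
        · rw [cmpE_right2 he hd hre] at h
          simp only [Prod.mk.injEq] at h
          obtain ⟨rfl, rfl⟩ := h
          rw [List.cons_append] at hg
          obtain ⟨v1, h1, h2⟩ := hg.exit hre
          rw [fin2_ofNat_mod] at h1
          obtain ⟨h3, h4⟩ := ih (q := s % 2) (c := e / 4 % 3) (by omega) (by omega) rfl h2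
          rw [fin3_ofNat_mod, fin2_ofNat_mod] at h3 h4
          refine ⟨fun h5 => .outer hT' h1 (h3 h5), fun r' hr' => ?_⟩
          obtain ⟨v', h5, h6⟩ := h4 r' hr'
          exact ⟨v', .right hT' h1 h5, h6⟩

/-- the calls of the cell `c` are good if the calls of the half-line behind it are good -/
theorem Good.lift (h : PC t re de K F) (x : List ℕ) : ∀ {c k m : ℕ} {v : List (Fin 3)}, c < 3 → k < K →
    de.getD (3 * k + c) 0 = m + 1 → QCls de v k → (∀ q ∈ x, q < 2 ∧ inpN t q = true) →
      Good t re v k (feed (tst t re F) (c + 3 * k) x).1 → Good t re (Fin.ofNat 3 c :: v) m x := by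
  induction x with
  | nil => intros; trivial
  | cons q x ih =>
    intro c k m v hc hk hm hv hx hg
    obtain ⟨hq, hi⟩ := hx q (by simp)
    have e1 : (c + 3 * k) % 3 = c := by omega
    have e2 : (c + 3 * k) / 3 = k := by omega
    cases hcm : cmpE t re F c k q with
    | mk o r =>
      have hcm2 : (cmpE t re F c k q).2 = r := by rw [hcm]
      rcases r with _ | _ | r
      · exact Good.of_never (h.agr_never hk hc hm hq hi hcm2)
      · have ht : tst t re F (c + 3 * k) q = (o, none) := by
          unfold tst; rw [e1, e2, hcm]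
        rw [feed_none (by rw [ht]), ht] at hg
        refine Good.of_halt (h.agr_halt hk hc hm hq hi hcm2) ?_
        exact (Good.step (x := []) hq hc hcm (by simpa using hg)).1 rfl
      · have ht : tst t re F (c + 3 * k) q = (o, some (r / 2)) := by
          unfold tst; rw [e1, e2, hcm]
        rw [feed_some (s' := r / 2) (by rw [ht]), ht] at hg
        obtain ⟨v', h1, h2⟩ := (Good.step hq hc hcm hg).2 r rfl
        obtain ⟨s, hs, hs1, hs2⟩ := h.agr_exit hk hc hm hq hi hcm2
        have hk' : r / 6 < K := by
          obtain ⟨k1, hk1, hd1⟩ := hv.split h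
          have h3 := h1.cmp h
          obtain ⟨c', v1, k', h4, h5, h6⟩ := h3 k (by simpa using hv)
          rw [List.headD_cons, fin3_ofNat_val hc, fin2_ofNat_val hq, hcm2] at h6
          simp only [List.cons.injEq] at h4
          have h7 := h5.lt h
          have := c'.2
          have := (Fin.ofNat 2 r : Fin 2).2
          omega
        have hcl : QCls de v' (r / 6) := by
          have h3 := h1.cmp h
          obtain ⟨c', v1, k', h4, h5, h6⟩ := h3 k (by simpa using hv)
          rw [List.headD_cons, fin3_ofNat_val hc, fin2_ofNat_val hq, hcm2] at h6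
          simp only [List.cons.injEq] at h4
          obtain ⟨-, rfl⟩ := h4
          have := c'.2
          have := (Fin.ofNat 2 r : Fin 2).2
          rwa [show r / 6 = k' by omega]
        refine Good.of_exit hs ?_ ?_ (v' := Fin.ofNat 3 (r / 2) :: v')
        · rw [show (Fin.ofNat 2 s : Fin 2) = Fin.ofNat 2 r by
            apply Fin.ext; simp only [Fin.ofNat]; omega]
          exact h1
        · have h3 := ih (c := r / 2 % 3) (k := r / 6) (m := s / 2) (v := v') (by omega) hk' hs2 hcl
            (fun p hp => hx p (by simp [hp])) (by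
              rw [show r / 2 % 3 + 3 * (r / 6) = r / 2 by omega]
              exact h2)
          rw [fin3_ofNat_mod] at h3
          exact h3

theorem Good.nil_iff (x : List ℕ) (k : ℕ) : Good t re [0] k x → Good t re [] k x := by
  intro h
  cases x with
  | nil => trivial
  | cons q x =>
    rcases hr : re.getD (2 * k + q) 0 with _ | _ | r
    · exact Good.of_never hr
    · exact Good.of_halt hr (RctH.nil_iff.2 (h.halt hr))
    · obtain ⟨v', h1, h2⟩ := h.exit hr
      exact Good.of_exit hr (Rct.nil_iff.2 h1) h2

theorem tst_mem (s q : ℕ) : ∀ p ∈ (tst t re F s q).1, p < 2 ∧ inpN t p = true := by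
  have key : ∀ (F c k q : ℕ), ∀ p ∈ (cmpE t re F c k q).1, p < 2 ∧ inpN t p = true := by
    intro F
    induction F with
    | zero => intro c k q p hp; simp [cmpE] at hp
    | succ F ih =>
      intro c k q p hp
      rcases he : t.getD (3 * q + c) 0 with _ | e
      · rw [cmpE_none he] at hp; simp at hp
      · rcases Nat.mod_two_eq_zero_or_one (e / 2) with hd | hd
        · rw [cmpE_left he hd] at hp; simp at hp
        · have hi : e % 2 < 2 ∧ inpN t (e % 2) = true := ⟨by omega, inpN_of_getD he hd⟩
          rcases hre : re.getD (2 * k + e % 2) 0 with _ | _ | s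
          · rw [cmpE_right0 he hd hre] at hp
            simp only [List.mem_singleton] at hp
            rw [hp]; exact hi
          · rw [cmpE_right1 he hd hre] at hp
            simp only [List.mem_singleton] at hp
            rw [hp]; exact hi
          · rw [cmpE_right2 he hd hre] at hp
            simp only [List.mem_cons] at hp
            rcases hp with hp | hp
            · rw [hp]; exact hi
            · exact ih _ _ _ p hp
  intro p hp
  unfold tst at hp
  split at hp
  · simp at hp
  · rename_i o h
    exact key _ _ _ _ p (by rw [h]; exact hp)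
  · rename_i o r h
    exact key _ _ _ _ p (by rw [h]; exact hp)

/-- all calls of the blank half-line are good -/
theorem Good.all {C : QC} (h : C.chk t = true) (x : List ℕ) (hx : ∀ q ∈ x, q < 2 ∧ inpN t q = true) :
    Good t C.re [] 0 x := by
  unfold QC.chk at h
  rw [Bool.and_eq_true] at h
  have hpc := PC.of_chk h.1
  obtain ⟨n, hn⟩ := iterate_nil h.2 (fun s q => tst_mem s q) x hx
  have key : ∀ (n : ℕ) (x : List ℕ), (∀ q ∈ x, q < 2 ∧ inpN t q = true) →
      (fun y => (feed (tst t C.re C.F) 0 y).1)^[n] x = [] → Good t C.re [] 0 x := by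
    intro n
    induction n with
    | zero =>
      intro x hx hn
      rw [show x = [] from hn]
      trivial
    | succ n ih =>
      intro x hx hn
      rw [Function.iterate_succ_apply] at hn
      have h1 := ih _ (feed_mem (fun s q => tst_mem s q) x 0) hn
      have h2 : Good t C.re (Fin.ofNat 3 0 :: []) 0 x :=
        Good.lift (k := 0) hpc x (by norm_num) hpc.K0 (by simpa using hpc.d0) .nil hx (by simpa using h1)
      exact Good.nil_iff x 0 h2
  exact key n x hx hn

/-- decode an answer -/
def dec (K r : ℕ) : Rx K :=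
  match r with
  | 0 => .never
  | 1 => .halt
  | r + 2 => if h : r / 2 < K then .exit (Fin.ofNat 2 r) ⟨r / 2, h⟩ else .halt

/-- the black box of a certificate -/
def QC.box (C : QC) (h : C.chk t = true) : BB (tbl t) :=
  have hpc : PC t C.re C.de C.K C.F := PC.of_chk (by
    unfold QC.chk at h
    rw [Bool.and_eq_true] at h
    exact h.1)
  have hval : ∀ {q : Fin 2}, Fin.ofNat 2 (q : ℕ) = q := fun {q} => by
    apply Fin.ext; simp only [Fin.ofNat]; omega
  { K := C.K
    k0 := ⟨0, hpc.K0⟩
    react := fun k q => dec C.K (C.re.getD (2 * (k : ℕ) + q) 0)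
    Rep := fun k v => QCls C.de v k ∧ ∀ x : List ℕ, (∀ q ∈ x, q < 2 ∧ inpN t q = true) → Good t C.re v k x
    rep0 := ⟨.nil, fun x hx => Good.all h x hx⟩
    exit := by
      rintro k v q q' k' ⟨hc, hg⟩ hq hr
      have hi := inpN_of_Inp hq
      rcases hre : C.re.getD (2 * (k : ℕ) + q) 0 with _ | _ | r
      · rw [hre] at hr; simp [dec] at hr
      · rw [hre] at hr; simp [dec] at hr
      · rw [hre] at hr
        simp only [dec] at hr
        split at hr
        · rename_i hlt
          simp only [Rx.exit.injEq] at hr
          obtain ⟨rfl, rfl⟩ := hr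
          obtain ⟨v', h1, -⟩ := (hg [(q : ℕ)] (by
            intro p hp
            rw [List.mem_singleton] at hp
            subst hp
            exact ⟨q.2, hi⟩)).exit hre
          rw [hval] at h1
          obtain ⟨k', h2, h3⟩ := h1.code hpc hc hi
          have hkk : k' = r / 2 := by
            rw [hre] at h2
            have := (Fin.ofNat 2 r : Fin 2).2
            omega
          subst hkk
          refine ⟨v', ⟨h3, fun x hx => ?_⟩, h1⟩
          obtain ⟨v'', h4, h5⟩ := (hg ((q : ℕ) :: x) (by
            intro p hp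
            simp only [List.mem_cons] at hp
            rcases hp with rfl | hp
            · exact ⟨q.2, hi⟩
            · exact hx p hp)).exit hre
          rw [hval] at h4
          obtain ⟨-, rfl⟩ := h4.unique h1
          exact h5
        · simp at hr
    halt := by
      rintro k v q ⟨hc, hg⟩ hq hr
      have hi := inpN_of_Inp hq
      rcases hre : C.re.getD (2 * (k : ℕ) + q) 0 with _ | _ | r
      · rw [hre] at hr; simp [dec] at hr
      · have h1 := (hg [(q : ℕ)] (by
            intro p hp
            rw [List.mem_singleton] at hp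
            subst hp
            exact ⟨q.2, hi⟩)).halt hre
        rw [hval] at h1
        exact h1
      · exfalso
        rw [hre] at hr
        simp only [dec] at hr
        split at hr
        · simp at hr
        · rename_i hlt
          apply hlt
          have hmem : r + 2 ∈ C.re := by
            have hi : 2 * (k : ℕ) + q < C.re.length := by
              by_contra hi
              rw [List.getD_eq_default _ _ (not_lt.1 hi)] at hre
              simp at hre
            rw [List.getD_eq_getElem _ _ hi] at hre
            rw [← hre]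
            exact List.getElem_mem hi
          have := hpc.bd _ hmem
          omega
    never := by
      rintro k v q ⟨hc, hg⟩ hq hr
      have hi := inpN_of_Inp hq
      have hre : C.re.getD (2 * (k : ℕ) + q) 0 = 0 := by
        rcases hre : C.re.getD (2 * (k : ℕ) + q) 0 with _ | _ | r
        · rfl
        · rw [hre] at hr; simp [dec] at hr
        · rw [hre] at hr
          simp only [dec] at hr
          split at hr <;> simp at hr
      refine ⟨fun h1 => ?_, fun q' v' h1 => ?_⟩
      · have := h1.code hpc hc hi
        omega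
      · obtain ⟨k', h2, -⟩ := h1.code hpc hc hi
        omega }

end good

end P913T
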