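import Pool.Agent.Lib.P913T.Closed
import Pool.Agent.Lib.P913T.QBox

/-!
# Packed certificates for tables with an open end

The automata, the set `N` and the levels of a certificate are digits of natural numbers, so that the kernel can check
the certificate quickly.
-/

set_option autoImplicit false

namespace P913T

/-- digit `i` of `n` in base `b` -/
def dgt (b n i : ℕ) : ℕ := Nat.mod (Nat.div n (Nat.pow b i)) b

/-- all numbers below `n` -/
def allB : ℕ → (ℕ → Bool) → Bool
  | 0, _ => true
  | n + 1, p => p n && allB n p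

theorem allB_spec {n : ℕ} {p : ℕ → Bool} (h : allB n p = true) : ∀ i < n, p i = true := by
  induction n with
  | zero => intro i hi; omega
  | succ n ih =>
    unfold allB at h
    rw [Bool.and_eq_true] at h
    intro i hi
    rcases Nat.lt_succ_iff_lt_or_eq.1 hi with h1 | rfl
    · exact ih h.2 i h1
    · exact h.1

/-- a level: the base, the number of groups of states, the digits of the phases, of the potential and of the weights -/
structure PL where
  b : ℕ
  m : ℕ
  ph : ℕ
  V : ℕ
  W : ℕ

/-- weight of the letter `x` in the phase `p` on a side (`0`: left), `g` is the group of the state behind the letter -/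
def PL.wgt (L : PL) (p side g x : ℕ) : ℕ := dgt L.b L.W (((2 * p + side) * L.m + g) * 4 + x)

/-- a packed certificate -/
structure PK where
  nl : ℕ
  nr : ℕ
  dl : ℕ
  dr : ℕ
  gl : ℕ
  gr : ℕ
  N : ℕ
  lv : List PL

/-- transition of the left automaton -/
def PK.tl (P : PK) (l x : ℕ) : ℕ := Nat.mod (dgt 16 P.dl (3 * l + x)) (P.nl + 1)

/-- transition of the right automaton -/
def PK.tr (P : PK) (r x : ℕ) : ℕ := Nat.mod (dgt 16 P.dr (3 * r + x)) (P.nr + 1)

/-- number of a class -/
def PK.ix (P : PK) (KL KR l q s r kL kR : ℕ) : ℕ :=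
  ((((l * 2 + q) * 3 + s) * (P.nr + 1) + r) * KL + kL) * KR + kR

/-- is the class `c` in `N`? -/
def PK.isN (P : PK) (c : ℕ) : Bool := Nat.beq (dgt 2 P.N c) 1

/-- comparison of two classes -/
def lvOK (a b : ℕ) (ext : Bool) (wa ws : PL → ℕ → ℕ) : List PL → Bool
  | [] => !ext
  | L :: Ls =>
    Nat.beq (dgt L.b L.ph a) (dgt L.b L.ph b) &&
      (Nat.blt (dgt L.b L.V b + wa L (dgt L.b L.ph a)) (dgt L.b L.V a + ws L (dgt L.b L.ph a)) ||
        (Nat.ble (dgt L.b L.V b + wa L (dgt L.b L.ph a)) (dgt L.b L.V a + ws L (dgt L.b L.ph a)) &&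
          lvOK a b ext wa ws Ls))

/-- an edge of the class graph -/
def PK.edB (P : PK) (a b : ℕ) (ext : Bool) (wa ws : PL → ℕ → ℕ) : Bool :=
  bif P.isN a then P.isN b else (P.isN b || lvOK a b ext wa ws P.lv)

/-- weight of a letter on the left side -/
def PK.ul (P : PK) (l x : ℕ) : PL → ℕ → ℕ := fun L p => L.wgt p 0 (dgt 16 P.gl l) x

/-- weight of a letter on the right side -/
def PK.ur (P : PK) (r x : ℕ) : PL → ℕ → ℕ := fun L p => L.wgt p 1 (dgt 16 P.gr r) x

/-- the edges of an entry which moves to the right -/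
def PK.goR (P : PK) (KL KR : ℕ) (rR : Option (List ℕ)) (q s kL kR w q' : ℕ) : Bool :=
  allB (P.nl + 1) fun l =>
    (allB (P.nr + 1) fun r => allB 3 fun x =>
      P.edB (P.ix KL KR l q s (P.tr r x) kL kR) (P.ix KL KR (P.tl l w) q' x r kL kR) false (P.ul l w) (P.ur r x)) &&
    match rR with
    | none => P.edB (P.ix KL KR l q s 0 kL kR) (P.ix KL KR (P.tl l w) q' 0 0 kL kR) true (P.ul l w) (fun _ _ => 0)
    | some re =>
      match re.getD (2 * kR + q') 0 with
      | 0 => true
      | 1 => !P.isN (P.ix KL KR l q s 0 kL kR)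
      | j + 2 => P.edB (P.ix KL KR l q s 0 kL kR) (P.ix KL KR l (Nat.mod j 2) w 0 kL (Nat.div j 2)) false
          (fun _ _ => 0) (fun _ _ => 0) && (Nat.blt (Nat.div j 2) KR || !P.isN (P.ix KL KR l q s 0 kL kR))

/-- the edges of an entry which moves to the left -/
def PK.goL (P : PK) (KL KR : ℕ) (rL : Option (List ℕ)) (q s kL kR w q' : ℕ) : Bool :=
  allB (P.nr + 1) fun r =>
    (allB (P.nl + 1) fun l => allB 3 fun x =>
      P.edB (P.ix KL KR (P.tl l x) q s r kL kR) (P.ix KL KR l q' x (P.tr r w) kL kR) false (P.ur r w) (P.ul l x)) &&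
    match rL with
    | none => P.edB (P.ix KL KR 0 q s r kL kR) (P.ix KL KR 0 q' 0 (P.tr r w) kL kR) true (P.ur r w) (fun _ _ => 0)
    | some re =>
      match re.getD (2 * kL + q') 0 with
      | 0 => true
      | 1 => !P.isN (P.ix KL KR 0 q s r kL kR)
      | j + 2 => P.edB (P.ix KL KR 0 q s r kL kR) (P.ix KL KR 0 (Nat.mod j 2) w r (Nat.div j 2) kR) false
          (fun _ _ => 0) (fun _ _ => 0) && (Nat.blt (Nat.div j 2) KL || !P.isN (P.ix KL KR 0 q s r kL kR))

/-- the check of a packed certificate -/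
def PK.chk (P : PK) (t : List ℕ) (KL KR : ℕ) (rL rR : Option (List ℕ)) : Bool :=
  allB 2 fun q => allB 3 fun s => allB KL fun kL => allB KR fun kR =>
    match t.getD (3 * q + s) 0 with
    | 0 => allB (P.nl + 1) fun l => allB (P.nr + 1) fun r => !P.isN (P.ix KL KR l q s r kL kR)
    | e + 1 =>
      match Nat.mod (Nat.div e 2) 2 with
      | 0 => P.goL KL KR rL q s kL kR (Nat.mod (Nat.div e 4) 3) (Nat.mod e 2)
      | _ + 1 => P.goR KL KR rR q s kL kR (Nat.mod (Nat.div e 4) 3) (Nat.mod e 2)

/-! ## Soundness -/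

section

variable (P : PK) (E : Ends)

/-- number of a class -/
def PK.ixc (c : Cls E (P.nl + 1) (P.nr + 1)) : ℕ :=
  P.ix E.KL E.KR c.1 c.2.1 c.2.2.1 c.2.2.2.1 c.2.2.2.2.1 c.2.2.2.2.2

/-- a level -/
def PK.toL (L : PL) : Lvl E (P.nl + 1) (P.nr + 1) where
  ph := fun c => dgt L.b L.ph (P.ixc E c)
  V := fun c => dgt L.b L.V (P.ixc E c)
  wl := fun p l x => P.ul l x L p
  wr := fun p r x => P.ur r x L p

/-- the certificate -/
def PK.crt : Crt E where
  nl := P.nl + 1
  nr := P.nr + 1
  l0 := 0
  r0 := 0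
  dl := fun l x => ⟨P.tl l x, Nat.mod_lt _ (Nat.succ_pos _)⟩
  dr := fun r x => ⟨P.tr r x, Nat.mod_lt _ (Nat.succ_pos _)⟩
  N := fun c => P.isN (P.ixc E c)
  lv := P.lv.map (P.toL E)

theorem lvOK_sound {a b : Cls E (P.nl + 1) (P.nr + 1)} {ext : Bool} {wa ws : PL → ℕ → ℕ}
    {add sub : Lvl E (P.nl + 1) (P.nr + 1) → ℕ}
    (ha : ∀ L, add (P.toL E L) = wa L (dgt L.b L.ph (P.ixc E a)))
    (hs : ∀ L, sub (P.toL E L) = ws L (dgt L.b L.ph (P.ixc E a))) {Ls : List PL}
    (h : lvOK (P.ixc E a) (P.ixc E b) ext wa ws Ls = true) : edgeOK a b add sub ext (Ls.map (P.toL E)) := by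
  induction Ls with
  | nil =>
    unfold lvOK at h
    show ext = false
    simpa using h
  | cons L Ls ih =>
    unfold lvOK at h
    rw [Bool.and_eq_true, Bool.or_eq_true, Bool.and_eq_true] at h
    obtain ⟨h1, h2⟩ := h
    rw [List.map_cons]
    refine ⟨Nat.eq_of_beq_eq_true h1, ?_⟩
    rw [ha, hs]
    rcases h2 with h2 | ⟨h2, h3⟩
    · exact Or.inl (Eq.mp Nat.blt_eq h2)
    · exact Or.inr ⟨Nat.le_of_ble_eq_true h2, ih h3⟩

theorem edB_sound {a b : Cls E (P.nl + 1) (P.nr + 1)} {ext : Bool} {wa ws : PL → ℕ → ℕ}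
    {add sub : Lvl E (P.nl + 1) (P.nr + 1) → ℕ}
    (ha : ∀ L, add (P.toL E L) = wa L (dgt L.b L.ph (P.ixc E a)))
    (hs : ∀ L, sub (P.toL E L) = ws L (dgt L.b L.ph (P.ixc E a)))
    (h : P.edB (P.ixc E a) (P.ixc E b) ext wa ws = true) : (P.crt E).edge a b add sub ext := by
  unfold PK.edB at h
  constructor
  · intro hN
    have hN' : P.isN (P.ixc E a) = true := hN
    rw [hN'] at h
    exact h
  · intro hN
    have hN' : P.isN (P.ixc E a) = false := hN
    rw [hN', cond_false, Bool.or_eq_true] at h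
    rcases h with h | h
    · exact Or.inl h
    · exact Or.inr (lvOK_sound P E ha hs h)

end

/-- the answer `r` of a closed end is given by the list `re`; `none` = open end -/
def EndOK (K : ℕ) : Option (Fin K → Fin 2 → Rx K) → Option (List ℕ) → Prop
  | none, none => True
  | some r, some re => ∀ k q, r k q = dec K (re.getD (2 * (k : ℕ) + q) 0)
  | _, _ => False

theorem pk_some {t : List ℕ} {q q' : Fin 2} {s w : Fin 3} {d : Bool} (h : tbl t q s = some (w, d, q')) :
    ∃ e, t.getD (3 * (q : ℕ) + s) 0 = e + 1 ∧ (w : ℕ) = Nat.mod (Nat.div e 4) 3 ∧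
      d = Nat.beq (e / 2 % 2) 1 ∧ (q' : ℕ) = Nat.mod e 2 := by
  unfold tbl at h
  cases ht : t.getD (3 * (q : ℕ) + s) 0 with
  | zero => rw [ht] at h; cases h
  | succ e =>
    rw [ht] at h
    simp only [ent, Option.some.injEq, Prod.mk.injEq] at h
    obtain ⟨h1, h2, h3⟩ := h
    refine ⟨e, rfl, ?_, h2.symm, ?_⟩
    · rw [← h1]; rfl
    · rw [← h3]; rfl

theorem pk_none {t : List ℕ} {q : Fin 2} {s : Fin 3} (h : tbl t q s = none) :
    t.getD (3 * (q : ℕ) + s) 0 = 0 := by
  unfold tbl at h
  cases ht : t.getD (3 * (q : ℕ) + s) 0 with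
  | zero => rfl
  | succ e => rw [ht] at h; simp [ent] at h

section

variable {P : PK} {t : List ℕ} {E : Ends} {rL rR : Option (List ℕ)}

theorem PK.chk_at (h : P.chk t E.KL E.KR rL rR = true) (q : Fin 2) (s : Fin 3) (kL : Fin E.KL) (kR : Fin E.KR) :
    (match t.getD (3 * (q : ℕ) + s) 0 with
    | 0 => allB (P.nl + 1) fun l => allB (P.nr + 1) fun r => !P.isN (P.ix E.KL E.KR l q s r kL kR)
    | e + 1 =>
      match Nat.mod (Nat.div e 2) 2 with
      | 0 => P.goL E.KL E.KR rL q s kL kR (Nat.mod (Nat.div e 4) 3) (Nat.mod e 2)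
      | _ + 1 => P.goR E.KL E.KR rR q s kL kR (Nat.mod (Nat.div e 4) 3) (Nat.mod e 2)) = true := by
  unfold PK.chk at h
  exact allB_spec (allB_spec (allB_spec (allB_spec h q q.2) s s.2) kL kL.2) kR kR.2

theorem PK.at_none (h : P.chk t E.KL E.KR rL rR = true) {q : Fin 2} {s : Fin 3} (hT : tbl t q s = none)
    (l : Fin (P.nl + 1)) (r : Fin (P.nr + 1)) (kL : Fin E.KL) (kR : Fin E.KR) :
    P.isN (P.ix E.KL E.KR l q s r kL kR) = false := by
  have h1 := PK.chk_at h q s kL kR
  rw [pk_none hT] at h1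
  have h2 := allB_spec (allB_spec h1 l l.2) r r.2
  simpa using h2

theorem PK.at_right (h : P.chk t E.KL E.KR rL rR = true) {q q' : Fin 2} {s w : Fin 3}
    (hT : tbl t q s = some (w, true, q')) (kL : Fin E.KL) (kR : Fin E.KR) :
    P.goR E.KL E.KR rR q s kL kR w q' = true := by
  have h1 := PK.chk_at h q s kL kR
  obtain ⟨e, he, hw, hd, hq⟩ := pk_some hT
  rw [he] at h1
  have h2 : Nat.mod (Nat.div e 2) 2 = 0 + 1 := Nat.eq_of_beq_eq_true hd.symm
  simp only at h1
  rw [h2] at h1
  rw [hw, hq]
  exact h1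

theorem PK.at_left (h : P.chk t E.KL E.KR rL rR = true) {q q' : Fin 2} {s w : Fin 3}
    (hT : tbl t q s = some (w, false, q')) (kL : Fin E.KL) (kR : Fin E.KR) :
    P.goL E.KL E.KR rL q s kL kR w q' = true := by
  have h1 := PK.chk_at h q s kL kR
  obtain ⟨e, he, hw, hd, hq⟩ := pk_some hT
  rw [he] at h1
  have h2 : Nat.mod (Nat.div e 2) 2 = 0 := by
    have h3 : ¬ (e / 2 % 2 = 1) := fun h4 => by rw [h4] at hd; simp at hd
    show e / 2 % 2 = 0
    omega
  simp only at h1
  rw [h2] at h1
  rw [hw, hq]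
  exact h1

theorem not_true_eq {b : Bool} (h : (!b) = true) : b = false := by simpa using h

theorem dec_exit {K j : ℕ} {q'' : Fin 2} {k' : Fin K} (h : dec K (j + 2) = Rx.exit q'' k') :
    (q'' : ℕ) = Nat.mod j 2 ∧ (k' : ℕ) = Nat.div j 2 := by
  simp only [dec] at h
  split at h
  · simp only [Rx.exit.injEq] at h
    obtain ⟨h1, h2⟩ := h
    rw [← h1, ← h2]
    exact ⟨rfl, rfl⟩
  · cases h

theorem dec_halt {K j : ℕ} (h : dec K (j + 2) = Rx.halt) : ¬ Nat.div j 2 < K := by
  simp only [dec] at h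
  split at h
  · cases h
  · assumption

/-- the certificate is all right -/
theorem PK.ok (h : P.chk t E.KL E.KR rL rR = true) (hL : EndOK E.KL E.rL rL) (hR : EndOK E.KR E.rR rR) :
    (P.crt E).OK (tbl t) where
  halt := fun l q s r kL kR hT => PK.at_none h hT l r kL kR
  right := by
    intro l q s r x kL kR w q' hT
    have h1 := allB_spec (PK.at_right h hT kL kR) l l.2
    rw [Bool.and_eq_true] at h1
    have h2 := allB_spec (allB_spec h1.1 r r.2) x x.2
    refine edB_sound P E (wa := P.ul l w) (ws := P.ur r x) (fun L => rfl) (fun L => rfl) ?_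
    exact h2
  rightO := by
    intro l q s kL kR w q' hT hr
    have h1 := allB_spec (PK.at_right h hT kL kR) l l.2
    rw [Bool.and_eq_true] at h1
    have h2 := h1.2
    rw [hr] at hR
    cases rR with
    | some re => exact absurd hR (by simp [EndOK])
    | none =>
      refine edB_sound P E (wa := P.ul l w) (ws := fun _ _ => 0) (fun L => rfl) (fun L => rfl) ?_
      exact h2
  rightC := by
    intro l q s kL kR w q' r hT hr
    have h1 := allB_spec (PK.at_right h hT kL kR) l l.2
    rw [Bool.and_eq_true] at h1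
    have h2 := h1.2
    rw [hr] at hR
    cases rR with
    | none => exact absurd hR (by simp [EndOK])
    | some re =>
      have h3 : ∀ k q, r k q = dec E.KR (re.getD (2 * (k : ℕ) + q) 0) := hR
      simp only at h2
      rw [h3]
      rcases hre : re.getD (2 * (kR : ℕ) + q') 0 with _ | _ | j
      · refine ⟨fun q'' k' hx => ?_, fun hx => ?_⟩
        · simp [dec] at hx
        · simp [dec] at hx
      · rw [hre] at h2
        refine ⟨fun q'' k' hx => ?_, fun _ => ?_⟩
        · simp [dec] at hx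
        · exact not_true_eq h2
      · rw [hre] at h2
        rw [Bool.and_eq_true, Bool.or_eq_true] at h2
        refine ⟨fun q'' k' hx => ?_, fun hx => ?_⟩
        · obtain ⟨h4, h5⟩ := dec_exit hx
          have h6 : P.edB (P.ix E.KL E.KR l q s 0 kL kR) (P.ix E.KL E.KR l (Nat.mod j 2) w 0 kL (Nat.div j 2)) false
              (fun _ _ => 0) (fun _ _ => 0) = true := h2.1
          rw [← h4, ← h5] at h6
          exact edB_sound P E (wa := fun _ _ => 0) (ws := fun _ _ => 0) (fun L => rfl) (fun L => rfl) h6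
        · rcases h2.2 with h2 | h2
          · exact absurd (Eq.mp Nat.blt_eq h2) (dec_halt hx)
          · exact not_true_eq h2
  left := by
    intro l q s r x kL kR w q' hT
    have h1 := allB_spec (PK.at_left h hT kL kR) r r.2
    rw [Bool.and_eq_true] at h1
    have h2 := allB_spec (allB_spec h1.1 l l.2) x x.2
    refine edB_sound P E (wa := P.ur r w) (ws := P.ul l x) (fun L => rfl) (fun L => rfl) ?_
    exact h2
  leftO := by
    intro q s r kL kR w q' hT hr
    have h1 := allB_spec (PK.at_left h hT kL kR) r r.2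
    rw [Bool.and_eq_true] at h1
    have h2 := h1.2
    rw [hr] at hL
    cases rL with
    | some re => exact absurd hL (by simp [EndOK])
    | none =>
      refine edB_sound P E (wa := P.ur r w) (ws := fun _ _ => 0) (fun L => rfl) (fun L => rfl) ?_
      exact h2
  leftC := by
    intro q s r kL kR w q' rr hT hr
    have h1 := allB_spec (PK.at_left h hT kL kR) r r.2
    rw [Bool.and_eq_true] at h1
    have h2 := h1.2
    rw [hr] at hL
    cases rL with
    | none => exact absurd hL (by simp [EndOK])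
    | some re =>
      have h3 : ∀ k q, rr k q = dec E.KL (re.getD (2 * (k : ℕ) + q) 0) := hL
      simp only at h2
      rw [h3]
      rcases hre : re.getD (2 * (kL : ℕ) + q') 0 with _ | _ | j
      · refine ⟨fun q'' k' hx => ?_, fun hx => ?_⟩
        · simp [dec] at hx
        · simp [dec] at hx
      · rw [hre] at h2
        refine ⟨fun q'' k' hx => ?_, fun _ => ?_⟩
        · simp [dec] at hx
        · exact not_true_eq h2
      · rw [hre] at h2
        rw [Bool.and_eq_true, Bool.or_eq_true] at h2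
        refine ⟨fun q'' k' hx => ?_, fun hx => ?_⟩
        · obtain ⟨h4, h5⟩ := dec_exit hx
          have h6 : P.edB (P.ix E.KL E.KR 0 q s r kL kR) (P.ix E.KL E.KR 0 (Nat.mod j 2) w r (Nat.div j 2) kR) false
              (fun _ _ => 0) (fun _ _ => 0) = true := h2.1
          rw [← h4, ← h5] at h6
          exact edB_sound P E (wa := fun _ _ => 0) (ws := fun _ _ => 0) (fun L => rfl) (fun L => rfl) h6
        · rcases h2.2 with h2 | h2
          · exact absurd (Eq.mp Nat.blt_eq h2) (dec_halt hx)
          · exact not_true_eq h2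

end

/-! ## With box certificates -/

/-- mirror image of an entry -/
def mirE (x : ℕ) : ℕ :=
  match x with
  | 0 => 0
  | e + 1 =>
    match e / 2 % 2 with
    | 0 => e + 3
    | _ + 1 => e - 1

/-- mirror image of a table -/
def mirT (t : List ℕ) : List ℕ := t.map mirE

theorem ent_mirE (x : ℕ) : ent (mirE x) = (ent x).map fun a => (a.1, !a.2.1, a.2.2) := by
  cases x with
  | zero => rfl
  | succ e =>
    have h1 : e / 2 % 2 = 0 ∨ e / 2 % 2 = 1 := by omega
    rcases h1 with h1 | h1
    · have h2 : mirE (e + 1) = (e + 2) + 1 := by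
        show (match e / 2 % 2 with
          | 0 => e + 3
          | _ + 1 => e - 1) = _
        rw [h1]
      rw [h2]
      simp only [ent, Option.map_some]
      congr 1
      refine Prod.ext (Fin.ext ?_) (Prod.ext ?_ (Fin.ext ?_))
      · simp only [Fin.ofNat]; omega
      · simp only [h1, show (e + 2) / 2 % 2 = 1 by omega]; rfl
      · simp only [Fin.ofNat]; omega
    · have h2 : mirE (e + 1) = (e - 2) + 1 := by
        show (match e / 2 % 2 with
          | 0 => e + 3
          | _ + 1 => e - 1) = _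
        rw [h1]
        show e - 1 = e - 2 + 1
        omega
      rw [h2]
      simp only [ent, Option.map_some]
      congr 1
      refine Prod.ext (Fin.ext ?_) (Prod.ext ?_ (Fin.ext ?_))
      · simp only [Fin.ofNat]; omega
      · simp only [h1, show (e - 2) / 2 % 2 = 0 by omega]; rfl
      · simp only [Fin.ofNat]; omega

theorem tbl_mirT (t : List ℕ) : tbl (mirT t) = mir (tbl t) := by
  funext q s
  show ent ((List.map mirE t).getD (3 * (q : ℕ) + s) 0) = (ent (t.getD (3 * (q : ℕ) + s) 0)).map _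
  rw [show (List.map mirE t).getD (3 * (q : ℕ) + s) 0 = mirE (t.getD (3 * (q : ℕ) + s) 0) by
    simp only [List.getD_eq_getElem?_getD, List.getElem?_map]
    cases t[3 * (q : ℕ) + (s : ℕ)]? <;> rfl]
  exact ent_mirE _

/-- the check of an optional box certificate -/
def QC.chkO (t : List ℕ) : Option QC → Bool
  | none => true
  | some C => C.chk t

/-- number of states of an optional box -/
def QC.kO : Option QC → ℕ
  | none => 1
  | some C => C.K

/-- an optional box -/
def QC.boxO {t : List ℕ} : (o : Option QC) → QC.chkO t o = true → Option (BB (tbl t))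
  | none, _ => none
  | some C, h => some (C.box h)

theorem QC.kk_boxO {t : List ℕ} {T : Tb} (hT : tbl t = T) (o : Option QC) (h : QC.chkO t o = true) :
    BB.kk (hT ▸ QC.boxO o h : Option (BB T)) = QC.kO o := by
  subst hT
  cases o <;> rfl

theorem QC.endOK_boxO {t : List ℕ} {T : Tb} (hT : tbl t = T) (o : Option QC) (h : QC.chkO t o = true) :
    EndOK (BB.kk (hT ▸ QC.boxO o h : Option (BB T))) (BB.rx (hT ▸ QC.boxO o h : Option (BB T))) (o.map QC.re) := by
  subst hT
  cases o with
  | none => trivial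
  | some C => exact fun k q => rfl

/-- the theorem on packed certificates -/
theorem decT_of_pk {t : List ℕ} (oL oR : Option QC) (P : PK) (hL : QC.chkO (mirT t) oL = true)
    (hR : QC.chkO t oR = true)
    (h : P.chk t (QC.kO oL) (QC.kO oR) (oL.map QC.re) (oR.map QC.re) = true) : DecT (tbl t) := by
  have e1 := QC.kk_boxO (tbl_mirT t) oL hL
  have e2 := QC.kk_boxO (rfl : tbl t = tbl t) oR hR
  have e3 := QC.endOK_boxO (tbl_mirT t) oL hL
  have e4 := QC.endOK_boxO (rfl : tbl t = tbl t) oR hR
  refine decT_of_crt (tbl_mirT t ▸ QC.boxO oL hL) (QC.boxO oR hR) (P.crt _) (PK.ok (rL := oL.map QC.re)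
    (rR := oR.map QC.re) ?_ e3 e4)
  rw [← e1, ← e2] at h
  exact h

end P913T
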