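import Pool.Agent.Lib.P913T.Tree
import Pool.Agent.Lib.P913T.PBox

/-!
# Pools of boxes with certificates
-/

set_option autoImplicit false

namespace P913T

/-- comparison of two lists -/
def eqL : List ℕ → List ℕ → Bool
  | [], [] => true
  | a :: l, b :: m => cond (Nat.beq a b) (eqL l m) false
  | _, _ => false

theorem eqL_sound : ∀ {l m : List ℕ}, eqL l m = true → l = m
  | [], [], _ => rfl
  | a :: l, b :: m, h => by
    have h1 : cond (Nat.beq a b) (eqL l m) false = true := h
    cases h2 : Nat.beq a b with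
    | false => rw [h2] at h1; cases h1
    | true =>
      rw [h2, cond_true] at h1
      rw [Nat.eq_of_beq_eq_true h2, eqL_sound h1]
  | [], _ :: _, h => by cases h
  | _ :: _, [], h => by cases h

theorem xor_FF (C : ℕ) : Nat.xor FF (Nat.xor FF C) = C := by
  show FF ^^^ (FF ^^^ C) = C
  rw [← Nat.xor_assoc, Nat.xor_self, Nat.zero_xor]

/-- a pool from a list of complements of boxes with certificates -/
theorem pool_of {L : List (ℕ × BC)} {P : NB} (h : (L.all fun x => x.2.chk (Nat.xor FF x.1)) = true)
    (he : eqL P.toList (L.map Prod.fst) = true) : ∀ C ∈ P.toList, CGood C := by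
  intro C hC
  rw [eqL_sound he] at hC
  obtain ⟨x, hx, rfl⟩ := List.mem_map.1 hC
  exact BC.bgood (P := x.2) (List.all_eq_true.1 h x hx)

theorem NB.good_nd {k : ℕ} {l r : NB} (hl : ∀ C ∈ l.toList, CGood C) (hr : ∀ C ∈ r.toList, CGood C) :
    ∀ C ∈ (NB.nd k l r).toList, CGood C := by
  intro C hC
  rcases List.mem_append.1 hC with h | h
  · exact hl C h
  · exact hr C h

/-- a single box -/
theorem NB.good_lf {C M : ℕ} (h : BGood M) (he : Nat.xor FF C = M) : ∀ D ∈ (NB.lf C).toList, CGood D := by
  intro D hD
  rw [List.mem_singleton.1 hD]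
  show BGood (Nat.xor FF C)
  rw [he]
  exact h

end P913T
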