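import Pool.Agent.Lib.P913T.Dec

/-!
# The machine and the abstract machine
-/

set_option autoImplicit false

namespace P913T

theorem inp_mir {T : Tb} {q q' : Fin 2} {s w : Fin 3} (h : T q s = some (w, false, q')) : Inp (mir T) q' :=
  ⟨q, s, w, by unfold mir; rw [h]; rfl⟩

/-- number of states of an end (`none`: open end) -/
def BB.kk {T : Tb} : Option (BB T) → ℕ
  | none => 1
  | some b => b.K

def BB.rx {T : Tb} : (o : Option (BB T)) → Option (Fin (BB.kk o) → Fin 2 → Rx (BB.kk o))
  | none => none
  | some b => some b.react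

def BB.st {T : Tb} : (o : Option (BB T)) → Fin (BB.kk o)
  | none => (0 : Fin 1)
  | some b => b.k0

def BB.rp {T : Tb} : (o : Option (BB T)) → Fin (BB.kk o) → List (Fin 3) → Prop
  | none => fun _ h => h = []
  | some b => b.Rep

theorem BB.rp_st {T : Tb} (o : Option (BB T)) : BB.rp o (BB.st o) [] := by
  cases o with
  | none => rfl
  | some b => exact b.rep0

/-- the ends given by two black boxes -/
def ends {T : Tb} (bL : Option (BB (mir T))) (bR : Option (BB T)) : Ends := ⟨BB.kk bL, BB.kk bR, BB.rx bL, BB.rx bR⟩

section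

variable {T : Tb} (bL : Option (BB (mir T))) (bR : Option (BB T))

/-- the configuration `c` is described by the abstract configuration `a` -/
def Sim (a : Ac (ends bL bR)) (c : Cf) : Prop :=
  ∃ hL hR, BB.rp bL a.2.2.2.2.1 hL ∧ BB.rp bR a.2.2.2.2.2 hR ∧ c = ⟨a.1 ++ hL, a.2.1, a.2.2.1, a.2.2.2.1 ++ hR⟩

theorem hlt_of_stp {T : Tb} {c c' : Cf} (h : stp T c = some c') : Hlt T c ↔ Hlt T c' := by
  have h1 : ∀ n, itn T (n + 1) c = itn T n c' := by
    intro n
    show (stp T c).bind (itn T n) = itn T n c'
    rw [h]
    rfl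
  constructor
  · rintro ⟨n, hn⟩
    cases n with
    | zero => simp [itn] at hn
    | succ n => exact ⟨n, by rw [← h1]; exact hn⟩
  · rintro ⟨n, hn⟩
    exact ⟨n + 1, by rw [h1]; exact hn⟩

theorem itn_none_add {T : Tb} {c : Cf} {n k : ℕ} (h : itn T n c = none) : itn T (n + k) c = none := by
  rw [itn_add, h]; rfl

theorem hlt_of_itn {T : Tb} {c c' : Cf} {n : ℕ} (h : itn T n c = some c') : Hlt T c ↔ Hlt T c' := by
  constructor
  · rintro ⟨m, hm⟩
    refine ⟨m, ?_⟩
    have h1 : itn T (n + m) c = none := by rw [Nat.add_comm]; exact itn_none_add hm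
    rw [itn_add, h] at h1
    exact h1
  · rintro ⟨m, hm⟩
    exact ⟨n + m, by rw [itn_add, h]; exact hm⟩

theorem sim_step {a : Ac (ends bL bR)} {c : Cf} (h : Sim bL bR a c) :
    (∀ a', ast T (ends bL bR) a = Sum.inl a' → ∃ n c', itn T (n + 1) c = some c' ∧ Sim bL bR a' c') ∧
    (ast T (ends bL bR) a = Sum.inr true → Hlt T c) ∧ (ast T (ends bL bR) a = Sum.inr false → ¬ Hlt T c) := by
  obtain ⟨u, q, s, v, kL, kR⟩ := a
  obtain ⟨hL, hR, h1, h2, rfl⟩ := h
  simp only at h1 h2
  cases hT : T q s with
  | none =>
    rw [ast_none hT]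
    refine ⟨fun a' ha => (by cases ha), fun _ => ⟨1, ?_⟩, fun ha => (by cases ha)⟩
    rw [itn_one, stp_none_iff]
    exact hT
  | some b =>
    obtain ⟨w, d, q'⟩ := b
    cases d with
    | true =>
      have hstp : stp T ⟨u ++ hL, q, s, v ++ hR⟩ = some ⟨w :: (u ++ hL), q', (v ++ hR).headD 0, (v ++ hR).tail⟩ := by
        simp [stp, hT, Cf.right]
      cases v with
      | cons x v =>
        rw [ast_right hT]
        refine ⟨fun a' ha => ?_, fun ha => (by cases ha), fun ha => (by cases ha)⟩
        cases ha
        refine ⟨0, _, by rw [Nat.zero_add, itn_one]; exact hstp, hL, hR, h1, h2, ?_⟩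
        rfl
      | nil =>
        cases bR with
        | none =>
          rw [ast_right_open hT rfl]
          refine ⟨fun a' ha => ?_, fun ha => (by cases ha), fun ha => (by cases ha)⟩
          cases ha
          have h3 : hR = [] := h2
          subst h3
          refine ⟨0, _, by rw [Nat.zero_add, itn_one]; exact hstp, hL, [], h1, rfl, ?_⟩
          rfl
        | some b =>
          rw [ast_right_closed (r := b.react) hT rfl]
          have hstp' : stp T ⟨u ++ hL, q, s, [] ++ hR⟩ = some ⟨w :: (u ++ hL), q', hR.headD 0, hR.tail⟩ := hstp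
          cases hx : b.react kR q' with
          | exit q'' k' =>
            refine ⟨fun a' ha => ?_, fun ha => (by cases ha), fun ha => (by cases ha)⟩
            cases ha
            obtain ⟨v', hv', hr⟩ := b.exit_run h2 ⟨q, s, w, hT⟩ hx
            obtain ⟨n, -, hn⟩ := hr w (u ++ hL)
            refine ⟨n, ⟨u ++ hL, q'', w, v'⟩, ?_, hL, v', h1, hv', rfl⟩
            rw [Nat.add_comm, itn_add, itn_one, hstp']
            exact hn
          | halt =>
            refine ⟨fun a' ha => (by cases ha), fun _ => ?_, fun ha => (by cases ha)⟩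
            rw [hlt_of_stp hstp']
            exact b.halt_run h2 ⟨q, s, w, hT⟩ hx w (u ++ hL)
          | never =>
            refine ⟨fun a' ha => (by cases ha), fun ha => (by cases ha), fun _ => ?_⟩
            rw [hlt_of_stp hstp']
            exact b.never_run h2 ⟨q, s, w, hT⟩ hx w (u ++ hL)
    | false =>
      have hstp : stp T ⟨u ++ hL, q, s, v ++ hR⟩ = some ⟨(u ++ hL).tail, q', (u ++ hL).headD 0, w :: (v ++ hR)⟩ := by
        simp [stp, hT, Cf.left]
      cases u with
      | cons x u =>
        rw [ast_left hT]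
        refine ⟨fun a' ha => ?_, fun ha => (by cases ha), fun ha => (by cases ha)⟩
        cases ha
        refine ⟨0, _, by rw [Nat.zero_add, itn_one]; exact hstp, hL, hR, h1, h2, ?_⟩
        rfl
      | nil =>
        cases bL with
        | none =>
          rw [ast_left_open hT rfl]
          refine ⟨fun a' ha => ?_, fun ha => (by cases ha), fun ha => (by cases ha)⟩
          cases ha
          have h3 : hL = [] := h1
          subst h3
          refine ⟨0, _, by rw [Nat.zero_add, itn_one]; exact hstp, [], hR, rfl, h2, ?_⟩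
          rfl
        | some b =>
          rw [ast_left_closed (r := b.react) hT rfl]
          have hstp' : stp T ⟨[] ++ hL, q, s, v ++ hR⟩ = some ⟨hL.tail, q', hL.headD 0, w :: (v ++ hR)⟩ := hstp
          cases hx : b.react kL q' with
          | exit q'' k' =>
            refine ⟨fun a' ha => ?_, fun ha => (by cases ha), fun ha => (by cases ha)⟩
            cases ha
            obtain ⟨v', hv', hr⟩ := b.exit_run h1 (inp_mir hT) hx
            obtain ⟨n, -, hn⟩ := hr w (v ++ hR)
            refine ⟨n, ⟨v', q'', w, v ++ hR⟩, ?_, v', hR, hv', h2, rfl⟩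
            rw [Nat.add_comm, itn_add, itn_one, hstp']
            have h4 := itn_conj (stp_mir T) n ⟨hL.tail, q', hL.headD 0, w :: (v ++ hR)⟩
            rw [show Cf.mir ⟨hL.tail, q', hL.headD 0, w :: (v ++ hR)⟩ =
              ⟨w :: (v ++ hR), q', hL.headD 0, hL.tail⟩ from rfl, hn] at h4
            cases h5 : itn T n ⟨hL.tail, q', hL.headD 0, w :: (v ++ hR)⟩ with
            | none => rw [h5] at h4; cases h4
            | some c' =>
              rw [h5] at h4
              obtain ⟨cu, cq, cs, cv⟩ := c'
              simp only [Option.map_some, Option.some.injEq, Cf.mir, Cf.mk.injEq] at h4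
              obtain ⟨h6, h7, h8, h9⟩ := h4
              subst h6 h7 h8 h9
              show itn T n ⟨hL.tail, q', hL.headD 0, w :: (v ++ hR)⟩ = _
              rw [h5]
          | halt =>
            refine ⟨fun a' ha => (by cases ha), fun _ => ?_, fun ha => (by cases ha)⟩
            rw [hlt_of_stp hstp']
            exact (hlt_conj (stp_mir T) _).1 (b.halt_run h1 (inp_mir hT) hx w (v ++ hR))
          | never =>
            refine ⟨fun a' ha => (by cases ha), fun ha => (by cases ha), fun _ => ?_⟩
            rw [hlt_of_stp hstp']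
            exact fun h => b.never_run h1 (inp_mir hT) hx w (v ++ hR) ((hlt_conj (stp_mir T) _).2 h)

theorem sim_halt {a : Ac (ends bL bR)} {c : Cf} (h : Sim bL bR a c) :
    (∃ n, ait T (ends bL bR) a n = Sum.inr true) ↔ Hlt T c := by
  constructor
  · rintro ⟨n, hn⟩
    induction n generalizing a c with
    | zero => cases hn
    | succ n ih =>
      obtain ⟨h1, h2, -⟩ := sim_step bL bR h
      rw [ait_succ_left] at hn
      cases ha : ast T (ends bL bR) a with
      | inl a' =>
        rw [ha] at hn
        obtain ⟨m, c', hm, hs⟩ := h1 a' ha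
        exact (hlt_of_itn hm).2 (ih hs hn)
      | inr b =>
        rw [ha] at hn
        cases hn
        exact h2 ha
  · rintro ⟨N, hN⟩
    induction N using Nat.strong_induction_on generalizing a c with
    | _ N ih =>
      obtain ⟨h1, h2, h3⟩ := sim_step bL bR h
      cases ha : ast T (ends bL bR) a with
      | inl a' =>
        obtain ⟨m, c', hm, hs⟩ := h1 a' ha
        have hlt : m + 1 ≤ N := by
          by_contra hcon
          obtain ⟨k, hk⟩ := Nat.exists_eq_add_of_le (show N ≤ m + 1 by omega)
          rw [hk, itn_none_add hN] at hm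
          cases hm
        obtain ⟨k, rfl⟩ := Nat.exists_eq_add_of_le hlt
        rw [itn_add, hm] at hN
        obtain ⟨n, hn⟩ := ih k (by omega) hs hN
        refine ⟨n + 1, ?_⟩
        rw [ait_succ_left, ha]
        exact hn
      | inr b =>
        cases b with
        | true =>
          refine ⟨1, ?_⟩
          rw [ait_succ_left, ha]
        | false => exact absurd ⟨N, hN⟩ (h3 ha)

/-- the start: no black box has been used -/
def start (c : Cd) : Ac (ends bL bR) := (c.1, c.2.1, c.2.2.1, c.2.2.2, BB.st bL, BB.st bR)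

theorem sim_start (c : Cd) : Sim bL bR (start bL bR c) (Cf.of c) :=
  ⟨[], [], BB.rp_st bL, BB.rp_st bR, by simp [start, Cf.of]⟩

theorem decT_of {α : Type*} [Preorder α] [WellFoundedLT α] {N : Ac (ends bL bR) → Bool} (hNc : Primrec N)
    (hN : NClosed T (ends bL bR) N) {rk : Ac (ends bL bR) → α} (hr : RankOK T (ends bL bR) N rk) : DecT T := by
  obtain ⟨hd, hc⟩ := comp_halt hNc hN hr
  have h1 : Primrec (start bL bR) :=
    Primrec.pair Primrec.fst (Primrec.pair (Primrec.fst.comp Primrec.snd)
      (Primrec.pair (Primrec.fst.comp (Primrec.snd.comp Primrec.snd))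
        (Primrec.pair (Primrec.snd.comp (Primrec.snd.comp Primrec.snd))
          (Primrec.pair (Primrec.const _) (Primrec.const _)))))
  refine ⟨fun c => decidable_of_iff _ (sim_halt bL bR (sim_start bL bR c)), ?_⟩
  exact (hc.comp h1.to_comp).of_eq fun c => decide_eq_decide.2 (sim_halt bL bR (sim_start bL bR c))

end

end P913T
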