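import Pool.Agent.Lib.P913T.PAll
import Pool.Agent.Lib.P913T.AllT

/-!
# The tree number 0
-/

set_option autoImplicit false
set_option maxRecDepth 100000

namespace P913T

open Tr in
/-- the tree -/
def tt0 : Tr :=
  (bx 454 0)

theorem tt0_good : BGood 0x1fff1fff00011fff1fff0001 :=
  Tr.good pool_good allT_dec tt0 0x1fff1fff00011fff1fff0001 (by decide +kernel)

end P913T
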