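import Pool.Agent.Lib.P913T.Bx
import Pool.Agent.Lib.P913T.Canon

/-!
# Trees of boxes

A binary tree splits a box of tables; a leaf is contained in the image of a known box under a symmetry, or it is a
single table, which belongs to a known list up to a symmetry. The number `g` of a symmetry is
`mirror + 2 * exchange of the states + 4 * exchange of the letters 1, 2`.
-/

set_option autoImplicit false

namespace P913T

/-! ## Symmetries on boxes -/

/-- mirror image of a box -/
def mirB (M : ℕ) : ℕ :=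
  Nat.lor (Nat.land M 0x100010001000100010001) (Nat.lor
    (Nat.shiftLeft (Nat.land M 0x66606660666066606660666) 2)
    (Nat.land (Nat.shiftRight M 2) 0x66606660666066606660666))

/-- exchange of the states in a box -/
def sswB (M : ℕ) : ℕ :=
  Nat.lor (Nat.lor
    (Nat.shiftRight (Nat.land M 0x100010001000100010001) 48)
    (Nat.shiftLeft (Nat.land M 0x100010001) 48)) (Nat.lor (Nat.lor
      (Nat.shiftRight (Nat.land M 0xaaa0aaa0aaa000000000000) 47)
      (Nat.land (Nat.shiftRight M 49) 0xaaa0aaa0aaa)) (Nat.lor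
      (Nat.shiftLeft (Nat.land M 0xaaa0aaa0aaa) 49)
      (Nat.shiftLeft (Nat.land (Nat.shiftRight M 1) 0xaaa0aaa0aaa) 48)))

/-- exchange of the letters in the entries of a box, the entries stay at their places -/
def lswE (M : ℕ) : ℕ :=
  Nat.lor (Nat.land M 0x1f001f001f001f001f001f) (Nat.lor
    (Nat.shiftLeft (Nat.land M 0x1e001e001e001e001e001e0) 4)
    (Nat.land (Nat.shiftRight M 4) 0x1e001e001e001e001e001e0))

/-- exchange of the entries of the letters `1` and `2` -/
def lswP (M : ℕ) : ℕ :=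
  Nat.lor (Nat.land M 0x1fff000000001fff) (Nat.lor
    (Nat.shiftLeft (Nat.land M 0x1fff000000001fff0000) 16)
    (Nat.land (Nat.shiftRight M 16) 0x1fff000000001fff0000))

/-- exchange of the letters in a box -/
def lswB (M : ℕ) : ℕ := lswP (lswE M)

/-- entry at a place -/
theorem inB_iff {M : ℕ} {T : Tb} : InB M T ↔
    (Nat.testBit M (cde (T 0 0)) = true ∧ Nat.testBit M (16 + cde (T 0 1)) = true ∧
      Nat.testBit M (32 + cde (T 0 2)) = true) ∧
    (Nat.testBit M (48 + cde (T 1 0)) = true ∧ Nat.testBit M (64 + cde (T 1 1)) = true ∧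
      Nat.testBit M (80 + cde (T 1 2)) = true) := by
  unfold InB
  rw [Fin.forall_fin_two]
  simp only [Fin.forall_fin_succ, IsEmpty.forall_iff, and_true]
  have e : ∀ (q : ℕ) (s c : ℕ), 16 * (3 * q + s) + c = 48 * q + 16 * s + c := by intros; ring
  simp only [e]
  constructor
  · rintro ⟨⟨h1, h2, h3⟩, h4, h5, h6⟩
    exact ⟨⟨by simpa using h1, by simpa using h2, by simpa using h3⟩, by simpa using h4, by simpa using h5,
      by simpa using h6⟩
  · rintro ⟨⟨h1, h2, h3⟩, h4, h5, h6⟩
    exact ⟨⟨by simpa using h1, by simpa using h2, by simpa using h3⟩, by simpa using h4, by simpa using h5,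
      by simpa using h6⟩

theorem mirB_eq (M : ℕ) : mirB M = (M &&& 0x100010001000100010001) ||| (((M &&& 0x66606660666066606660666) <<< 2) |||
    ((M >>> 2) &&& 0x66606660666066606660666)) := rfl

theorem inB_mirB {M : ℕ} {T : Tb} (h : InB M T) : InB (mirB M) (mir T) := by
  rw [inB_iff] at h ⊢
  have key : ∀ i < 6, ∀ x : Option (Fin 3 × Bool × Fin 2), Nat.testBit M (16 * i + cde x) = true →
      Nat.testBit (mirB M) (16 * i + cde (x.map fun a => (a.1, !a.2.1, a.2.2))) = true := by
    intro i hi x hx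
    rw [mirB_eq]
    simp only [Nat.testBit_or, Nat.testBit_and, Nat.testBit_shiftLeft, Nat.testBit_shiftRight]
    rcases x with _ | ⟨w, d, q⟩
    · interval_cases i <;> simpa [cde, Nat.testBit_eq_decide_div_mod_eq] using hx
    · interval_cases i <;> fin_cases w <;> cases d <;> fin_cases q <;>
        simpa [cde, Nat.testBit_eq_decide_div_mod_eq] using hx
  obtain ⟨⟨h1, h2, h3⟩, h4, h5, h6⟩ := h
  have g1 := key 0 (by norm_num) (T 0 0) (by simpa using h1)
  rw [Nat.mul_zero, Nat.zero_add] at g1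
  exact ⟨⟨g1, key 1 (by norm_num) _ h2, key 2 (by norm_num) _ h3⟩, key 3 (by norm_num) _ h4,
    key 4 (by norm_num) _ h5, key 5 (by norm_num) _ h6⟩

theorem sswB_eq (M : ℕ) : sswB M = ((((M &&& 0x100010001000100010001) >>> 48) |||
    ((M &&& 0x100010001) <<< 48)) ||| ((((M &&& 0xaaa0aaa0aaa000000000000) >>> 47) |||
      ((M >>> 49) &&& 0xaaa0aaa0aaa)) ||| (((M &&& 0xaaa0aaa0aaa) <<< 49) |||
      (((M >>> 1) &&& 0xaaa0aaa0aaa) <<< 48)))) := rfl

theorem inB_sswB {M : ℕ} {T : Tb} (h : InB M T) : InB (sswB M) (ssw T) := by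
  rw [inB_iff] at h ⊢
  have key : ∀ i < 3, ∀ x : Option (Fin 3 × Bool × Fin 2), Nat.testBit M (16 * i + cde x) = true →
      Nat.testBit (sswB M) (48 + 16 * i + cde (x.map fun a => (a.1, a.2.1, sq a.2.2))) = true := by
    intro i hi x hx
    rw [sswB_eq]
    simp only [Nat.testBit_or, Nat.testBit_and, Nat.testBit_shiftLeft, Nat.testBit_shiftRight]
    rcases x with _ | ⟨w, d, q⟩
    · interval_cases i <;> simpa [cde, Nat.testBit_eq_decide_div_mod_eq] using hx
    · interval_cases i <;> fin_cases w <;> cases d <;> fin_cases q <;>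
        simpa [cde, sq, Nat.testBit_eq_decide_div_mod_eq] using hx
  have key2 : ∀ i < 3, ∀ x : Option (Fin 3 × Bool × Fin 2), Nat.testBit M (48 + 16 * i + cde x) = true →
      Nat.testBit (sswB M) (16 * i + cde (x.map fun a => (a.1, a.2.1, sq a.2.2))) = true := by
    intro i hi x hx
    rw [sswB_eq]
    simp only [Nat.testBit_or, Nat.testBit_and, Nat.testBit_shiftLeft, Nat.testBit_shiftRight]
    rcases x with _ | ⟨w, d, q⟩
    · interval_cases i <;> simpa [cde, Nat.testBit_eq_decide_div_mod_eq] using hx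
    · interval_cases i <;> fin_cases w <;> cases d <;> fin_cases q <;>
        simpa [cde, sq, Nat.testBit_eq_decide_div_mod_eq] using hx
  obtain ⟨⟨h1, h2, h3⟩, h4, h5, h6⟩ := h
  have g1 := key 0 (by norm_num) (T 0 0) (by simpa using h1)
  have g4 := key2 0 (by norm_num) (T 1 0) (by simpa using h4)
  rw [Nat.mul_zero, Nat.add_zero] at g1
  rw [Nat.mul_zero, Nat.zero_add] at g4
  exact ⟨⟨g4, key2 1 (by norm_num) _ h5, key2 2 (by norm_num) _ h6⟩, g1, key 1 (by norm_num) _ h2,
    key 2 (by norm_num) _ h3⟩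

theorem lswE_eq (M : ℕ) : lswE M = (M &&& 0x1f001f001f001f001f001f) |||
    (((M &&& 0x1e001e001e001e001e001e0) <<< 4) ||| ((M >>> 4) &&& 0x1e001e001e001e001e001e0)) := rfl

theorem lswP_eq (M : ℕ) : lswP M = (M &&& 0x1fff000000001fff) |||
    (((M &&& 0x1fff000000001fff0000) <<< 16) ||| ((M >>> 16) &&& 0x1fff000000001fff0000)) := rfl

theorem inB_lswB {M : ℕ} {T : Tb} (h : InB M T) : InB (lswB M) (lsw T) := by
  rw [inB_iff] at h ⊢
  have key : ∀ i < 6, ∀ x : Option (Fin 3 × Bool × Fin 2), Nat.testBit M (16 * i + cde x) = true →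
      Nat.testBit (lswE M) (16 * i + cde (x.map fun a => (sl a.1, a.2.1, a.2.2))) = true := by
    intro i hi x hx
    rw [lswE_eq]
    simp only [Nat.testBit_or, Nat.testBit_and, Nat.testBit_shiftLeft, Nat.testBit_shiftRight]
    rcases x with _ | ⟨w, d, q⟩
    · interval_cases i <;> simpa [cde, Nat.testBit_eq_decide_div_mod_eq] using hx
    · have n2 : ((-2 : Fin 3) : ℕ) = 1 := rfl
      have n1 : ((-1 : Fin 3) : ℕ) = 2 := rfl
      interval_cases i <;> fin_cases w <;> cases d <;> fin_cases q <;>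
        simpa [cde, sl, n1, n2, Nat.testBit_eq_decide_div_mod_eq] using hx
  have k2 : ∀ (M : ℕ) (c : ℕ), c < 13 →
      ((Nat.testBit M c = true → Nat.testBit (lswP M) c = true) ∧
      (Nat.testBit M (16 + c) = true → Nat.testBit (lswP M) (32 + c) = true) ∧
      (Nat.testBit M (32 + c) = true → Nat.testBit (lswP M) (16 + c) = true)) ∧
      ((Nat.testBit M (48 + c) = true → Nat.testBit (lswP M) (48 + c) = true) ∧
      (Nat.testBit M (64 + c) = true → Nat.testBit (lswP M) (80 + c) = true) ∧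
      (Nat.testBit M (80 + c) = true → Nat.testBit (lswP M) (64 + c) = true)) := by
    intro M c hc
    rw [lswP_eq]
    simp only [Nat.testBit_or, Nat.testBit_and, Nat.testBit_shiftLeft, Nat.testBit_shiftRight]
    interval_cases c <;> refine ⟨⟨?_, ?_, ?_⟩, ?_, ?_, ?_⟩ <;> intro hx <;>
      simpa [Nat.testBit_eq_decide_div_mod_eq] using hx
  obtain ⟨⟨h1, h2, h3⟩, h4, h5, h6⟩ := h
  have g1 := key 0 (by norm_num) (T 0 0) (by simpa using h1)
  rw [Nat.mul_zero, Nat.zero_add] at g1
  refine ⟨⟨(k2 _ _ (cde_lt _)).1.1 g1, (k2 _ _ (cde_lt _)).1.2.2 (key 2 (by norm_num) _ h3),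
    (k2 _ _ (cde_lt _)).1.2.1 (key 1 (by norm_num) _ h2)⟩, (k2 _ _ (cde_lt _)).2.1 (key 3 (by norm_num) _ h4),
    (k2 _ _ (cde_lt _)).2.2.2 (key 5 (by norm_num) _ h6), (k2 _ _ (cde_lt _)).2.2.1 (key 4 (by norm_num) _ h5)⟩

/-- the image of a box under the symmetry number `g` -/
def gI (g M : ℕ) : ℕ :=
  cond (Nat.beq (Nat.land g 1) 0)
    (cond (Nat.beq (Nat.land g 2) 0) (cond (Nat.beq (Nat.land g 4) 0) M (lswB M))
      (sswB (cond (Nat.beq (Nat.land g 4) 0) M (lswB M))))
    (mirB (cond (Nat.beq (Nat.land g 2) 0) (cond (Nat.beq (Nat.land g 4) 0) M (lswB M))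
      (sswB (cond (Nat.beq (Nat.land g 4) 0) M (lswB M)))))

theorem exists_gI (g M : ℕ) {T : Tb} (h : InB M T) : ∃ T' : Tb, InB (gI g M) T' ∧ (DecT T' → DecT T) := by
  have e4 : ∃ T' : Tb, InB (cond (Nat.beq (Nat.land g 4) 0) M (lswB M)) T' ∧ (DecT T' → DecT T) := by
    cases Nat.beq (Nat.land g 4) 0
    · exact ⟨lsw T, inB_lswB h, DecT.lsw⟩
    · exact ⟨T, h, id⟩
  obtain ⟨T4, h4, d4⟩ := e4
  have e2 : ∃ T' : Tb, InB (cond (Nat.beq (Nat.land g 2) 0) (cond (Nat.beq (Nat.land g 4) 0) M (lswB M))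
      (sswB (cond (Nat.beq (Nat.land g 4) 0) M (lswB M)))) T' ∧ (DecT T' → DecT T) := by
    cases Nat.beq (Nat.land g 2) 0
    · exact ⟨ssw T4, inB_sswB h4, fun h => d4 h.ssw⟩
    · exact ⟨T4, h4, d4⟩
  obtain ⟨T2, h2, d2⟩ := e2
  unfold gI
  cases Nat.beq (Nat.land g 1) 0
  · exact ⟨mir T2, inB_mirB h2, fun h => d2 h.mir⟩
  · exact ⟨T2, h2, d2⟩

/-! ## Splitting a box -/

/-- all bits of a box -/
def FF : ℕ := 0xffffffffffffffffffffffff

/-- the tables of the box with code in the set `m` at the entry `k` -/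
def keepB (k m M : ℕ) : ℕ :=
  Nat.land M (Nat.xor FF (Nat.shiftLeft (Nat.xor 8191 (Nat.land m 8191)) (Nat.mul 16 k)))

/-- the tables of the box with code not in the set `m` at the entry `k` -/
def dropB (k m M : ℕ) : ℕ := Nat.land M (Nat.xor FF (Nat.shiftLeft (Nat.land m 8191) (Nat.mul 16 k)))

theorem testBit_FF {j : ℕ} (hj : j < 96) : Nat.testBit FF j = true := by
  have h : FF = 2 ^ 96 - 1 := by norm_num [FF]
  rw [h, Nat.testBit_two_pow_sub_one]
  simpa using hj

/-- the bits of a set of codes at an entry -/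
theorem testBit_fld {k m i c : ℕ} (hc : c < 13) :
    Nat.testBit ((m &&& 8191) <<< (16 * k)) (16 * i + c) = (decide (i = k) && Nat.testBit m c) := by
  rw [Nat.testBit_shiftLeft, Nat.testBit_and]
  have h8 : (8191 : ℕ) = 2 ^ 13 - 1 := by norm_num
  rw [h8, Nat.testBit_two_pow_sub_one]
  rcases Nat.lt_trichotomy i k with h | rfl | h
  · have h1 : ¬ (16 * i + c ≥ 16 * k) := by omega
    have h2 : ¬ (i = k) := by omega
    simp [h1, h2]
  · have h1 : 16 * i + c - 16 * i = c := by omega
    rw [h1]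
    simp [hc]
  · have h1 : ¬ (16 * i + c - 16 * k < 13) := by omega
    have h2 : ¬ (i = k) := by omega
    simp [h1, h2]

theorem split_inB {k m M : ℕ} {T : Tb} (h : InB M T) : InB (keepB k m M) T ∨ InB (dropB k m M) T := by
  have hxor : Nat.land m 8191 ^^^ 8191 = (m ^^^ 8191) &&& 8191 := by
    show (m &&& 8191) ^^^ 8191 = (m ^^^ 8191) &&& 8191
    apply Nat.eq_of_testBit_eq
    intro j
    simp only [Nat.testBit_xor, Nat.testBit_and]
    cases Nat.testBit m j <;> cases Nat.testBit 8191 j <;> rfl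
  by_cases hk : ∃ (q : Fin 2) (s : Fin 3), 3 * (q : ℕ) + s = k ∧ Nat.testBit m (cde (T q s)) = true
  · left
    obtain ⟨q0, s0, hk, hm⟩ := hk
    intro q s
    have h1 := h q s
    have hc := cde_lt (T q s)
    show Nat.testBit (M &&& (FF ^^^ ((8191 ^^^ (Nat.land m 8191)) <<< (16 * k)))) _ = true
    rw [Nat.xor_comm 8191, hxor, Nat.testBit_and, Nat.testBit_xor, h1, testBit_FF (by omega), testBit_fld hc]
    by_cases hi : 3 * (q : ℕ) + s = k
    · have hq : q = q0 := by omega
      have hs : s = s0 := by omega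
      subst hq hs
      have h8 : Nat.testBit 8191 (cde (T q s)) = true := by
        rw [show (8191 : ℕ) = 2 ^ 13 - 1 by norm_num, Nat.testBit_two_pow_sub_one]
        simpa using hc
      rw [Nat.testBit_xor, hm, h8]
      simp
    · simp [hi]
  · right
    intro q s
    have h1 := h q s
    have hc := cde_lt (T q s)
    show Nat.testBit (M &&& (FF ^^^ ((m &&& 8191) <<< (16 * k)))) _ = true
    rw [Nat.testBit_and, Nat.testBit_xor, h1, testBit_FF (by omega), testBit_fld hc]
    by_cases hi : 3 * (q : ℕ) + s = k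
    · have hm : Nat.testBit m (cde (T q s)) = false := by
        by_contra hne
        exact hk ⟨q, s, hi, by simpa using hne⟩
      simp [hm]
    · simp [hi]

/-! ## Boxes with one table -/

/-- the box of one table -/
def bxOf (n : ℕ) : ℕ :=
  Nat.lor (Nat.shiftLeft 1 (dj n 0)) (Nat.lor (Nat.shiftLeft 1 (Nat.add 16 (dj n 1))) (Nat.lor
    (Nat.shiftLeft 1 (Nat.add 32 (dj n 2))) (Nat.lor (Nat.shiftLeft 1 (Nat.add 48 (dj n 3))) (Nat.lor
      (Nat.shiftLeft 1 (Nat.add 64 (dj n 4))) (Nat.shiftLeft 1 (Nat.add 80 (dj n 5)))))))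

theorem testBit_one_shiftLeft {a j : ℕ} : Nat.testBit (Nat.shiftLeft 1 a) j = decide (a = j) := by
  show Nat.testBit (1 <<< a) j = _
  rw [Nat.one_shiftLeft, Nat.testBit_two_pow]

theorem bxOf_spec {n k c : ℕ} (hk : k < 6) (hc : c < 13) (h : Nat.testBit (bxOf n) (16 * k + c) = true) :
    dj n k = c := by
  have h0 := dj_lt n 0
  have h1 := dj_lt n 1
  have h2 := dj_lt n 2
  have h3 := dj_lt n 3
  have h4 := dj_lt n 4
  have h5 := dj_lt n 5
  have e : bxOf n = Nat.shiftLeft 1 (dj n 0) ||| (Nat.shiftLeft 1 (16 + dj n 1) ||| (Nat.shiftLeft 1 (32 + dj n 2) |||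
      (Nat.shiftLeft 1 (48 + dj n 3) ||| (Nat.shiftLeft 1 (64 + dj n 4) ||| Nat.shiftLeft 1 (80 + dj n 5))))) := rfl
  rw [e] at h
  simp only [Nat.testBit_or, testBit_one_shiftLeft, Bool.or_eq_true, decide_eq_true_eq] at h
  interval_cases k
  all_goals omega

theorem tbl_of_inB {n : ℕ} {T : Tb} (h : InB (bxOf n) T) : T = tbl (dg n) := by
  funext q s
  have hk : 3 * (q : ℕ) + s < 6 := by omega
  have h1 := bxOf_spec hk (cde_lt _) (h q s)
  show T q s = ent ((dg n).getD (3 * (q : ℕ) + s) 0)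
  rw [dg_getD n _ hk, h1, ent_cde]

/-! ## Trees -/

/-- pools of boxes: search trees, the leaves are the complements of the boxes -/
inductive NB : Type
  | lf (C : ℕ) : NB
  | nd (k : ℕ) (l r : NB) : NB

/-- the complement of the box number `i` -/
noncomputable def NB.get (P : NB) (i : ℕ) : ℕ :=
  NB.rec (fun C => C) (fun k _ _ a b => cond (Nat.blt i k) a b) P

/-- all complements of a pool -/
def NB.toList : NB → List ℕ
  | .lf C => [C]
  | .nd _ l r => l.toList ++ r.toList

theorem NB.get_mem (i : ℕ) : ∀ P : NB, P.get i ∈ P.toList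
  | .lf C => List.mem_singleton.2 rfl
  | .nd k l r => by
    have h1 : (NB.nd k l r).get i = cond (Nat.blt i k) (l.get i) (r.get i) := rfl
    rw [h1]
    cases Nat.blt i k
    · exact List.mem_append_right _ (NB.get_mem i r)
    · exact List.mem_append_left _ (NB.get_mem i l)

/-- trees of boxes -/
inductive Tr : Type
  | bx (i g : ℕ) : Tr
  | sg (n g : ℕ) : Tr
  | nd (k m : ℕ) (a b : Tr) : Tr

/-- the check of a tree for the box `M` -/
noncomputable def Tr.chk (P : NB) (S : NT) (t : Tr) : ℕ → Bool :=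
  Tr.rec (motive := fun _ => ℕ → Bool)
    (fun i g M => Nat.beq (Nat.land (gI g M) (P.get i)) 0)
    (fun n g M => cond (Nat.beq (Nat.land M (Nat.xor FF (bxOf n))) 0) (inS S n g) false)
    (fun k m _ _ a b M => cond (a (keepB k m M)) (b (dropB k m M)) false) t

/-- a complement of a good box -/
def CGood (C : ℕ) : Prop := BGood (Nat.xor FF C)

theorem inB_compl {X C : ℕ} {T : Tb} (h : InB X T) (hC : Nat.beq (Nat.land X C) 0 = true) :
    InB (Nat.xor FF C) T := by
  intro q s
  have h1 := h q s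
  have hc := cde_lt (T q s)
  have h2 : X &&& C = 0 := Nat.eq_of_beq_eq_true hC
  show Nat.testBit (FF ^^^ C) _ = true
  rw [Nat.testBit_xor, testBit_FF (by omega)]
  have h3 : Nat.testBit (X &&& C) (16 * (3 * (q : ℕ) + s) + cde (T q s)) = false := by
    rw [h2]; exact Nat.zero_testBit _
  rw [Nat.testBit_and, h1, Bool.true_and] at h3
  rw [h3]
  rfl

/-- the theorem on trees -/
theorem Tr.good {P : NB} {S : NT} (hP : ∀ C ∈ P.toList, CGood C) (hS : ∀ n ∈ S.toList, DecT (tbl (dg n))) :
    ∀ (t : Tr) (M : ℕ), t.chk P S M = true → BGood M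
  | .bx i g, M, h => by
    intro T hT
    have h1 : Nat.beq (Nat.land (gI g M) (P.get i)) 0 = true := h
    obtain ⟨T', h2, h3⟩ := exists_gI g M hT
    exact h3 (hP _ (NB.get_mem i P) T' (inB_compl h2 h1))
  | .sg n g, M, h => by
    intro T hT
    have h1 : cond (Nat.beq (Nat.land M (Nat.xor FF (bxOf n))) 0) (inS S n g) false = true := h
    cases h2 : Nat.beq (Nat.land M (Nat.xor FF (bxOf n))) 0 with
    | false => rw [h2] at h1; cases h1
    | true =>
      rw [h2, cond_true] at h1
      have h3 : InB (bxOf n) T := by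
        intro q s
        have h4 := inB_compl hT h2 q s
        have hc := cde_lt (T q s)
        have h5 : Nat.testBit (FF ^^^ (FF ^^^ bxOf n)) (16 * (3 * (q : ℕ) + s) + cde (T q s)) = true := h4
        rwa [← Nat.xor_assoc, Nat.xor_self, Nat.zero_xor] at h5
      rw [tbl_of_inB h3]
      exact inS_sound hS h1
  | .nd k m a b, M, h => by
    intro T hT
    have h1 : cond (a.chk P S (keepB k m M)) (b.chk P S (dropB k m M)) false = true := h
    cases h2 : a.chk P S (keepB k m M) with
    | false => rw [h2] at h1; cases h1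
    | true =>
      rw [h2, cond_true] at h1
      rcases split_inB (k := k) (m := m) hT with h3 | h3
      · exact Tr.good hP hS a _ h2 T h3
      · exact Tr.good hP hS b _ h1 T h3

end P913T
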