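import Pool.Agent.Lib.P913T.PCrt
import Pool.Agent.Lib.P913T.CChk

/-!
# Checking lists of certificates for tables with an open side
-/

set_option autoImplicit false

namespace P913T

/-- an entry: the code of a table, the certificates of its closed sides, and the certificate of the table -/
structure XE where
  n : ℕ
  L : Option QC
  R : Option QC
  P : PK

/-- the check of an entry -/
def XE.chk (e : XE) : Bool :=
  QC.chkO (mirT (dg e.n)) e.L && (QC.chkO (dg e.n) e.R &&
    e.P.chk (dg e.n) (QC.kO e.L) (QC.kO e.R) (e.L.map QC.re) (e.R.map QC.re))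

theorem XE.dec {e : XE} (h : e.chk = true) : DecT (tbl (dg e.n)) := by
  unfold XE.chk at h
  rw [Bool.and_eq_true, Bool.and_eq_true] at h
  exact decT_of_pk e.L e.R e.P h.1 h.2.1 h.2.2

/-- the check of a list of codes with a list of entries -/
def chkX : List ℕ → List XE → Bool
  | [], [] => true
  | n :: l, e :: m => Nat.beq n e.n && (e.chk && chkX l m)
  | _, _ => false

theorem chkX_sound : ∀ {l : List ℕ} {m : List XE}, chkX l m = true → ∀ n ∈ l, DecT (tbl (dg n))
  | [], [], _ => by simp
  | n :: l, e :: m, h => by
    unfold chkX at h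
    rw [Bool.and_eq_true, Bool.and_eq_true] at h
    have h1 : n = e.n := Nat.eq_of_beq_eq_true h.1
    intro k hk
    rcases List.mem_cons.1 hk with rfl | hk
    · rw [h1]
      exact XE.dec h.2.1
    · exact chkX_sound h.2.2 k hk
  | [], _ :: _, h => by simp [chkX] at h
  | _ :: _, [], h => by simp [chkX] at h

end P913T
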